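import Pool.Agent.Lib.MP_0f5a55_nt.II.D

open Complex MeasureTheory Set Filter Topology
open scoped Real ComplexConjugate

namespace II

/-- one term of FE -/
noncomputable def I02_t (a : ℕ → ℂ) (θ ε x : ℝ) (n : ℕ) : ℂ :=
  a (n + 1) * exp (-(2 * π * θ * ((n : ℂ) + 1) * x * om ε))

theorem I02_FE (a : ℕ → ℂ) (θ ε x : ℝ) : FE a θ ε x = ∑' n : ℕ, I02_t a θ ε x n := rfl

theorem I02_om_re (ε : ℝ) : (om ε).re = Real.sin ε := by
  rw [om_eq, add_re, ofReal_re, re_ofReal_mul, I_re, mul_zero, add_zero]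

theorem I02_exp_norm (θ ε x : ℝ) (n : ℕ) :
    ‖exp (-(2 * π * θ * ((n : ℂ) + 1) * x * om ε))‖ =
      Real.exp (-(2 * π * θ * Real.sin ε * ((n : ℝ) + 1) * x)) := by
  have h : (2 * π * θ * ((n : ℂ) + 1) * x * om ε) = ((2 * π * θ * ((n : ℝ) + 1) * x : ℝ) : ℂ) * om ε := by
    push_cast
    ring
  rw [norm_exp, h, neg_re, re_ofReal_mul, I02_om_re]
  congr 1
  ring

theorem I02_t_norm {a : ℕ → ℂ} (ha : ∀ n : ℕ, ‖a n‖ ≤ n) (θ ε x : ℝ) (n : ℕ) :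
    ‖I02_t a θ ε x n‖ ≤ ((n : ℝ) + 1) * Real.exp (-(2 * π * θ * Real.sin ε * ((n : ℝ) + 1) * x)) := by
  unfold I02_t
  rw [norm_mul, I02_exp_norm]
  have := ha (n + 1)
  push_cast at this
  exact mul_le_mul_of_nonneg_right this (Real.exp_nonneg _)

/-- summability of (n+1) exp(-r(n+1)) -/
theorem I02_sum {r : ℝ} (hr : 0 < r) : Summable fun n : ℕ => ((n : ℝ) + 1) * Real.exp (-(r * ((n : ℝ) + 1))) := by
  have h := Real.summable_pow_mul_exp_neg_nat_mul 1 hr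
  have h2 := (summable_nat_add_iff 1).2 h
  refine h2.congr fun n => ?_
  push_cast
  rw [pow_one]
  congr 2
  ring

theorem I02_sin {ε : ℝ} (h0 : 0 < ε) (he : ε ≤ 1 / 2) : 0 < Real.sin ε := TT.sin_pos' h0 he

/-- decay factor -/
theorem I02_split {c x : ℝ} (hc : 0 < c) {x0 : ℝ} (hx0 : 0 < x0) (hx : x0 ≤ x) (n : ℕ) :
    ((n : ℝ) + 1) * Real.exp (-(c * ((n : ℝ) + 1) * x)) ≤
      (((n : ℝ) + 1) * Real.exp (-(c * x0 / 2 * ((n : ℝ) + 1)))) * Real.exp (-(c * x / 2)) := by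
  have hn : (0 : ℝ) ≤ n := n.cast_nonneg
  have key : (((n : ℝ) + 1) * Real.exp (-(c * x0 / 2 * ((n : ℝ) + 1)))) * Real.exp (-(c * x / 2)) =
      ((n : ℝ) + 1) * Real.exp (-(c * x0 / 2 * ((n : ℝ) + 1)) + -(c * x / 2)) := by
    rw [mul_assoc, ← Real.exp_add]
  rw [key]
  refine mul_le_mul_of_nonneg_left (Real.exp_le_exp.mpr ?_) (by linarith)
  have h1 : c * x0 / 2 * ((n : ℝ) + 1) ≤ c * x / 2 * ((n : ℝ) + 1) :=
    mul_le_mul_of_nonneg_right (by nlinarith) (by linarith)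
  have h2 : c * x / 2 * 1 ≤ c * x / 2 * ((n : ℝ) + 1) :=
    mul_le_mul_of_nonneg_left (by linarith) (by have := hx0.trans_le hx; positivity)
  have h3 : c * ((n : ℝ) + 1) * x = c * x / 2 * ((n : ℝ) + 1) + c * x / 2 * ((n : ℝ) + 1) := by ring
  linarith

theorem I02_t_summable {a : ℕ → ℂ} (ha : ∀ n : ℕ, ‖a n‖ ≤ n) {θ ε x : ℝ} (h1 : 0 < θ) (h0 : 0 < ε)
    (he : ε ≤ 1 / 2) (hx : 0 < x) : Summable fun n => ‖I02_t a θ ε x n‖ := by
  have hs := I02_sin h0 he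
  refine Summable.of_nonneg_of_le (fun n => norm_nonneg _) (fun n => I02_t_norm ha θ ε x n) ?_
  have := I02_sum (r := 2 * π * θ * Real.sin ε * x) (by positivity)
  refine this.congr fun n => ?_
  congr 2
  ring

/-- bound for FE -/
theorem I02_bound {a : ℕ → ℂ} (ha : ∀ n : ℕ, ‖a n‖ ≤ n) {θ ε : ℝ} (h1 : 0 < θ) (h0 : 0 < ε)
    (he : ε ≤ 1 / 2) {x0 : ℝ} (hx0 : 0 < x0) :
    ∃ S : ℝ, 0 ≤ S ∧ ∀ x : ℝ, x0 ≤ x → ‖FE a θ ε x‖ ≤ S * Real.exp (-(π * θ * Real.sin ε * x)) := by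
  have hs := I02_sin h0 he
  have hc : 0 < 2 * π * θ * Real.sin ε := by positivity
  have hsum := I02_sum (r := 2 * π * θ * Real.sin ε * x0 / 2) (by positivity)
  refine ⟨∑' n : ℕ, ((n : ℝ) + 1) * Real.exp (-(2 * π * θ * Real.sin ε * x0 / 2 * ((n : ℝ) + 1))),
    tsum_nonneg fun n => by positivity, fun x hx => ?_⟩
  have hx' : 0 < x := hx0.trans_le hx
  rw [I02_FE, ← tsum_mul_right]
  refine tsum_of_norm_bounded (hsum.mul_right _).hasSum fun n => ?_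
  refine (I02_t_norm ha θ ε x n).trans ?_
  have h := I02_split hc hx0 hx n
  have h2 : 2 * π * θ * Real.sin ε * x / 2 = π * θ * Real.sin ε * x := by ring
  rw [h2] at h
  exact h

theorem I02_contAt {a : ℕ → ℂ} (ha : ∀ n : ℕ, ‖a n‖ ≤ n) {θ ε : ℝ} (h1 : 0 < θ) (h0 : 0 < ε)
    (he : ε ≤ 1 / 2) {x : ℝ} (hx : 0 < x) : ContinuousAt (FE a θ ε) x := by
  have hs := I02_sin h0 he
  have hc : 0 < 2 * π * θ * Real.sin ε := by positivity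
  have hsum := I02_sum (r := 2 * π * θ * Real.sin ε * (x / 2) / 2) (by positivity)
  have hcont : ContinuousOn (fun y : ℝ => ∑' n : ℕ, I02_t a θ ε y n) (Ici (x / 2)) := by
    refine continuousOn_tsum (fun n => ?_) hsum fun n y hy => ?_
    · unfold I02_t
      fun_prop
    · refine (I02_t_norm ha θ ε y n).trans ((I02_split hc (half_pos hx) hy n).trans ?_)
      refine mul_le_of_le_one_right (by positivity) ?_
      rw [Real.exp_le_one_iff]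
      have : 0 < y := (half_pos hx).trans_le hy
      have : 0 ≤ 2 * π * θ * Real.sin ε * y / 2 := by positivity
      linarith
  have h2 : FE a θ ε = fun y : ℝ => ∑' n : ℕ, I02_t a θ ε y n := rfl
  rw [h2]
  exact hcont.continuousAt (Ici_mem_nhds (by linarith))

theorem I02_cont {a : ℕ → ℂ} (ha : ∀ n : ℕ, ‖a n‖ ≤ n) {θ ε : ℝ} (h1 : 0 < θ) (h0 : 0 < ε)
    (he : ε ≤ 1 / 2) : Continuous fun u : ℝ => FE a θ ε (Real.exp u) := by
  refine continuous_iff_continuousAt.2 fun u => ?_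
  exact ContinuousAt.comp (f := Real.exp) (g := FE a θ ε) (I02_contAt ha h1 h0 he (Real.exp_pos u))
    Real.continuous_exp.continuousAt

/-- the integrand of BK -/
noncomputable def I02_F (a b : ℕ → ℂ) (θ1 θ2 ε : ℝ) (k : ℕ) (u : ℝ) : ℂ :=
  ((TT.phi (u - k) * Real.exp u : ℝ) : ℂ) * FE a θ1 ε (Real.exp u) * conj (FE b θ2 ε (Real.exp u))

theorem I02_phi_zero {k : ℕ} {u : ℝ} (hu : u ∉ Icc ((k : ℝ) - 1) (k + 2)) : TT.phi (u - k) = 0 := by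
  rw [Set.mem_Icc, not_and_or, not_le, not_le] at hu
  rcases hu with h | h
  · exact TT.phi_zero_left (by linarith)
  · exact TT.phi_zero_right (by linarith)

theorem I02_F_int {θ1 θ2 ε : ℝ} (h1 : 0 < θ1) (h2 : 0 < θ2) (h0 : 0 < ε) (he : ε ≤ 1 / 2) {a b : ℕ → ℂ}
    (ha : ∀ n : ℕ, ‖a n‖ ≤ n) (hb : ∀ n : ℕ, ‖b n‖ ≤ n) (k : ℕ) : Integrable (I02_F a b θ1 θ2 ε k) := by
  refine Continuous.integrable_of_hasCompactSupport ?_ ?_
  · unfold I02_F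
    have c1 := I02_cont ha h1 h0 he
    have c2 := I02_cont hb h2 h0 he
    have c3 : Continuous fun u : ℝ => ((TT.phi (u - k) * Real.exp u : ℝ) : ℂ) :=
      continuous_ofReal.comp ((TT.phi_cont.comp (continuous_id.sub continuous_const)).mul Real.continuous_exp)
    exact (c3.mul c1).mul (continuous_conj.comp c2)
  · refine HasCompactSupport.intro (isCompact_Icc (a := (k : ℝ) - 1) (b := k + 2)) (fun u hu => ?_)
    unfold I02_F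
    rw [I02_phi_zero hu, zero_mul, ofReal_zero, zero_mul, zero_mul]

theorem I02_BK (a b : ℕ → ℂ) (θ1 θ2 ε : ℝ) (k : ℕ) : BK a b θ1 θ2 ε k = ∫ u : ℝ, I02_F a b θ1 θ2 ε k u := rfl

/-- exponents -/
theorem I02_exp_zz (θ1 θ2 ε : ℝ) (k : ℕ) (n m : ℕ) (v : ℝ) :
    exp (-(2 * π * θ1 * ((n : ℂ) + 1) * ((Real.exp (v + k) : ℝ) : ℂ) * om ε)) *
      conj (exp (-(2 * π * θ2 * ((m : ℂ) + 1) * ((Real.exp (v + k) : ℝ) : ℂ) * om ε))) =
    exp (-(2 * π * ((Real.exp v : ℝ) : ℂ) * (((Real.exp k : ℝ) : ℂ) * zz θ1 θ2 ε (n + 1) (m + 1)))) := by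
  rw [← exp_conj, ← Complex.exp_add]
  congr 1
  have h2 : (conj (2 : ℂ)) = 2 := map_ofNat _ 2
  have h3 : conj ((m : ℂ)) = (m : ℂ) := map_natCast _ m
  simp only [map_neg, map_mul, map_add, map_one, conj_ofReal, h2, h3]
  rw [Real.exp_add]
  unfold zz
  push_cast
  ring

theorem I02_zz_re {θ1 θ2 ε : ℝ} (k n m : ℕ) :
    (((Real.exp k : ℝ) : ℂ) * zz θ1 θ2 ε (n + 1) (m + 1)).re =
      Real.exp k * (Real.sin ε * (θ1 * ((n : ℝ) + 1) + θ2 * ((m : ℝ) + 1))) := by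
  rw [re_ofReal_mul, zz_re]
  push_cast
  ring

/-- term of the double series -/
noncomputable def I02_g (a b : ℕ → ℂ) (θ1 θ2 ε : ℝ) (k : ℕ) (x : ℕ × ℕ) (v : ℝ) : ℂ :=
  (a (x.1 + 1) * conj (b (x.2 + 1)) * ((Real.exp k : ℝ) : ℂ)) *
    (((TT.phi v * Real.exp v : ℝ) : ℂ) * exp (-(2 * π * ((Real.exp v : ℝ) : ℂ) *
      (((Real.exp k : ℝ) : ℂ) * zz θ1 θ2 ε (x.1 + 1) (x.2 + 1)))))

theorem I02_g_sum {θ1 θ2 ε : ℝ} (h1 : 0 < θ1) (h2 : 0 < θ2) (h0 : 0 < ε) (he : ε ≤ 1 / 2) {a b : ℕ → ℂ}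
    (ha : ∀ n : ℕ, ‖a n‖ ≤ n) (hb : ∀ n : ℕ, ‖b n‖ ≤ n) (k : ℕ) (v : ℝ) :
    HasSum (fun x : ℕ × ℕ => I02_g a b θ1 θ2 ε k x v) (I02_F a b θ1 θ2 ε k (v + k)) := by
  have hx : 0 < Real.exp (v + k) := Real.exp_pos _
  have s1 := I02_t_summable ha h1 h0 he hx
  have s2 := I02_t_summable hb h2 h0 he hx
  have s2' : Summable fun m => ‖conj (I02_t b θ2 ε (Real.exp (v + k)) m)‖ := by
    refine s2.congr fun m => ?_
    rw [RCLike.norm_conj]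
  have hprod := tsum_mul_tsum_of_summable_norm s1 s2'
  have hsm := summable_mul_of_summable_norm s1 s2'
  have hs := hsm.hasSum
  rw [← hprod] at hs
  have hF : I02_F a b θ1 θ2 ε k (v + k) = ((TT.phi v * Real.exp (v + k) : ℝ) : ℂ) *
      ((∑' n, I02_t a θ1 ε (Real.exp (v + k)) n) * ∑' m, conj (I02_t b θ2 ε (Real.exp (v + k)) m)) := by
    unfold I02_F
    rw [add_sub_cancel_right, I02_FE, I02_FE, conj_tsum, mul_assoc]
  have key : (fun x : ℕ × ℕ => I02_g a b θ1 θ2 ε k x v) = fun x : ℕ × ℕ =>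
      ((TT.phi v * Real.exp (v + k) : ℝ) : ℂ) * (I02_t a θ1 ε (Real.exp (v + k)) x.1 *
        conj (I02_t b θ2 ε (Real.exp (v + k)) x.2)) := by
    funext x
    unfold I02_g
    rw [← I02_exp_zz]
    unfold I02_t
    rw [map_mul, Real.exp_add v k]
    push_cast
    ring
  rw [hF, key]
  exact hs.mul_left _

theorem I02_g_cont (a b : ℕ → ℂ) (θ1 θ2 ε : ℝ) (k : ℕ) (x : ℕ × ℕ) :
    Continuous (I02_g a b θ1 θ2 ε k x) := by
  unfold I02_g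
  have c3 : Continuous fun v : ℝ => ((TT.phi v * Real.exp v : ℝ) : ℂ) :=
    continuous_ofReal.comp (TT.phi_cont.mul Real.continuous_exp)
  have c4 : Continuous fun v : ℝ => exp (-(2 * π * ((Real.exp v : ℝ) : ℂ) *
      (((Real.exp k : ℝ) : ℂ) * zz θ1 θ2 ε (x.1 + 1) (x.2 + 1)))) := by
    fun_prop
  exact continuous_const.mul (c3.mul c4)

theorem I02_g_zero (a b : ℕ → ℂ) (θ1 θ2 ε : ℝ) (k : ℕ) (x : ℕ × ℕ) {v : ℝ}
    (hv : v ∉ Icc (-1 : ℝ) 2) : I02_g a b θ1 θ2 ε k x v = 0 := by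
  rw [Set.mem_Icc, not_and_or, not_le, not_le] at hv
  unfold I02_g
  rcases hv with h | h
  · rw [TT.phi_zero_left h.le, zero_mul, ofReal_zero, zero_mul, mul_zero]
  · rw [TT.phi_zero_right h.le, zero_mul, ofReal_zero, zero_mul, mul_zero]

theorem I02_g_int (a b : ℕ → ℂ) (θ1 θ2 ε : ℝ) (k : ℕ) (x : ℕ × ℕ) :
    Integrable (I02_g a b θ1 θ2 ε k x) :=
  Continuous.integrable_of_hasCompactSupport (I02_g_cont a b θ1 θ2 ε k x)
    (HasCompactSupport.intro (isCompact_Icc (a := (-1 : ℝ)) (b := 2)) fun _ hv => I02_g_zero a b θ1 θ2 ε k x hv)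

theorem I02_g_integral (a b : ℕ → ℂ) (θ1 θ2 ε : ℝ) (k : ℕ) (x : ℕ × ℕ) :
    ∫ v : ℝ, I02_g a b θ1 θ2 ε k x v = (a (x.1 + 1) * conj (b (x.2 + 1)) * ((Real.exp k : ℝ) : ℂ)) *
      Xi (((Real.exp k : ℝ) : ℂ) * zz θ1 θ2 ε (x.1 + 1) (x.2 + 1)) := by
  unfold I02_g Xi
  rw [integral_const_mul]

theorem I02_g_norm {θ1 θ2 ε : ℝ} (h1 : 0 < θ1) (h2 : 0 < θ2) (h0 : 0 < ε) (he : ε ≤ 1 / 2) {a b : ℕ → ℂ}
    (ha : ∀ n : ℕ, ‖a n‖ ≤ n) (hb : ∀ n : ℕ, ‖b n‖ ≤ n) (k : ℕ) (x : ℕ × ℕ) {v : ℝ}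
    (hv : v ∈ Icc (-1 : ℝ) 2) :
    ‖I02_g a b θ1 θ2 ε k x v‖ ≤ Real.exp k * Real.exp 2 *
      ((((x.1 : ℝ) + 1) * Real.exp (-(2 * π * Real.exp (-1) * Real.exp k * Real.sin ε * θ1 * ((x.1 : ℝ) + 1)))) *
      (((x.2 : ℝ) + 1) * Real.exp (-(2 * π * Real.exp (-1) * Real.exp k * Real.sin ε * θ2 * ((x.2 : ℝ) + 1))))) := by
  have hs := I02_sin h0 he
  unfold I02_g
  have hE : ‖exp (-(2 * π * ((Real.exp v : ℝ) : ℂ) *
      (((Real.exp k : ℝ) : ℂ) * zz θ1 θ2 ε (x.1 + 1) (x.2 + 1))))‖ ≤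
      Real.exp (-(2 * π * Real.exp (-1) * Real.exp k * Real.sin ε * θ1 * ((x.1 : ℝ) + 1))) *
      Real.exp (-(2 * π * Real.exp (-1) * Real.exp k * Real.sin ε * θ2 * ((x.2 : ℝ) + 1))) := by
    have h : (2 * π * ((Real.exp v : ℝ) : ℂ) * (((Real.exp k : ℝ) : ℂ) * zz θ1 θ2 ε (x.1 + 1) (x.2 + 1))) =
        ((2 * π * Real.exp v : ℝ) : ℂ) * (((Real.exp k : ℝ) : ℂ) * zz θ1 θ2 ε (x.1 + 1) (x.2 + 1)) := by
      push_cast
      ring
    rw [norm_exp, h, neg_re, re_ofReal_mul, I02_zz_re, ← Real.exp_add]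
    apply Real.exp_le_exp.mpr
    have h3 : Real.exp (-1) ≤ Real.exp v := Real.exp_le_exp.mpr hv.1
    have h4 : 0 ≤ 2 * π * (Real.exp k * (Real.sin ε * (θ1 * ((x.1 : ℝ) + 1) + θ2 * ((x.2 : ℝ) + 1)))) := by
      positivity
    have h5 := mul_le_mul_of_nonneg_left h3 h4
    linarith
  have ha' := ha (x.1 + 1)
  have hb' := hb (x.2 + 1)
  push_cast at ha' hb'
  rw [norm_mul, norm_mul, norm_mul, norm_mul, RCLike.norm_conj, norm_real, norm_real,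
    Real.norm_of_nonneg (Real.exp_nonneg _),
    Real.norm_of_nonneg (mul_nonneg (TT.phi_nonneg v) (Real.exp_nonneg v))]
  have hp : TT.phi v * Real.exp v ≤ Real.exp 2 := by
    calc TT.phi v * Real.exp v ≤ 1 * Real.exp 2 :=
          mul_le_mul (TT.phi_le_one v) (Real.exp_le_exp.mpr hv.2) (Real.exp_nonneg _) zero_le_one
      _ = _ := one_mul _
  have hab : ‖a (x.1 + 1)‖ * ‖b (x.2 + 1)‖ ≤ ((x.1 : ℝ) + 1) * ((x.2 : ℝ) + 1) :=
    mul_le_mul ha' hb' (norm_nonneg _) (by positivity)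
  have hpE := mul_le_mul hp hE (norm_nonneg _) (Real.exp_nonneg _)
  have hfin := mul_le_mul (mul_le_mul_of_nonneg_right hab (Real.exp_nonneg (k : ℝ))) hpE
    (mul_nonneg (mul_nonneg (TT.phi_nonneg v) (Real.exp_nonneg v)) (norm_nonneg _)) (by positivity)
  refine hfin.trans (le_of_eq ?_)
  ring

theorem I02_g_summable {θ1 θ2 ε : ℝ} (h1 : 0 < θ1) (h2 : 0 < θ2) (h0 : 0 < ε) (he : ε ≤ 1 / 2) {a b : ℕ → ℂ}
    (ha : ∀ n : ℕ, ‖a n‖ ≤ n) (hb : ∀ n : ℕ, ‖b n‖ ≤ n) (k : ℕ) :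
    Summable fun x : ℕ × ℕ => ∫ v : ℝ, ‖I02_g a b θ1 θ2 ε k x v‖ := by
  have hs := I02_sin h0 he
  have s1 := I02_sum (r := 2 * π * Real.exp (-1) * Real.exp k * Real.sin ε * θ1) (by positivity)
  have s2 := I02_sum (r := 2 * π * Real.exp (-1) * Real.exp k * Real.sin ε * θ2) (by positivity)
  have s3 := (s1.mul_of_nonneg s2 (fun n => by positivity) (fun n => by positivity)).mul_left
    (Real.exp k * Real.exp 2 * 3)
  refine Summable.of_nonneg_of_le (fun x => integral_nonneg fun v => norm_nonneg _) (fun x => ?_) s3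
  have h3 : ∫ v : ℝ, ‖I02_g a b θ1 θ2 ε k x v‖ = ∫ v in Icc (-1 : ℝ) 2, ‖I02_g a b θ1 θ2 ε k x v‖ := by
    refine (setIntegral_eq_integral_of_forall_compl_eq_zero (fun v hv => ?_)).symm
    rw [I02_g_zero a b θ1 θ2 ε k x hv, norm_zero]
  rw [h3]
  have h4 := norm_setIntegral_le_of_norm_le_const (μ := volume) (s := Icc (-1 : ℝ) 2)
    (f := fun v => ‖I02_g a b θ1 θ2 ε k x v‖) (by simp) (fun v hv => by
      rw [norm_norm]
      exact I02_g_norm h1 h2 h0 he ha hb k x hv)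
  refine (le_trans (le_abs_self _) h4).trans (le_of_eq ?_)
  rw [Measure.real, Real.volume_Icc, ENNReal.toReal_ofReal (by norm_num)]
  ring

theorem I02_BK_hasSum {θ1 θ2 ε : ℝ} (h1 : 0 < θ1) (h2 : 0 < θ2) (h0 : 0 < ε) (he : ε ≤ 1 / 2) {a b : ℕ → ℂ}
    (ha : ∀ n : ℕ, ‖a n‖ ≤ n) (hb : ∀ n : ℕ, ‖b n‖ ≤ n) (k : ℕ) :
    HasSum (fun x : ℕ × ℕ => ∫ v : ℝ, I02_g a b θ1 θ2 ε k x v) (BK a b θ1 θ2 ε k) := by
  have h := hasSum_integral_of_summable_integral_norm (μ := (volume : Measure ℝ))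
    (fun x => I02_g_int a b θ1 θ2 ε k x) (I02_g_summable h1 h2 h0 he ha hb k)
  have h3 : (∫ v : ℝ, ∑' x : ℕ × ℕ, I02_g a b θ1 θ2 ε k x v) = BK a b θ1 θ2 ε k := by
    rw [I02_BK, ← integral_add_right_eq_self (fun u : ℝ => I02_F a b θ1 θ2 ε k u) (k : ℝ)]
    refine integral_congr_ae (Eventually.of_forall fun v => ?_)
    exact (I02_g_sum h1 h2 h0 he ha hb k v).tsum_eq
  rw [h3] at h
  exact h

/-- Row I02. Expansion of a piece. -/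
theorem BK_le {θ1 θ2 ε : ℝ} (h1 : 0 < θ1) (h2 : 0 < θ2) (h0 : 0 < ε) (he : ε ≤ 1 / 2) {a b : ℕ → ℂ}
    (ha : ∀ n : ℕ, ‖a n‖ ≤ n) (hb : ∀ n : ℕ, ‖b n‖ ≤ n) (k : ℕ) :
    Summable (fun x : ℕ × ℕ => ‖a (x.1 + 1)‖ * ‖b (x.2 + 1)‖ *
      ‖Xi (((Real.exp k : ℝ) : ℂ) * zz θ1 θ2 ε (x.1 + 1) (x.2 + 1))‖) ∧
    ‖BK a b θ1 θ2 ε k‖ ≤ Real.exp k * ∑' x : ℕ × ℕ, ‖a (x.1 + 1)‖ * ‖b (x.2 + 1)‖ *
      ‖Xi (((Real.exp k : ℝ) : ℂ) * zz θ1 θ2 ε (x.1 + 1) (x.2 + 1))‖ := by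
  have hn : ∀ x : ℕ × ℕ, ‖∫ v : ℝ, I02_g a b θ1 θ2 ε k x v‖ = Real.exp k * (‖a (x.1 + 1)‖ * ‖b (x.2 + 1)‖ *
      ‖Xi (((Real.exp k : ℝ) : ℂ) * zz θ1 θ2 ε (x.1 + 1) (x.2 + 1))‖) := by
    intro x
    rw [I02_g_integral, norm_mul, norm_mul, norm_mul, RCLike.norm_conj, norm_real,
      Real.norm_of_nonneg (Real.exp_nonneg _)]
    ring
  have hs1 : Summable fun x : ℕ × ℕ => ‖∫ v : ℝ, I02_g a b θ1 θ2 ε k x v‖ :=
    Summable.of_nonneg_of_le (fun x => norm_nonneg _) (fun x => norm_integral_le_integral_norm _)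
      (I02_g_summable h1 h2 h0 he ha hb k)
  have hs2 : Summable (fun x : ℕ × ℕ => Real.exp k * (‖a (x.1 + 1)‖ * ‖b (x.2 + 1)‖ *
      ‖Xi (((Real.exp k : ℝ) : ℂ) * zz θ1 θ2 ε (x.1 + 1) (x.2 + 1))‖)) := hs1.congr hn
  have hs3 : Summable (fun x : ℕ × ℕ => ‖a (x.1 + 1)‖ * ‖b (x.2 + 1)‖ *
      ‖Xi (((Real.exp k : ℝ) : ℂ) * zz θ1 θ2 ε (x.1 + 1) (x.2 + 1))‖) :=
    (summable_mul_left_iff (Real.exp_pos (k : ℝ)).ne').1 hs2
  refine ⟨hs3, ?_⟩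
  rw [← (I02_BK_hasSum h1 h2 h0 he ha hb k).tsum_eq, ← tsum_mul_left]
  refine (norm_tsum_le_tsum_norm hs1).trans (le_of_eq ?_)
  exact tsum_congr hn

theorem I02_F_norm {θ1 θ2 ε : ℝ} (h1 : 0 < θ1) (h2 : 0 < θ2) (h0 : 0 < ε) (he : ε ≤ 1 / 2) {a b : ℕ → ℂ}
    (ha : ∀ n : ℕ, ‖a n‖ ≤ n) (hb : ∀ n : ℕ, ‖b n‖ ≤ n) :
    ∃ K : ℝ, 0 ≤ K ∧ ∀ (k : ℕ) (u : ℝ), u ∈ Icc ((k : ℝ) - 1) (k + 2) →
      ‖I02_F a b θ1 θ2 ε k u‖ ≤ K * Real.exp (-(k : ℝ)) := by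
  have hs := I02_sin h0 he
  obtain ⟨S1, hS1, B1⟩ := I02_bound ha h1 h0 he (Real.exp_pos (-1))
  obtain ⟨S2, hS2, B2⟩ := I02_bound hb h2 h0 he (Real.exp_pos (-1))
  obtain ⟨c, hc⟩ : ∃ c : ℝ, c = π * θ1 * Real.sin ε := ⟨_, rfl⟩
  have hc0 : 0 < c := by rw [hc]; positivity
  refine ⟨Real.exp 2 * S1 * S2 * (2 / (c * Real.exp (-1)) ^ 2), by positivity, fun k u hu => ?_⟩
  have hk : (0 : ℝ) ≤ k := k.cast_nonneg
  have hu1 : Real.exp (-1) ≤ Real.exp u := Real.exp_le_exp.mpr (by linarith [hu.1])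
  have b1 := B1 _ hu1
  have b2 := B2 _ hu1
  unfold I02_F
  rw [norm_mul, norm_mul, RCLike.norm_conj, norm_real,
    Real.norm_of_nonneg (mul_nonneg (TT.phi_nonneg _) (Real.exp_nonneg u))]
  have hp : TT.phi (u - k) * Real.exp u ≤ Real.exp k * Real.exp 2 := by
    rw [← Real.exp_add]
    calc TT.phi (u - k) * Real.exp u ≤ 1 * Real.exp (k + 2) :=
          mul_le_mul (TT.phi_le_one _) (Real.exp_le_exp.mpr hu.2) (Real.exp_nonneg _) zero_le_one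
      _ = _ := one_mul _
  have b2' : ‖FE b θ2 ε (Real.exp u)‖ ≤ S2 := by
    refine b2.trans (mul_le_of_le_one_right hS2 ?_)
    rw [Real.exp_le_one_iff]
    have : 0 ≤ π * θ2 * Real.sin ε * Real.exp u := by positivity
    linarith
  have hy : ∀ y : ℝ, 0 < y → Real.exp (-y) ≤ 2 / y ^ 2 := by
    intro y hy
    rw [Real.exp_neg, inv_eq_one_div, div_le_div_iff₀ (Real.exp_pos _) (by positivity)]
    have := Real.quadratic_le_exp_of_nonneg hy.le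
    nlinarith
  have b1' : ‖FE a θ1 ε (Real.exp u)‖ ≤ S1 * (2 / (c * Real.exp (-1)) ^ 2 * Real.exp (-(2 * (k : ℝ)))) := by
    refine b1.trans (mul_le_mul_of_nonneg_left ?_ hS1)
    rw [← hc]
    have h3 : c * (Real.exp (-1) * Real.exp k) ≤ c * Real.exp u := by
      rw [← Real.exp_add]
      exact mul_le_mul_of_nonneg_left (Real.exp_le_exp.mpr (by linarith [hu.1])) hc0.le
    calc Real.exp (-(c * Real.exp u)) ≤ Real.exp (-(c * (Real.exp (-1) * Real.exp k))) :=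
          Real.exp_le_exp.mpr (by linarith)
      _ ≤ 2 / (c * (Real.exp (-1) * Real.exp k)) ^ 2 := hy _ (by positivity)
      _ = _ := by
          have h4 : Real.exp (-(2 * (k : ℝ))) = (Real.exp k ^ 2)⁻¹ := by
            rw [Real.exp_neg, ← Real.exp_nat_mul]
            push_cast
            rfl
          rw [h4, ← mul_assoc, mul_pow, div_mul_eq_div_div, div_eq_mul_inv (2 / (c * Real.exp (-1)) ^ 2)]
  have hfin := mul_le_mul (mul_le_mul hp b1' (norm_nonneg _) (by positivity)) b2' (norm_nonneg _)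
    (by positivity)
  refine hfin.trans (le_of_eq ?_)
  have h5 : Real.exp (k : ℝ) * Real.exp (-(2 * (k : ℝ))) = Real.exp (-(k : ℝ)) := by
    rw [← Real.exp_add]
    congr 1
    ring
  rw [← h5]
  ring

theorem I02_F_summable {θ1 θ2 ε : ℝ} (h1 : 0 < θ1) (h2 : 0 < θ2) (h0 : 0 < ε) (he : ε ≤ 1 / 2) {a b : ℕ → ℂ}
    (ha : ∀ n : ℕ, ‖a n‖ ≤ n) (hb : ∀ n : ℕ, ‖b n‖ ≤ n) :
    Summable fun k : ℕ => ∫ u : ℝ, ‖I02_F a b θ1 θ2 ε k u‖ := by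
  obtain ⟨K, hK, hB⟩ := I02_F_norm h1 h2 h0 he ha hb
  have s3 : Summable fun k : ℕ => K * Real.exp (-(k : ℝ)) * 3 := by
    have := Real.summable_exp_neg_nat
    exact (this.mul_left K).mul_right 3
  refine Summable.of_nonneg_of_le (fun k => integral_nonneg fun v => norm_nonneg _) (fun k => ?_) s3
  have h3 : ∫ u : ℝ, ‖I02_F a b θ1 θ2 ε k u‖ =
      ∫ u in Icc ((k : ℝ) - 1) (k + 2), ‖I02_F a b θ1 θ2 ε k u‖ := by
    refine (setIntegral_eq_integral_of_forall_compl_eq_zero (fun v hv => ?_)).symm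
    unfold I02_F
    rw [I02_phi_zero hv, zero_mul, ofReal_zero, zero_mul, zero_mul, norm_zero]
  rw [h3]
  have h4 := norm_setIntegral_le_of_norm_le_const (μ := volume) (s := Icc ((k : ℝ) - 1) (k + 2))
    (f := fun v => ‖I02_F a b θ1 θ2 ε k v‖) (by simp) (fun v hv => by
      rw [norm_norm]
      exact hB k v hv)
  refine (le_trans (le_abs_self _) h4).trans (le_of_eq ?_)
  rw [Measure.real, Real.volume_Icc, ENNReal.toReal_ofReal (by linarith)]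
  ring

/-- sum of the pieces -/
theorem BK_sum {θ1 θ2 ε : ℝ} (h1 : 0 < θ1) (h2 : 0 < θ2) (h0 : 0 < ε) (he : ε ≤ 1 / 2) {a b : ℕ → ℂ}
    (ha : ∀ n : ℕ, ‖a n‖ ≤ n) (hb : ∀ n : ℕ, ‖b n‖ ≤ n) :
    HasSum (fun k : ℕ => BK a b θ1 θ2 ε k) (∫ u : ℝ, ((TT.tau u * Real.exp u : ℝ) : ℂ) *
      FE a θ1 ε (Real.exp u) * conj (FE b θ2 ε (Real.exp u))) := by
  have h := hasSum_integral_of_summable_integral_norm (μ := (volume : Measure ℝ))
    (fun k => I02_F_int h1 h2 h0 he ha hb k) (I02_F_summable h1 h2 h0 he ha hb)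
  have h3 : (∫ u : ℝ, ∑' k : ℕ, I02_F a b θ1 θ2 ε k u) = ∫ u : ℝ, ((TT.tau u * Real.exp u : ℝ) : ℂ) *
      FE a θ1 ε (Real.exp u) * conj (FE b θ2 ε (Real.exp u)) := by
    refine integral_congr_ae (Eventually.of_forall fun u => ?_)
    have h4 := Complex.hasSum_ofReal.2 ((TT.phi_hasSum u).mul_right (Real.exp u))
    have h5 := (h4.mul_right (FE a θ1 ε (Real.exp u))).mul_right (conj (FE b θ2 ε (Real.exp u)))
    exact h5.tsum_eq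
  rw [h3] at h
  exact h

theorem I02_FE_sub {a a' : ℕ → ℂ} (ha : ∀ n : ℕ, ‖a n‖ ≤ n) (ha' : ∀ n : ℕ, ‖a' n‖ ≤ n) {θ ε x : ℝ}
    (h1 : 0 < θ) (h0 : 0 < ε) (he : ε ≤ 1 / 2) (hx : 0 < x) :
    FE (fun n => a n - a' n) θ ε x = FE a θ ε x - FE a' θ ε x := by
  have s1 := (I02_t_summable ha h1 h0 he hx).of_norm
  have s2 := (I02_t_summable ha' h1 h0 he hx).of_norm
  rw [I02_FE, I02_FE, I02_FE, ← s1.tsum_sub s2]
  refine tsum_congr fun n => ?_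
  unfold I02_t
  ring

/-- linearity in the first coefficient -/
theorem BK_sub {θ1 θ2 ε : ℝ} (h1 : 0 < θ1) (h2 : 0 < θ2) (h0 : 0 < ε) (he : ε ≤ 1 / 2) {a a' b : ℕ → ℂ}
    (ha : ∀ n : ℕ, ‖a n‖ ≤ n) (ha' : ∀ n : ℕ, ‖a' n‖ ≤ n) (hb : ∀ n : ℕ, ‖b n‖ ≤ n) (k : ℕ) :
    BK a b θ1 θ2 ε k = BK (fun n => a n - a' n) b θ1 θ2 ε k + BK a' b θ1 θ2 ε k := by
  have i1 := I02_F_int h1 h2 h0 he ha hb k
  have i2 := I02_F_int h1 h2 h0 he ha' hb k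
  have h3 : BK (fun n => a n - a' n) b θ1 θ2 ε k = BK a b θ1 θ2 ε k - BK a' b θ1 θ2 ε k := by
    rw [I02_BK, I02_BK, I02_BK, ← integral_sub i1 i2]
    refine integral_congr_ae (Eventually.of_forall fun u => ?_)
    change I02_F (fun n => a n - a' n) b θ1 θ2 ε k u = I02_F a b θ1 θ2 ε k u - I02_F a' b θ1 θ2 ε k u
    unfold I02_F
    rw [I02_FE_sub ha ha' h1 h0 he (Real.exp_pos u)]
    ring
  rw [h3]
  ring

end II
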