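import Pool.Agent.Lib.MP_0f5a55_nt.II.D

open Complex MeasureTheory Set Filter Topology
open scoped Real ComplexConjugate

namespace II

private theorem I03_sumZ : Summable (fun k : ℤ => ((1 + |(k : ℝ)|) ^ 2)⁻¹) := by
  have h1 : Summable (fun n : ℕ => ((1 + (n : ℝ)) ^ 2)⁻¹) := by
    have h := (summable_nat_add_iff 1).2 (Real.summable_one_div_nat_pow.2 one_lt_two)
    refine h.congr fun n => ?_
    push_cast
    rw [one_div, add_comm]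
  refine Summable.of_nat_of_neg ?_ ?_
  · refine h1.congr fun n => ?_
    simp
  · refine h1.congr fun n => ?_
    simp

private theorem I03_row (y : ℝ) :
    Summable (fun m : ℕ => ((1 + |y - ((m : ℝ) + 1)|) ^ 2)⁻¹) ∧
    ∑' m : ℕ, ((1 + |y - ((m : ℝ) + 1)|) ^ 2)⁻¹ ≤ 4 * ∑' k : ℤ, ((1 + |(k : ℝ)|) ^ 2)⁻¹ := by
  have hZ := I03_sumZ
  have hZ4 : Summable (fun k : ℤ => 4 * ((1 + |(k : ℝ)|) ^ 2)⁻¹) := hZ.mul_left 4
  let e : ℕ → ℤ := fun m => (m : ℤ) + 1 - ⌊y⌋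
  have he : Function.Injective e := by
    intro a b hab
    simp only [e] at hab
    omega
  have hb : ∀ m : ℕ, ((1 + |y - ((m : ℝ) + 1)|) ^ 2)⁻¹ ≤ 4 * ((1 + |((e m : ℤ) : ℝ)|) ^ 2)⁻¹ := by
    intro m
    have h1 : |((e m : ℤ) : ℝ)| ≤ |y - ((m : ℝ) + 1)| + 1 := by
      have e1 : ((e m : ℤ) : ℝ) = (y - (⌊y⌋ : ℝ)) - (y - ((m : ℝ) + 1)) := by
        simp only [e]; push_cast; ring
      have e2 : |y - (⌊y⌋ : ℝ)| ≤ 1 := by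
        rw [abs_le]
        constructor
        · linarith [Int.floor_le y]
        · linarith [Int.lt_floor_add_one y]
      rw [e1]
      refine (abs_sub _ _).trans ?_
      linarith
    have h2 : (1 + |((e m : ℤ) : ℝ)|) ^ 2 ≤ 4 * (1 + |y - ((m : ℝ) + 1)|) ^ 2 := by
      have h3 : 0 ≤ |((e m : ℤ) : ℝ)| := abs_nonneg _
      have h4 : 0 ≤ |y - ((m : ℝ) + 1)| := abs_nonneg _
      nlinarith
    have h5 : 0 < (1 + |((e m : ℤ) : ℝ)|) ^ 2 := by positivity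
    have h6 : 0 < (1 + |y - ((m : ℝ) + 1)|) ^ 2 := by positivity
    rw [← div_eq_mul_inv, inv_eq_one_div, div_le_div_iff₀ h6 h5]
    linarith
  have hs : Summable (fun m : ℕ => ((1 + |y - ((m : ℝ) + 1)|) ^ 2)⁻¹) :=
    Summable.of_nonneg_of_le (fun m => by positivity) hb (hZ4.comp_injective he)
  refine ⟨hs, ?_⟩
  rw [← tsum_mul_left]
  exact hs.tsum_le_tsum_of_inj e he (fun c _ => by positivity) hb hZ4

/-- kernel rows -/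
private theorem I03_ker {θ1 θ2 : ℝ} (h2 : 0 < θ2) : ∃ C : ℝ, 0 < C ∧ ∀ y : ℝ,
    Summable (fun m : ℕ => ((1 + |θ1 * y - θ2 * ((m : ℝ) + 1)|) ^ 2)⁻¹) ∧
    ∑' m : ℕ, ((1 + |θ1 * y - θ2 * ((m : ℝ) + 1)|) ^ 2)⁻¹ ≤ C := by
  set c : ℝ := min 1 θ2 with hc
  have hc0 : 0 < c := lt_min one_pos h2
  have hc1 : c ≤ 1 := min_le_left _ _
  have hc2 : c ≤ θ2 := min_le_right _ _
  set Z : ℝ := ∑' k : ℤ, ((1 + |(k : ℝ)|) ^ 2)⁻¹ with hZ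
  have hZ0 : 0 ≤ Z := tsum_nonneg fun k => by positivity
  refine ⟨(c ^ 2)⁻¹ * (4 * Z) + 1, by positivity, ?_⟩
  intro y
  obtain ⟨s1, s2⟩ := I03_row (θ1 * y / θ2)
  have hb : ∀ m : ℕ, ((1 + |θ1 * y - θ2 * ((m : ℝ) + 1)|) ^ 2)⁻¹ ≤
      (c ^ 2)⁻¹ * ((1 + |θ1 * y / θ2 - ((m : ℝ) + 1)|) ^ 2)⁻¹ := by
    intro m
    have e1 : |θ1 * y - θ2 * ((m : ℝ) + 1)| = θ2 * |θ1 * y / θ2 - ((m : ℝ) + 1)| := by
      rw [← abs_of_pos h2, ← abs_mul, abs_of_pos h2]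
      congr 1
      field_simp
    have e2 : c * (1 + |θ1 * y / θ2 - ((m : ℝ) + 1)|) ≤ 1 + |θ1 * y - θ2 * ((m : ℝ) + 1)| := by
      rw [e1]
      have : 0 ≤ |θ1 * y / θ2 - ((m : ℝ) + 1)| := abs_nonneg _
      nlinarith
    rw [← mul_inv, ← mul_pow]
    exact inv_anti₀ (by positivity) (pow_le_pow_left₀ (by positivity) e2 2)
  have s3 := s1.mul_left (c ^ 2)⁻¹
  have s4 : Summable (fun m : ℕ => ((1 + |θ1 * y - θ2 * ((m : ℝ) + 1)|) ^ 2)⁻¹) :=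
    Summable.of_nonneg_of_le (fun m => by positivity) hb s3
  refine ⟨s4, ?_⟩
  refine (s4.tsum_le_tsum hb s3).trans ?_
  rw [tsum_mul_left]
  have : (c ^ 2)⁻¹ * ∑' m : ℕ, ((1 + |θ1 * y / θ2 - ((m : ℝ) + 1)|) ^ 2)⁻¹ ≤
      (c ^ 2)⁻¹ * (4 * Z) := mul_le_mul_of_nonneg_left s2 (by positivity)
  linarith

/-- Schur test, abstract -/
private theorem I03_schur {K : ℕ × ℕ → ℝ} {A B : ℕ → ℝ} {C1 C2 : ℝ} (hC1 : 0 ≤ C1) (hC2 : 0 ≤ C2)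
    (hK : ∀ x, 0 ≤ K x)
    (hA : ∀ n, 0 ≤ A n) (hB : ∀ n, 0 ≤ B n) (sA : Summable fun n => A n ^ 2)
    (sB : Summable fun n => B n ^ 2)
    (k1 : ∀ n, Summable (fun m => K (n, m)) ∧ ∑' m, K (n, m) ≤ C1)
    (k2 : ∀ m, Summable (fun n => K (n, m)) ∧ ∑' n, K (n, m) ≤ C2) :
    Summable (fun x : ℕ × ℕ => A x.1 * B x.2 * K x) ∧
    ∑' x : ℕ × ℕ, A x.1 * B x.2 * K x ≤
      √C1 * √C2 * (√(∑' n, A n ^ 2) * √(∑' n, B n ^ 2)) := by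
  have t1 : Summable (fun x : ℕ × ℕ => A x.1 ^ 2 * K x) ∧
      ∑' x : ℕ × ℕ, A x.1 ^ 2 * K x ≤ C1 * ∑' n, A n ^ 2 := by
    have e0 : ∀ n, ∑' m, A n ^ 2 * K (n, m) = A n ^ 2 * ∑' m, K (n, m) := fun n => tsum_mul_left
    have e1 : ∀ n, A n ^ 2 * ∑' m, K (n, m) ≤ C1 * A n ^ 2 := fun n => by
      rw [mul_comm C1]; exact mul_le_mul_of_nonneg_left (k1 n).2 (by positivity)
    have e2 : ∀ n, 0 ≤ A n ^ 2 * ∑' m, K (n, m) := fun n =>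
      mul_nonneg (by positivity) (tsum_nonneg fun m => hK _)
    have sC := sA.mul_left C1
    have e3 : Summable (fun n => A n ^ 2 * ∑' m, K (n, m)) := Summable.of_nonneg_of_le e2 e1 sC
    have s : Summable (fun x : ℕ × ℕ => A x.1 ^ 2 * K x) := by
      rw [summable_prod_of_nonneg (fun x => mul_nonneg (by positivity) (hK x))]
      refine ⟨fun n => ((k1 n).1.mul_left (A n ^ 2)), ?_⟩
      refine e3.congr fun n => ?_
      exact (e0 n).symm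
    refine ⟨s, ?_⟩
    rw [s.tsum_prod, ← tsum_mul_left]
    simp only [e0]
    exact e3.tsum_le_tsum e1 sC
  have t2 : Summable (fun x : ℕ × ℕ => B x.2 ^ 2 * K x) ∧
      ∑' x : ℕ × ℕ, B x.2 ^ 2 * K x ≤ C2 * ∑' n, B n ^ 2 := by
    have e0 : ∀ m, ∑' n, B m ^ 2 * K (n, m) = B m ^ 2 * ∑' n, K (n, m) := fun n => tsum_mul_left
    have e1 : ∀ m, B m ^ 2 * ∑' n, K (n, m) ≤ C2 * B m ^ 2 := fun n => by
      rw [mul_comm C2]; exact mul_le_mul_of_nonneg_left (k2 n).2 (by positivity)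
    have e2 : ∀ m, 0 ≤ B m ^ 2 * ∑' n, K (n, m) := fun n =>
      mul_nonneg (by positivity) (tsum_nonneg fun m => hK _)
    have sC := sB.mul_left C2
    have e3 : Summable (fun m => B m ^ 2 * ∑' n, K (n, m)) := Summable.of_nonneg_of_le e2 e1 sC
    have s' : Summable (fun x : ℕ × ℕ => B x.1 ^ 2 * K (x.2, x.1)) := by
      rw [summable_prod_of_nonneg (fun x => mul_nonneg (by positivity) (hK _))]
      refine ⟨fun n => ((k2 n).1.mul_left (B n ^ 2)), ?_⟩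
      refine e3.congr fun n => ?_
      exact (e0 n).symm
    have s : Summable (fun x : ℕ × ℕ => B x.2 ^ 2 * K x) :=
      ((Equiv.prodComm ℕ ℕ).summable_iff (f := fun x : ℕ × ℕ => B x.2 ^ 2 * K x)).1 s'
    refine ⟨s, ?_⟩
    have e4 : ∑' x : ℕ × ℕ, B x.2 ^ 2 * K x = ∑' x : ℕ × ℕ, B x.1 ^ 2 * K (x.2, x.1) :=
      ((Equiv.prodComm ℕ ℕ).tsum_eq (fun x : ℕ × ℕ => B x.2 ^ 2 * K x)).symm
    rw [e4, s'.tsum_prod, ← tsum_mul_left]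
    simp only [e0]
    exact e3.tsum_le_tsum e1 sC
  have q1 : ∀ x : ℕ × ℕ, (A x.1 * √(K x)) ^ (2 : ℝ) = A x.1 ^ 2 * K x := fun x => by
    rw [Real.rpow_two, mul_pow, Real.sq_sqrt (hK x)]
  have q2 : ∀ x : ℕ × ℕ, (B x.2 * √(K x)) ^ (2 : ℝ) = B x.2 ^ 2 * K x := fun x => by
    rw [Real.rpow_two, mul_pow, Real.sq_sqrt (hK x)]
  have hpq : Real.HolderConjugate 2 2 := Real.HolderConjugate.two_two
  have hh := Real.summable_and_inner_le_Lp_mul_Lq_tsum_of_nonneg hpq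
    (f := fun x : ℕ × ℕ => A x.1 * √(K x)) (g := fun x : ℕ × ℕ => B x.2 * √(K x))
    (fun x => mul_nonneg (hA _) (Real.sqrt_nonneg _)) (fun x => mul_nonneg (hB _) (Real.sqrt_nonneg _))
    (by simpa only [q1] using t1.1) (by simpa only [q2] using t2.1)
  have q3 : ∀ x : ℕ × ℕ, (A x.1 * √(K x)) * (B x.2 * √(K x)) = A x.1 * B x.2 * K x := fun x => by
    have := Real.mul_self_sqrt (hK x)
    calc (A x.1 * √(K x)) * (B x.2 * √(K x)) = A x.1 * B x.2 * (√(K x) * √(K x)) := by ring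
      _ = _ := by rw [this]
  simp only [q1, q2, q3] at hh
  refine ⟨hh.1, hh.2.trans ?_⟩
  rw [← Real.sqrt_eq_rpow, ← Real.sqrt_eq_rpow]
  have r1 : √(∑' x : ℕ × ℕ, A x.1 ^ 2 * K x) ≤ √C1 * √(∑' n, A n ^ 2) := by
    rw [← Real.sqrt_mul hC1]; exact Real.sqrt_le_sqrt t1.2
  have r2 : √(∑' x : ℕ × ℕ, B x.2 ^ 2 * K x) ≤ √C2 * √(∑' n, B n ^ 2) := by
    rw [← Real.sqrt_mul hC2]; exact Real.sqrt_le_sqrt t2.2
  calc √(∑' x : ℕ × ℕ, A x.1 ^ 2 * K x) * √(∑' x : ℕ × ℕ, B x.2 ^ 2 * K x)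
      ≤ (√C1 * √(∑' n, A n ^ 2)) * (√C2 * √(∑' n, B n ^ 2)) := by gcongr
    _ = _ := by ring

/-- weights -/
private theorem I03_wt {α : ℕ → ℝ} (hα : ∀ n, 0 ≤ α n) (hα' : ∀ n : ℕ, α n ≤ n) {X ε : ℝ}
    (hX : 0 < X) (hε : 0 < ε) :
    Summable fun n : ℕ => (α (n + 1) * ((1 + X * ε * ((n : ℝ) + 1)) ^ 2)⁻¹) ^ 2 := by
  have h0 : Summable (fun n : ℕ => ((X * ε) ^ 4)⁻¹ * (1 / ((n + 1 : ℕ) : ℝ) ^ 2)) :=
    ((summable_nat_add_iff 1).2 (Real.summable_one_div_nat_pow.2 one_lt_two)).mul_left _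
  refine Summable.of_nonneg_of_le (fun n => by positivity) (fun n => ?_) h0
  have hn : (0 : ℝ) < (n : ℝ) + 1 := by positivity
  have h1 : α (n + 1) ≤ (n : ℝ) + 1 := by have := hα' (n + 1); push_cast at this; exact this
  have hXε : 0 < X * ε := mul_pos hX hε
  have h2 : X * ε * ((n : ℝ) + 1) ≤ 1 + X * ε * ((n : ℝ) + 1) := by linarith
  have h3 : α (n + 1) * ((1 + X * ε * ((n : ℝ) + 1)) ^ 2)⁻¹ ≤
      ((n : ℝ) + 1) * ((X * ε * ((n : ℝ) + 1)) ^ 2)⁻¹ := by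
    have := hα (n + 1)
    gcongr
  have h4 : 0 ≤ α (n + 1) * ((1 + X * ε * ((n : ℝ) + 1)) ^ 2)⁻¹ := by
    have := hα (n + 1); positivity
  calc (α (n + 1) * ((1 + X * ε * ((n : ℝ) + 1)) ^ 2)⁻¹) ^ 2
      ≤ (((n : ℝ) + 1) * ((X * ε * ((n : ℝ) + 1)) ^ 2)⁻¹) ^ 2 := by gcongr
    _ = ((X * ε) ^ 4)⁻¹ * (1 / ((n + 1 : ℕ) : ℝ) ^ 2) := by
        push_cast
        field_simp

/-- lower bound for the modulus -/
private theorem I03_low {θ1 θ2 : ℝ} (h1 : 0 < θ1) (h2 : 0 < θ2) : ∃ c : ℝ, 0 < c ∧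
    ∀ ε : ℝ, 0 < ε → ε ≤ 1 / 2 → ∀ X : ℝ, 1 ≤ X → ∀ n m : ℕ,
      ((1 + ‖((X : ℝ) : ℂ) * zz θ1 θ2 ε (n + 1) (m + 1)‖) ^ 12)⁻¹ ≤
        c * (((1 + X * ε * ((n : ℝ) + 1)) ^ 2)⁻¹ * ((1 + X * ε * ((m : ℝ) + 1)) ^ 2)⁻¹ *
          ((1 + |θ1 * ((n : ℝ) + 1) - θ2 * ((m : ℝ) + 1)|) ^ 2)⁻¹) := by
  obtain ⟨c1, hc1⟩ : ∃ c1 : ℝ, c1 = min 1 (θ1 / 2) := ⟨_, rfl⟩
  obtain ⟨c2, hc2⟩ : ∃ c2 : ℝ, c2 = min 1 (θ2 / 2) := ⟨_, rfl⟩
  have c10 : 0 < c1 := by rw [hc1]; exact lt_min one_pos (by positivity)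
  have c20 : 0 < c2 := by rw [hc2]; exact lt_min one_pos (by positivity)
  have c11 : c1 ≤ 1 := by rw [hc1]; exact min_le_left _ _
  have c21 : c2 ≤ 1 := by rw [hc2]; exact min_le_left _ _
  have c12 : c1 ≤ θ1 / 2 := by rw [hc1]; exact min_le_right _ _
  have c22 : c2 ≤ θ2 / 2 := by rw [hc2]; exact min_le_right _ _
  refine ⟨(c1 ^ 2 * c2 ^ 2 / 4)⁻¹, by positivity, ?_⟩
  intro ε hε hε2 X hX1 n m
  have hX0 : 0 < X := by linarith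
  have hsin : ε / 2 ≤ Real.sin ε := by
    have e1 := Real.mul_le_sin hε.le (by have := Real.pi_gt_three; linarith)
    have e2 : ε / 2 ≤ 2 / π * ε := by
      have : (1 : ℝ) / 2 ≤ 2 / π := by
        rw [div_le_div_iff₀ (by norm_num) Real.pi_pos]; linarith [Real.pi_le_four]
      nlinarith
    linarith
  have hcos : 1 / 2 ≤ Real.cos ε := by
    have := Real.one_sub_sq_div_two_le_cos (x := ε)
    nlinarith
  have hre := (Complex.abs_re_le_norm (zz θ1 θ2 ε (n + 1) (m + 1)))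
  have him := (Complex.abs_im_le_norm (zz θ1 θ2 ε (n + 1) (m + 1)))
  rw [zz_re] at hre
  rw [zz_im] at him
  rw [norm_mul, Complex.norm_real, Real.norm_of_nonneg hX0.le]
  push_cast at hre him
  have hz0 : 0 ≤ ‖zz θ1 θ2 ε (n + 1) (m + 1)‖ := norm_nonneg _
  generalize ‖zz θ1 θ2 ε (n + 1) (m + 1)‖ = z at hre him hz0 ⊢
  have hx1 : (0 : ℝ) < (n : ℝ) + 1 := by positivity
  have hx2 : (0 : ℝ) < (m : ℝ) + 1 := by positivity
  generalize (n : ℝ) + 1 = x at hre him hx1 ⊢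
  generalize (m : ℝ) + 1 = y at hre him hx2 ⊢
  have r1 : ε / 2 * (θ1 * x + θ2 * y) ≤ z := by
    have e0 : 0 ≤ θ1 * x + θ2 * y := by positivity
    exact le_trans (mul_le_mul_of_nonneg_right hsin e0) ((le_abs_self _).trans hre)
  have r2 : 1 / 2 * |θ1 * x - θ2 * y| ≤ z := by
    refine le_trans ?_ him
    rw [abs_mul, abs_of_pos (by linarith : (0 : ℝ) < Real.cos ε)]
    exact mul_le_mul_of_nonneg_right hcos (abs_nonneg _)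
  have hXz : 0 ≤ X * z := by positivity
  obtain ⟨D, hD⟩ : ∃ D : ℝ, D = 1 + X * z := ⟨_, rfl⟩
  rw [← hD]
  have hD1 : 1 ≤ D := by rw [hD]; linarith
  have d1 : c1 * (1 + X * ε * x) ≤ D := by
    have e1 : X * (ε / 2 * (θ1 * x)) ≤ X * z := by
      refine mul_le_mul_of_nonneg_left (le_trans ?_ r1) hX0.le
      have : 0 ≤ ε / 2 * (θ2 * y) := by positivity
      linarith
    have e2 : c1 * (X * ε * x) ≤ θ1 / 2 * (X * ε * x) :=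
      mul_le_mul_of_nonneg_right c12 (by positivity)
    have e3 : θ1 / 2 * (X * ε * x) = X * (ε / 2 * (θ1 * x)) := by ring
    rw [hD]; linarith
  have d2 : c2 * (1 + X * ε * y) ≤ D := by
    have e1 : X * (ε / 2 * (θ2 * y)) ≤ X * z := by
      refine mul_le_mul_of_nonneg_left (le_trans ?_ r1) hX0.le
      have : 0 ≤ ε / 2 * (θ1 * x) := by positivity
      linarith
    have e2 : c2 * (X * ε * y) ≤ θ2 / 2 * (X * ε * y) :=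
      mul_le_mul_of_nonneg_right c22 (by positivity)
    have e3 : θ2 / 2 * (X * ε * y) = X * (ε / 2 * (θ2 * y)) := by ring
    rw [hD]; linarith
  have d3 : 1 / 2 * (1 + |θ1 * x - θ2 * y|) ≤ D := by
    have e1 : z ≤ X * z := le_mul_of_one_le_left hz0 hX1
    rw [hD]; linarith
  have hprod : c1 ^ 2 * c2 ^ 2 / 4 * ((1 + X * ε * x) ^ 2 * (1 + X * ε * y) ^ 2 *
      (1 + |θ1 * x - θ2 * y|) ^ 2) ≤ D ^ 12 := by
    have u1 : 0 ≤ c1 * (1 + X * ε * x) := by positivity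
    have u2 : 0 ≤ c2 * (1 + X * ε * y) := by positivity
    have u3 : 0 ≤ 1 / 2 * (1 + |θ1 * x - θ2 * y|) := by positivity
    calc c1 ^ 2 * c2 ^ 2 / 4 * ((1 + X * ε * x) ^ 2 * (1 + X * ε * y) ^ 2 *
          (1 + |θ1 * x - θ2 * y|) ^ 2)
        = (c1 * (1 + X * ε * x)) ^ 2 * (c2 * (1 + X * ε * y)) ^ 2 *
          (1 / 2 * (1 + |θ1 * x - θ2 * y|)) ^ 2 := by ring
      _ ≤ D ^ 2 * D ^ 2 * D ^ 2 := by
          have v1 := pow_le_pow_left₀ u1 d1 2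
          have v2 := pow_le_pow_left₀ u2 d2 2
          have v3 := pow_le_pow_left₀ u3 d3 2
          exact mul_le_mul (mul_le_mul v1 v2 (by positivity) (by positivity)) v3 (by positivity)
            (by positivity)
      _ = D ^ 6 := by ring
      _ ≤ D ^ 12 := pow_le_pow_right₀ hD1 (by norm_num)
  rw [← mul_inv, ← mul_inv, ← mul_inv]
  exact inv_anti₀ (by positivity) hprod

/-- Row I03. Cauchy-Schwarz (Schur test). -/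
theorem schur {θ1 θ2 : ℝ} (h1 : 0 < θ1) (h2 : 0 < θ2) : ∃ C : ℝ, 0 ≤ C ∧ ∀ α β : ℕ → ℝ,
    (∀ n, 0 ≤ α n) → (∀ n, 0 ≤ β n) → (∀ n : ℕ, α n ≤ n) → (∀ n : ℕ, β n ≤ n) →
    ∀ ε : ℝ, 0 < ε → ε ≤ 1 / 2 → ∀ k : ℕ,
      ∑' x : ℕ × ℕ, α (x.1 + 1) * β (x.2 + 1) *
        ((1 + ‖((Real.exp k : ℝ) : ℂ) * zz θ1 θ2 ε (x.1 + 1) (x.2 + 1)‖) ^ 12)⁻¹ ≤
      C * (√(∑' n : ℕ, α (n + 1) ^ 2 * ((1 + Real.exp k * ε * ((n : ℝ) + 1)) ^ 4)⁻¹) *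
        √(∑' n : ℕ, β (n + 1) ^ 2 * ((1 + Real.exp k * ε * ((n : ℝ) + 1)) ^ 4)⁻¹)) := by
  obtain ⟨C1, hC1, k1⟩ := I03_ker (θ1 := θ1) (θ2 := θ2) h2
  obtain ⟨C2, hC2, k2⟩ := I03_ker (θ1 := θ2) (θ2 := θ1) h1
  obtain ⟨c, hc0, hlow⟩ := I03_low h1 h2
  refine ⟨c * (√C1 * √C2), by positivity, ?_⟩
  intro α β hα hβ hα' hβ' ε hε hε2 k
  have hX1 : 1 ≤ Real.exp k := Real.one_le_exp (Nat.cast_nonneg k)
  generalize Real.exp (k : ℝ) = X at hX1 ⊢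
  have hX0 : 0 < X := by linarith
  obtain ⟨A, hA⟩ : ∃ A : ℕ → ℝ, ∀ n, A n = α (n + 1) * ((1 + X * ε * ((n : ℝ) + 1)) ^ 2)⁻¹ :=
    ⟨_, fun n => rfl⟩
  obtain ⟨B, hB⟩ : ∃ B : ℕ → ℝ, ∀ n, B n = β (n + 1) * ((1 + X * ε * ((n : ℝ) + 1)) ^ 2)⁻¹ :=
    ⟨_, fun n => rfl⟩
  obtain ⟨K, hK⟩ : ∃ K : ℕ × ℕ → ℝ, ∀ x, K x =
      ((1 + |θ1 * ((x.1 : ℝ) + 1) - θ2 * ((x.2 : ℝ) + 1)|) ^ 2)⁻¹ := ⟨_, fun n => rfl⟩
  have hA0 : ∀ n, 0 ≤ A n := fun n => by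
    rw [hA]; exact mul_nonneg (hα _) (by positivity)
  have hB0 : ∀ n, 0 ≤ B n := fun n => by
    rw [hB]; exact mul_nonneg (hβ _) (by positivity)
  have hK0 : ∀ x, 0 ≤ K x := fun x => by rw [hK]; positivity
  have sA : Summable fun n => A n ^ 2 := by
    simp only [hA]; exact I03_wt hα hα' hX0 hε
  have sB : Summable fun n => B n ^ 2 := by
    simp only [hB]; exact I03_wt hβ hβ' hX0 hε
  have kk1 : ∀ n, Summable (fun m => K (n, m)) ∧ ∑' m, K (n, m) ≤ C1 := fun n => by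
    simp only [hK]; exact k1 ((n : ℝ) + 1)
  have kk2 : ∀ m, Summable (fun n => K (n, m)) ∧ ∑' n, K (n, m) ≤ C2 := fun m => by
    have e : ∀ n : ℕ, K (n, m) =
        ((1 + |θ2 * ((m : ℝ) + 1) - θ1 * ((n : ℝ) + 1)|) ^ 2)⁻¹ := fun n => by
      rw [hK, abs_sub_comm]
    simp only [e]
    exact k2 ((m : ℝ) + 1)
  have main := I03_schur hC1.le hC2.le hK0 hA0 hB0 sA sB kk1 kk2
  have hpt : ∀ x : ℕ × ℕ, α (x.1 + 1) * β (x.2 + 1) *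
        ((1 + ‖((X : ℝ) : ℂ) * zz θ1 θ2 ε (x.1 + 1) (x.2 + 1)‖) ^ 12)⁻¹ ≤
        c * (A x.1 * B x.2 * K x) := by
    intro x
    have h := hlow ε hε hε2 X hX1 x.1 x.2
    refine (mul_le_mul_of_nonneg_left h (mul_nonneg (hα _) (hβ _))).trans (le_of_eq ?_)
    rw [hA, hB, hK]; ring
  have sR := main.1.mul_left c
  have sL : Summable (fun x : ℕ × ℕ => α (x.1 + 1) * β (x.2 + 1) *
        ((1 + ‖((X : ℝ) : ℂ) * zz θ1 θ2 ε (x.1 + 1) (x.2 + 1)‖) ^ 12)⁻¹) :=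
    Summable.of_nonneg_of_le (fun x => mul_nonneg (mul_nonneg (hα _) (hβ _)) (by positivity)) hpt sR
  refine (sL.tsum_le_tsum hpt sR).trans ?_
  rw [tsum_mul_left]
  have eA : ∀ n : ℕ, A n ^ 2 = α (n + 1) ^ 2 * ((1 + X * ε * ((n : ℝ) + 1)) ^ 4)⁻¹ := fun n => by
    rw [hA, mul_pow, ← inv_pow, ← inv_pow]; ring
  have eB : ∀ n : ℕ, B n ^ 2 = β (n + 1) ^ 2 * ((1 + X * ε * ((n : ℝ) + 1)) ^ 4)⁻¹ := fun n => by
    rw [hB, mul_pow, ← inv_pow, ← inv_pow]; ring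
  have m2 := main.2
  simp only [eA, eB] at m2
  refine (mul_le_mul_of_nonneg_left m2 hc0.le).trans (le_of_eq ?_)
  ring

end II
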