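import Pool.Agent.Lib.MP_0f5a55_nt.II.D

open Complex MeasureTheory Set Filter Topology
open scoped Real ComplexConjugate

namespace II

/-! ### elementary sums -/

theorem I04_sum_sqrt (K : ℕ) : ∑ g ∈ Finset.Icc 1 K, (√(g : ℝ))⁻¹ ≤ 2 * √(K : ℝ) := by
  induction K with
  | zero => simp
  | succ K ih =>
    rw [Finset.sum_Icc_succ_top (by omega)]
    have h1 : 0 < √((K + 1 : ℕ) : ℝ) := Real.sqrt_pos.2 (by positivity)
    have h0 : 0 ≤ √(K : ℝ) := Real.sqrt_nonneg _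
    have hle : √(K : ℝ) ≤ √((K + 1 : ℕ) : ℝ) := Real.sqrt_le_sqrt (by push_cast; linarith)
    have e1 : √((K + 1 : ℕ) : ℝ) ^ 2 = K + 1 := by rw [Real.sq_sqrt (by positivity)]; push_cast; ring
    have e0 : √(K : ℝ) ^ 2 = K := Real.sq_sqrt (by positivity)
    have key : (√((K + 1 : ℕ) : ℝ))⁻¹ ≤ 2 * (√((K + 1 : ℕ) : ℝ) - √(K : ℝ)) := by
      rw [inv_le_iff_one_le_mul₀ h1]
      nlinarith
    linarith

theorem I04_sum_inv_le (K : ℕ) : ∑ r ∈ Finset.Icc 1 K, ((r : ℝ))⁻¹ ≤ 2 * √(K : ℝ) := by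
  refine le_trans (Finset.sum_le_sum fun r hr => ?_) (I04_sum_sqrt K)
  have h1 : (1 : ℝ) ≤ r := by exact_mod_cast (Finset.mem_Icc.1 hr).1
  have h2 : 0 < √(r : ℝ) := Real.sqrt_pos.2 (by linarith)
  apply inv_anti₀ h2
  rw [Real.sqrt_le_left (by linarith)]
  nlinarith

theorem I04_sum_34 (K : ℕ) : ∑ l ∈ Finset.Icc 1 K, (l : ℝ) ^ (-(3 / 4 : ℝ)) ≤ 4 * (K : ℝ) ^ (1 / 4 : ℝ) := by
  induction K with
  | zero => simp
  | succ K ih =>
    rw [Finset.sum_Icc_succ_top (by omega)]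
    set a : ℝ := ((K + 1 : ℕ) : ℝ) ^ (1 / 4 : ℝ) with ha
    set b : ℝ := (K : ℝ) ^ (1 / 4 : ℝ) with hb
    have hpos : (0 : ℝ) < ((K + 1 : ℕ) : ℝ) := by positivity
    have ha0 : 0 < a := Real.rpow_pos_of_pos hpos _
    have hb0 : 0 ≤ b := Real.rpow_nonneg (by positivity) _
    have hab : b ≤ a := Real.rpow_le_rpow (by positivity) (by push_cast; linarith) (by norm_num)
    have e1 : a ^ 4 = K + 1 := by
      rw [ha, ← Real.rpow_natCast, ← Real.rpow_mul hpos.le]; norm_num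
    have e0 : b ^ 4 = K := by
      rw [hb, ← Real.rpow_natCast, ← Real.rpow_mul (by positivity)]; norm_num
    have e3 : ((K + 1 : ℕ) : ℝ) ^ (-(3 / 4 : ℝ)) = (a ^ 3)⁻¹ := by
      rw [ha, ← Real.rpow_natCast, ← Real.rpow_mul hpos.le, ← Real.rpow_neg hpos.le]; norm_num
    rw [e3]
    have key : (a ^ 3)⁻¹ ≤ 4 * (a - b) := by
      rw [inv_le_iff_one_le_mul₀ (by positivity)]
      have : (a - b) * (a ^ 3 + a ^ 2 * b + a * b ^ 2 + b ^ 3) = 1 := by ring_nf; nlinarith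
      have h2 : a ^ 3 + a ^ 2 * b + a * b ^ 2 + b ^ 3 ≤ 4 * a ^ 3 := by
        have h3 : a ^ 2 * b ≤ a ^ 3 := by nlinarith [sq_nonneg a]
        have h4 : a * b ^ 2 ≤ a ^ 3 := by nlinarith [mul_le_mul hab hab hb0 ha0.le]
        have h5 : b ^ 3 ≤ a ^ 3 := pow_le_pow_left₀ hb0 hab 3
        linarith
      nlinarith [sub_nonneg.2 hab]
    linarith

theorem I04_sum_log (a b : ℕ) (ha : 1 ≤ a) (hab : a ≤ b) :
    ∑ g ∈ Finset.Ioc a b, ((g : ℝ))⁻¹ ≤ Real.log ((b : ℝ) / a) := by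
  induction b, hab using Nat.le_induction with
  | base => simp
  | succ b hb ih =>
    rw [← Finset.insert_Ioc_right_eq_Ioc_add_one (by omega : a ≤ b), Finset.sum_insert (by simp)]
    have ha' : (0 : ℝ) < a := by exact_mod_cast ha
    have hb' : (0 : ℝ) < b := by exact_mod_cast (by omega : 0 < b)
    have h1 : Real.log (((b + 1 : ℕ) : ℝ) / a) = Real.log ((b : ℝ) / a) + Real.log (((b + 1 : ℕ) : ℝ) / b) := by
      rw [← Real.log_mul (by positivity) (by positivity)]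
      congr 1; field_simp
    have h2 : 1 - (((b + 1 : ℕ) : ℝ) / b)⁻¹ ≤ Real.log (((b + 1 : ℕ) : ℝ) / b) :=
      Real.one_sub_inv_le_log_of_pos (by positivity)
    have h3 : 1 - (((b + 1 : ℕ) : ℝ) / b)⁻¹ = (((b + 1 : ℕ) : ℝ))⁻¹ := by
      field_simp; push_cast; ring
    linarith

/-! ### partial sums -/

section
variable {ψ : ℕ → ℂ} {M : ℝ}

theorem I04_M_nonneg (hM : ∀ N : ℕ, ‖∑ g ∈ Finset.range N, ψ (g + 1)‖ ≤ M) : 0 ≤ M :=
  le_trans (norm_nonneg _) (hM 0)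

theorem I04_ps (hM : ∀ N : ℕ, ‖∑ g ∈ Finset.range N, ψ (g + 1)‖ ≤ M) (a b : ℕ) :
    ‖∑ x ∈ Finset.Ioc a b, ψ x‖ ≤ 2 * M := by
  have h0 := I04_M_nonneg hM
  rcases le_total b a with h | h
  · rw [Finset.Ioc_eq_empty_of_le h]; simpa using h0
  · have e : ∑ x ∈ Finset.Ioc a b, ψ x =
        ∑ g ∈ Finset.range b, ψ (g + 1) - ∑ g ∈ Finset.range a, ψ (g + 1) := by
      rw [← Finset.sum_Ico_eq_sub _ h, Finset.sum_Ico_add' (fun x => ψ x) a b 1]
      apply Finset.sum_congr _ fun _ _ => rfl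
      ext x; simp only [Finset.mem_Ioc, Finset.mem_Ico]; omega
    rw [e]
    calc _ ≤ _ := norm_sub_le _ _
      _ ≤ 2 * M := by linarith [hM a, hM b]

theorem I04_ps_conj (hM : ∀ N : ℕ, ‖∑ g ∈ Finset.range N, ψ (g + 1)‖ ≤ M) (a b : ℕ) :
    ‖∑ x ∈ Finset.Ioc a b, conj (ψ x)‖ ≤ 2 * M := by
  rw [← map_sum, Complex.norm_conj]
  exact I04_ps hM a b

end


/-! ### hyperbola -/

section
variable {ψ : ℕ → ℂ} {M : ℝ}

/-- twisted hyperbola sum -/
noncomputable def I04_T (ψ : ℕ → ℂ) (K m w : ℕ) : ℂ :=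
  ∑ x ∈ Finset.Ioc m K, ∑ y ∈ Finset.Ioc m K, if x * y ≤ w then ψ x * conj (ψ y) else 0

theorem I04_T_bound (h1 : ∀ n, ‖ψ n‖ ≤ 1) (hM : ∀ N : ℕ, ‖∑ g ∈ Finset.range N, ψ (g + 1)‖ ≤ M) (K m w : ℕ) :
    ‖I04_T ψ K m w‖ ≤ 4 * M * √(w : ℝ) := by
  have h0 := I04_M_nonneg hM
  set s := Nat.sqrt w with hs
  have hsw : (s : ℝ) ≤ √(w : ℝ) := Real.nat_sqrt_le_real_sqrt
  have hsplit : I04_T ψ K m w =
      ∑ x ∈ (Finset.Ioc m K).filter (fun x => x ≤ s), ∑ y ∈ Finset.Ioc m K, (if x * y ≤ w then ψ x * conj (ψ y) else 0) +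
      ∑ y ∈ (Finset.Ioc m K).filter (fun y => y ≤ s), ∑ x ∈ (Finset.Ioc m K).filter (fun x => ¬ x ≤ s),
        (if x * y ≤ w then ψ x * conj (ψ y) else 0) := by
    unfold I04_T
    rw [← Finset.sum_filter_add_sum_filter_not (Finset.Ioc m K) (fun x => x ≤ s)]
    congr 1
    rw [Finset.sum_comm]
    rw [← Finset.sum_filter_add_sum_filter_not (Finset.Ioc m K) (fun x => x ≤ s)]
    rw [add_eq_left]
    apply Finset.sum_eq_zero
    intro y hy
    apply Finset.sum_eq_zero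
    intro x hx
    rw [if_neg]
    have hy' := (Finset.mem_filter.1 hy).2
    have hx' := (Finset.mem_filter.1 hx).2
    push Not at hy' hx' ⊢
    have h2 : w < (s + 1) * (s + 1) := Nat.lt_succ_sqrt w
    calc w < (s + 1) * (s + 1) := h2
      _ ≤ x * y := Nat.mul_le_mul hx' hy'
  have hcard : ((((Finset.Ioc m K).filter (fun x => x ≤ s)).card : ℕ) : ℝ) ≤ s := by
    have : ((Finset.Ioc m K).filter (fun x => x ≤ s)).card ≤ (Finset.Ioc 0 s).card := by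
      apply Finset.card_le_card
      intro x hx
      have := Finset.mem_filter.1 hx
      have h3 := Finset.mem_Ioc.1 this.1
      exact Finset.mem_Ioc.2 ⟨by omega, this.2⟩
    rw [Nat.card_Ioc] at this
    exact_mod_cast (by simpa using this)
  have b1 : ‖∑ x ∈ (Finset.Ioc m K).filter (fun x => x ≤ s), ∑ y ∈ Finset.Ioc m K, (if x * y ≤ w then ψ x * conj (ψ y) else 0)‖
      ≤ s * (2 * M) := by
    refine le_trans (norm_sum_le _ _) ?_
    refine le_trans (Finset.sum_le_card_nsmul _ _ (2 * M) ?_) ?_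
    · intro x hx
      have hx1 := Finset.mem_Ioc.1 (Finset.mem_filter.1 hx).1
      have hxp : 0 < x := by omega
      have e : ∑ y ∈ Finset.Ioc m K, (if x * y ≤ w then ψ x * conj (ψ y) else 0) =
          ψ x * ∑ y ∈ Finset.Ioc m (min K (w / x)), conj (ψ y) := by
        rw [Finset.mul_sum, ← Finset.sum_filter]
        apply Finset.sum_congr _ fun _ _ => rfl
        ext y
        simp only [Finset.mem_filter, Finset.mem_Ioc, le_min_iff, Nat.le_div_iff_mul_le hxp]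
        rw [mul_comm x y]
        tauto
      rw [e, norm_mul]
      calc ‖ψ x‖ * ‖∑ y ∈ Finset.Ioc m (min K (w / x)), conj (ψ y)‖ ≤ 1 * (2 * M) :=
            mul_le_mul (h1 x) (I04_ps_conj hM _ _) (norm_nonneg _) (by norm_num)
        _ = 2 * M := one_mul _
    · rw [nsmul_eq_mul]
      exact mul_le_mul_of_nonneg_right hcard (by linarith)
  have b2 : ‖∑ y ∈ (Finset.Ioc m K).filter (fun y => y ≤ s), ∑ x ∈ (Finset.Ioc m K).filter (fun x => ¬ x ≤ s),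
        (if x * y ≤ w then ψ x * conj (ψ y) else 0)‖ ≤ s * (2 * M) := by
    refine le_trans (norm_sum_le _ _) ?_
    refine le_trans (Finset.sum_le_card_nsmul _ _ (2 * M) ?_) ?_
    · intro y hy
      have hy1 := Finset.mem_Ioc.1 (Finset.mem_filter.1 hy).1
      have hyp : 0 < y := by omega
      have e : ∑ x ∈ (Finset.Ioc m K).filter (fun x => ¬ x ≤ s), (if x * y ≤ w then ψ x * conj (ψ y) else 0) =
          (∑ x ∈ Finset.Ioc (max m s) (min K (w / y)), ψ x) * conj (ψ y) := by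
        rw [Finset.sum_mul, ← Finset.sum_filter]
        apply Finset.sum_congr _ fun _ _ => rfl
        ext x
        simp only [Finset.mem_filter, Finset.mem_Ioc, le_min_iff, Nat.le_div_iff_mul_le hyp, not_le, max_lt_iff]
        tauto
      rw [e, norm_mul, Complex.norm_conj]
      calc ‖∑ x ∈ Finset.Ioc (max m s) (min K (w / y)), ψ x‖ * ‖ψ y‖ ≤ (2 * M) * 1 :=
            mul_le_mul (I04_ps hM _ _) (h1 y) (norm_nonneg _) (by linarith)
        _ = 2 * M := mul_one _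
    · rw [nsmul_eq_mul]
      exact mul_le_mul_of_nonneg_right hcard (by linarith)
  rw [hsplit]
  calc _ ≤ _ := norm_add_le _ _
    _ ≤ s * (2 * M) + s * (2 * M) := add_le_add b1 b2
    _ = 4 * M * s := by ring
    _ ≤ 4 * M * √(w : ℝ) := mul_le_mul_of_nonneg_left hsw (by linarith)

/-- the same, with coprime variables -/
noncomputable def I04_C (ψ : ℕ → ℂ) (K m w : ℕ) : ℂ :=
  ∑ x ∈ Finset.Ioc m K, ∑ y ∈ Finset.Ioc m K, if x * y ≤ w ∧ Nat.Coprime x y then ψ x * conj (ψ y) else 0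

theorem I04_C_zero (K m w : ℕ) (h : w < (m + 1) ^ 2) : I04_C ψ K m w = 0 := by
  unfold I04_C
  apply Finset.sum_eq_zero
  intro x hx
  apply Finset.sum_eq_zero
  intro y hy
  rw [if_neg]
  rintro ⟨h2, -⟩
  have hx1 := (Finset.mem_Ioc.1 hx).1
  have hy1 := (Finset.mem_Ioc.1 hy).1
  have : (m + 1) ^ 2 ≤ x * y := by
    rw [pow_two]; exact Nat.mul_le_mul hx1 hy1
  omega

theorem I04_copr (K x y : ℕ) (hx : 0 < x) (hxK : x ≤ K) :
    (if Nat.Coprime x y then (1 : ℂ) else 0) =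
      ∑ r ∈ Finset.Icc 1 K, if r ∣ x ∧ r ∣ y then ((ArithmeticFunction.moebius r : ℤ) : ℂ) else 0 := by
  have h1 : ∑ r ∈ (Nat.gcd x y).divisors, ArithmeticFunction.moebius r = if Nat.gcd x y = 1 then (1 : ℤ) else 0 := by
    have := congrArg (fun f => f (Nat.gcd x y)) ArithmeticFunction.moebius_mul_coe_zeta
    simp only [ArithmeticFunction.coe_mul_zeta_apply, ArithmeticFunction.one_apply] at this
    exact this
  have h2 : ∑ r ∈ Finset.Icc 1 K, (if r ∣ x ∧ r ∣ y then ((ArithmeticFunction.moebius r : ℤ) : ℂ) else 0) =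
      ∑ r ∈ (Nat.gcd x y).divisors, ((ArithmeticFunction.moebius r : ℤ) : ℂ) := by
    rw [← Finset.sum_filter]
    apply Finset.sum_congr _ fun _ _ => rfl
    ext r
    simp only [Finset.mem_filter, Finset.mem_Icc, Nat.mem_divisors, Nat.dvd_gcd_iff]
    constructor
    · rintro ⟨_, h⟩
      exact ⟨h, by have := Nat.gcd_pos_of_pos_left y hx; omega⟩
    · rintro ⟨h, _⟩
      exact ⟨⟨Nat.pos_of_dvd_of_pos h.1 hx, (Nat.le_of_dvd hx h.1).trans hxK⟩, h⟩
  rw [h2, ← Int.cast_sum, h1]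
  unfold Nat.Coprime
  split_ifs <;> simp

theorem I04_mult (ψ : ℕ → ℂ) (hmul : ∀ a b, ψ (a * b) = ψ a * ψ b) (K m w r : ℕ) (hr : 0 < r) :
    ∑ x ∈ Finset.Ioc m K, ∑ y ∈ Finset.Ioc m K, (if r ∣ x ∧ r ∣ y then (if x * y ≤ w then ψ x * conj (ψ y) else 0) else 0)
      = ψ r * conj (ψ r) * I04_T ψ (K / r) (m / r) (w / (r * r)) := by
  have reidx : ∀ f : ℕ → ℂ, ∑ x ∈ Finset.Ioc m K, (if r ∣ x then f x else 0) = ∑ x ∈ Finset.Ioc (m / r) (K / r), f (r * x) := by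
    intro f
    rw [← Finset.sum_filter]
    symm
    refine Finset.sum_bij' (fun x _ => r * x) (fun x _ => x / r) ?_ ?_ ?_ ?_ ?_
    · intro x hx
      have := Finset.mem_Ioc.1 hx
      rw [Nat.le_div_iff_mul_le hr, Nat.div_lt_iff_lt_mul hr] at this
      rw [Finset.mem_filter, Finset.mem_Ioc]
      exact ⟨⟨by rw [mul_comm]; exact this.1, by rw [mul_comm]; exact this.2⟩, dvd_mul_right _ _⟩
    · intro x hx
      rw [Finset.mem_filter, Finset.mem_Ioc] at hx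
      obtain ⟨⟨h1, h2⟩, ⟨c, rfl⟩⟩ := hx
      rw [Nat.mul_div_cancel_left _ hr, Finset.mem_Ioc, Nat.le_div_iff_mul_le hr, Nat.div_lt_iff_lt_mul hr]
      rw [mul_comm]
      exact ⟨h1, h2⟩
    · intro x _
      exact Nat.mul_div_cancel_left _ hr
    · intro x hx
      exact Nat.mul_div_cancel' (Finset.mem_filter.1 hx).2
    · intro x _; rfl
  have e1 : ∀ x, ∑ y ∈ Finset.Ioc m K, (if r ∣ x ∧ r ∣ y then (if x * y ≤ w then ψ x * conj (ψ y) else 0) else 0) =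
      if r ∣ x then (∑ y ∈ Finset.Ioc (m / r) (K / r), if x * (r * y) ≤ w then ψ x * conj (ψ (r * y)) else 0) else 0 := by
    intro x
    by_cases hx : r ∣ x
    · rw [if_pos hx, ← reidx (fun y => if x * y ≤ w then ψ x * conj (ψ y) else 0)]
      apply Finset.sum_congr rfl
      intro y _
      simp only [hx, true_and]
    · rw [if_neg hx]
      apply Finset.sum_eq_zero
      intro y _
      rw [if_neg (by tauto)]
  rw [Finset.sum_congr rfl fun x _ => e1 x]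
  rw [reidx (fun x => ∑ y ∈ Finset.Ioc (m / r) (K / r), if x * (r * y) ≤ w then ψ x * conj (ψ (r * y)) else 0)]
  unfold I04_T
  rw [Finset.mul_sum]
  apply Finset.sum_congr rfl
  intro x _
  rw [Finset.mul_sum]
  apply Finset.sum_congr rfl
  intro y _
  have hrr : 0 < r * r := by positivity
  have hiff : r * x * (r * y) ≤ w ↔ x * y ≤ w / (r * r) := by
    rw [Nat.le_div_iff_mul_le hrr]
    have : r * x * (r * y) = x * y * (r * r) := by ring
    rw [this]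
  by_cases hc : x * y ≤ w / (r * r)
  · rw [if_pos hc, if_pos (hiff.2 hc), hmul, hmul, map_mul]
    ring
  · rw [if_neg hc, if_neg (fun h => hc (hiff.1 h)), mul_zero]

theorem I04_C_eq (ψ : ℕ → ℂ) (hmul : ∀ a b, ψ (a * b) = ψ a * ψ b) (K m w : ℕ) :
    I04_C ψ K m w = ∑ r ∈ Finset.Icc 1 K, ((ArithmeticFunction.moebius r : ℤ) : ℂ) *
      (ψ r * conj (ψ r) * I04_T ψ (K / r) (m / r) (w / (r * r))) := by
  have e : ∀ r ∈ Finset.Icc 1 K, ((ArithmeticFunction.moebius r : ℤ) : ℂ) *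
      (ψ r * conj (ψ r) * I04_T ψ (K / r) (m / r) (w / (r * r))) =
      ∑ x ∈ Finset.Ioc m K, ∑ y ∈ Finset.Ioc m K,
        (if x * y ≤ w then ψ x * conj (ψ y) else 0) * (if r ∣ x ∧ r ∣ y then ((ArithmeticFunction.moebius r : ℤ) : ℂ) else 0) := by
    intro r hr
    rw [← I04_mult ψ hmul K m w r (Finset.mem_Icc.1 hr).1, Finset.mul_sum]
    apply Finset.sum_congr rfl
    intro x _
    rw [Finset.mul_sum]
    apply Finset.sum_congr rfl
    intro y _
    split_ifs <;> ring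
  rw [Finset.sum_congr rfl e, Finset.sum_comm]
  unfold I04_C
  apply Finset.sum_congr rfl
  intro x hx
  rw [Finset.sum_comm]
  apply Finset.sum_congr rfl
  intro y _
  rw [← Finset.mul_sum, ← I04_copr K x y (by have := Finset.mem_Ioc.1 hx; omega) (Finset.mem_Ioc.1 hx).2]
  by_cases h1 : x * y ≤ w <;> by_cases h2 : Nat.Coprime x y <;> simp [h1, h2]

theorem I04_C_bound (h1 : ∀ n, ‖ψ n‖ ≤ 1) (hmul : ∀ a b, ψ (a * b) = ψ a * ψ b)
    (hM : ∀ N : ℕ, ‖∑ g ∈ Finset.range N, ψ (g + 1)‖ ≤ M) (K m w : ℕ) :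
    ‖I04_C ψ K m w‖ ≤ 8 * M * (w : ℝ) ^ (3 / 4 : ℝ) := by
  have h0 := I04_M_nonneg hM
  set s := Nat.sqrt w with hs
  have hsw : (s : ℝ) ≤ √(w : ℝ) := Real.nat_sqrt_le_real_sqrt
  rw [I04_C_eq ψ hmul]
  have term : ∀ r ∈ Finset.Icc 1 K, ‖((ArithmeticFunction.moebius r : ℤ) : ℂ) *
      (ψ r * conj (ψ r) * I04_T ψ (K / r) (m / r) (w / (r * r)))‖ ≤
      if r ≤ s then 4 * M * √(w : ℝ) * ((r : ℝ))⁻¹ else 0 := by
    intro r hr
    have hr1 := (Finset.mem_Icc.1 hr).1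
    have hr' : (0 : ℝ) < r := by exact_mod_cast hr1
    have hT := I04_T_bound h1 hM (K / r) (m / r) (w / (r * r))
    have hmu : ‖((ArithmeticFunction.moebius r : ℤ) : ℂ)‖ ≤ 1 := by
      rw [Complex.norm_intCast]
      exact_mod_cast ArithmeticFunction.abs_moebius_le_one
    have hpp : ‖ψ r * conj (ψ r)‖ ≤ 1 := by
      rw [norm_mul, Complex.norm_conj]
      nlinarith [h1 r, norm_nonneg (ψ r)]
    have hle : ‖((ArithmeticFunction.moebius r : ℤ) : ℂ) *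
      (ψ r * conj (ψ r) * I04_T ψ (K / r) (m / r) (w / (r * r)))‖ ≤ 4 * M * √((w / (r * r) : ℕ) : ℝ) := by
      rw [norm_mul, norm_mul]
      calc _ ≤ 1 * (1 * (4 * M * √((w / (r * r) : ℕ) : ℝ))) := by
            apply mul_le_mul hmu _ (by positivity) (by norm_num)
            exact mul_le_mul hpp hT (norm_nonneg _) (by norm_num)
        _ = _ := by ring
    refine hle.trans ?_
    split_ifs with hrs
    · rw [mul_assoc (4 * M) (√(w : ℝ))]
      apply mul_le_mul_of_nonneg_left _ (by linarith)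
      rw [Real.sqrt_le_left (by positivity), mul_pow, Real.sq_sqrt (by positivity), inv_pow, ← div_eq_mul_inv]
      refine le_trans Nat.cast_div_le ?_
      push_cast
      rw [pow_two]
    · have : w / (r * r) = 0 := by
        apply Nat.div_eq_of_lt
        push Not at hrs
        exact Nat.sqrt_lt.1 hrs
      rw [this]; simp
  refine le_trans (norm_sum_le _ _) (le_trans (Finset.sum_le_sum term) ?_)
  rw [← Finset.sum_filter]
  have hsub : (Finset.Icc 1 K).filter (fun r => r ≤ s) ⊆ Finset.Icc 1 s := by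
    intro r hr
    have := Finset.mem_filter.1 hr
    exact Finset.mem_Icc.2 ⟨(Finset.mem_Icc.1 this.1).1, this.2⟩
  refine le_trans (Finset.sum_le_sum_of_subset_of_nonneg hsub fun r _ _ => by positivity) ?_
  rw [← Finset.mul_sum]
  have hsum := I04_sum_inv_le s
  have hss : √(s : ℝ) ≤ √(√(w : ℝ)) := Real.sqrt_le_sqrt hsw
  have hw34 : √(w : ℝ) * √(√(w : ℝ)) = (w : ℝ) ^ (3 / 4 : ℝ) := by
    have hw0 : (0 : ℝ) ≤ w := by positivity
    rw [Real.sqrt_eq_rpow, Real.sqrt_eq_rpow, ← Real.rpow_mul hw0, ← Real.rpow_add' hw0 (by norm_num)]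
    norm_num
  calc 4 * M * √(w : ℝ) * ∑ r ∈ Finset.Icc 1 s, ((r : ℝ))⁻¹ ≤ 4 * M * √(w : ℝ) * (2 * √(√(w : ℝ))) := by
        apply mul_le_mul_of_nonneg_left _ (by positivity)
        linarith
    _ = 8 * M * (√(w : ℝ) * √(√(w : ℝ))) := by ring
    _ = _ := by rw [hw34]

end



/-! ### the final sum -/

theorem I04_inner (V : ℝ) (hV : 0 ≤ V) (g N : ℕ) (B : ℝ) (hB : 0 ≤ B) :
    ∑ l ∈ Finset.Icc 1 N, (if (l : ℝ) ≤ B then (V / (g * l)) ^ (3 / 4 : ℝ) else 0) ≤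
      4 * (V / g) ^ (3 / 4 : ℝ) * B ^ (1 / 4 : ℝ) := by
  have hVg : 0 ≤ V / g := by positivity
  rw [← Finset.sum_filter]
  have hsub : (Finset.Icc 1 N).filter (fun l : ℕ => (l : ℝ) ≤ B) ⊆ Finset.Icc 1 ⌊B⌋₊ := by
    intro r hr
    have := Finset.mem_filter.1 hr
    exact Finset.mem_Icc.2 ⟨(Finset.mem_Icc.1 this.1).1, Nat.le_floor this.2⟩
  refine le_trans (Finset.sum_le_sum_of_subset_of_nonneg hsub fun r _ _ => by positivity) ?_
  have e : ∀ l ∈ Finset.Icc 1 ⌊B⌋₊, (V / (g * l)) ^ (3 / 4 : ℝ) = (V / g) ^ (3 / 4 : ℝ) * (l : ℝ) ^ (-(3 / 4 : ℝ)) := by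
    intro l hl
    have hl' : (0 : ℝ) ≤ l := by positivity
    rw [← div_div, Real.div_rpow hVg hl', Real.rpow_neg hl', div_eq_mul_inv]
  rw [Finset.sum_congr rfl e, ← Finset.mul_sum]
  have h1 := I04_sum_34 ⌊B⌋₊
  have h2 : ((⌊B⌋₊ : ℕ) : ℝ) ^ (1 / 4 : ℝ) ≤ B ^ (1 / 4 : ℝ) :=
    Real.rpow_le_rpow (by positivity) (Nat.floor_le hB) (by norm_num)
  calc _ ≤ (V / g) ^ (3 / 4 : ℝ) * (4 * B ^ (1 / 4 : ℝ)) :=
        mul_le_mul_of_nonneg_left (by linarith) (by positivity)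
    _ = _ := by ring

/-- the majorant -/
noncomputable def I04_h (V D : ℝ) (g l : ℕ) : ℝ :=
  if (l : ℝ) ≤ V / D ^ 2 * g ∧ (l : ℝ) ≤ V / g ∧ g ≤ l then (V / (g * l)) ^ (3 / 4 : ℝ) else 0

theorem I04_h_nonneg (V D : ℝ) (hV : 0 ≤ V) (g l : ℕ) : 0 ≤ I04_h V D g l := by
  unfold I04_h
  split_ifs <;> positivity

theorem I04_hsum (V D : ℝ) (hD : 1 / 2 ≤ D) (hDV : D ^ 2 ≤ V) (N : ℕ) :
    ∑ g ∈ Finset.Icc 1 N, ∑ l ∈ Finset.Icc 1 N, I04_h V D g l ≤ V * (12 + 2 * Real.log (V / D ^ 2)) := by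
  have hD0 : 0 < D := by linarith
  have hV0 : 0 < V := lt_of_lt_of_le (by positivity) hDV
  have hsV : 0 < √V := Real.sqrt_pos.2 hV0
  have hsD : 0 < √D := Real.sqrt_pos.2 hD0
  have inner : ∀ g ∈ Finset.Icc 1 N, ∑ l ∈ Finset.Icc 1 N, I04_h V D g l ≤
      (if (g : ℝ) ≤ D then 4 * V * (√D)⁻¹ * (√(g : ℝ))⁻¹ else 0) +
      (if D < (g : ℝ) ∧ (g : ℝ) ≤ √V then 4 * V * ((g : ℝ))⁻¹ else 0) := by
    intro g hg
    have hg1 : 1 ≤ g := (Finset.mem_Icc.1 hg).1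
    have hg0 : (0 : ℝ) < g := by exact_mod_cast hg1
    by_cases hgD : (g : ℝ) ≤ D
    · rw [if_pos hgD, if_neg (fun h => absurd h.1 (not_lt.2 hgD)), add_zero]
      refine le_trans (Finset.sum_le_sum fun l _ => ?_) (le_trans (I04_inner V hV0.le g N (V / D ^ 2 * g) (by positivity)) ?_)
      · unfold I04_h
        by_cases h : (l : ℝ) ≤ V / D ^ 2 * g
        · rw [if_pos h]
          split_ifs
          · exact le_refl _
          · positivity
        · rw [if_neg h, if_neg (fun h' => h h'.1)]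
      · have e1 : (V / g) ^ (3 / 4 : ℝ) * (V / D ^ 2 * g) ^ (1 / 4 : ℝ) = V * (√D)⁻¹ * (√(g : ℝ))⁻¹ := by
          have a1 : V / D ^ 2 * g = (V / g) * (g ^ 2 / D ^ 2) := by field_simp
          rw [a1, Real.mul_rpow (by positivity) (by positivity), ← mul_assoc, ← Real.rpow_add (by positivity)]
          norm_num
          rw [Real.div_rpow (by positivity) (by positivity)]
          have a2 : ((g : ℝ) ^ 2) ^ (1 / 4 : ℝ) = √(g : ℝ) := by
            rw [← Real.rpow_natCast, ← Real.rpow_mul hg0.le, Real.sqrt_eq_rpow]; norm_num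
          have a3 : (D ^ 2) ^ (1 / 4 : ℝ) = √D := by
            rw [← Real.rpow_natCast, ← Real.rpow_mul hD0.le, Real.sqrt_eq_rpow]; norm_num
          rw [a2, a3]
          have hsg : 0 < √(g : ℝ) := Real.sqrt_pos.2 hg0
          have a4 : (g : ℝ) = √(g : ℝ) * √(g : ℝ) := (Real.mul_self_sqrt hg0.le).symm
          have a5 : V / g * (√(g : ℝ) / √D) = V / (√(g : ℝ) * √(g : ℝ)) * (√(g : ℝ) / √D) := by rw [← a4]
          rw [a5]
          field_simp
        rw [mul_assoc, e1]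
        apply le_of_eq; ring
    · push Not at hgD
      rw [if_neg (not_le.2 hgD), zero_add]
      by_cases hgV : (g : ℝ) ≤ √V
      · rw [if_pos ⟨hgD, hgV⟩]
        refine le_trans (Finset.sum_le_sum fun l _ => ?_) (le_trans (I04_inner V hV0.le g N (V / g) (by positivity)) ?_)
        · unfold I04_h
          by_cases h : (l : ℝ) ≤ V / g
          · rw [if_pos h]
            split_ifs
            · exact le_refl _
            · positivity
          · rw [if_neg h, if_neg (fun h' => h h'.2.1)]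
        · rw [mul_assoc, ← Real.rpow_add (by positivity)]
          norm_num
          rw [div_eq_mul_inv]
          apply le_of_eq; ring
      · rw [if_neg (fun h => hgV h.2)]
        apply le_of_eq
        apply Finset.sum_eq_zero
        intro l _
        unfold I04_h
        rw [if_neg]
        rintro ⟨-, h2, h3⟩
        apply hgV
        apply Real.le_sqrt_of_sq_le
        have h4 : (g : ℝ) ≤ l := by exact_mod_cast h3
        rw [le_div_iff₀ hg0] at h2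
        nlinarith
  refine le_trans (Finset.sum_le_sum inner) ?_
  rw [Finset.sum_add_distrib, ← Finset.sum_filter, ← Finset.sum_filter, ← Finset.mul_sum, ← Finset.mul_sum]
  have p1 : ∑ g ∈ (Finset.Icc 1 N).filter (fun g : ℕ => (g : ℝ) ≤ D), (√(g : ℝ))⁻¹ ≤ 2 * √D := by
    have hsub : (Finset.Icc 1 N).filter (fun l : ℕ => (l : ℝ) ≤ D) ⊆ Finset.Icc 1 ⌊D⌋₊ := by
      intro r hr
      have := Finset.mem_filter.1 hr
      exact Finset.mem_Icc.2 ⟨(Finset.mem_Icc.1 this.1).1, Nat.le_floor this.2⟩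
    refine le_trans (Finset.sum_le_sum_of_subset_of_nonneg hsub fun r _ _ => by positivity) ?_
    refine le_trans (I04_sum_sqrt _) ?_
    have : √((⌊D⌋₊ : ℕ) : ℝ) ≤ √D := Real.sqrt_le_sqrt (Nat.floor_le hD0.le)
    linarith
  have hlog0 : 0 ≤ Real.log (V / D ^ 2) := Real.log_nonneg (by rw [le_div_iff₀ (by positivity)]; linarith)
  have p2 : ∑ g ∈ (Finset.Icc 1 N).filter (fun g : ℕ => D < (g : ℝ) ∧ (g : ℝ) ≤ √V), ((g : ℝ))⁻¹ ≤
      1 + 1 / 2 * Real.log (V / D ^ 2) := by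
    set a := ⌊D⌋₊ with ha
    set b := ⌊√V⌋₊ with hb
    have hDa : D < (a + 1 : ℕ) := by push_cast; exact Nat.lt_floor_add_one D
    have hsub : (Finset.Icc 1 N).filter (fun g : ℕ => D < (g : ℝ) ∧ (g : ℝ) ≤ √V) ⊆ Finset.Icc (a + 1) b := by
      intro r hr
      have := Finset.mem_filter.1 hr
      refine Finset.mem_Icc.2 ⟨?_, Nat.le_floor this.2.2⟩
      have h1 := this.2.1
      have : (a : ℝ) < r := lt_of_le_of_lt (Nat.floor_le hD0.le) h1
      exact_mod_cast this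
    refine le_trans (Finset.sum_le_sum_of_subset_of_nonneg hsub fun r _ _ => by positivity) ?_
    rcases lt_or_ge b (a + 1) with hlt | hge
    · rw [Finset.Icc_eq_empty_of_lt hlt, Finset.sum_empty]
      linarith
    · rw [← Finset.sum_Ioc_add_eq_sum_Icc hge]
      have q1 := I04_sum_log (a + 1) b (by omega) hge
      have q2 : (((a + 1 : ℕ) : ℝ))⁻¹ ≤ 1 := by
        apply inv_le_one_of_one_le₀
        push_cast
        have : (0 : ℝ) ≤ a := by positivity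
        linarith
      have q3 : Real.log ((b : ℝ) / ((a + 1 : ℕ) : ℝ)) ≤ 1 / 2 * Real.log (V / D ^ 2) := by
        have e : 1 / 2 * Real.log (V / D ^ 2) = Real.log (√V / D) := by
          have : V / D ^ 2 = (√V / D) ^ 2 := by rw [div_pow, Real.sq_sqrt hV0.le]
          rw [this, Real.log_pow]; push_cast; ring
        rw [e]
        apply Real.log_le_log
        · have : (0 : ℝ) < b := by exact_mod_cast (by omega : 0 < b)
          positivity
        · apply div_le_div₀ hsV.le (Nat.floor_le hsV.le) hD0 hDa.le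
      linarith
  have p3 : 4 * V * (√D)⁻¹ * ∑ g ∈ (Finset.Icc 1 N).filter (fun g : ℕ => (g : ℝ) ≤ D), (√(g : ℝ))⁻¹ ≤ 8 * V := by
    calc _ ≤ 4 * V * (√D)⁻¹ * (2 * √D) := mul_le_mul_of_nonneg_left p1 (by positivity)
      _ = 8 * V := by field_simp; ring
  have p4 : 4 * V * ∑ g ∈ (Finset.Icc 1 N).filter (fun g : ℕ => D < (g : ℝ) ∧ (g : ℝ) ≤ √V), ((g : ℝ))⁻¹ ≤
      4 * V * (1 + 1 / 2 * Real.log (V / D ^ 2)) := mul_le_mul_of_nonneg_left p2 (by positivity)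
  calc _ ≤ 8 * V + 4 * V * (1 + 1 / 2 * Real.log (V / D ^ 2)) := add_le_add p3 p4
    _ = _ := by ring



/-! ### the parametrisation of d1 e1 = d2 e2 -/

theorem I04_key (a1 a2 b1 b2 : ℕ) (h : a1 * a2 = b1 * b2) (ha1 : 0 < a1) (hb1 : 0 < b1) (ha2 : 0 < a2) :
    Nat.gcd a1 b1 * (a1 / Nat.gcd a1 b1) = a1 ∧ Nat.gcd a1 b1 * (b1 / Nat.gcd a1 b1) = b1 ∧
    (b1 / Nat.gcd a1 b1) * Nat.gcd a2 b2 = a2 ∧ (a1 / Nat.gcd a1 b1) * Nat.gcd a2 b2 = b2 ∧
    Nat.Coprime (a1 / Nat.gcd a1 b1) (b1 / Nat.gcd a1 b1) := by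
  have hg : 0 < Nat.gcd a1 b1 := Nat.gcd_pos_of_pos_left _ ha1
  have hx : Nat.gcd a1 b1 * (a1 / Nat.gcd a1 b1) = a1 := Nat.mul_div_cancel' (Nat.gcd_dvd_left _ _)
  have hy : Nat.gcd a1 b1 * (b1 / Nat.gcd a1 b1) = b1 := Nat.mul_div_cancel' (Nat.gcd_dvd_right _ _)
  have hc : Nat.Coprime (a1 / Nat.gcd a1 b1) (b1 / Nat.gcd a1 b1) := Nat.coprime_div_gcd_div_gcd hg
  set g := Nat.gcd a1 b1 with hgdef
  set x := a1 / g with hxdef
  set y := b1 / g with hydef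
  have hxy : x * a2 = y * b2 := by
    apply Nat.eq_of_mul_eq_mul_left hg
    rw [← mul_assoc, ← mul_assoc, hx, hy, h]
  have hyd : y ∣ a2 := hc.symm.dvd_of_dvd_mul_left (Dvd.intro _ hxy.symm)
  obtain ⟨t, ht⟩ := hyd
  have hy0 : 0 < y := by
    rcases Nat.eq_zero_or_pos y with h0 | h0
    · rw [h0] at hy; omega
    · exact h0
  have hb2 : b2 = x * t := by
    apply Nat.eq_of_mul_eq_mul_left hy0
    rw [← hxy, ht]; ring
  have hgt : Nat.gcd a2 b2 = t := by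
    rw [ht, hb2, Nat.gcd_mul_right, hc.symm.gcd_eq_one, one_mul]
  refine ⟨hx, hy, ?_, ?_, hc⟩
  · rw [hgt, ht]
  · rw [hgt, hb2]

theorem I04_bij (N : ℕ) (f : ℕ → ℕ → ℕ → ℕ → ℂ) :
    ∑ n ∈ Finset.Icc 1 N, ∑ a ∈ n.divisorsAntidiagonal, ∑ b ∈ n.divisorsAntidiagonal, f a.1 a.2 b.1 b.2 =
      ∑ g ∈ Finset.Icc 1 N, ∑ l ∈ Finset.Icc 1 N, ∑ x ∈ Finset.Icc 1 N, ∑ y ∈ Finset.Icc 1 N,
        if g * l * (x * y) ≤ N ∧ Nat.Coprime x y then f (g * x) (y * l) (g * y) (x * l) else 0 := by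
  have hL : ∑ n ∈ Finset.Icc 1 N, ∑ a ∈ n.divisorsAntidiagonal, ∑ b ∈ n.divisorsAntidiagonal, f a.1 a.2 b.1 b.2 =
      ∑ p ∈ (Finset.Icc 1 N).sigma (fun n => n.divisorsAntidiagonal ×ˢ n.divisorsAntidiagonal),
        f p.2.1.1 p.2.1.2 p.2.2.1 p.2.2.2 := by
    rw [Finset.sum_sigma]
    apply Finset.sum_congr rfl
    intro n _
    rw [Finset.sum_product]
  have hR : ∑ g ∈ Finset.Icc 1 N, ∑ l ∈ Finset.Icc 1 N, ∑ x ∈ Finset.Icc 1 N, ∑ y ∈ Finset.Icc 1 N,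
        (if g * l * (x * y) ≤ N ∧ Nat.Coprime x y then f (g * x) (y * l) (g * y) (x * l) else 0) =
      ∑ q ∈ ((Finset.Icc 1 N ×ˢ Finset.Icc 1 N) ×ˢ (Finset.Icc 1 N ×ˢ Finset.Icc 1 N)).filter
          (fun q => q.1.1 * q.1.2 * (q.2.1 * q.2.2) ≤ N ∧ Nat.Coprime q.2.1 q.2.2),
        f (q.1.1 * q.2.1) (q.2.2 * q.1.2) (q.1.1 * q.2.2) (q.2.1 * q.1.2) := by
    rw [Finset.sum_filter, Finset.sum_product, Finset.sum_product]
    apply Finset.sum_congr rfl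
    intro g _
    apply Finset.sum_congr rfl
    intro l _
    rw [Finset.sum_product]
  rw [hL, hR]
  refine Finset.sum_bij'
    (fun p _ => ((Nat.gcd p.2.1.1 p.2.2.1, Nat.gcd p.2.1.2 p.2.2.2),
      (p.2.1.1 / Nat.gcd p.2.1.1 p.2.2.1, p.2.2.1 / Nat.gcd p.2.1.1 p.2.2.1)))
    (fun q _ => ⟨q.1.1 * q.2.1 * (q.2.2 * q.1.2), ((q.1.1 * q.2.1, q.2.2 * q.1.2), (q.1.1 * q.2.2, q.2.1 * q.1.2))⟩)
    ?_ ?_ ?_ ?_ ?_
  · rintro ⟨n, ⟨a1, a2⟩, ⟨b1, b2⟩⟩ hp
    simp only [Finset.mem_sigma, Finset.mem_product, Nat.mem_divisorsAntidiagonal, Finset.mem_Icc] at hp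
    obtain ⟨⟨hn1, hnN⟩, ⟨ha, hn0⟩, hb, -⟩ := hp
    have ha1 : 0 < a1 := Nat.pos_of_ne_zero (by rintro rfl; simp at ha; omega)
    have ha2 : 0 < a2 := Nat.pos_of_ne_zero (by rintro rfl; simp at ha; omega)
    have hb1 : 0 < b1 := Nat.pos_of_ne_zero (by rintro rfl; simp at hb; omega)
    obtain ⟨k1, k2, k3, k4, k5⟩ := I04_key a1 a2 b1 b2 (by rw [ha, hb]) ha1 hb1 ha2
    have hg : 0 < Nat.gcd a1 b1 := Nat.gcd_pos_of_pos_left _ ha1
    have hl : 0 < Nat.gcd a2 b2 := Nat.gcd_pos_of_pos_left _ ha2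
    simp only [Finset.mem_filter, Finset.mem_product, Finset.mem_Icc]
    set g := Nat.gcd a1 b1 with hgdef
    set l := Nat.gcd a2 b2 with hldef
    set x := a1 / g with hxdef
    set y := b1 / g with hydef
    have hx0 : 0 < x := Nat.pos_of_ne_zero (by intro h0; rw [h0] at k1; omega)
    have hy0 : 0 < y := Nat.pos_of_ne_zero (by intro h0; rw [h0] at k2; omega)
    have hprod : g * l * (x * y) = n := by rw [← ha, ← k1, ← k3]; ring
    have hprod' : g * l * (x * y) ≤ N := by rw [hprod]; exact hnN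
    have m1 : g ≤ g * l * (x * y) := by
      rw [mul_assoc]; exact Nat.le_mul_of_pos_right _ (by positivity)
    have m2 : l ≤ g * l * (x * y) := by
      have : g * l * (x * y) = l * (g * (x * y)) := by ring
      rw [this]; exact Nat.le_mul_of_pos_right _ (by positivity)
    have m3 : x ≤ g * l * (x * y) := by
      have : g * l * (x * y) = x * (g * l * y) := by ring
      rw [this]; exact Nat.le_mul_of_pos_right _ (by positivity)
    have m4 : y ≤ g * l * (x * y) := by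
      have : g * l * (x * y) = y * (g * l * x) := by ring
      rw [this]; exact Nat.le_mul_of_pos_right _ (by positivity)
    exact ⟨⟨⟨⟨hg, by omega⟩, hl, by omega⟩, ⟨hx0, by omega⟩, hy0, by omega⟩, hprod', k5⟩
  · rintro ⟨⟨g, l⟩, ⟨x, y⟩⟩ hq
    simp only [Finset.mem_filter, Finset.mem_product, Finset.mem_Icc] at hq
    obtain ⟨⟨⟨⟨hg, -⟩, hl, -⟩, ⟨hx, -⟩, hy, -⟩, hN, hc⟩ := hq
    have hpos : 0 < g * x * (y * l) := by positivity
    have e : g * x * (y * l) = g * l * (x * y) := by ring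
    simp only [Finset.mem_sigma, Finset.mem_product, Nat.mem_divisorsAntidiagonal, Finset.mem_Icc]
    refine ⟨⟨hpos, by rw [e]; exact hN⟩, ⟨trivial, by omega⟩, by ring, by omega⟩
  · rintro ⟨n, ⟨a1, a2⟩, ⟨b1, b2⟩⟩ hp
    simp only [Finset.mem_sigma, Finset.mem_product, Nat.mem_divisorsAntidiagonal, Finset.mem_Icc] at hp
    obtain ⟨⟨hn1, hnN⟩, ⟨ha, hn0⟩, hb, -⟩ := hp
    have ha1 : 0 < a1 := Nat.pos_of_ne_zero (by rintro rfl; simp at ha; omega)
    have ha2 : 0 < a2 := Nat.pos_of_ne_zero (by rintro rfl; simp at ha; omega)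
    have hb1 : 0 < b1 := Nat.pos_of_ne_zero (by rintro rfl; simp at hb; omega)
    obtain ⟨k1, k2, k3, k4, k5⟩ := I04_key a1 a2 b1 b2 (by rw [ha, hb]) ha1 hb1 ha2
    simp only [k1, k2, k3, k4, ha]
  · rintro ⟨⟨g, l⟩, ⟨x, y⟩⟩ hq
    simp only [Finset.mem_filter, Finset.mem_product, Finset.mem_Icc] at hq
    obtain ⟨⟨⟨⟨hg, -⟩, hl, -⟩, ⟨hx, -⟩, hy, -⟩, hN, hc⟩ := hq
    have e1 : Nat.gcd (g * x) (g * y) = g := by rw [Nat.gcd_mul_left, hc.gcd_eq_one, mul_one]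
    have e2 : Nat.gcd (y * l) (x * l) = l := by rw [Nat.gcd_mul_right, hc.symm.gcd_eq_one, one_mul]
    simp only [e1, e2, Nat.mul_div_cancel_left _ (show 0 < g from hg)]
  · rintro ⟨n, ⟨a1, a2⟩, ⟨b1, b2⟩⟩ hp
    simp only [Finset.mem_sigma, Finset.mem_product, Nat.mem_divisorsAntidiagonal, Finset.mem_Icc] at hp
    obtain ⟨⟨hn1, hnN⟩, ⟨ha, hn0⟩, hb, -⟩ := hp
    have ha1 : 0 < a1 := Nat.pos_of_ne_zero (by rintro rfl; simp at ha; omega)
    have ha2 : 0 < a2 := Nat.pos_of_ne_zero (by rintro rfl; simp at ha; omega)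
    have hb1 : 0 < b1 := Nat.pos_of_ne_zero (by rintro rfl; simp at hb; omega)
    obtain ⟨k1, k2, k3, k4, k5⟩ := I04_key a1 a2 b1 b2 (by rw [ha, hb]) ha1 hb1 ha2
    simp only [k1, k2, k3, k4]

section
variable {q1 q2 : ℕ}

noncomputable def I04_F (χ1 : DirichletCharacter ℂ q1) (χ2 : DirichletCharacter ℂ q2) (D : ℝ) (a b : ℕ) : ℂ :=
  if D < a ∧ D < b then χ1 (a : ZMod q1) * χ2 (b : ZMod q2) else 0

theorem I04_sq (χ1 : DirichletCharacter ℂ q1) (χ2 : DirichletCharacter ℂ q2) (D : ℝ) (n : ℕ) :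
    ((‖cvD χ1 χ2 D n‖ ^ 2 : ℝ) : ℂ) = ∑ a ∈ n.divisorsAntidiagonal, ∑ b ∈ n.divisorsAntidiagonal,
      I04_F χ1 χ2 D a.1 a.2 * conj (I04_F χ1 χ2 D b.1 b.2) := by
  have h : ((‖cvD χ1 χ2 D n‖ ^ 2 : ℝ) : ℂ) = cvD χ1 χ2 D n * conj (cvD χ1 χ2 D n) := by
    rw [Complex.mul_conj, Complex.normSq_eq_norm_sq]
  rw [h]
  unfold cvD
  rw [map_sum, Finset.sum_mul_sum]
  rfl

theorem I04_gl (χ1 : DirichletCharacter ℂ q1) (χ2 : DirichletCharacter ℂ q2) (D : ℝ) (hD : 0 ≤ D) (N g l : ℕ)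
    (hg : 1 ≤ g) (hl : 1 ≤ l) :
    ∑ x ∈ Finset.Icc 1 N, ∑ y ∈ Finset.Icc 1 N,
        (if g * l * (x * y) ≤ N ∧ Nat.Coprime x y then
          I04_F χ1 χ2 D (g * x) (y * l) * conj (I04_F χ1 χ2 D (g * y) (x * l)) else 0) =
      χ1 (g : ZMod q1) * conj (χ1 (g : ZMod q1)) * (χ2 (l : ZMod q2) * conj (χ2 (l : ZMod q2))) *
        I04_C (fun n : ℕ => χ1 (n : ZMod q1) * conj (χ2 (n : ZMod q2))) N ⌊D / (min g l : ℕ)⌋₊ (N / (g * l)) := by
  set m := ⌊D / (min g l : ℕ)⌋₊ with hm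
  have hμ : (0 : ℝ) < ((min g l : ℕ) : ℝ) := by exact_mod_cast (by omega : 0 < min g l)
  have hcond : ∀ x : ℕ, m < x ↔ D < ((g * x : ℕ) : ℝ) ∧ D < ((x * l : ℕ) : ℝ) := by
    intro x
    rw [hm, Nat.floor_lt (by positivity), div_lt_iff₀ hμ]
    push_cast
    have hx : (0 : ℝ) ≤ x := by positivity
    rw [mul_min_of_nonneg _ _ hx, lt_min_iff, mul_comm (g : ℝ) x]
  have hfil : ∀ F : ℕ → ℂ, ∑ x ∈ Finset.Ioc m N, F x = ∑ x ∈ Finset.Icc 1 N, if m < x then F x else 0 := by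
    intro F
    rw [← Finset.sum_filter]
    apply Finset.sum_congr _ fun _ _ => rfl
    ext x
    simp only [Finset.mem_filter, Finset.mem_Ioc, Finset.mem_Icc]
    omega
  unfold I04_C
  rw [hfil, Finset.mul_sum]
  apply Finset.sum_congr rfl
  intro x _
  rw [hfil]
  have hgl : 0 < g * l := by positivity
  by_cases hx : m < x
  · rw [if_pos hx, Finset.mul_sum]
    apply Finset.sum_congr rfl
    intro y _
    have hdiv : g * l * (x * y) ≤ N ↔ x * y ≤ N / (g * l) := by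
      rw [Nat.le_div_iff_mul_le hgl, mul_comm (x * y)]
    by_cases hy : m < y
    · rw [if_pos hy]
      by_cases hc : x * y ≤ N / (g * l) ∧ Nat.Coprime x y
      · rw [if_pos hc, if_pos ⟨hdiv.2 hc.1, hc.2⟩]
        have cx := (hcond x).1 hx
        have cy := (hcond y).1 hy
        unfold I04_F
        rw [if_pos ⟨cx.1, cy.2⟩, if_pos ⟨cy.1, cx.2⟩]
        push_cast
        simp only [map_mul, Complex.conj_conj]
        ring
      · rw [if_neg hc, if_neg (fun h => hc ⟨hdiv.1 h.1, h.2⟩), mul_zero]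
    · rw [if_neg hy, mul_zero]
      have hy' : ¬ (D < ((g * y : ℕ) : ℝ) ∧ D < ((y * l : ℕ) : ℝ)) := fun h => hy ((hcond y).2 h)
      have hz : I04_F χ1 χ2 D (g * x) (y * l) * conj (I04_F χ1 χ2 D (g * y) (x * l)) = 0 := by
        unfold I04_F
        by_cases h1 : D < ((g * y : ℕ) : ℝ)
        · have h2 : ¬ D < ((y * l : ℕ) : ℝ) := fun h => hy' ⟨h1, h⟩
          rw [if_neg (fun h => h2 h.2), zero_mul]
        · have : ¬ (D < ((g * y : ℕ) : ℝ) ∧ D < ((x * l : ℕ) : ℝ)) := fun h => h1 h.1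
          rw [if_neg this, map_zero, mul_zero]
      rw [hz, ite_self]
  · rw [if_neg hx, mul_zero]
    apply Finset.sum_eq_zero
    intro y _
    have hx' : ¬ (D < ((g * x : ℕ) : ℝ) ∧ D < ((x * l : ℕ) : ℝ)) := fun h => hx ((hcond x).2 h)
    have hz : I04_F χ1 χ2 D (g * x) (y * l) * conj (I04_F χ1 χ2 D (g * y) (x * l)) = 0 := by
      unfold I04_F
      by_cases h1 : D < ((g * x : ℕ) : ℝ)
      · have h2 : ¬ D < ((x * l : ℕ) : ℝ) := fun h => hx' ⟨h1, h⟩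
        have : ¬ (D < ((g * y : ℕ) : ℝ) ∧ D < ((x * l : ℕ) : ℝ)) := fun h => h2 h.2
        rw [if_neg this, map_zero, mul_zero]
      · rw [if_neg (fun h => h1 h.1), zero_mul]
    rw [hz, ite_self]

theorem I04_Ch {ψ : ℕ → ℂ} {M : ℝ} (h1 : ∀ n, ‖ψ n‖ ≤ 1) (hmul : ∀ a b, ψ (a * b) = ψ a * ψ b)
    (hM : ∀ N : ℕ, ‖∑ g ∈ Finset.range N, ψ (g + 1)‖ ≤ M) (V D : ℝ) (hV : 0 ≤ V) (hD : 0 < D) (g l : ℕ)
    (hg : 1 ≤ g) (hl : 1 ≤ l) :
    ‖I04_C ψ ⌊V⌋₊ ⌊D / (min g l : ℕ)⌋₊ (⌊V⌋₊ / (g * l))‖ ≤ 8 * M * (I04_h V D g l + I04_h V D l g) := by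
  have h0 := I04_M_nonneg hM
  have hg0 : (0 : ℝ) < g := by exact_mod_cast hg
  have hl0 : (0 : ℝ) < l := by exact_mod_cast hl
  set m := ⌊D / (min g l : ℕ)⌋₊ with hm
  set w := ⌊V⌋₊ / (g * l) with hw
  have hn1 := I04_h_nonneg V D hV g l
  have hn2 := I04_h_nonneg V D hV l g
  rcases lt_or_ge w ((m + 1) ^ 2) with hlt | hge
  · rw [I04_C_zero _ _ _ hlt, norm_zero]
    positivity
  · refine le_trans (I04_C_bound h1 hmul hM _ _ _) ?_
    apply mul_le_mul_of_nonneg_left _ (by linarith)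
    have hwV : (w : ℝ) ≤ V / (g * l) := by
      refine le_trans Nat.cast_div_le ?_
      push_cast
      exact div_le_div_of_nonneg_right (Nat.floor_le hV) (by positivity)
    have hw34 : (w : ℝ) ^ (3 / 4 : ℝ) ≤ (V / (g * l)) ^ (3 / 4 : ℝ) :=
      Real.rpow_le_rpow (by positivity) hwV (by norm_num)
    have hμ : (0 : ℝ) < ((min g l : ℕ) : ℝ) := by exact_mod_cast (by omega : 0 < min g l)
    have hm1 : D / (min g l : ℕ) < (m : ℝ) + 1 := Nat.lt_floor_add_one _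
    have hge' : ((m : ℝ) + 1) ^ 2 ≤ V / (g * l) := le_trans (by exact_mod_cast hge) hwV
    have hone : (1 : ℝ) ≤ V / (g * l) := by
      refine le_trans ?_ hge'
      have : (0 : ℝ) ≤ m := by positivity
      nlinarith
    have hsq : (D / (min g l : ℕ)) ^ 2 ≤ V / (g * l) := by
      refine le_trans ?_ hge'
      apply pow_le_pow_left₀ (by positivity) hm1.le
    rw [le_div_iff₀ (by positivity)] at hone
    rcases le_total g l with hgl | hgl
    · rw [min_eq_left hgl] at hsq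
      have c1 : (l : ℝ) ≤ V / D ^ 2 * g := by
        rw [div_pow, div_le_div_iff₀ (by positivity) (by positivity)] at hsq
        rw [div_mul_eq_mul_div, le_div_iff₀ (by positivity)]
        have : (l : ℝ) * D ^ 2 * g ≤ V * g * g := by nlinarith
        exact le_of_mul_le_mul_right this hg0
      have c2 : (l : ℝ) ≤ V / g := by
        rw [le_div_iff₀ hg0]; linarith
      have e : I04_h V D g l = (V / (g * l)) ^ (3 / 4 : ℝ) := by
        unfold I04_h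
        rw [if_pos ⟨c1, c2, hgl⟩]
      rw [e]
      linarith
    · rw [min_eq_right hgl] at hsq
      have c1 : (g : ℝ) ≤ V / D ^ 2 * l := by
        rw [div_pow, div_le_div_iff₀ (by positivity) (by positivity)] at hsq
        rw [div_mul_eq_mul_div, le_div_iff₀ (by positivity)]
        have : (g : ℝ) * D ^ 2 * l ≤ V * l * l := by nlinarith
        exact le_of_mul_le_mul_right this hl0
      have c2 : (g : ℝ) ≤ V / l := by
        rw [le_div_iff₀ hl0]; linarith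
      have e : I04_h V D l g = (V / (g * l)) ^ (3 / 4 : ℝ) := by
        unfold I04_h
        rw [if_pos ⟨c1, c2, hgl⟩, mul_comm (l : ℝ) g]
      rw [e]
      linarith

end

/-- Row I04. Mean square of the convolution of two different characters, both factors > D. -/
theorem mean_sq {q1 q2 : ℕ} [NeZero q1] [NeZero q2] {χ1 : DirichletCharacter ℂ q1}
    {χ2 : DirichletCharacter ℂ q2} {M : ℝ}
    (hM : ∀ N : ℕ, ‖∑ g ∈ Finset.range N, χ1 ((g + 1 : ℕ) : ZMod q1) * conj (χ2 ((g + 1 : ℕ) : ZMod q2))‖ ≤ M) :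
    ∃ C : ℝ, 0 ≤ C ∧ ∀ D V : ℝ, 1 / 2 ≤ D → D ^ 2 ≤ V →
      ∑ n ∈ Finset.Icc 1 ⌊V⌋₊, ‖cvD χ1 χ2 D n‖ ^ 2 ≤ C * V * (1 + Real.log (V / D ^ 2)) := by
  set ψ : ℕ → ℂ := fun n : ℕ => χ1 (n : ZMod q1) * conj (χ2 (n : ZMod q2)) with hψ
  have hM' : ∀ N : ℕ, ‖∑ g ∈ Finset.range N, ψ (g + 1)‖ ≤ M := hM
  have h0 := I04_M_nonneg hM'
  have h1 : ∀ n, ‖ψ n‖ ≤ 1 := by
    intro n
    rw [hψ]
    simp only [norm_mul, Complex.norm_conj]
    exact mul_le_one₀ (DirichletCharacter.norm_le_one χ1 _) (norm_nonneg _) (DirichletCharacter.norm_le_one χ2 _)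
  have hmul : ∀ a b, ψ (a * b) = ψ a * ψ b := by
    intro a b
    rw [hψ]
    push_cast
    simp only [map_mul]
    ring
  refine ⟨192 * M, by positivity, ?_⟩
  intro D V hD hDV
  have hD0 : 0 < D := by linarith
  have hV0 : 0 < V := lt_of_lt_of_le (by positivity) hDV
  have hlog0 : 0 ≤ Real.log (V / D ^ 2) := Real.log_nonneg (by rw [le_div_iff₀ (by positivity)]; linarith)
  set N := ⌊V⌋₊ with hN
  have hS : ((∑ n ∈ Finset.Icc 1 N, ‖cvD χ1 χ2 D n‖ ^ 2 : ℝ) : ℂ) =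
      ∑ g ∈ Finset.Icc 1 N, ∑ l ∈ Finset.Icc 1 N,
        χ1 (g : ZMod q1) * conj (χ1 (g : ZMod q1)) * (χ2 (l : ZMod q2) * conj (χ2 (l : ZMod q2))) *
        I04_C ψ N ⌊D / (min g l : ℕ)⌋₊ (N / (g * l)) := by
    rw [Complex.ofReal_sum, Finset.sum_congr rfl fun n _ => I04_sq χ1 χ2 D n,
      I04_bij N (fun a b c d => I04_F χ1 χ2 D a b * conj (I04_F χ1 χ2 D c d))]
    apply Finset.sum_congr rfl
    intro g hg
    apply Finset.sum_congr rfl
    intro l hl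
    exact I04_gl χ1 χ2 D hD0.le N g l (Finset.mem_Icc.1 hg).1 (Finset.mem_Icc.1 hl).1
  have hSnn : 0 ≤ ∑ n ∈ Finset.Icc 1 N, ‖cvD χ1 χ2 D n‖ ^ 2 := Finset.sum_nonneg fun n _ => by positivity
  have hnorm : ∑ n ∈ Finset.Icc 1 N, ‖cvD χ1 χ2 D n‖ ^ 2 =
      ‖((∑ n ∈ Finset.Icc 1 N, ‖cvD χ1 χ2 D n‖ ^ 2 : ℝ) : ℂ)‖ := by
    rw [Complex.norm_real, Real.norm_of_nonneg hSnn]
  rw [hnorm, hS]
  have hterm : ∀ g ∈ Finset.Icc 1 N, ∀ l ∈ Finset.Icc 1 N,
      ‖χ1 (g : ZMod q1) * conj (χ1 (g : ZMod q1)) * (χ2 (l : ZMod q2) * conj (χ2 (l : ZMod q2))) *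
        I04_C ψ N ⌊D / (min g l : ℕ)⌋₊ (N / (g * l))‖ ≤ 8 * M * (I04_h V D g l + I04_h V D l g) := by
    intro g hg l hl
    have b := I04_Ch h1 hmul hM' V D hV0.le hD0 g l (Finset.mem_Icc.1 hg).1 (Finset.mem_Icc.1 hl).1
    rw [norm_mul, norm_mul, norm_mul, norm_mul, Complex.norm_conj, Complex.norm_conj]
    have x1 := DirichletCharacter.norm_le_one χ1 (g : ZMod q1)
    have x2 := DirichletCharacter.norm_le_one χ2 (l : ZMod q2)
    have y1 : ‖χ1 (g : ZMod q1)‖ * ‖χ1 (g : ZMod q1)‖ ≤ 1 := mul_le_one₀ x1 (norm_nonneg _) x1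
    have y2 : ‖χ2 (l : ZMod q2)‖ * ‖χ2 (l : ZMod q2)‖ ≤ 1 := mul_le_one₀ x2 (norm_nonneg _) x2
    have y3 := mul_le_one₀ y1 (by positivity) y2
    calc _ ≤ 1 * ‖I04_C ψ N ⌊D / (min g l : ℕ)⌋₊ (N / (g * l))‖ := mul_le_mul_of_nonneg_right y3 (norm_nonneg _)
      _ ≤ _ := by rw [one_mul]; exact b
  calc _ ≤ ∑ g ∈ Finset.Icc 1 N, ∑ l ∈ Finset.Icc 1 N, 8 * M * (I04_h V D g l + I04_h V D l g) := by
        refine le_trans (norm_sum_le _ _) (Finset.sum_le_sum fun g hg => ?_)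
        exact le_trans (norm_sum_le _ _) (Finset.sum_le_sum fun l hl => hterm g hg l hl)
    _ = 8 * M * (∑ g ∈ Finset.Icc 1 N, ∑ l ∈ Finset.Icc 1 N, I04_h V D g l +
          ∑ g ∈ Finset.Icc 1 N, ∑ l ∈ Finset.Icc 1 N, I04_h V D l g) := by
        simp only [← Finset.mul_sum, Finset.sum_add_distrib]
    _ = 16 * M * ∑ g ∈ Finset.Icc 1 N, ∑ l ∈ Finset.Icc 1 N, I04_h V D g l := by
        have : ∑ g ∈ Finset.Icc 1 N, ∑ l ∈ Finset.Icc 1 N, I04_h V D l g =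
            ∑ g ∈ Finset.Icc 1 N, ∑ l ∈ Finset.Icc 1 N, I04_h V D g l := Finset.sum_comm
        rw [this]; ring
    _ ≤ 16 * M * (V * (12 + 2 * Real.log (V / D ^ 2))) :=
        mul_le_mul_of_nonneg_left (I04_hsum V D hD hDV N) (by positivity)
    _ ≤ 192 * M * V * (1 + Real.log (V / D ^ 2)) := by
        have : 0 ≤ M * V * Real.log (V / D ^ 2) := by positivity
        nlinarith


end II
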