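import Pool.Agent.Lib.MP_0f5a55_nt.II.D

open Complex MeasureTheory Set Filter Topology
open scoped Real ComplexConjugate

namespace II

/-- geometric series with a periodic character -/
private theorem I08_geo {q : ℕ} [NeZero q] (χ : DirichletCharacter ℂ q) {Z : ℂ} (hZ : ‖Z‖ < 1) (E : ℕ) :
    ‖∑' v : ℕ, χ ((E + v : ℕ) : ZMod q) * Z ^ (E + v)‖ ≤ q * ‖Z‖ ^ E * ‖1 - Z ^ q‖⁻¹ := by
  have hq : q ≠ 0 := NeZero.ne q
  set a : ℕ → ℂ := fun v => χ ((E + v : ℕ) : ZMod q) * Z ^ (E + v) with ha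
  have hn : ∀ v, ‖a v‖ ≤ ‖Z‖ ^ (E + v) := by
    intro v
    rw [ha]
    simp only [norm_mul, norm_pow]
    exact mul_le_of_le_one_left (by positivity) (χ.norm_le_one _)
  have hs0 : Summable fun v : ℕ => ‖Z‖ ^ (E + v) := by
    simp_rw [pow_add]
    exact (summable_geometric_of_lt_one (norm_nonneg _) hZ).mul_left _
  have hs : Summable a := Summable.of_norm_bounded hs0 hn
  have hper : ∀ v, a (v + q) = Z ^ q * a v := by
    intro v
    rw [ha]
    simp only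
    have e1 : ((E + (v + q) : ℕ) : ZMod q) = ((E + v : ℕ) : ZMod q) := by
      push_cast
      rw [ZMod.natCast_self, add_zero]
    rw [e1, ← add_assoc, pow_add]
    ring
  have h1 := hs.sum_add_tsum_nat_add q
  have h2 : ∑' v, a (v + q) = Z ^ q * ∑' v, a v := by
    simp_rw [hper]
    exact tsum_mul_left
  rw [h2] at h1
  have hne : 1 - Z ^ q ≠ 0 := by
    intro h
    have h3 : ‖Z ^ q‖ = 1 := by
      rw [← sub_eq_zero.1 h, norm_one]
    rw [norm_pow] at h3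
    exact absurd h3 (pow_lt_one₀ (norm_nonneg _) hZ hq).ne
  have h3 : (∑' v, a v) * (1 - Z ^ q) = ∑ v ∈ Finset.range q, a v := by
    linear_combination -h1
  have h4 : ‖∑ v ∈ Finset.range q, a v‖ ≤ q * ‖Z‖ ^ E := by
    refine (norm_sum_le _ _).trans ?_
    have h5 : ∀ v ∈ Finset.range q, ‖a v‖ ≤ ‖Z‖ ^ E := by
      intro v _
      refine (hn v).trans ?_
      rw [pow_add]
      exact mul_le_of_le_one_right (by positivity) (pow_le_one₀ (norm_nonneg _) hZ.le)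
    refine (Finset.sum_le_card_nsmul _ _ _ h5).trans (le_of_eq ?_)
    rw [Finset.card_range, nsmul_eq_mul]
  have h5 : ‖∑' v, a v‖ = ‖∑ v ∈ Finset.range q, a v‖ * ‖1 - Z ^ q‖⁻¹ := by
    rw [← h3, norm_mul, mul_assoc, mul_inv_cancel₀ (norm_ne_zero_iff.2 hne), mul_one]
  rw [h5]
  gcongr

private theorem I08_nd_nonneg (y : ℝ) : 0 ≤ nd y := abs_nonneg _

private theorem I08_one (y : ℝ) : 4 * nd y ≤ ‖1 - exp (((2 * π * y : ℝ) : ℂ) * I)‖ := by
  have h1 : exp (((2 * π * y : ℝ) : ℂ) * I) = exp (I * ((2 * π * (y - round y) : ℝ) : ℂ)) := by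
    rw [exp_eq_exp_iff_exists_int]
    refine ⟨round y, ?_⟩
    push_cast
    ring
  rw [h1, norm_sub_rev, Complex.norm_exp_I_mul_ofReal_sub_one, Real.norm_eq_abs, abs_mul, abs_two]
  have h2 : 2 * π * (y - round y) / 2 = π * (y - round y) := by ring
  rw [h2]
  have h3 : |π * (y - round y)| ≤ π / 2 := by
    rw [abs_mul, abs_of_pos Real.pi_pos]
    have := abs_sub_round y
    nlinarith [Real.pi_pos]
  have h4 := Real.mul_abs_le_abs_sin h3
  rw [abs_mul, abs_of_pos Real.pi_pos] at h4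
  have h5 : 2 / π * (π * |y - round y|) = 2 * nd y := by
    unfold nd
    field_simp
  rw [h5] at h4
  linarith

private theorem I08_one' (y : ℝ) : 4 * nd y ≤ ‖1 - exp (((2 * π * (-y) : ℝ) : ℂ) * I)‖ := by
  refine (I08_one y).trans (le_of_eq ?_)
  have h : 1 - exp (((2 * π * (-y) : ℝ) : ℂ) * I) = conj (1 - exp (((2 * π * y : ℝ) : ℂ) * I)) := by
    rw [map_sub, map_one, ← exp_conj, map_mul, conj_ofReal, conj_I]
    congr 2
    push_cast
    ring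
  rw [h, norm_conj]

private theorem I08_low {η y : ℝ} (hη : 0 < η) :
    (min η 1 + nd y) / 4 ≤ ‖1 - exp (-(2 * π * ((η : ℂ) + y * I)))‖ := by
  set w : ℝ := Real.exp (-(2 * π * η)) with hw
  have hpi := Real.pi_gt_three
  have hw0 : 0 < w := Real.exp_pos _
  have hw1 : w < 1 := by
    rw [hw, Real.exp_lt_one_iff]
    have : 0 < 2 * π * η := by positivity
    linarith
  have e1 : exp (-(2 * π * ((η : ℂ) + y * I))) = (w : ℂ) * exp (((2 * π * (-y) : ℝ) : ℂ) * I) := by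
    rw [hw, ofReal_exp, ← exp_add]
    congr 1
    push_cast
    ring
  rw [e1]
  set s : ℂ := exp (((2 * π * (-y) : ℝ) : ℂ) * I) with hs
  have hs1 : ‖s‖ = 1 := norm_exp_ofReal_mul_I _
  have h1 : 1 - w ≤ ‖1 - (w : ℂ) * s‖ := by
    have h := norm_sub_norm_le (1 : ℂ) ((w : ℂ) * s)
    rw [norm_one, norm_mul, hs1, mul_one, norm_real, Real.norm_of_nonneg hw0.le] at h
    exact h
  have h2 : ‖1 - s‖ ≤ 2 * ‖1 - (w : ℂ) * s‖ := by
    have e : 1 - s = (1 - (w : ℂ) * s) + ((w : ℂ) - 1) * s := by ring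
    have h3 : ‖((w : ℂ) - 1) * s‖ = 1 - w := by
      rw [norm_mul, hs1, mul_one]
      have : (w : ℂ) - 1 = ((w - 1 : ℝ) : ℂ) := by push_cast; ring
      rw [this, norm_real, Real.norm_eq_abs, abs_of_neg (by linarith)]
      ring
    rw [e]
    refine (norm_add_le _ _).trans ?_
    rw [h3]
    linarith
  have h3 : 4 * nd y ≤ ‖1 - s‖ := I08_one' y
  have h4 : min η 1 / 2 ≤ 1 - w := by
    have h5 : 1 + 2 * π * η ≤ Real.exp (2 * π * η) := by
      have := Real.add_one_le_exp (2 * π * η)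
      linarith
    have h6 : w * Real.exp (2 * π * η) = 1 := by
      rw [hw, ← Real.exp_add]
      simp
    have h7 : w * (1 + 2 * π * η) ≤ 1 := (mul_le_mul_of_nonneg_left h5 hw0.le).trans h6.le
    rcases le_total η 1 with h | h
    · rw [min_eq_left h]
      by_contra hcon
      push Not at hcon
      have h8 : 1 - η / 2 < w := by linarith
      have h9 : 0 < 1 + 2 * π * η := by positivity
      have h10 : (1 - η / 2) * (1 + 2 * π * η) < 1 := lt_of_lt_of_le (mul_lt_mul_of_pos_right h8 h9) h7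
      nlinarith [mul_pos hη (by linarith : (0:ℝ) < π)]
    · rw [min_eq_right h]
      by_contra hcon
      push Not at hcon
      have h8 : 1 / 2 < w := by linarith
      have h9 : 3 < 1 + 2 * π * η := by nlinarith
      nlinarith
  have h5 := I08_nd_nonneg y
  linarith

/-- the variable -/
private noncomputable def I08_z (θ ε x : ℝ) : ℂ := exp (-(2 * π * θ * x * om ε))

private theorem I08_sin {ε : ℝ} (h0 : 0 < ε) (h1 : ε ≤ 1 / 2) : ε / 2 ≤ Real.sin ε := by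
  have hpi := Real.pi_gt_three
  have hpi4 := Real.pi_le_four
  have h := Real.mul_le_sin h0.le (by linarith)
  have h2 : 1 / 2 * ε ≤ 2 / π * ε := by
    apply mul_le_mul_of_nonneg_right _ h0.le
    rw [div_le_div_iff₀ (by norm_num) Real.pi_pos]
    linarith
  linarith

private theorem I08_z_norm (θ ε x : ℝ) : ‖I08_z θ ε x‖ = Real.exp (-(2 * π * θ * x * Real.sin ε)) := by
  unfold I08_z
  rw [norm_exp, om_eq]
  congr 1
  have : -(2 * (π : ℂ) * θ * x * ((Real.sin ε : ℝ) + (Real.cos ε : ℝ) * I)) =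
      ((-(2 * π * θ * x * Real.sin ε) : ℝ) : ℂ) + ((-(2 * π * θ * x * Real.cos ε) : ℝ) : ℂ) * I := by
    push_cast
    ring
  rw [this, add_re, ofReal_re, re_ofReal_mul, I_re, mul_zero, add_zero]

private theorem I08_z_lt {θ ε x : ℝ} (hθ : 0 < θ) (h0 : 0 < ε) (h1 : ε ≤ 1 / 2) (hx : 0 < x) :
    ‖I08_z θ ε x‖ < 1 := by
  rw [I08_z_norm, Real.exp_lt_one_iff]
  have h2 : 0 < Real.sin ε := by linarith [I08_sin h0 h1]
  have : 0 < 2 * π * θ * x * Real.sin ε := by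
    have := Real.pi_pos
    positivity
  linarith

/-- the inner sums -/
private theorem I08_master {q : ℕ} [NeZero q] (χ : DirichletCharacter ℂ q) {θ : ℝ} (hθ : 0 < θ) :
    ∃ C : ℝ, 0 ≤ C ∧ ∀ ε x : ℝ, 0 < ε → ε ≤ 1 / 2 → 0 < x → ∀ u E : ℕ, 1 ≤ u →
      ‖∑' v : ℕ, χ ((E + v : ℕ) : ZMod q) * (I08_z θ ε x ^ u) ^ (E + v)‖ ≤
        C * ((1 + ε * u * x) * Real.exp (-(3 * θ * ε * x * (u * E))) *
          (ε * u * x + nd (q * θ * u * (Real.cos ε * x)))⁻¹) := by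
  have hq : 1 ≤ q := Nat.one_le_iff_ne_zero.2 (NeZero.ne q)
  have hqr : (1 : ℝ) ≤ q := by exact_mod_cast hq
  refine ⟨q * (4 * (1 + 2 / θ)), by positivity, fun ε x h0 h1 hx u E hu => ?_⟩
  have hpi := Real.pi_gt_three
  have hsin := I08_sin h0 h1
  have hsin0 : 0 < Real.sin ε := by linarith
  have hur : (1 : ℝ) ≤ u := by exact_mod_cast hu
  have hzl := I08_z_lt hθ h0 h1 hx
  set z := I08_z θ ε x with hz
  have hZ : ‖z ^ u‖ < 1 := by
    rw [norm_pow]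
    exact pow_lt_one₀ (norm_nonneg _) hzl (by omega)
  refine (I08_geo χ hZ E).trans ?_
  set s : ℝ := ε * u * x with hs
  have hs0 : 0 < s := by positivity
  set η : ℝ := q * θ * u * x * Real.sin ε with hη
  have hη0 : 0 < η := by positivity
  set y : ℝ := q * θ * u * (Real.cos ε * x) with hy
  have hηs : θ / 2 * s ≤ η := by
    have h2 : θ / 2 * s = 1 * θ * u * x * (ε / 2) := by
      rw [hs]
      ring
    rw [h2, hη]
    gcongr
  have hK : 0 < 1 + 2 / θ := by positivity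
  have hnd := I08_nd_nonneg y
  have hmin : 0 < min η 1 := lt_min hη0 one_pos
  have h2 : s ≤ (1 + 2 / θ) * (1 + s) * min η 1 := by
    have h2θ : 0 < 2 / θ := by positivity
    rcases le_total η 1 with h | h
    · rw [min_eq_left h]
      have h3 : 2 / θ * (θ / 2 * s) = s := by field_simp
      have h4 : 2 / θ * (θ / 2 * s) ≤ 2 / θ * η := by gcongr
      have h5 : 2 / θ * η ≤ (1 + 2 / θ) * (1 + s) * η := by
        apply mul_le_mul_of_nonneg_right _ hη0.le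
        nlinarith
      linarith
    · rw [min_eq_right h, mul_one]
      nlinarith
  have h3 : nd y ≤ (1 + 2 / θ) * (1 + s) * nd y := by
    apply le_mul_of_one_le_left hnd
    have h2θ : 0 < 2 / θ := by positivity
    nlinarith
  have h4 : s + nd y ≤ 4 * (1 + 2 / θ) * (1 + s) * ‖1 - (z ^ u) ^ q‖ := by
    have h5 : (z ^ u) ^ q = exp (-(2 * π * ((η : ℂ) + y * I))) := by
      rw [hz, I08_z, ← pow_mul, ← exp_nat_mul, om_eq, hη, hy]
      congr 1
      push_cast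
      ring
    rw [h5]
    have h6 := I08_low (y := y) hη0
    have h7 : 0 < (1 + 2 / θ) * (1 + s) := by positivity
    have h8 := mul_le_mul_of_nonneg_left h6 h7.le
    nlinarith
  have hpos : 0 < s + nd y := by linarith
  have hnp : 0 < ‖1 - (z ^ u) ^ q‖ := by
    by_contra hcon
    have h5 : ‖1 - (z ^ u) ^ q‖ = 0 := le_antisymm (not_lt.1 hcon) (norm_nonneg _)
    rw [h5, mul_zero] at h4
    linarith
  have h5 : ‖1 - (z ^ u) ^ q‖⁻¹ ≤ 4 * (1 + 2 / θ) * (1 + s) * (s + nd y)⁻¹ := by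
    rw [inv_le_iff_one_le_mul₀ hnp]
    calc (1 : ℝ) = (s + nd y) * (s + nd y)⁻¹ := by rw [mul_inv_cancel₀ hpos.ne']
      _ ≤ (4 * (1 + 2 / θ) * (1 + s) * ‖1 - (z ^ u) ^ q‖) * (s + nd y)⁻¹ := by gcongr
      _ = _ := by ring
  have h6 : ‖z ^ u‖ ^ E ≤ Real.exp (-(3 * θ * ε * x * (u * E))) := by
    rw [norm_pow, hz, I08_z_norm, ← pow_mul, ← Real.exp_nat_mul]
    apply Real.exp_le_exp.2
    push_cast
    have h7 : 3 * θ * ε * x * ((u : ℝ) * E) ≤ (u : ℝ) * E * (2 * π * θ * x * Real.sin ε) := by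
      have h8 : 3 * ε ≤ 2 * π * Real.sin ε := by nlinarith
      have h9 : 0 ≤ θ * x * ((u : ℝ) * E) := by positivity
      nlinarith [mul_le_mul_of_nonneg_right h8 h9]
    linarith
  calc (q : ℝ) * ‖z ^ u‖ ^ E * ‖1 - (z ^ u) ^ q‖⁻¹
      ≤ q * Real.exp (-(3 * θ * ε * x * (u * E))) * (4 * (1 + 2 / θ) * (1 + s) * (s + nd y)⁻¹) := by
        gcongr
    _ = _ := by ring

/-- rearrangement -/
private theorem I08_sum {w : ℕ × ℕ → ℂ} (hw : ∀ p, ‖w p‖ ≤ 1) {z : ℂ} (hz : ‖z‖ < 1) :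
    Summable fun p : ℕ × ℕ => w (p.1 + 1, p.2 + 1) * z ^ ((p.1 + 1) * (p.2 + 1)) := by
  have h1 : Summable fun p : ℕ × ℕ => ‖z‖ ^ p.1 * ‖z‖ ^ p.2 :=
    (summable_geometric_of_lt_one (norm_nonneg _) hz).mul_of_nonneg
      (summable_geometric_of_lt_one (norm_nonneg _) hz) (fun n => by positivity) (fun n => by positivity)
  refine Summable.of_norm_bounded h1 fun p => ?_
  rw [norm_mul, norm_pow, ← pow_add]
  have h2 : ‖z‖ ^ ((p.1 + 1) * (p.2 + 1)) ≤ ‖z‖ ^ (p.1 + p.2) :=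
    pow_le_pow_of_le_one (norm_nonneg _) hz.le (by nlinarith [Nat.zero_le (p.1 * p.2)])
  calc _ ≤ 1 * ‖z‖ ^ (p.1 + p.2) := by
        gcongr
        exact hw _
    _ = _ := one_mul _

private theorem I08_conv {w : ℕ × ℕ → ℂ} (hw : ∀ p, ‖w p‖ ≤ 1) {z : ℂ} (hz : ‖z‖ < 1) :
    ∑' n : ℕ, (∑ p ∈ (n + 1).divisorsAntidiagonal, w p) * z ^ (n + 1) =
      ∑' p : ℕ × ℕ, w (p.1 + 1, p.2 + 1) * z ^ ((p.1 + 1) * (p.2 + 1)) := by
  set F : ℕ × ℕ → ℂ := fun p => w (p.1 + 1, p.2 + 1) * z ^ ((p.1 + 1) * (p.2 + 1)) with hF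
  set g : ℕ × ℕ → ℕ := fun p => (p.1 + 1) * (p.2 + 1) - 1 with hg
  have hs : Summable F := I08_sum hw hz
  have h1 : ∑' s : (Σ n, {p // g p = n}), F s.2 = ∑' p, F p :=
    (Equiv.sigmaFiberEquiv g).tsum_eq F
  have hs1 : Summable fun s : (Σ n, {p // g p = n}) => F s.2 :=
    (Equiv.sigmaFiberEquiv g).summable_iff.2 hs
  rw [← h1, hs1.tsum_sigma]
  congr 1
  funext n
  set t : Finset (ℕ × ℕ) := (Finset.range (n + 1) ×ˢ Finset.range (n + 1)).filter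
    fun p => (p.1 + 1) * (p.2 + 1) = n + 1 with ht
  have hmem : ∀ p, g p = n ↔ p ∈ t := by
    intro p
    have h3 : 0 < (p.1 + 1) * (p.2 + 1) := by positivity
    rw [ht, Finset.mem_filter, Finset.mem_product, Finset.mem_range, Finset.mem_range, hg]
    simp only
    constructor
    · intro h
      have h4 : (p.1 + 1) * (p.2 + 1) = n + 1 := by omega
      refine ⟨⟨?_, ?_⟩, h4⟩
      · nlinarith
      · nlinarith
    · intro h
      omega
  have h2 : ∑' p : {p // g p = n}, F p = ∑ p ∈ t, F p := by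
    rw [← Finset.tsum_subtype t F]
    exact (Equiv.subtypeEquivRight hmem).tsum_eq (fun p : {p // p ∈ t} => F p)
  rw [h2, Finset.sum_mul]
  refine Finset.sum_nbij' (fun p => (p.1 - 1, p.2 - 1)) (fun p => (p.1 + 1, p.2 + 1)) ?_ ?_ ?_ ?_ ?_
  · intro p hp
    rw [Nat.mem_divisorsAntidiagonal] at hp
    have h3 : 0 < p.1 := by
      rcases Nat.eq_zero_or_pos p.1 with h | h
      · rw [h, zero_mul] at hp
        omega
      · exact h
    have h4 : 0 < p.2 := by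
      rcases Nat.eq_zero_or_pos p.2 with h | h
      · rw [h, mul_zero] at hp
        omega
      · exact h
    rw [← hmem, hg]
    simp only
    rw [Nat.sub_add_cancel h3, Nat.sub_add_cancel h4, hp.1]
    omega
  · intro p hp
    rw [ht, Finset.mem_filter] at hp
    rw [Nat.mem_divisorsAntidiagonal]
    exact ⟨hp.2, by omega⟩
  · intro p hp
    rw [Nat.mem_divisorsAntidiagonal] at hp
    have h3 : 0 < p.1 := by
      rcases Nat.eq_zero_or_pos p.1 with h | h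
      · rw [h, zero_mul] at hp
        omega
      · exact h
    have h4 : 0 < p.2 := by
      rcases Nat.eq_zero_or_pos p.2 with h | h
      · rw [h, mul_zero] at hp
        omega
      · exact h
    simp only
    rw [Nat.sub_add_cancel h3, Nat.sub_add_cancel h4]
  · intro p hp
    simp
  · intro p hp
    rw [Nat.mem_divisorsAntidiagonal] at hp
    have h3 : 0 < p.1 := by
      rcases Nat.eq_zero_or_pos p.1 with h | h
      · rw [h, zero_mul] at hp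
        omega
      · exact h
    have h4 : 0 < p.2 := by
      rcases Nat.eq_zero_or_pos p.2 with h | h
      · rw [h, mul_zero] at hp
        omega
      · exact h
    rw [hF]
    simp only
    rw [Nat.sub_add_cancel h3, Nat.sub_add_cancel h4, hp.1]

/-- tail -/
private theorem I08_tail (h : ℕ → ℂ) (N : ℕ) (hs : Summable h) :
    ∑' b, (if N ≤ b then h b else 0) = ∑' v, h (N + v) := by
  have hs1 : Summable fun b => if N ≤ b then h b else 0 := by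
    refine Summable.of_norm_bounded hs.norm fun b => ?_
    split_ifs
    · exact le_rfl
    · simp
  rw [← hs1.sum_add_tsum_nat_add N]
  have h1 : ∑ b ∈ Finset.range N, (if N ≤ b then h b else 0) = 0 :=
    Finset.sum_eq_zero fun b hb => if_neg (not_le.2 (Finset.mem_range.1 hb))
  rw [h1, zero_add]
  congr 1
  funext v
  rw [if_pos (by omega), add_comm]

private theorem I08_FE (w : ℕ × ℕ → ℂ) (hw : ∀ p, ‖w p‖ ≤ 1) {θ ε x : ℝ} (hθ : 0 < θ) (h0 : 0 < ε)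
    (h1 : ε ≤ 1 / 2) (hx : 0 < x) :
    FE (fun n => ∑ p ∈ n.divisorsAntidiagonal, w p) θ ε x =
      ∑' p : ℕ × ℕ, w (p.1 + 1, p.2 + 1) * I08_z θ ε x ^ ((p.1 + 1) * (p.2 + 1)) := by
  rw [← I08_conv hw (I08_z_lt hθ h0 h1 hx)]
  unfold FE
  congr 1
  funext n
  congr 1
  unfold I08_z
  rw [← exp_nat_mul]
  congr 1
  push_cast
  ring

/-- bound of one row of the hyperbola -/
private theorem I08_row {q : ℕ} [NeZero q] (χ : DirichletCharacter ℂ q) {z : ℂ} (hz : ‖z‖ < 1) (s : ℂ) (u N : ℕ) :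
    ∑' b : ℕ, (if N ≤ b then s * χ ((b + 1 : ℕ) : ZMod q) * z ^ ((u + 1) * (b + 1)) else 0) =
      s * ∑' v : ℕ, χ ((N + 1 + v : ℕ) : ZMod q) * (z ^ (u + 1)) ^ (N + 1 + v) := by
  have hs : Summable fun b : ℕ => s * χ ((b + 1 : ℕ) : ZMod q) * z ^ ((u + 1) * (b + 1)) := by
    have h1 : Summable fun b : ℕ => ‖s‖ * ‖z‖ ^ b :=
      (summable_geometric_of_lt_one (norm_nonneg _) hz).mul_left _
    refine Summable.of_norm_bounded h1 fun b => ?_
    rw [norm_mul, norm_mul, norm_pow]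
    have h2 : ‖z‖ ^ ((u + 1) * (b + 1)) ≤ ‖z‖ ^ b :=
      pow_le_pow_of_le_one (norm_nonneg _) hz.le (by nlinarith [Nat.zero_le (u * b)])
    calc _ ≤ ‖s‖ * 1 * ‖z‖ ^ b := by
          gcongr
          exact χ.norm_le_one _
      _ = _ := by ring
  rw [I08_tail _ N hs, ← tsum_mul_left]
  congr 1
  funext v
  rw [← pow_mul]
  have e1 : N + v + 1 = N + 1 + v := by ring
  rw [e1]
  ring

private theorem I08_absorb {θ ε x : ℝ} (hθ : 0 < θ) (h0 : 0 < ε) (hx : 0 < x) (u E : ℕ) (hE : u + 1 ≤ E) :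
    (1 + ε * ((u + 1 : ℕ) : ℝ) * x) * Real.exp (-(3 * θ * ε * x * (((u + 1 : ℕ) : ℝ) * E))) ≤
      (1 + 1 / (2 * θ)) * Real.exp (-(θ * ε * ((u : ℝ) + 1) ^ 2 * x)) := by
  set s : ℝ := ε * ((u : ℝ) + 1) ^ 2 * x with hs
  have hu : (0 : ℝ) ≤ u := Nat.cast_nonneg u
  have hs0 : 0 < s := by positivity
  have hE' : (u : ℝ) + 1 ≤ E := by exact_mod_cast hE
  push_cast
  have h1 : 1 + ε * ((u : ℝ) + 1) * x ≤ 1 + s := by
    rw [hs]
    have : (u : ℝ) + 1 ≤ ((u : ℝ) + 1) ^ 2 := by nlinarith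
    gcongr
  have h2 : Real.exp (-(3 * θ * ε * x * (((u : ℝ) + 1) * E))) ≤ Real.exp (-(3 * θ * s)) := by
    apply Real.exp_le_exp.2
    have h3 : 3 * θ * s ≤ 3 * θ * ε * x * (((u : ℝ) + 1) * E) := by
      have h4 : 3 * θ * s = 3 * θ * ε * x * (((u : ℝ) + 1) * ((u : ℝ) + 1)) := by
        rw [hs]
        ring
      rw [h4]
      gcongr
    linarith
  have h3 : 1 + s ≤ (1 + 1 / (2 * θ)) * Real.exp (2 * θ * s) := by
    have h4 : 1 + 2 * θ * s ≤ Real.exp (2 * θ * s) := by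
      have := Real.add_one_le_exp (2 * θ * s)
      linarith
    have h5 : (1 + 1 / (2 * θ)) * (1 + 2 * θ * s) ≤ (1 + 1 / (2 * θ)) * Real.exp (2 * θ * s) := by gcongr
    have h6 : (1 + 1 / (2 * θ)) * (1 + 2 * θ * s) = 1 + 2 * θ * s + 1 / (2 * θ) + s := by
      field_simp
      ring
    have h7 : 0 < 1 / (2 * θ) := by positivity
    have h8 : 0 < 2 * θ * s := by positivity
    linarith
  calc (1 + ε * ((u : ℝ) + 1) * x) * Real.exp (-(3 * θ * ε * x * (((u : ℝ) + 1) * E)))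
      ≤ (1 + s) * Real.exp (-(3 * θ * s)) := by gcongr
    _ ≤ ((1 + 1 / (2 * θ)) * Real.exp (2 * θ * s)) * Real.exp (-(3 * θ * s)) := by gcongr
    _ = (1 + 1 / (2 * θ)) * Real.exp (-(θ * ε * ((u : ℝ) + 1) ^ 2 * x)) := by
      rw [mul_assoc, ← Real.exp_add, hs]
      congr 2
      ring

private theorem I08_summ {θ ε x K : ℝ} (hθ : 0 < θ) (h0 : 0 < ε) (hx : 0 < x) {f : ℕ → ℝ}
    (hf0 : ∀ u, 0 ≤ f u) (hf : ∀ u, f u ≤ K) :
    Summable fun u : ℕ => Real.exp (-(θ * ε * ((u : ℝ) + 1) ^ 2 * x)) * f u := by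
  have h1 : Real.exp (-(θ * ε * x)) < 1 := by
    rw [Real.exp_lt_one_iff]
    have : 0 < θ * ε * x := by positivity
    linarith
  have h2 : Summable fun u : ℕ => Real.exp (-(θ * ε * x)) ^ u * K :=
    (summable_geometric_of_lt_one (Real.exp_pos _).le h1).mul_right K
  refine Summable.of_nonneg_of_le (fun u => mul_nonneg (Real.exp_pos _).le (hf0 u)) (fun u => ?_) h2
  have hu : (0 : ℝ) ≤ u := Nat.cast_nonneg u
  have h3 : Real.exp (-(θ * ε * ((u : ℝ) + 1) ^ 2 * x)) ≤ Real.exp (-(θ * ε * x)) ^ u := by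
    rw [← Real.exp_nat_mul]
    apply Real.exp_le_exp.2
    have h4 : (u : ℝ) * (θ * ε * x) ≤ ((u : ℝ) + 1) ^ 2 * (θ * ε * x) := by
      have h5 : 0 < θ * ε * x := by positivity
      apply mul_le_mul_of_nonneg_right _ h5.le
      nlinarith
    linarith
  exact mul_le_mul h3 (hf u) (hf0 u) (by positivity)

private theorem I08_inv_nonneg {ε x : ℝ} (h0 : 0 < ε) (hx : 0 < x) (u : ℕ) (y : ℝ) :
    0 ≤ (ε * ((u : ℝ) + 1) * x + nd y)⁻¹ := by
  have := I08_nd_nonneg y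
  positivity

private theorem I08_inv_le {ε x : ℝ} (h0 : 0 < ε) (hx : 0 < x) (u : ℕ) (y : ℝ) :
    (ε * ((u : ℝ) + 1) * x + nd y)⁻¹ ≤ (ε * x)⁻¹ := by
  have h1 := I08_nd_nonneg y
  have hu : (0 : ℝ) ≤ u := Nat.cast_nonneg u
  apply inv_anti₀ (by positivity)
  have h2 : 0 ≤ ε * x * u := by positivity
  nlinarith

/-- Row I08. Hyperbola method and geometric series, pointwise. -/
theorem FE_cv_le {q3 q4 : ℕ} [NeZero q3] [NeZero q4] (χ3 : DirichletCharacter ℂ q3)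
    (χ4 : DirichletCharacter ℂ q4) {θ : ℝ} (hθ : 0 < θ) : ∃ C c : ℝ, 0 ≤ C ∧ 0 < c ∧
    ∀ ε x : ℝ, 0 < ε → ε ≤ 1 / 2 → 0 < x →
      ‖FE (cv χ3 χ4) θ ε x‖ ≤ C * ∑' u : ℕ, Real.exp (-(c * ε * ((u : ℝ) + 1) ^ 2 * x)) *
        ((ε * ((u : ℝ) + 1) * x + nd (q4 * θ * ((u : ℝ) + 1) * (Real.cos ε * x)))⁻¹ +
          (ε * ((u : ℝ) + 1) * x + nd (q3 * θ * ((u : ℝ) + 1) * (Real.cos ε * x)))⁻¹) := by
  obtain ⟨C4, hC4, h4⟩ := I08_master χ4 hθ
  obtain ⟨C3, hC3, h3⟩ := I08_master χ3 hθ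
  set A : ℝ := 1 + 1 / (2 * θ) with hA
  have hA0 : 0 < A := by positivity
  refine ⟨(C4 + C3) * A, θ, by positivity, hθ, fun ε x h0 h1 hx => ?_⟩
  have hz := I08_z_lt hθ h0 h1 hx
  set z := I08_z θ ε x with hzdef
  set w : ℕ × ℕ → ℂ := fun p => χ3 ((p.1 : ℕ) : ZMod q3) * χ4 ((p.2 : ℕ) : ZMod q4) with hwdef
  have hw : ∀ p, ‖w p‖ ≤ 1 := by
    intro p
    rw [hwdef]
    simp only [norm_mul]
    exact mul_le_one₀ (χ3.norm_le_one _) (norm_nonneg _) (χ4.norm_le_one _)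
  have hFE : FE (cv χ3 χ4) θ ε x = ∑' p : ℕ × ℕ, w (p.1 + 1, p.2 + 1) * z ^ ((p.1 + 1) * (p.2 + 1)) :=
    I08_FE w hw hθ h0 h1 hx
  set F : ℕ × ℕ → ℂ := fun p => w (p.1 + 1, p.2 + 1) * z ^ ((p.1 + 1) * (p.2 + 1)) with hF
  have hFs : Summable F := I08_sum hw hz
  set F1 : ℕ × ℕ → ℂ := fun p => if p.1 ≤ p.2 then F p else 0 with hF1
  set F2 : ℕ × ℕ → ℂ := fun p => if p.2 + 1 ≤ p.1 then F p else 0 with hF2
  have s1 : Summable F1 := by
    refine Summable.of_norm_bounded hFs.norm fun p => ?_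
    rw [hF1]
    simp only
    split_ifs
    · exact le_rfl
    · simp
  have s2 : Summable F2 := by
    refine Summable.of_norm_bounded hFs.norm fun p => ?_
    rw [hF2]
    simp only
    split_ifs
    · exact le_rfl
    · simp
  have hsplit : ∑' p, F p = (∑' p, F1 p) + ∑' p, F2 p := by
    rw [← s1.tsum_add s2]
    congr 1
    funext p
    rw [hF1, hF2]
    simp only
    by_cases h : p.1 ≤ p.2
    · rw [if_pos h, if_neg (by omega), add_zero]
    · rw [if_neg h, if_pos (by omega), zero_add]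
  have e1 : ∑' p, F1 p = ∑' a : ℕ, χ3 ((a + 1 : ℕ) : ZMod q3) *
      ∑' v : ℕ, χ4 ((a + 1 + v : ℕ) : ZMod q4) * (z ^ (a + 1)) ^ (a + 1 + v) := by
    rw [s1.tsum_prod]
    congr 1
    funext a
    rw [← I08_row χ4 hz (χ3 ((a + 1 : ℕ) : ZMod q3)) a a]
  have s2' : Summable fun p : ℕ × ℕ => F2 p.swap := (Equiv.prodComm ℕ ℕ).summable_iff.2 s2
  have e2 : ∑' p, F2 p = ∑' b : ℕ, χ4 ((b + 1 : ℕ) : ZMod q4) *
      ∑' v : ℕ, χ3 ((b + 1 + 1 + v : ℕ) : ZMod q3) * (z ^ (b + 1)) ^ (b + 1 + 1 + v) := by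
    have e3 : ∑' p, F2 p = ∑' p : ℕ × ℕ, F2 p.swap := ((Equiv.prodComm ℕ ℕ).tsum_eq F2).symm
    rw [e3, s2'.tsum_prod]
    congr 1
    funext b
    rw [← I08_row χ3 hz (χ4 ((b + 1 : ℕ) : ZMod q4)) b (b + 1)]
    congr 1
    funext a
    rw [hF2, hF, hwdef]
    simp only [Prod.fst_swap, Prod.snd_swap]
    rw [mul_comm (a + 1) (b + 1), mul_comm (χ3 _) (χ4 _)]
  set X4 : ℕ → ℝ := fun u => (ε * ((u : ℝ) + 1) * x + nd (q4 * θ * ((u : ℝ) + 1) * (Real.cos ε * x)))⁻¹ with hX4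
  set X3 : ℕ → ℝ := fun u => (ε * ((u : ℝ) + 1) * x + nd (q3 * θ * ((u : ℝ) + 1) * (Real.cos ε * x)))⁻¹ with hX3
  have hX4n : ∀ u, 0 ≤ X4 u := fun u => I08_inv_nonneg h0 hx u _
  have hX3n : ∀ u, 0 ≤ X3 u := fun u => I08_inv_nonneg h0 hx u _
  have S4 : Summable fun u : ℕ => Real.exp (-(θ * ε * ((u : ℝ) + 1) ^ 2 * x)) * X4 u :=
    I08_summ hθ h0 hx hX4n (fun u => I08_inv_le h0 hx u _)
  have S3 : Summable fun u : ℕ => Real.exp (-(θ * ε * ((u : ℝ) + 1) ^ 2 * x)) * X3 u :=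
    I08_summ hθ h0 hx hX3n (fun u => I08_inv_le h0 hx u _)
  have b1 : ‖∑' p, F1 p‖ ≤ C4 * A * ∑' u : ℕ, Real.exp (-(θ * ε * ((u : ℝ) + 1) ^ 2 * x)) * X4 u := by
    rw [e1]
    refine tsum_of_norm_bounded (S4.hasSum.mul_left (C4 * A)) fun a => ?_
    rw [norm_mul]
    have h5 := h4 ε x h0 h1 hx (a + 1) (a + 1) (by omega)
    have h6 := I08_absorb hθ h0 hx a (a + 1) le_rfl
    have h7 : (ε * ((a + 1 : ℕ) : ℝ) * x + nd (q4 * θ * ((a + 1 : ℕ) : ℝ) * (Real.cos ε * x)))⁻¹ = X4 a := by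
      rw [hX4]
      push_cast
      rfl
    rw [h7] at h5
    calc ‖χ3 ((a + 1 : ℕ) : ZMod q3)‖ * ‖∑' v : ℕ, χ4 ((a + 1 + v : ℕ) : ZMod q4) * (z ^ (a + 1)) ^ (a + 1 + v)‖
        ≤ 1 * (C4 * ((1 + ε * ((a + 1 : ℕ) : ℝ) * x) *
          Real.exp (-(3 * θ * ε * x * (((a + 1 : ℕ) : ℝ) * ((a + 1 : ℕ) : ℝ)))) * X4 a)) :=
          mul_le_mul (χ3.norm_le_one _) h5 (norm_nonneg _) zero_le_one
      _ ≤ 1 * (C4 * ((A * Real.exp (-(θ * ε * ((a : ℝ) + 1) ^ 2 * x))) * X4 a)) := by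
          have := hX4n a
          gcongr
      _ = _ := by ring
  have b2 : ‖∑' p, F2 p‖ ≤ C3 * A * ∑' u : ℕ, Real.exp (-(θ * ε * ((u : ℝ) + 1) ^ 2 * x)) * X3 u := by
    rw [e2]
    refine tsum_of_norm_bounded (S3.hasSum.mul_left (C3 * A)) fun a => ?_
    rw [norm_mul]
    have h5 := h3 ε x h0 h1 hx (a + 1) (a + 1 + 1) (by omega)
    have h6 := I08_absorb hθ h0 hx a (a + 1 + 1) (by omega)
    have h7 : (ε * ((a + 1 : ℕ) : ℝ) * x + nd (q3 * θ * ((a + 1 : ℕ) : ℝ) * (Real.cos ε * x)))⁻¹ = X3 a := by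
      rw [hX3]
      push_cast
      rfl
    rw [h7] at h5
    calc ‖χ4 ((a + 1 : ℕ) : ZMod q4)‖ *
          ‖∑' v : ℕ, χ3 ((a + 1 + 1 + v : ℕ) : ZMod q3) * (z ^ (a + 1)) ^ (a + 1 + 1 + v)‖
        ≤ 1 * (C3 * ((1 + ε * ((a + 1 : ℕ) : ℝ) * x) *
          Real.exp (-(3 * θ * ε * x * (((a + 1 : ℕ) : ℝ) * ((a + 1 + 1 : ℕ) : ℝ)))) * X3 a)) :=
          mul_le_mul (χ4.norm_le_one _) h5 (norm_nonneg _) zero_le_one
      _ ≤ 1 * (C3 * ((A * Real.exp (-(θ * ε * ((a : ℝ) + 1) ^ 2 * x))) * X3 a)) := by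
          have := hX3n a
          gcongr
      _ = _ := by ring
  have hsum : ∑' u : ℕ, Real.exp (-(θ * ε * ((u : ℝ) + 1) ^ 2 * x)) * (X4 u + X3 u) =
      (∑' u : ℕ, Real.exp (-(θ * ε * ((u : ℝ) + 1) ^ 2 * x)) * X4 u) +
      ∑' u : ℕ, Real.exp (-(θ * ε * ((u : ℝ) + 1) ^ 2 * x)) * X3 u := by
    rw [← S4.tsum_add S3]
    congr 1
    funext u
    ring
  have p4 : 0 ≤ ∑' u : ℕ, Real.exp (-(θ * ε * ((u : ℝ) + 1) ^ 2 * x)) * X4 u :=
    tsum_nonneg fun u => mul_nonneg (Real.exp_pos _).le (hX4n u)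
  have p3 : 0 ≤ ∑' u : ℕ, Real.exp (-(θ * ε * ((u : ℝ) + 1) ^ 2 * x)) * X3 u :=
    tsum_nonneg fun u => mul_nonneg (Real.exp_pos _).le (hX3n u)
  rw [hFE, hsplit, hsum]
  refine (norm_add_le _ _).trans ((add_le_add b1 b2).trans ?_)
  have q1 : 0 ≤ C3 * A * ∑' u : ℕ, Real.exp (-(θ * ε * ((u : ℝ) + 1) ^ 2 * x)) * X4 u := by positivity
  have q2 : 0 ≤ C4 * A * ∑' u : ℕ, Real.exp (-(θ * ε * ((u : ℝ) + 1) ^ 2 * x)) * X3 u := by positivity
  linarith

private theorem I08_range (N : ℕ) (f : ℕ → ℝ) : ∑ a ∈ Finset.range N, f (a + 1) = ∑ d ∈ Finset.Icc 1 N, f d := by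
  refine Finset.sum_nbij' (fun a => a + 1) (fun d => d - 1) ?_ ?_ ?_ ?_ ?_
  · intro a ha
    rw [Finset.mem_range] at ha
    rw [Finset.mem_Icc]
    omega
  · intro d hd
    rw [Finset.mem_Icc] at hd
    rw [Finset.mem_range]
    omega
  · intro a _
    simp
  · intro d hd
    rw [Finset.mem_Icc] at hd
    omega
  · intro a _
    rfl

theorem FE_I_le {q1 q2 : ℕ} [NeZero q1] [NeZero q2] (χ1 : DirichletCharacter ℂ q1)
    (χ2 : DirichletCharacter ℂ q2) {θ : ℝ} (hθ : 0 < θ) : ∃ C : ℝ, 0 ≤ C ∧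
    ∀ ε x D : ℝ, 0 < ε → ε ≤ 1 / 2 → 0 < x → 0 < D → ε * D * x ≤ 1 →
      ‖FE (fun n => cv χ1 χ2 n - cvD χ1 χ2 D n) θ ε x‖ ≤ C * ∑ d ∈ Finset.Icc 1 ⌊D⌋₊,
        ((ε * (d : ℝ) * x + nd (q2 * θ * (d : ℝ) * (Real.cos ε * x)))⁻¹ +
          (ε * (d : ℝ) * x + nd (q1 * θ * (d : ℝ) * (Real.cos ε * x)))⁻¹) := by
  obtain ⟨C2, hC2, h2⟩ := I08_master χ2 hθ
  obtain ⟨C1, hC1, h1'⟩ := I08_master χ1 hθ
  refine ⟨(C2 + C1) * 2, by positivity, fun ε x D h0 h1 hx hD hεD => ?_⟩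
  have hz := I08_z_lt hθ h0 h1 hx
  set z := I08_z θ ε x with hzdef
  set N : ℕ := ⌊D⌋₊ with hN
  set w : ℕ × ℕ → ℂ := fun p => if D < (p.1 : ℝ) ∧ D < (p.2 : ℝ) then 0 else
    χ1 ((p.1 : ℕ) : ZMod q1) * χ2 ((p.2 : ℕ) : ZMod q2) with hwdef
  have hw : ∀ p, ‖w p‖ ≤ 1 := by
    intro p
    rw [hwdef]
    simp only
    split_ifs
    · simp
    · rw [norm_mul]
      exact mul_le_one₀ (χ1.norm_le_one _) (norm_nonneg _) (χ2.norm_le_one _)
  have hcv : (fun n => cv χ1 χ2 n - cvD χ1 χ2 D n) = fun n => ∑ p ∈ n.divisorsAntidiagonal, w p := by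
    funext n
    unfold cv cvD
    rw [← Finset.sum_sub_distrib]
    refine Finset.sum_congr rfl fun p _ => ?_
    rw [hwdef]
    simp only
    split_ifs
    · rw [sub_self]
    · rw [sub_zero]
  have hFE : FE (fun n => cv χ1 χ2 n - cvD χ1 χ2 D n) θ ε x =
      ∑' p : ℕ × ℕ, w (p.1 + 1, p.2 + 1) * z ^ ((p.1 + 1) * (p.2 + 1)) := by
    rw [hcv]
    exact I08_FE w hw hθ h0 h1 hx
  set F : ℕ × ℕ → ℂ := fun p => w (p.1 + 1, p.2 + 1) * z ^ ((p.1 + 1) * (p.2 + 1)) with hF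
  have hFs : Summable F := I08_sum hw hz
  have hDN : ∀ a : ℕ, D < ((a + 1 : ℕ) : ℝ) ↔ N ≤ a := by
    intro a
    rw [hN, ← Nat.floor_lt hD.le]
    omega
  have hFv : ∀ a b : ℕ, F (a, b) = if N ≤ a ∧ N ≤ b then 0 else
      χ1 ((a + 1 : ℕ) : ZMod q1) * χ2 ((b + 1 : ℕ) : ZMod q2) * z ^ ((a + 1) * (b + 1)) := by
    intro a b
    rw [hF, hwdef]
    simp only
    simp only [hDN]
    split_ifs
    · rw [zero_mul]
    · rfl
  set F1 : ℕ × ℕ → ℂ := fun p => if p.1 < N then F p else 0 with hF1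
  set F2 : ℕ × ℕ → ℂ := fun p => if p.1 < N then 0 else F p with hF2
  have s1 : Summable F1 := by
    refine Summable.of_norm_bounded hFs.norm fun p => ?_
    rw [hF1]
    simp only
    split_ifs
    · exact le_rfl
    · simp
  have s2 : Summable F2 := by
    refine Summable.of_norm_bounded hFs.norm fun p => ?_
    rw [hF2]
    simp only
    split_ifs
    · simp
    · exact le_rfl
  have hsplit : ∑' p, F p = (∑' p, F1 p) + ∑' p, F2 p := by
    rw [← s1.tsum_add s2]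
    congr 1
    funext p
    rw [hF1, hF2]
    simp only
    split_ifs
    · rw [add_zero]
    · rw [zero_add]
  have e1 : ∑' p, F1 p = ∑ a ∈ Finset.range N, χ1 ((a + 1 : ℕ) : ZMod q1) *
      ∑' v : ℕ, χ2 ((0 + 1 + v : ℕ) : ZMod q2) * (z ^ (a + 1)) ^ (0 + 1 + v) := by
    rw [s1.tsum_prod, tsum_eq_sum (s := Finset.range N)]
    · refine Finset.sum_congr rfl fun a ha => ?_
      rw [← I08_row χ2 hz (χ1 ((a + 1 : ℕ) : ZMod q1)) a 0]
      congr 1
      funext b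
      rw [hF1]
      simp only
      rw [if_pos (Finset.mem_range.1 ha), hFv, if_neg (by have := Finset.mem_range.1 ha; omega),
        if_pos (Nat.zero_le _)]
    · intro a ha
      rw [Finset.mem_range] at ha
      have : (fun b : ℕ => F1 (a, b)) = fun _ => 0 := by
        funext b
        rw [hF1]
        simp only
        rw [if_neg ha]
      rw [this, tsum_zero]
  have s2' : Summable fun p : ℕ × ℕ => F2 p.swap := (Equiv.prodComm ℕ ℕ).summable_iff.2 s2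
  have e2 : ∑' p, F2 p = ∑ b ∈ Finset.range N, χ2 ((b + 1 : ℕ) : ZMod q2) *
      ∑' v : ℕ, χ1 ((N + 1 + v : ℕ) : ZMod q1) * (z ^ (b + 1)) ^ (N + 1 + v) := by
    have e3 : ∑' p, F2 p = ∑' p : ℕ × ℕ, F2 p.swap := ((Equiv.prodComm ℕ ℕ).tsum_eq F2).symm
    rw [e3, s2'.tsum_prod, tsum_eq_sum (s := Finset.range N)]
    · refine Finset.sum_congr rfl fun b hb => ?_
      have hb' := Finset.mem_range.1 hb
      rw [← I08_row χ1 hz (χ2 ((b + 1 : ℕ) : ZMod q2)) b N]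
      congr 1
      funext a
      rw [hF2]
      simp only [Prod.fst_swap, Prod.snd_swap, Prod.swap_prod_mk]
      rw [hFv]
      by_cases h : a < N
      · rw [if_pos h, if_neg (by omega)]
      · rw [if_neg h, if_neg (by omega), if_pos (by omega), mul_comm (a + 1) (b + 1), mul_comm (χ1 _) (χ2 _)]
    · intro b hb
      rw [Finset.mem_range] at hb
      have : (fun a : ℕ => F2 (Prod.swap (b, a))) = fun _ => 0 := by
        funext a
        rw [hF2]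
        simp only [Prod.fst_swap, Prod.swap_prod_mk]
        by_cases h : a < N
        · rw [if_pos h]
        · rw [if_neg h, hFv, if_pos (by omega)]
      rw [this, tsum_zero]
  have key : ∀ (q : ℕ) (C : ℝ) (hC : 0 ≤ C) (a E : ℕ) (s S : ℂ), a ∈ Finset.range N → ‖s‖ ≤ 1 →
      ‖S‖ ≤ C * ((1 + ε * ((a + 1 : ℕ) : ℝ) * x) * Real.exp (-(3 * θ * ε * x * (((a + 1 : ℕ) : ℝ) * E))) *
        (ε * ((a + 1 : ℕ) : ℝ) * x + nd (q * θ * ((a + 1 : ℕ) : ℝ) * (Real.cos ε * x)))⁻¹) →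
      ‖s * S‖ ≤ C * 2 * (ε * ((a + 1 : ℕ) : ℝ) * x + nd (q * θ * ((a + 1 : ℕ) : ℝ) * (Real.cos ε * x)))⁻¹ := by
    intro q C hC a E s S ha hs hS
    have ha' := Finset.mem_range.1 ha
    have h3 : ((a + 1 : ℕ) : ℝ) ≤ D := (Nat.le_floor_iff hD.le).1 (by omega)
    have h4 : ε * ((a + 1 : ℕ) : ℝ) * x ≤ 1 := by
      refine le_trans ?_ hεD
      gcongr
    have h5 : Real.exp (-(3 * θ * ε * x * (((a + 1 : ℕ) : ℝ) * E))) ≤ 1 := by
      rw [Real.exp_le_one_iff]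
      have : 0 ≤ 3 * θ * ε * x * (((a + 1 : ℕ) : ℝ) * E) := by positivity
      linarith
    have h6 : 0 ≤ (ε * ((a + 1 : ℕ) : ℝ) * x + nd (q * θ * ((a + 1 : ℕ) : ℝ) * (Real.cos ε * x)))⁻¹ := by
      have := I08_nd_nonneg (q * θ * ((a + 1 : ℕ) : ℝ) * (Real.cos ε * x))
      positivity
    rw [norm_mul]
    calc ‖s‖ * ‖S‖ ≤ 1 * (C * ((1 + ε * ((a + 1 : ℕ) : ℝ) * x) *
          Real.exp (-(3 * θ * ε * x * (((a + 1 : ℕ) : ℝ) * E))) *
        (ε * ((a + 1 : ℕ) : ℝ) * x + nd (q * θ * ((a + 1 : ℕ) : ℝ) * (Real.cos ε * x)))⁻¹)) :=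
          mul_le_mul hs hS (norm_nonneg _) zero_le_one
      _ ≤ 1 * (C * ((1 + 1) * 1 *
        (ε * ((a + 1 : ℕ) : ℝ) * x + nd (q * θ * ((a + 1 : ℕ) : ℝ) * (Real.cos ε * x)))⁻¹)) := by
          gcongr
      _ = _ := by ring
  have b1 : ‖∑' p, F1 p‖ ≤ ∑ d ∈ Finset.Icc 1 N, C2 * 2 *
      (ε * (d : ℝ) * x + nd (q2 * θ * (d : ℝ) * (Real.cos ε * x)))⁻¹ := by
    rw [e1, ← I08_range]
    refine (norm_sum_le _ _).trans (Finset.sum_le_sum fun a ha => ?_)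
    exact key q2 C2 hC2 a (0 + 1) _ _ ha (χ1.norm_le_one _) (h2 ε x h0 h1 hx (a + 1) (0 + 1) (by omega))
  have b2 : ‖∑' p, F2 p‖ ≤ ∑ d ∈ Finset.Icc 1 N, C1 * 2 *
      (ε * (d : ℝ) * x + nd (q1 * θ * (d : ℝ) * (Real.cos ε * x)))⁻¹ := by
    rw [e2, ← I08_range]
    refine (norm_sum_le _ _).trans (Finset.sum_le_sum fun a ha => ?_)
    exact key q1 C1 hC1 a (N + 1) _ _ ha (χ2.norm_le_one _) (h1' ε x h0 h1 hx (a + 1) (N + 1) (by omega))
  rw [hFE, hsplit, Finset.mul_sum]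
  refine (norm_add_le _ _).trans ((add_le_add b1 b2).trans ?_)
  rw [← Finset.sum_add_distrib]
  refine Finset.sum_le_sum fun d _ => ?_
  have n1 : 0 ≤ (ε * (d : ℝ) * x + nd (q2 * θ * (d : ℝ) * (Real.cos ε * x)))⁻¹ := by
    have := I08_nd_nonneg (q2 * θ * (d : ℝ) * (Real.cos ε * x))
    positivity
  have n2 : 0 ≤ (ε * (d : ℝ) * x + nd (q1 * θ * (d : ℝ) * (Real.cos ε * x)))⁻¹ := by
    have := I08_nd_nonneg (q1 * θ * (d : ℝ) * (Real.cos ε * x))
    positivity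
  nlinarith [mul_nonneg hC1 n1, mul_nonneg hC2 n2]

end II
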