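import Pool.Agent.Lib.MP_0f5a55_nt.II.D

open Complex MeasureTheory Set Filter Topology
open scoped Real ComplexConjugate

namespace II

theorem I09_left {η p m : ℝ} (hη : 0 < η) (hpm : p ≤ m) :
    ∫ x in p..m, (η + |x - m|)⁻¹ = Real.log (1 + (m - p) / η) := by
  have h : ∫ x in p..m, (η + |x - m|)⁻¹ = ∫ x in p..m, (η + (m - x))⁻¹ := by
    refine intervalIntegral.integral_congr fun x hx => ?_
    rw [uIcc_of_le hpm] at hx
    show (η + |x - m|)⁻¹ = (η + (m - x))⁻¹
    rw [abs_of_nonpos (by linarith [hx.2])]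
    congr 1; ring
  rw [h, intervalIntegral.integral_eq_sub_of_hasDerivAt (f := fun x => -Real.log (η + (m - x)))]
  · rw [sub_self, add_zero, neg_sub_neg, ← Real.log_div (by linarith) hη.ne']
    congr 1
    field_simp
  · intro x hx
    rw [uIcc_of_le hpm] at hx
    have hpos : 0 < η + (m - x) := by linarith [hx.2]
    have h1 : HasDerivAt (fun x : ℝ => η + (m - x)) (-1) x := by
      simpa using ((hasDerivAt_id x).const_sub m).const_add η
    have h2 : HasDerivAt (fun x : ℝ => -Real.log (η + (m - x))) (-(-1 / (η + (m - x)))) x :=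
      (h1.log hpos.ne').neg
    have e : -(-1 / (η + (m - x))) = (η + (m - x))⁻¹ := by rw [neg_div, neg_neg, one_div]
    rwa [e] at h2
  · refine ContinuousOn.intervalIntegrable ?_
    intro x hx
    rw [uIcc_of_le hpm] at hx
    have hpos : 0 < η + (m - x) := by linarith [hx.2]
    exact ((continuous_const.add (continuous_const.sub continuous_id)).continuousAt.inv₀ hpos.ne').continuousWithinAt

theorem I09_right {η m q : ℝ} (hη : 0 < η) (hmq : m ≤ q) :
    ∫ x in m..q, (η + |x - m|)⁻¹ = Real.log (1 + (q - m) / η) := by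
  have h : ∫ x in m..q, (η + |x - m|)⁻¹ = ∫ x in m..q, (η + (x - m))⁻¹ := by
    refine intervalIntegral.integral_congr fun x hx => ?_
    rw [uIcc_of_le hmq] at hx
    show (η + |x - m|)⁻¹ = (η + (x - m))⁻¹
    rw [abs_of_nonneg (by linarith [hx.1])]
  rw [h, intervalIntegral.integral_eq_sub_of_hasDerivAt (f := fun x => Real.log (η + (x - m)))]
  · rw [sub_self, add_zero, ← Real.log_div (by linarith) hη.ne']
    congr 1
    field_simp
  · intro x hx
    rw [uIcc_of_le hmq] at hx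
    have hpos : 0 < η + (x - m) := by linarith [hx.1]
    have h1 : HasDerivAt (fun x : ℝ => η + (x - m)) 1 x := by
      simpa using ((hasDerivAt_id x).sub_const m).const_add η
    have h2 := h1.log hpos.ne'
    rwa [one_div] at h2
  · refine ContinuousOn.intervalIntegrable ?_
    intro x hx
    rw [uIcc_of_le hmq] at hx
    have hpos : 0 < η + (x - m) := by linarith [hx.1]
    exact ((continuous_const.add (continuous_id.sub continuous_const)).continuousAt.inv₀ hpos.ne').continuousWithinAt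

theorem I09_cont {η : ℝ} (hη : 0 < η) (a : ℝ) : Continuous fun x : ℝ => (η + |x - a|)⁻¹ := by
  refine Continuous.inv₀ (by fun_prop) fun x => ?_
  have := abs_nonneg (x - a)
  linarith

theorem I09_int {η p q : ℝ} (hη : 0 < η) (hpq : p ≤ q) (a : ℝ) :
    ∫ x in Icc p q, (η + |x - a|)⁻¹ ≤ 2 * Real.log (1 + (q - p) / η) := by
  set m := max p (min q a) with hm
  have hpm : p ≤ m := le_max_left _ _
  have hmq : m ≤ q := max_le hpq (min_le_left _ _)
  have hcl : ∀ x ∈ Icc p q, |x - m| ≤ |x - a| := by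
    intro x hx
    rcases le_total a p with h | h
    · have : m = p := by rw [hm, max_eq_left ((min_le_right _ _).trans h)]
      rw [this, abs_of_nonneg (by linarith [hx.1]), abs_of_nonneg (by linarith [hx.1])]
      linarith
    · rcases le_total q a with h' | h'
      · have : m = q := by rw [hm, min_eq_left h', max_eq_right hpq]
        rw [this, abs_of_nonpos (by linarith [hx.2]), abs_of_nonpos (by linarith [hx.2])]
        linarith
      · have : m = a := by rw [hm, min_eq_right h', max_eq_right h]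
        rw [this]
  have h1 : ∫ x in Icc p q, (η + |x - a|)⁻¹ ≤ ∫ x in Icc p q, (η + |x - m|)⁻¹ := by
    refine setIntegral_mono_on ((I09_cont hη a).integrableOn_Icc) ((I09_cont hη m).integrableOn_Icc)
      measurableSet_Icc fun x hx => ?_
    have := abs_nonneg (x - m)
    exact inv_anti₀ (by linarith) (by linarith [hcl x hx])
  refine h1.trans ?_
  rw [integral_Icc_eq_integral_Ioc, ← intervalIntegral.integral_of_le hpq,
    ← intervalIntegral.integral_add_adjacent_intervals (b := m)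
      ((I09_cont hη m).intervalIntegrable _ _) ((I09_cont hη m).intervalIntegrable _ _),
    I09_left hη hpm, I09_right hη hmq, two_mul]
  have e1 : (m - p) / η ≤ (q - p) / η := by gcongr
  have e2 : (q - m) / η ≤ (q - p) / η := by gcongr
  have e3 : 0 ≤ (m - p) / η := div_nonneg (by linarith) hη.le
  have e4 : 0 ≤ (q - m) / η := div_nonneg (by linarith) hη.le
  exact add_le_add (Real.log_le_log (by linarith) (by linarith)) (Real.log_le_log (by linarith) (by linarith))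

theorem I09_log {ε X : ℝ} (hε : 0 < ε) (hε2 : ε ≤ 1 / 2) (hX : 1 ≤ X) :
    Real.log (1 + (8 * X - X / 6) / (ε * X)) ≤ 3 * (1 + Real.log (1 / ε)) := by
  have hXpos : 0 < X := by linarith
  have h1 : 1 + (8 * X - X / 6) / (ε * X) ≤ 9 * (1 / ε) := by
    have : (8 * X - X / 6) / (ε * X) = (8 - 1 / 6) * (1 / ε) := by field_simp
    rw [this]
    have : 1 ≤ 1 / ε := by rw [le_div_iff₀ hε]; linarith
    linarith
  have h0 : 0 < 1 + (8 * X - X / 6) / (ε * X) := by
    have : 0 ≤ (8 * X - X / 6) / (ε * X) := div_nonneg (by linarith) (by positivity)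
    linarith
  have h2 := Real.log_le_log h0 h1
  rw [Real.log_mul (by norm_num) (by positivity)] at h2
  have h9 : Real.log 9 ≤ 3 := by
    have : Real.log 9 = 2 * Real.log 3 := by
      rw [show (9 : ℝ) = 3 ^ 2 by norm_num, Real.log_pow]; norm_num
    have h3 : Real.log 3 ≤ 1.1 := by
      have := Real.log_three_lt_d9
      linarith
    linarith
  have hl : 0 ≤ Real.log (1 / ε) := Real.log_nonneg (by rw [le_div_iff₀ hε]; linarith)
  linarith

/-- integral of a product of two kernels -/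
theorem I09_int2 {η p q : ℝ} (hη : 0 < η) (hpq : p ≤ q) (a b : ℝ) :
    ∫ x in Icc p q, (η + |x - a|)⁻¹ * (η + |x - b|)⁻¹ ≤
      4 * Real.log (1 + (q - p) / η) * (η + |a - b|)⁻¹ := by
  have hpt : ∀ x : ℝ, (η + |x - a|)⁻¹ * (η + |x - b|)⁻¹ ≤
      (η + |a - b|)⁻¹ * ((η + |x - a|)⁻¹ + (η + |x - b|)⁻¹) := by
    intro x
    have ha := abs_nonneg (x - a)
    have hb := abs_nonneg (x - b)
    have hab := abs_nonneg (a - b)
    have htri : |a - b| ≤ |x - a| + |x - b| := by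
      have := abs_sub_le a x b
      rw [abs_sub_comm a x] at this
      exact this
    have e : (η + |x - a|)⁻¹ + (η + |x - b|)⁻¹ =
        (2 * η + |x - a| + |x - b|) * ((η + |x - a|)⁻¹ * (η + |x - b|)⁻¹) := by
      have h1 : η + |x - a| ≠ 0 := by positivity
      have h2 : η + |x - b| ≠ 0 := by positivity
      field_simp
      ring
    rw [e, ← mul_assoc]
    have hpos : 0 ≤ (η + |x - a|)⁻¹ * (η + |x - b|)⁻¹ := by positivity
    refine le_mul_of_one_le_left hpos ?_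
    rw [inv_mul_eq_div, le_div_iff₀ (by positivity)]
    linarith
  have hint : IntegrableOn (fun x => (η + |a - b|)⁻¹ * ((η + |x - a|)⁻¹ + (η + |x - b|)⁻¹)) (Icc p q) :=
    (continuous_const.mul ((I09_cont hη a).add (I09_cont hη b))).integrableOn_Icc
  have h1 := setIntegral_mono_on (((I09_cont hη a).mul (I09_cont hη b)).integrableOn_Icc) hint
    measurableSet_Icc fun x _ => hpt x
  refine h1.trans ?_
  rw [integral_const_mul, integral_add (I09_cont hη a).integrableOn_Icc (I09_cont hη b).integrableOn_Icc]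
  have h2 := I09_int hη hpq a
  have h3 := I09_int hη hpq b
  have h4 : 0 ≤ (η + |a - b|)⁻¹ := by positivity
  calc _ ≤ (η + |a - b|)⁻¹ * (2 * Real.log (1 + (q - p) / η) + 2 * Real.log (1 + (q - p) / η)) := by
        gcongr
    _ = _ := by ring

/-- one factor -/
theorem I09_fac {L : ℝ} (hL : 0 < L) {ε X x : ℝ} (hε : 0 < ε) (hX : 1 ≤ X) (hx : x ∈ Icc (X / 6) (8 * X))
    {d : ℕ} (hd : 1 ≤ d) : ∃ k : ℕ, (k : ℝ) ≤ (8 * L + 1) * d * X ∧
      (ε * d * x + nd (L * d * x))⁻¹ ≤ (min (1 / 6) L * d)⁻¹ * (ε * X + |x - k / (L * d)|)⁻¹ ∧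
      (k = 0 → X ≤ 3 / L ∧ (ε * d * x + nd (L * d * x))⁻¹ ≤ 6 / L) := by
  have hd' : (1 : ℝ) ≤ d := by exact_mod_cast hd
  have hd0 : (0 : ℝ) < d := by linarith
  have hx0 : 0 < x := by linarith [hx.1]
  have hy : 0 < L * d * x := by positivity
  have hr0 : 0 ≤ round (L * d * x) := by
    rw [round_eq]
    exact Int.floor_nonneg.2 (by linarith)
  obtain ⟨k, hk⟩ := Int.eq_ofNat_of_zero_le hr0
  have hkr : ((round (L * d * x) : ℤ) : ℝ) = k := by rw [hk]; simp
  have hnd : nd (L * d * x) = |L * d * x - k| := by unfold nd; rw [hkr]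
  have hhalf : |L * d * x - k| ≤ 1 / 2 := by
    have := abs_sub_round (L * d * x)
    rwa [hkr] at this
  have hXd : 1 ≤ d * X := by nlinarith
  refine ⟨k, ?_, ?_, ?_⟩
  · have h1 := (abs_le.1 hhalf).1
    have h3 : L * d * x ≤ L * d * (8 * X) := by
      gcongr
      exact hx.2
    nlinarith
  · rw [hnd, ← mul_inv]
    refine inv_anti₀ (by positivity) ?_
    have e : |L * d * x - k| = L * d * |x - k / (L * d)| := by
      rw [← abs_of_pos (by positivity : 0 < L * d), ← abs_mul, abs_of_pos (by positivity : 0 < L * d)]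
      congr 1
      field_simp
    rw [e]
    have hm1 : min (1 / 6) L ≤ 1 / 6 := min_le_left _ _
    have hm2 : min (1 / 6) L ≤ L := min_le_right _ _
    have hm0 : 0 < min (1 / 6) L := lt_min (by norm_num) hL
    have h1 : min (1 / 6) L * d * (ε * X) ≤ ε * d * x := by
      have : min (1 / 6) L * d * (ε * X) ≤ 1 / 6 * d * (ε * X) := by gcongr
      have h3 : 1 / 6 * d * (ε * X) ≤ ε * d * x := by
        have : ε * d * (X / 6) ≤ ε * d * x := by
          gcongr
          exact hx.1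
        linarith
      linarith
    have h3 : min (1 / 6) L * d * |x - k / (L * d)| ≤ L * d * |x - k / (L * d)| := by gcongr
    linarith
  · intro hk0
    rw [hk0] at hhalf hnd
    simp only [Nat.cast_zero, sub_zero] at hhalf hnd
    rw [abs_of_pos hy] at hhalf hnd
    have h1 : L * d * (X / 6) ≤ L * d * x := by
      gcongr
      exact hx.1
    have h3 : L * (X / 6) ≤ L * d * (X / 6) := by
      have : L * 1 * (X / 6) ≤ L * d * (X / 6) := by gcongr
      linarith
    refine ⟨?_, ?_⟩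
    · rw [le_div_iff₀ hL]
      nlinarith
    · rw [hnd, inv_le_comm₀ (by positivity) (by positivity), inv_div]
      have h4 : L * (1 * X) ≤ L * (d * X) := by gcongr
      have h5 : 0 ≤ ε * d * x := by positivity
      nlinarith


/-- the extra one-dimensional sums -/
theorem I09_extra {L La : ℝ} (hL : 0 < L) (hLa : 0 < La) {ε X : ℝ} (hε : 0 < ε) (hε2 : ε ≤ 1 / 2)
    (hX : 1 ≤ X) {u : ℕ} (hu : 1 ≤ u) :
    (∫ x in Icc (X / 6) (8 * X), (if X ≤ 3 / La then 6 / La else 0) *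
      ∑ j ∈ Finset.range (⌊(8 * L + 1) * u * X⌋₊ + 1), (min (1 / 6) L * u)⁻¹ * (ε * X + |x - j / (L * u)|)⁻¹) ≤
      36 / La * ((8 * L + 1) * (3 / La) + 1) / min (1 / 6) L * (1 + Real.log (1 / ε)) := by
  have hu' : (1 : ℝ) ≤ u := by exact_mod_cast hu
  have hu0 : (0 : ℝ) < u := by linarith
  have hm0 : 0 < min (1 / 6) L := lt_min (by norm_num) hL
  have hl : 0 ≤ Real.log (1 / ε) := Real.log_nonneg (by rw [le_div_iff₀ hε]; linarith)
  have hη : 0 < ε * X := by positivity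
  split_ifs with hXL
  · have hi : ∀ j ∈ Finset.range (⌊(8 * L + 1) * u * X⌋₊ + 1), IntegrableOn
        (fun x => (min (1 / 6) L * u)⁻¹ * (ε * X + |x - j / (L * u)|)⁻¹) (Icc (X / 6) (8 * X)) :=
      fun j _ => (continuous_const.mul (I09_cont hη (j / (L * u)))).integrableOn_Icc
    rw [integral_const_mul, integral_finsetSum _ hi]
    have h1 : ∀ j ∈ Finset.range (⌊(8 * L + 1) * u * X⌋₊ + 1),
        (∫ x in Icc (X / 6) (8 * X), (min (1 / 6) L * u)⁻¹ * (ε * X + |x - j / (L * u)|)⁻¹) ≤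
        (min (1 / 6) L * u)⁻¹ * (2 * (3 * (1 + Real.log (1 / ε)))) := by
      intro j _
      rw [integral_const_mul]
      have h := I09_int hη (show X / 6 ≤ 8 * X by linarith) (j / (L * u))
      have h' := I09_log hε hε2 hX
      gcongr
      linarith
    have h2 := Finset.sum_le_sum h1
    rw [Finset.sum_const, Finset.card_range, nsmul_eq_mul] at h2
    have h3 : ((⌊(8 * L + 1) * u * X⌋₊ + 1 : ℕ) : ℝ) ≤ (8 * L + 1) * u * (3 / La) + u := by
      push_cast
      have := Nat.floor_le (show 0 ≤ (8 * L + 1) * u * X by positivity)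
      have h4 : (8 * L + 1) * u * X ≤ (8 * L + 1) * u * (3 / La) := by gcongr
      linarith
    calc _ ≤ 6 / La * (((⌊(8 * L + 1) * u * X⌋₊ + 1 : ℕ) : ℝ) *
          ((min (1 / 6) L * u)⁻¹ * (2 * (3 * (1 + Real.log (1 / ε)))))) := by gcongr
      _ ≤ 6 / La * (((8 * L + 1) * u * (3 / La) + u) *
          ((min (1 / 6) L * u)⁻¹ * (2 * (3 * (1 + Real.log (1 / ε)))))) := by gcongr
      _ = _ := by
        field_simp
        ring
  · simp only [zero_mul, integral_zero]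
    positivity

theorem I09_sep {L1 L2 : ℝ} (h1 : 0 < L1) (h2 : 0 < L2) {ε X : ℝ} (hε : 0 < ε) (hX : 1 ≤ X)
    {d u : ℕ} (hd : 1 ≤ d) (hu : 1 ≤ u) (k j : ℕ) :
    (min (1 / 6) L1 * d)⁻¹ * (min (1 / 6) L2 * u)⁻¹ * (ε * X + |(k : ℝ) / (L1 * d) - j / (L2 * u)|)⁻¹ ≤
      (min (1 / 6) L1)⁻¹ * (min (1 / 6) L2)⁻¹ * max 1 (L1 * L2) *
        (ε * d * u * X + |L2 * u * k - L1 * d * j|)⁻¹ := by
  have hd0 : (0 : ℝ) < d := by exact_mod_cast hd
  have hu0 : (0 : ℝ) < u := by exact_mod_cast hu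
  have hm1 : 0 < min (1 / 6) L1 := lt_min (by norm_num) h1
  have hm2 : 0 < min (1 / 6) L2 := lt_min (by norm_num) h2
  have hM1 : 1 ≤ max 1 (L1 * L2) := le_max_left _ _
  have hM2 : L1 * L2 ≤ max 1 (L1 * L2) := le_max_right _ _
  have e : |L2 * u * k - L1 * d * j| = (L1 * L2) * (d * u * |(k : ℝ) / (L1 * d) - j / (L2 * u)|) := by
    rw [← mul_assoc, ← abs_of_pos (by positivity : 0 < L1 * L2 * (d * u)), ← abs_mul]
    congr 1
    field_simp
  set Y := |(k : ℝ) / (L1 * d) - j / (L2 * u)| with hY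
  have hY0 : 0 ≤ Y := abs_nonneg _
  have hle : ε * d * u * X + |L2 * u * k - L1 * d * j| ≤ max 1 (L1 * L2) * (d * u * (ε * X + Y)) := by
    rw [e]
    have a1 : ε * d * u * X ≤ max 1 (L1 * L2) * (d * u * (ε * X)) := by
      have : 1 * (d * u * (ε * X)) ≤ max 1 (L1 * L2) * (d * u * (ε * X)) := by gcongr
      linarith
    have a2 : L1 * L2 * (d * u * Y) ≤ max 1 (L1 * L2) * (d * u * Y) := by gcongr
    linarith
  have h3 : (d * u * (ε * X + Y))⁻¹ ≤ max 1 (L1 * L2) * (ε * d * u * X + |L2 * u * k - L1 * d * j|)⁻¹ := by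
    rw [← div_eq_mul_inv, inv_eq_one_div, div_le_div_iff₀ (by positivity) (by positivity)]
    linarith
  calc _ = (min (1 / 6) L1)⁻¹ * (min (1 / 6) L2)⁻¹ * (d * u * (ε * X + Y))⁻¹ := by
        rw [mul_inv, mul_inv, mul_inv, mul_inv]
        ring
    _ ≤ (min (1 / 6) L1)⁻¹ * (min (1 / 6) L2)⁻¹ * (max 1 (L1 * L2) *
        (ε * d * u * X + |L2 * u * k - L1 * d * j|)⁻¹) := by gcongr
    _ = _ := by ring

theorem I09_fin {A0 A1 A2 C S lg I1 I2 I3 c1 c2 : ℝ} (b1 : I1 ≤ A0 * lg * S) (b2 : I2 ≤ A1 * lg)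
    (b3 : I3 ≤ A2 * lg) (hC : C = A0 + A1 + A2 + c1 + c2) (h0 : 0 ≤ A0) (h1 : 0 ≤ A1) (h2 : 0 ≤ A2)
    (hc1 : 0 ≤ c1) (hc2 : 0 ≤ c2) (hl : 0 ≤ lg) (hS : 0 ≤ S) : I1 + I2 + I3 ≤ C * lg * (1 + S) := by
  have e : C * lg * (1 + S) = A0 * lg * S + A1 * lg + A2 * lg +
      (A0 * lg + (A1 + A2 + c1 + c2) * (lg * S) + (c1 + c2) * lg) := by rw [hC]; ring
  have : 0 ≤ A0 * lg + (A1 + A2 + c1 + c2) * (lg * S) + (c1 + c2) * lg := by positivity
  linarith

/-- Row I09. Integral of a product of two combs. -/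
theorem int_two {L1 L2 : ℝ} (h1 : 0 < L1) (h2 : 0 < L2) : ∃ C : ℝ, 0 < C ∧ ∀ ε X : ℝ, 0 < ε → ε ≤ 1 / 2 →
    1 ≤ X → ∀ d u : ℕ, 1 ≤ d → 1 ≤ u →
      ∫ x in Icc (X / 6) (8 * X), (ε * d * x + nd (L1 * d * x))⁻¹ * (ε * u * x + nd (L2 * u * x))⁻¹ ≤
        C * (1 + Real.log (1 / ε)) * (1 + ∑ k ∈ Finset.Icc 1 ⌊C * d * X⌋₊, ∑ j ∈ Finset.Icc 1 ⌊C * u * X⌋₊,
          (ε * d * u * X + |L2 * u * k - L1 * d * j|)⁻¹) := by
  have hm1 : 0 < min (1 / 6) L1 := lt_min (by norm_num) h1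
  have hm2 : 0 < min (1 / 6) L2 := lt_min (by norm_num) h2
  set A1 := 36 / L1 * ((8 * L2 + 1) * (3 / L1) + 1) / min (1 / 6) L2 with hA1
  set A2 := 36 / L2 * ((8 * L1 + 1) * (3 / L2) + 1) / min (1 / 6) L1 with hA2
  have hA10 : 0 < A1 := by positivity
  have hA20 : 0 < A2 := by positivity
  set A0 := 12 * ((min (1 / 6) L1)⁻¹ * (min (1 / 6) L2)⁻¹ * max 1 (L1 * L2)) with hA0
  have hA00 : 0 < A0 := by positivity
  refine ⟨A0 + A1 + A2 + (8 * L1 + 1) + (8 * L2 + 1), by positivity, ?_⟩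
  intro ε X hε hε2 hX d u hd hu
  set C := A0 + A1 + A2 + (8 * L1 + 1) + (8 * L2 + 1) with hC
  have hC1 : 8 * L1 + 1 ≤ C := by rw [hC]; linarith
  have hC2 : 8 * L2 + 1 ≤ C := by rw [hC]; linarith
  have hl : 0 ≤ Real.log (1 / ε) := Real.log_nonneg (by rw [le_div_iff₀ hε]; linarith)
  have hη : 0 < ε * X := by positivity
  have hd0 : (0 : ℝ) < d := by exact_mod_cast hd
  have hu0 : (0 : ℝ) < u := by exact_mod_cast hu
  have hndn : ∀ y : ℝ, 0 ≤ nd y := fun y => abs_nonneg _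
  -- majorant
  set G1 : ℝ → ℝ := fun x => ∑ k ∈ Finset.Icc 1 ⌊C * d * X⌋₊, ∑ j ∈ Finset.Icc 1 ⌊C * u * X⌋₊,
    (min (1 / 6) L1 * d)⁻¹ * (min (1 / 6) L2 * u)⁻¹ *
      ((ε * X + |x - k / (L1 * d)|)⁻¹ * (ε * X + |x - j / (L2 * u)|)⁻¹) with hG1
  set G2 : ℝ → ℝ := fun x => (if X ≤ 3 / L1 then 6 / L1 else 0) *
      ∑ j ∈ Finset.range (⌊(8 * L2 + 1) * u * X⌋₊ + 1), (min (1 / 6) L2 * u)⁻¹ * (ε * X + |x - j / (L2 * u)|)⁻¹ with hG2
  set G3 : ℝ → ℝ := fun x => (if X ≤ 3 / L2 then 6 / L2 else 0) *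
      ∑ k ∈ Finset.range (⌊(8 * L1 + 1) * d * X⌋₊ + 1), (min (1 / 6) L1 * d)⁻¹ * (ε * X + |x - k / (L1 * d)|)⁻¹ with hG3
  have hG10 : ∀ x, 0 ≤ G1 x := fun x => by
    rw [hG1]
    exact Finset.sum_nonneg fun k _ => Finset.sum_nonneg fun j _ => by positivity
  have hE1 : 0 ≤ (if X ≤ 3 / L1 then 6 / L1 else 0) := by split_ifs <;> positivity
  have hE2 : 0 ≤ (if X ≤ 3 / L2 then 6 / L2 else 0) := by split_ifs <;> positivity
  have hG20 : ∀ x, 0 ≤ G2 x := fun x => by
    rw [hG2]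
    exact mul_nonneg hE1 (Finset.sum_nonneg fun j _ => by positivity)
  have hG30 : ∀ x, 0 ≤ G3 x := fun x => by
    rw [hG3]
    exact mul_nonneg hE2 (Finset.sum_nonneg fun j _ => by positivity)
  have hc1 : Continuous G1 := by
    rw [hG1]
    exact continuous_finsetSum _ fun k _ => continuous_finsetSum _ fun j _ =>
      continuous_const.mul ((I09_cont hη _).mul (I09_cont hη _))
  have hc2 : Continuous G2 := by
    rw [hG2]
    exact continuous_const.mul (continuous_finsetSum _ fun j _ => continuous_const.mul (I09_cont hη _))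
  have hc3 : Continuous G3 := by
    rw [hG3]
    exact continuous_const.mul (continuous_finsetSum _ fun j _ => continuous_const.mul (I09_cont hη _))
  have hpt : ∀ x ∈ Icc (X / 6) (8 * X), (ε * d * x + nd (L1 * d * x))⁻¹ * (ε * u * x + nd (L2 * u * x))⁻¹ ≤
      G1 x + G2 x + G3 x := by
    intro x hx
    have hx0 : 0 < x := by linarith [hx.1]
    obtain ⟨k, hk1, hk2, hk3⟩ := I09_fac h1 hε hX hx hd
    obtain ⟨j, hj1, hj2, hj3⟩ := I09_fac h2 hε hX hx hu
    have p1 : 0 ≤ (ε * d * x + nd (L1 * d * x))⁻¹ := inv_nonneg.2 (by have := hndn (L1 * d * x); positivity)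
    have p2 : 0 ≤ (ε * u * x + nd (L2 * u * x))⁻¹ := inv_nonneg.2 (by have := hndn (L2 * u * x); positivity)
    rcases Nat.eq_zero_or_pos k with hk0 | hk0
    · obtain ⟨q1, q2⟩ := hk3 hk0
      have hmem : j ∈ Finset.range (⌊(8 * L2 + 1) * u * X⌋₊ + 1) := by
        rw [Finset.mem_range, Nat.lt_succ_iff]
        exact Nat.le_floor hj1
      have h3 : (ε * u * x + nd (L2 * u * x))⁻¹ ≤ ∑ j ∈ Finset.range (⌊(8 * L2 + 1) * u * X⌋₊ + 1),
          (min (1 / 6) L2 * u)⁻¹ * (ε * X + |x - j / (L2 * u)|)⁻¹ :=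
        hj2.trans (Finset.single_le_sum (f := fun j : ℕ => (min (1 / 6) L2 * u)⁻¹ * (ε * X + |x - j / (L2 * u)|)⁻¹)
          (fun i _ => by positivity) hmem)
      have h4 : (ε * d * x + nd (L1 * d * x))⁻¹ * (ε * u * x + nd (L2 * u * x))⁻¹ ≤ G2 x := by
        rw [hG2]
        simp only [if_pos q1]
        exact mul_le_mul q2 h3 p2 (by positivity)
      linarith [hG10 x, hG30 x]
    · rcases Nat.eq_zero_or_pos j with hj0 | hj0
      · obtain ⟨q1, q2⟩ := hj3 hj0
        have hmem : k ∈ Finset.range (⌊(8 * L1 + 1) * d * X⌋₊ + 1) := by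
          rw [Finset.mem_range, Nat.lt_succ_iff]
          exact Nat.le_floor hk1
        have h3 : (ε * d * x + nd (L1 * d * x))⁻¹ ≤ ∑ k ∈ Finset.range (⌊(8 * L1 + 1) * d * X⌋₊ + 1),
            (min (1 / 6) L1 * d)⁻¹ * (ε * X + |x - k / (L1 * d)|)⁻¹ :=
          hk2.trans (Finset.single_le_sum (f := fun k : ℕ => (min (1 / 6) L1 * d)⁻¹ * (ε * X + |x - k / (L1 * d)|)⁻¹)
            (fun i _ => by positivity) hmem)
        have h4 : (ε * d * x + nd (L1 * d * x))⁻¹ * (ε * u * x + nd (L2 * u * x))⁻¹ ≤ G3 x := by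
          rw [hG3, mul_comm]
          simp only [if_pos q1]
          exact mul_le_mul q2 h3 p1 (by positivity)
        linarith [hG10 x, hG20 x]
      · have hkm : k ∈ Finset.Icc 1 ⌊C * d * X⌋₊ := by
          rw [Finset.mem_Icc]
          refine ⟨hk0, Nat.le_floor (hk1.trans ?_)⟩
          gcongr
        have hjm : j ∈ Finset.Icc 1 ⌊C * u * X⌋₊ := by
          rw [Finset.mem_Icc]
          refine ⟨hj0, Nat.le_floor (hj1.trans ?_)⟩
          gcongr
        have h3 : (ε * d * x + nd (L1 * d * x))⁻¹ * (ε * u * x + nd (L2 * u * x))⁻¹ ≤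
            (min (1 / 6) L1 * d)⁻¹ * (min (1 / 6) L2 * u)⁻¹ *
              ((ε * X + |x - k / (L1 * d)|)⁻¹ * (ε * X + |x - j / (L2 * u)|)⁻¹) := by
          refine (mul_le_mul hk2 hj2 p2 (by positivity)).trans (le_of_eq ?_)
          ring
        have h4 := Finset.single_le_sum (f := fun j : ℕ => (min (1 / 6) L1 * d)⁻¹ * (min (1 / 6) L2 * u)⁻¹ *
              ((ε * X + |x - k / (L1 * d)|)⁻¹ * (ε * X + |x - j / (L2 * u)|)⁻¹))
            (fun i _ => by positivity) hjm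
        have h5 := Finset.single_le_sum (f := fun k : ℕ => ∑ j ∈ Finset.Icc 1 ⌊C * u * X⌋₊,
            (min (1 / 6) L1 * d)⁻¹ * (min (1 / 6) L2 * u)⁻¹ *
              ((ε * X + |x - k / (L1 * d)|)⁻¹ * (ε * X + |x - j / (L2 * u)|)⁻¹))
            (fun i _ => Finset.sum_nonneg fun j _ => by positivity) hkm
        have h6 : (ε * d * x + nd (L1 * d * x))⁻¹ * (ε * u * x + nd (L2 * u * x))⁻¹ ≤ G1 x :=
          h3.trans (h4.trans h5)
        linarith [hG20 x, hG30 x]
  have hI : ∫ x in Icc (X / 6) (8 * X), (ε * d * x + nd (L1 * d * x))⁻¹ * (ε * u * x + nd (L2 * u * x))⁻¹ ≤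
      ∫ x in Icc (X / 6) (8 * X), (G1 x + G2 x + G3 x) := by
    refine integral_mono_of_nonneg ?_ (((hc1.add hc2).add hc3).integrableOn_Icc) ?_
    · filter_upwards [ae_restrict_mem measurableSet_Icc] with x hx
      have hx0 : 0 < x := by linarith [hx.1]
      have := hndn (L1 * d * x)
      have := hndn (L2 * u * x)
      show 0 ≤ _
      positivity
    · filter_upwards [ae_restrict_mem measurableSet_Icc] with x hx
      exact hpt x hx
  refine hI.trans ?_
  have hadd : ∫ x in Icc (X / 6) (8 * X), (G1 x + G2 x + G3 x) =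
      (∫ x in Icc (X / 6) (8 * X), G1 x) + (∫ x in Icc (X / 6) (8 * X), G2 x) +
        ∫ x in Icc (X / 6) (8 * X), G3 x := by
    have i1 : IntegrableOn (fun x => G1 x + G2 x) (Icc (X / 6) (8 * X)) := (hc1.add hc2).integrableOn_Icc
    have i3 : IntegrableOn (fun x => G3 x) (Icc (X / 6) (8 * X)) := hc3.integrableOn_Icc
    rw [integral_add i1 i3, integral_add hc1.integrableOn_Icc hc2.integrableOn_Icc]
  rw [hadd]
  have b2 : (∫ x in Icc (X / 6) (8 * X), G2 x) ≤ A1 * (1 + Real.log (1 / ε)) :=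
    I09_extra h2 h1 hε hε2 hX hu
  have b3 : (∫ x in Icc (X / 6) (8 * X), G3 x) ≤ A2 * (1 + Real.log (1 / ε)) :=
    I09_extra h1 h2 hε hε2 hX hd
  set S := ∑ k ∈ Finset.Icc 1 ⌊C * d * X⌋₊, ∑ j ∈ Finset.Icc 1 ⌊C * u * X⌋₊,
          (ε * d * u * X + |L2 * u * k - L1 * d * j|)⁻¹ with hS
  have hS0 : 0 ≤ S := Finset.sum_nonneg fun k _ => Finset.sum_nonneg fun j _ => by positivity
  have b1 : (∫ x in Icc (X / 6) (8 * X), G1 x) ≤ A0 * (1 + Real.log (1 / ε)) * S := by
    have i1 : ∀ k ∈ Finset.Icc 1 ⌊C * d * X⌋₊, IntegrableOn (fun x => ∑ j ∈ Finset.Icc 1 ⌊C * u * X⌋₊,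
        (min (1 / 6) L1 * d)⁻¹ * (min (1 / 6) L2 * u)⁻¹ *
          ((ε * X + |x - k / (L1 * d)|)⁻¹ * (ε * X + |x - j / (L2 * u)|)⁻¹)) (Icc (X / 6) (8 * X)) :=
      fun k _ => (continuous_finsetSum _ fun (j : ℕ) _ =>
        continuous_const.mul ((I09_cont hη (k / (L1 * d))).mul (I09_cont hη (j / (L2 * u))))).integrableOn_Icc
    rw [integral_finsetSum _ i1]
    rw [hS, Finset.mul_sum]
    refine Finset.sum_le_sum fun k _ => ?_
    have i2 : ∀ j ∈ Finset.Icc 1 ⌊C * u * X⌋₊, IntegrableOn (fun x =>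
        (min (1 / 6) L1 * d)⁻¹ * (min (1 / 6) L2 * u)⁻¹ *
          ((ε * X + |x - k / (L1 * d)|)⁻¹ * (ε * X + |x - j / (L2 * u)|)⁻¹)) (Icc (X / 6) (8 * X)) :=
      fun j _ => (continuous_const.mul ((I09_cont hη (k / (L1 * d))).mul (I09_cont hη (j / (L2 * u))))).integrableOn_Icc
    rw [integral_finsetSum _ i2]
    rw [Finset.mul_sum]
    refine Finset.sum_le_sum fun j _ => ?_
    rw [integral_const_mul]
    have q1 := I09_int2 hη (show X / 6 ≤ 8 * X by linarith) ((k : ℝ) / (L1 * d)) ((j : ℝ) / (L2 * u))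
    have q2 := I09_log hε hε2 hX
    have q3 := I09_sep h1 h2 hε hX hd hu k j
    have q4 : 0 ≤ (ε * X + |(k : ℝ) / (L1 * d) - j / (L2 * u)|)⁻¹ := by positivity
    calc _ ≤ (min (1 / 6) L1 * d)⁻¹ * (min (1 / 6) L2 * u)⁻¹ *
          (4 * Real.log (1 + (8 * X - X / 6) / (ε * X)) * (ε * X + |(k : ℝ) / (L1 * d) - j / (L2 * u)|)⁻¹) := by gcongr
      _ ≤ (min (1 / 6) L1 * d)⁻¹ * (min (1 / 6) L2 * u)⁻¹ *
          (4 * (3 * (1 + Real.log (1 / ε))) * (ε * X + |(k : ℝ) / (L1 * d) - j / (L2 * u)|)⁻¹) := by gcongr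
      _ = 12 * (1 + Real.log (1 / ε)) * ((min (1 / 6) L1 * d)⁻¹ * (min (1 / 6) L2 * u)⁻¹ *
          (ε * X + |(k : ℝ) / (L1 * d) - j / (L2 * u)|)⁻¹) := by ring
      _ ≤ 12 * (1 + Real.log (1 / ε)) * ((min (1 / 6) L1)⁻¹ * (min (1 / 6) L2)⁻¹ * max 1 (L1 * L2) *
        (ε * d * u * X + |L2 * u * k - L1 * d * j|)⁻¹) := by gcongr
      _ = _ := by rw [hA0]; ring
  exact I09_fin b1 b2 b3 hC hA00.le hA10.le hA20.le (by linarith) (by linarith) (by linarith) hS0

end II
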