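import Pool.Agent.Lib.MP_0f5a55_nt.II.I06
import Pool.Agent.Lib.MP_0f5a55_nt.II.I09

open Complex MeasureTheory Set Filter Topology
open scoped Real ComplexConjugate

namespace II

theorem ti_mul_sum (f : ℕ → ℝ) (hf : ∀ n, 0 ≤ f n) {a b R : ℕ} (h : a * b ≤ R) :
    ∑ u ∈ Finset.Icc 1 a, ∑ k ∈ Finset.Icc 1 b, f (u * k) ≤ ∑ N ∈ Finset.Icc 1 R, dv N * f N := by
  have e0 : ∑ u ∈ Finset.Icc 1 a, ∑ k ∈ Finset.Icc 1 b, f (u * k) =
      ∑ x ∈ Finset.Icc 1 a ×ˢ Finset.Icc 1 b, f (x.1 * x.2) := by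
    rw [Finset.sum_product]
  have hmap : ∀ x ∈ Finset.Icc 1 a ×ˢ Finset.Icc 1 b, x.1 * x.2 ∈ Finset.Icc 1 R := by
    intro x hx
    rw [Finset.mem_product, Finset.mem_Icc, Finset.mem_Icc] at hx
    rw [Finset.mem_Icc]
    refine ⟨Nat.one_le_iff_ne_zero.2 (Nat.mul_ne_zero (by omega) (by omega)), ?_⟩
    exact (Nat.mul_le_mul hx.1.2 hx.2.2).trans h
  rw [e0, ← Finset.sum_fiberwise_of_maps_to hmap]
  refine Finset.sum_le_sum fun N hN => ?_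
  rw [Finset.mem_Icc] at hN
  have h1 : ∑ x ∈ (Finset.Icc 1 a ×ˢ Finset.Icc 1 b) with x.1 * x.2 = N, f (x.1 * x.2) =
     (((Finset.Icc 1 a ×ˢ Finset.Icc 1 b).filter (fun x => x.1 * x.2 = N)).card : ℝ) * f N := by
    rw [Finset.sum_congr rfl (fun x hx => by rw [(Finset.mem_filter.1 hx).2]), Finset.sum_const, nsmul_eq_mul]
  rw [h1]
  refine mul_le_mul_of_nonneg_right ?_ (hf N)
  unfold dv
  have h2 : ((Finset.Icc 1 a ×ˢ Finset.Icc 1 b).filter (fun x => x.1 * x.2 = N)).card ≤ N.divisors.card := by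
    refine Finset.card_le_card_of_injOn (fun x => x.1) ?_ ?_
    · intro x hx
      have hx' := (Finset.mem_filter.1 hx).2
      exact Nat.mem_divisors.2 ⟨⟨x.2, hx'.symm⟩, by omega⟩
    · intro x hx y hy hxy
      have hx' := (Finset.mem_filter.1 hx).2
      have hy' := (Finset.mem_filter.1 hy).2
      have hxp := (Finset.mem_product.1 (Finset.mem_filter.1 hx).1).1
      rw [Finset.mem_Icc] at hxp
      have hxy' : x.1 = y.1 := hxy
      refine Prod.ext hxy' ?_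
      rw [← hxy', ← hx'] at hy'
      exact (Nat.eq_of_mul_eq_mul_left (by omega) hy').symm
  exact_mod_cast h2

theorem ti_nd_nonneg (y : ℝ) : 0 ≤ nd y := abs_nonneg _

theorem ti_nd_meas : Measurable nd := by
  unfold nd
  have h1 : (fun y : ℝ => |y - (round y : ℝ)|) = fun y : ℝ => |y - ((⌊y + 1 / 2⌋ : ℤ) : ℝ)| := by
    funext y
    rw [round_eq]
  rw [h1]
  refine Measurable.abs (measurable_id.sub ?_)
  exact (measurable_from_top (f := fun n : ℤ => (n : ℝ))).comp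
    (Int.measurable_floor.comp (measurable_id.add_const _))

theorem ti_inv_le {ε x : ℝ} (he : 0 < ε) (hx : 1 / 6 ≤ x) {v : ℝ} (hv : 1 ≤ v) {L : ℝ} :
    (ε * v * x + nd (L * v * x))⁻¹ ≤ 6 * ε⁻¹ := by
  have h1 : 0 < ε / 6 := by positivity
  have h2 : ε / 6 ≤ ε * v * x + nd (L * v * x) := by
    have := ti_nd_nonneg (L * v * x)
    have h3 : ε * 1 * (1 / 6) ≤ ε * v * x := by gcongr
    linarith
  calc (ε * v * x + nd (L * v * x))⁻¹ ≤ (ε / 6)⁻¹ := inv_anti₀ h1 h2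
    _ = 6 * ε⁻¹ := by rw [inv_div]; rfl

theorem ti_inv_nonneg {ε x : ℝ} (he : 0 < ε) (hx : 1 / 6 ≤ x) {v : ℝ} (hv : 1 ≤ v) {L : ℝ} :
    0 ≤ (ε * v * x + nd (L * v * x))⁻¹ := by
  have := ti_nd_nonneg (L * v * x)
  positivity

/-- tail of the exponential sum -/
theorem ti_tail {c : ℝ} (hc : 0 < c) : ∃ K : ℝ, 0 ≤ K ∧ ∀ (L2 ε x : ℝ), 0 < ε → 1 / 6 ≤ x →
    ∀ (U : ℕ) (W : ℝ), W ≤ ε * ((U : ℝ) + 1) ^ 2 →
      ∑' u : ℕ, Real.exp (-(c * ε * ((u : ℝ) + 1) ^ 2 * x)) *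
          (ε * ((u : ℝ) + 1) * x + nd (L2 * ((u : ℝ) + 1) * x))⁻¹ ≤
        ∑ u ∈ Finset.range U, (ε * ((u : ℝ) + 1) * x + nd (L2 * ((u : ℝ) + 1) * x))⁻¹ +
          K * (ε⁻¹ ^ 2 * Real.exp (-(c / 12 * W))) := by
  have hS : Summable (fun u : ℕ => (((u : ℝ) + 1) ^ 2)⁻¹) := by
    have := (summable_nat_add_iff 1).2 (Real.summable_nat_pow_inv.2 (by norm_num : 1 < 2))
    refine this.congr fun u => ?_
    push_cast
    rfl
  refine ⟨72 / c * ∑' u : ℕ, (((u : ℝ) + 1) ^ 2)⁻¹, by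
    have : 0 ≤ ∑' u : ℕ, (((u : ℝ) + 1) ^ 2)⁻¹ := tsum_nonneg fun u => by positivity
    positivity, ?_⟩
  intro L2 ε x he hx U W hW
  set t : ℕ → ℝ := fun u => Real.exp (-(c * ε * ((u : ℝ) + 1) ^ 2 * x)) *
          (ε * ((u : ℝ) + 1) * x + nd (L2 * ((u : ℝ) + 1) * x))⁻¹ with ht
  have hx0 : 0 < x := by linarith
  have hi : ∀ u : ℕ, 0 ≤ (ε * ((u : ℝ) + 1) * x + nd (L2 * ((u : ℝ) + 1) * x))⁻¹ := fun u =>
    ti_inv_nonneg he hx (by linarith [Nat.cast_nonneg (α := ℝ) u])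
  have hi2 : ∀ u : ℕ, (ε * ((u : ℝ) + 1) * x + nd (L2 * ((u : ℝ) + 1) * x))⁻¹ ≤ 6 * ε⁻¹ := fun u =>
    ti_inv_le he hx (by linarith [Nat.cast_nonneg (α := ℝ) u])
  have ht0 : ∀ u, 0 ≤ t u := fun u => mul_nonneg (Real.exp_pos _).le (hi u)
  have hexp : ∀ u : ℕ, Real.exp (-(c * ε * ((u : ℝ) + 1) ^ 2 * x)) ≤
      Real.exp (-(c / 12 * (ε * ((u : ℝ) + 1) ^ 2))) * (12 / c * ε⁻¹ * (((u : ℝ) + 1) ^ 2)⁻¹) := by
    intro u
    set v : ℝ := (u : ℝ) + 1 with hv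
    have hv1 : 0 < v := by positivity
    have h1 : Real.exp (-(c * ε * v ^ 2 * x)) ≤
        Real.exp (-(c / 12 * (ε * v ^ 2))) * Real.exp (-(c / 12 * (ε * v ^ 2))) := by
      rw [← Real.exp_add]
      refine Real.exp_le_exp.2 ?_
      have : c * ε * v ^ 2 * (1 / 6) ≤ c * ε * v ^ 2 * x := by gcongr
      linarith
    refine h1.trans (mul_le_mul_of_nonneg_left ?_ (Real.exp_pos _).le)
    have hy : 0 < c / 12 * (ε * v ^ 2) := by positivity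
    rw [Real.exp_neg]
    have h2 : c / 12 * (ε * v ^ 2) ≤ Real.exp (c / 12 * (ε * v ^ 2)) := by
      have := Real.add_one_le_exp (c / 12 * (ε * v ^ 2))
      linarith
    calc (Real.exp (c / 12 * (ε * v ^ 2)))⁻¹ ≤ (c / 12 * (ε * v ^ 2))⁻¹ := inv_anti₀ hy h2
      _ = 12 / c * ε⁻¹ * (v ^ 2)⁻¹ := by
        rw [mul_inv, mul_inv, inv_div]; ring
  have hb : ∀ u : ℕ, t u ≤ 72 / c * ε⁻¹ ^ 2 * (((u : ℝ) + 1) ^ 2)⁻¹ := by
    intro u
    have h1 : Real.exp (-(c / 12 * (ε * ((u : ℝ) + 1) ^ 2))) ≤ 1 := by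
      rw [Real.exp_le_one_iff]
      have : 0 ≤ c / 12 * (ε * ((u : ℝ) + 1) ^ 2) := by positivity
      linarith
    calc t u ≤ (1 * (12 / c * ε⁻¹ * (((u : ℝ) + 1) ^ 2)⁻¹)) * (6 * ε⁻¹) := by
          refine mul_le_mul ((hexp u).trans ?_) (hi2 u) (hi u) (by positivity)
          gcongr
      _ = _ := by ring
  have hts : Summable t := Summable.of_nonneg_of_le ht0 hb (hS.mul_left _)
  rw [← hts.sum_add_tsum_nat_add U]
  refine add_le_add ?_ ?_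
  · refine Finset.sum_le_sum fun u _ => ?_
    refine (mul_le_mul_of_nonneg_right ?_ (hi u)).trans (one_mul _).le
    rw [Real.exp_le_one_iff]
    have : 0 ≤ c * ε * ((u : ℝ) + 1) ^ 2 * x := by positivity
    linarith
  · have hb2 : ∀ u : ℕ, t (u + U) ≤ 72 / c * (ε⁻¹ ^ 2 * Real.exp (-(c / 12 * W))) * (((u : ℝ) + 1) ^ 2)⁻¹ := by
      intro u
      have h1 : Real.exp (-(c / 12 * (ε * (((u + U : ℕ) : ℝ) + 1) ^ 2))) ≤ Real.exp (-(c / 12 * W)) := by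
        refine Real.exp_le_exp.2 (neg_le_neg ?_)
        refine mul_le_mul_of_nonneg_left (hW.trans ?_) (by positivity)
        push_cast
        gcongr
        linarith [Nat.cast_nonneg (α := ℝ) u]
      have h3 : ((((u + U : ℕ) : ℝ) + 1) ^ 2)⁻¹ ≤ (((u : ℝ) + 1) ^ 2)⁻¹ := by
        refine inv_anti₀ (by positivity) ?_
        push_cast
        gcongr
        linarith [Nat.cast_nonneg (α := ℝ) U]
      calc t (u + U) ≤ (Real.exp (-(c / 12 * W)) * (12 / c * ε⁻¹ * (((u : ℝ) + 1) ^ 2)⁻¹)) * (6 * ε⁻¹) := by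
            refine mul_le_mul ((hexp _).trans ?_) (hi2 _) (hi _) (by positivity)
            gcongr
        _ = _ := by ring
    calc ∑' u : ℕ, t (u + U) ≤ ∑' u : ℕ, 72 / c * (ε⁻¹ ^ 2 * Real.exp (-(c / 12 * W))) * (((u : ℝ) + 1) ^ 2)⁻¹ :=
          Summable.tsum_le_tsum hb2 ((summable_nat_add_iff U).2 hts) (hS.mul_left _)
      _ = _ := by rw [tsum_mul_left]; ring


theorem ti_intble (L1 L2 : ℝ) {ε X : ℝ} (he : 0 < ε) (hX : 1 ≤ X) {d u : ℝ} (hd : 1 ≤ d) (hu : 1 ≤ u) :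
    IntegrableOn (fun x => (ε * d * x + nd (L1 * d * x))⁻¹ * (ε * u * x + nd (L2 * u * x))⁻¹)
      (Icc (X / 6) (8 * X)) := by
  have hm : Measurable (fun x => (ε * d * x + nd (L1 * d * x))⁻¹ * (ε * u * x + nd (L2 * u * x))⁻¹) := by
    have h1 : ∀ (L v : ℝ), Measurable (fun x : ℝ => (ε * v * x + nd (L * v * x))⁻¹) := fun L v =>
      (((measurable_const_mul (ε * v))).add (ti_nd_meas.comp (measurable_const_mul (L * v)))).inv
    exact (h1 L1 d).mul (h1 L2 u)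
  refine Measure.integrableOn_of_bounded (M := (6 * ε⁻¹) * (6 * ε⁻¹)) (by simp) hm.aestronglyMeasurable ?_
  refine (ae_restrict_iff' measurableSet_Icc).2 (Eventually.of_forall fun x hx => ?_)
  have hx6 : 1 / 6 ≤ x := by
    have := hx.1
    linarith
  rw [Real.norm_eq_abs, abs_of_nonneg (mul_nonneg (ti_inv_nonneg he hx6 hd) (ti_inv_nonneg he hx6 hu))]
  exact mul_le_mul (ti_inv_le he hx6 hd) (ti_inv_le he hx6 hu) (ti_inv_nonneg he hx6 hu) (by positivity)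

theorem ti_range_Icc (f : ℝ → ℝ) (U : ℕ) :
    ∑ u ∈ Finset.range U, f ((u : ℝ) + 1) = ∑ u ∈ Finset.Icc 1 U, f (u : ℝ) := by
  induction U with
  | zero => simp
  | succ n ih =>
    rw [Finset.sum_range_succ, ih, Finset.sum_Icc_succ_top (by omega)]
    push_cast
    rfl

/-- one value of d -/
theorem ti_one {c K L2 : ℝ} (hK : 0 ≤ K) (htail : ∀ (ε x : ℝ), 0 < ε → 1 / 6 ≤ x →
    ∀ (U : ℕ) (W : ℝ), W ≤ ε * ((U : ℝ) + 1) ^ 2 →
      ∑' u : ℕ, Real.exp (-(c * ε * ((u : ℝ) + 1) ^ 2 * x)) *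
          (ε * ((u : ℝ) + 1) * x + nd (L2 * ((u : ℝ) + 1) * x))⁻¹ ≤
        ∑ u ∈ Finset.range U, (ε * ((u : ℝ) + 1) * x + nd (L2 * ((u : ℝ) + 1) * x))⁻¹ +
          K * (ε⁻¹ ^ 2 * Real.exp (-(c / 12 * W)))) (L1 : ℝ) {ε X : ℝ} (he : 0 < ε) (hX : 1 ≤ X) (d : ℕ)
    (hd : 1 ≤ d) (U : ℕ) (W : ℝ) (hW : W ≤ ε * ((U : ℝ) + 1) ^ 2) :
    ∫ x in Icc (X / 6) (8 * X), (ε * d * x + nd (L1 * d * x))⁻¹ *
        ∑' u : ℕ, Real.exp (-(c * ε * ((u : ℝ) + 1) ^ 2 * x)) *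
          (ε * ((u : ℝ) + 1) * x + nd (L2 * ((u : ℝ) + 1) * x))⁻¹ ≤
      ∑ u ∈ Finset.Icc 1 U, (∫ x in Icc (X / 6) (8 * X), (ε * d * x + nd (L1 * d * x))⁻¹ *
          (ε * u * x + nd (L2 * u * x))⁻¹) +
        48 * K * (ε⁻¹ ^ 3 * X * Real.exp (-(c / 12 * W))) := by
  have hd' : (1 : ℝ) ≤ d := by exact_mod_cast hd
  set TT : ℝ := K * (ε⁻¹ ^ 2 * Real.exp (-(c / 12 * W))) with hTT
  have hTT0 : 0 ≤ TT := by positivity
  have hg : IntegrableOn (fun x => (∑ u ∈ Finset.Icc 1 U, (ε * d * x + nd (L1 * d * x))⁻¹ *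
          (ε * u * x + nd (L2 * u * x))⁻¹) + 6 * ε⁻¹ * TT) (Icc (X / 6) (8 * X)) := by
    refine Integrable.add ?_ ?_
    · refine integrable_finsetSum _ fun u hu => ?_
      rw [Finset.mem_Icc] at hu
      exact ti_intble L1 L2 he hX hd' (by exact_mod_cast hu.1)
    · exact integrable_const _
  have h1 := integral_mono_of_nonneg (μ := volume.restrict (Icc (X / 6) (8 * X)))
    (f := fun x => (ε * d * x + nd (L1 * d * x))⁻¹ *
        ∑' u : ℕ, Real.exp (-(c * ε * ((u : ℝ) + 1) ^ 2 * x)) *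
          (ε * ((u : ℝ) + 1) * x + nd (L2 * ((u : ℝ) + 1) * x))⁻¹) ?_ hg ?_
  · refine h1.trans ?_
    rw [integral_add, integral_finsetSum, setIntegral_const]
    · refine add_le_add le_rfl ?_
      rw [smul_eq_mul, Real.volume_real_Icc_of_le (by linarith)]
      have h2 : 8 * X - X / 6 ≤ 8 * X := by linarith
      calc (8 * X - X / 6) * (6 * ε⁻¹ * TT) ≤ (8 * X) * (6 * ε⁻¹ * TT) := by gcongr
        _ = _ := by rw [hTT]; ring
    · intro u hu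
      rw [Finset.mem_Icc] at hu
      exact ti_intble L1 L2 he hX hd' (by exact_mod_cast hu.1)
    · refine integrable_finsetSum _ fun u hu => ?_
      rw [Finset.mem_Icc] at hu
      exact ti_intble L1 L2 he hX hd' (by exact_mod_cast hu.1)
    · exact integrable_const _
  · refine (ae_restrict_iff' measurableSet_Icc).2 (Eventually.of_forall fun x hx => ?_)
    have hx6 : 1 / 6 ≤ x := by
      have := hx.1
      linarith
    refine mul_nonneg (ti_inv_nonneg he hx6 hd') (tsum_nonneg fun u => mul_nonneg (Real.exp_pos _).le ?_)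
    exact ti_inv_nonneg he hx6 (by linarith [Nat.cast_nonneg (α := ℝ) u])
  · refine (ae_restrict_iff' measurableSet_Icc).2 (Eventually.of_forall fun x hx => ?_)
    have hx6 : 1 / 6 ≤ x := by
      have := hx.1
      linarith
    have h3 := htail ε x he hx6 U W hW
    have h4 := ti_inv_nonneg (L := L1) he hx6 hd'
    have h5 := ti_inv_le (L := L1) he hx6 hd'
    show (ε * d * x + nd (L1 * d * x))⁻¹ * _ ≤ _
    refine (mul_le_mul_of_nonneg_left h3 h4).trans ?_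
    rw [mul_add, Finset.mul_sum]
    refine add_le_add (le_of_eq ?_) (mul_le_mul_of_nonneg_right h5 hTT0)
    exact ti_range_Icc (fun v => (ε * d * x + nd (L1 * d * x))⁻¹ * (ε * v * x + nd (L2 * v * x))⁻¹) U

/-- the arithmetic sum -/
theorem ti_count {L1 L2 C9 ε X : ℝ} (h9 : 0 < C9) (he : 0 < ε) (hX : 1 ≤ X) (U D R : ℕ)
    (hR : C9 * U * D * X < (R : ℝ) + 1) :
    ∑ d ∈ Finset.Icc 1 D, ∑ u ∈ Finset.Icc 1 U, ∑ k ∈ Finset.Icc 1 ⌊C9 * d * X⌋₊,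
      ∑ j ∈ Finset.Icc 1 ⌊C9 * u * X⌋₊, (ε * d * u * X + |L2 * u * k - L1 * d * j|)⁻¹ ≤
    ∑ N ∈ Finset.Icc 1 R, ∑ M ∈ Finset.Icc 1 R, dv N * dv M / (ε / C9 * N + |L2 * N - L1 * M|) := by
  set Kk : ℕ := ⌊C9 * D * X⌋₊ with hKk
  set Jj : ℕ := ⌊C9 * U * X⌋₊ with hJj
  set g : ℕ → ℕ → ℝ := fun N M => (ε / C9 * N + |L2 * N - L1 * M|)⁻¹ with hg
  have hg0 : ∀ N M, 0 ≤ g N M := fun N M => by
    simp only [hg]
    positivity
  have hR1 : U * Kk ≤ R := by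
    have h1 : (Kk : ℝ) ≤ C9 * D * X := Nat.floor_le (by positivity)
    have h2 : ((U * Kk : ℕ) : ℝ) < (R : ℝ) + 1 := by
      push_cast
      calc (U : ℝ) * Kk ≤ U * (C9 * D * X) := by gcongr
        _ = C9 * U * D * X := by ring
        _ < _ := hR
    have h3 : U * Kk < R + 1 := by exact_mod_cast h2
    omega
  have hR2 : D * Jj ≤ R := by
    have h1 : (Jj : ℝ) ≤ C9 * U * X := Nat.floor_le (by positivity)
    have h2 : ((D * Jj : ℕ) : ℝ) < (R : ℝ) + 1 := by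
      push_cast
      calc (D : ℝ) * Jj ≤ D * (C9 * U * X) := by gcongr
        _ = C9 * U * D * X := by ring
        _ < _ := hR
    have h3 : D * Jj < R + 1 := by exact_mod_cast h2
    omega
  calc ∑ d ∈ Finset.Icc 1 D, ∑ u ∈ Finset.Icc 1 U, ∑ k ∈ Finset.Icc 1 ⌊C9 * d * X⌋₊,
      ∑ j ∈ Finset.Icc 1 ⌊C9 * u * X⌋₊, (ε * d * u * X + |L2 * u * k - L1 * d * j|)⁻¹
      ≤ ∑ d ∈ Finset.Icc 1 D, ∑ u ∈ Finset.Icc 1 U, ∑ k ∈ Finset.Icc 1 Kk,
          ∑ j ∈ Finset.Icc 1 Jj, g (u * k) (d * j) := by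
        refine Finset.sum_le_sum fun d hd => Finset.sum_le_sum fun u hu => ?_
        rw [Finset.mem_Icc] at hd hu
        have hd1 : (1 : ℝ) ≤ d := by exact_mod_cast hd.1
        have hu1 : (1 : ℝ) ≤ u := by exact_mod_cast hu.1
        have hd2 : (d : ℝ) ≤ D := by exact_mod_cast hd.2
        have hu2 : (u : ℝ) ≤ U := by exact_mod_cast hu.2
        have s1 : ⌊C9 * d * X⌋₊ ≤ Kk := Nat.floor_le_floor (by gcongr)
        have s2 : ⌊C9 * u * X⌋₊ ≤ Jj := Nat.floor_le_floor (by gcongr)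
        refine le_trans (Finset.sum_le_sum fun k hk => Finset.sum_le_sum
          (g := fun j => g (u * k) (d * j)) fun j hj => ?_) ?_
        · rw [Finset.mem_Icc] at hk hj
          have hk1 : (1 : ℝ) ≤ k := by exact_mod_cast hk.1
          have hk2 : (k : ℝ) ≤ C9 * d * X := by
            have : (k : ℝ) ≤ (⌊C9 * d * X⌋₊ : ℝ) := by exact_mod_cast hk.2
            exact this.trans (Nat.floor_le (by positivity))
          have p1 : 0 < ε / C9 * ((u * k : ℕ) : ℝ) + |L2 * ((u * k : ℕ) : ℝ) - L1 * ((d * j : ℕ) : ℝ)| := by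
            push_cast
            positivity
          refine inv_anti₀ p1 ?_
          push_cast
          have e1 : L2 * (u * k) - L1 * (d * j) = L2 * u * k - L1 * d * j := by ring
          rw [e1]
          refine add_le_add ?_ le_rfl
          calc ε / C9 * (u * k) ≤ ε / C9 * (u * (C9 * d * X)) := by gcongr
            _ = ε * d * u * X := by field_simp
        · refine (Finset.sum_le_sum fun k _ => Finset.sum_le_sum_of_subset_of_nonneg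
            (Finset.Icc_subset_Icc le_rfl s2) fun j _ _ => hg0 _ _).trans ?_
          exact Finset.sum_le_sum_of_subset_of_nonneg (Finset.Icc_subset_Icc le_rfl s1)
            fun k _ _ => Finset.sum_nonneg fun j _ => hg0 _ _
    _ = ∑ u ∈ Finset.Icc 1 U, ∑ k ∈ Finset.Icc 1 Kk, ∑ d ∈ Finset.Icc 1 D,
          ∑ j ∈ Finset.Icc 1 Jj, g (u * k) (d * j) := by
        rw [Finset.sum_comm]
        refine Finset.sum_congr rfl fun u _ => ?_
        rw [Finset.sum_comm]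
    _ ≤ ∑ N ∈ Finset.Icc 1 R, dv N * ∑ d ∈ Finset.Icc 1 D, ∑ j ∈ Finset.Icc 1 Jj, g N (d * j) :=
        ti_mul_sum (fun N => ∑ d ∈ Finset.Icc 1 D, ∑ j ∈ Finset.Icc 1 Jj, g N (d * j))
          (fun N => Finset.sum_nonneg fun _ _ => Finset.sum_nonneg fun _ _ => hg0 _ _) hR1
    _ ≤ ∑ N ∈ Finset.Icc 1 R, dv N * ∑ M ∈ Finset.Icc 1 R, dv M * g N M := by
        refine Finset.sum_le_sum fun N _ => mul_le_mul_of_nonneg_left ?_ (by unfold dv; positivity)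
        exact ti_mul_sum (fun M => g N M) (fun M => hg0 _ _) hR2
    _ = _ := by
        refine Finset.sum_congr rfl fun N _ => ?_
        rw [Finset.mul_sum]
        refine Finset.sum_congr rfl fun M _ => ?_
        rw [← mul_assoc, div_eq_mul_inv]


theorem ti_quad_symm {L1 L2 : ℝ} (h : Quad L1 L2) : Quad L2 L1 := by
  obtain ⟨h1, h2, h3, r, s, hr, hs, e⟩ := h
  refine ⟨h2, h1, ?_, s, r, hs, hr, e.symm⟩
  have := h3.inv
  rwa [inv_div] at this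

/-- Row I10. Type I sums. -/
theorem typeI {L1 L2 : ℝ} (h : Quad L1 L2) {c : ℝ} (hc : 0 < c) (A : ℝ) : ∃ B0 : ℝ, ∀ B : ℝ, B0 ≤ B →
    ∃ C ε0 : ℝ, 0 < ε0 ∧ ε0 ≤ 1 / 3 ∧ ∀ ε : ℝ, 0 < ε → ε ≤ ε0 → ∀ X : ℝ, 1 ≤ X →
      X ≤ Real.log (1 / ε) ^ A →
      ∑ d ∈ Finset.Icc 1 ⌊ε ^ (-(1 / 2 : ℝ)) * Real.log (1 / ε) ^ (-B)⌋₊, ∫ x in Icc (X / 6) (8 * X),
        (ε * d * x + nd (L1 * d * x))⁻¹ * ∑' u : ℕ, Real.exp (-(c * ε * ((u : ℝ) + 1) ^ 2 * x)) *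
          (ε * ((u : ℝ) + 1) * x + nd (L2 * ((u : ℝ) + 1) * x))⁻¹ ≤ C * ε⁻¹ := by
  obtain ⟨C9, h9, H9⟩ := int_two h.1 h.2.1
  obtain ⟨C6, h6, H6⟩ := near_sum (ti_quad_symm h)
  obtain ⟨K, hK, HK⟩ := ti_tail hc
  refine ⟨|A| + 28, fun B hB => ?_⟩
  have hBA : A + 28 ≤ B := by linarith [le_abs_self A]
  have hB28 : 28 ≤ B := by linarith [abs_nonneg A]
  have e1 : ∀ᶠ l : ℝ in atTop, l ^ A ≤ Real.exp l := by
    have := (isLittleO_rpow_exp_atTop A).bound (c := 1) one_pos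
    filter_upwards [this, eventually_ge_atTop 1] with l hl hl1
    rw [Real.norm_eq_abs, Real.norm_eq_abs, one_mul, abs_of_pos (Real.exp_pos _)] at hl
    exact (le_abs_self _).trans hl
  have e2 : ∀ᶠ l : ℝ in atTop, l ^ (B - A - 1) ≤ C9 * Real.exp l := by
    have := (isLittleO_rpow_exp_atTop (B - A - 1)).bound (c := C9) h9
    filter_upwards [this, eventually_ge_atTop 1] with l hl hl1
    rw [Real.norm_eq_abs, Real.norm_eq_abs, abs_of_pos (Real.exp_pos _)] at hl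
    exact (le_abs_self _).trans hl
  have e3 : ∀ᶠ l : ℝ in atTop, Real.exp (-l) ≤ C9 := by
    have : Tendsto (fun l : ℝ => Real.exp (-l)) atTop (𝓝 0) := Real.tendsto_exp_neg_atTop_nhds_zero
    exact (this.eventually (gt_mem_nhds h9)).mono fun _ h => h.le
  obtain ⟨l0, hl0⟩ := eventually_atTop.1 (e1.and (e2.and (e3.and
    ((eventually_ge_atTop (48 / c)).and (eventually_ge_atTop (1 : ℝ))))))
  set CL : ℝ := |Real.log C9| with hCL
  refine ⟨2 * C9 + 2 * C9 * C6 * C9 * (2 + CL) ^ 8 + 48 * K, min (1 / 3) (Real.exp (-l0)), by positivity,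
    min_le_left _ _, ?_⟩
  intro ε he hε X hX hXA
  set l : ℝ := Real.log (1 / ε) with hl
  have hle : Real.exp l = ε⁻¹ := by rw [hl, Real.exp_log (by positivity), one_div]
  have hl0' : l0 ≤ l := by
    rw [hl, one_div, Real.log_inv]
    have := Real.log_le_log he (hε.trans (min_le_right _ _))
    rw [Real.log_exp] at this
    linarith
  obtain ⟨k1, k2, k3, k4, k5⟩ := hl0 l hl0'
  have hlpos : 0 < l := by linarith
  set s : ℝ := ε ^ (-(1 / 2 : ℝ)) with hs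
  have hs0 : 0 < s := Real.rpow_pos_of_pos he _
  have hss : s * s = ε⁻¹ := by
    rw [hs, ← Real.rpow_add he, ← Real.rpow_neg_one]
    norm_num
  have he1 : ε ≤ 1 := by
    have := hε.trans (min_le_left _ _)
    linarith
  have hs1 : 1 ≤ s := by
    rw [hs]
    exact Real.one_le_rpow_of_pos_of_le_one_of_nonpos he he1 (by norm_num)
  have hse : s ≤ ε⁻¹ := by rw [← hss]; nlinarith
  have hlB : l ^ (-B) ≤ 1 := Real.rpow_le_one_of_one_le_of_nonpos k5 (by linarith)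
  have hlB0 : 0 < l ^ (-B) := Real.rpow_pos_of_pos hlpos _
  set D : ℕ := ⌊s * l ^ (-B)⌋₊ with hD
  have hDle : (D : ℝ) ≤ s * l ^ (-B) := Nat.floor_le (by positivity)
  set U : ℕ := ⌊s * l⌋₊ with hU
  have hUle : (U : ℝ) ≤ s * l := Nat.floor_le (by positivity)
  have hW : l ^ 2 ≤ ε * ((U : ℝ) + 1) ^ 2 := by
    have h1 : s * l ≤ (U : ℝ) + 1 := (Nat.lt_floor_add_one _).le
    have h2 : (s * l) ^ 2 ≤ ((U : ℝ) + 1) ^ 2 := by gcongr
    calc l ^ 2 = ε * (s * l) ^ 2 := by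
          rw [mul_pow, sq s, hss]
          field_simp
      _ ≤ _ := by gcongr
  set Rr : ℝ := C9 * ε⁻¹ * l ^ (A + 1 - B) with hRr
  have hlA0 : 0 < l ^ (A + 1 - B) := Real.rpow_pos_of_pos hlpos _
  have hRr0 : 0 < Rr := by positivity
  set R : ℕ := ⌊Rr⌋₊ with hR
  have hRle : (R : ℝ) ≤ Rr := Nat.floor_le hRr0.le
  have hRr1 : 1 ≤ Rr := by
    have h1 : 1 = l ^ (B - A - 1) * l ^ (A + 1 - B) := by
      rw [← Real.rpow_add hlpos]
      rw [show B - A - 1 + (A + 1 - B) = 0 by ring, Real.rpow_zero]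
    calc (1 : ℝ) = l ^ (B - A - 1) * l ^ (A + 1 - B) := h1
      _ ≤ (C9 * Real.exp l) * l ^ (A + 1 - B) := by gcongr
      _ = Rr := by rw [hle]
  have hR1 : 1 ≤ R := (Nat.one_le_floor_iff _).2 hRr1
  have hCR : C9 * U * D * X < (R : ℝ) + 1 := by
    refine lt_of_le_of_lt ?_ (Nat.lt_floor_add_one Rr)
    calc C9 * U * D * X ≤ C9 * (s * l) * (s * l ^ (-B)) * l ^ A := by gcongr
      _ = C9 * (s * s) * (l ^ (1 : ℝ) * l ^ (-B) * l ^ A) := by rw [Real.rpow_one]; ring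
      _ = Rr := by
        rw [hss, ← Real.rpow_add hlpos, ← Real.rpow_add hlpos, hRr]
        congr 2
        ring
  have hlA1 : l ^ (A + 1 - B) ≤ 1 := Real.rpow_le_one_of_one_le_of_nonpos k5 (by linarith)
  have heR : ε / C9 * R ≤ 1 := by
    calc ε / C9 * R ≤ ε / C9 * Rr := by gcongr
      _ = l ^ (A + 1 - B) := by rw [hRr]; field_simp
      _ ≤ 1 := hlA1
  have hN := H6 R (ε / C9) hR1 (by positivity) heR

  have hone : ∀ d ∈ Finset.Icc 1 D, ∫ x in Icc (X / 6) (8 * X), (ε * d * x + nd (L1 * d * x))⁻¹ *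
        ∑' u : ℕ, Real.exp (-(c * ε * ((u : ℝ) + 1) ^ 2 * x)) *
          (ε * ((u : ℝ) + 1) * x + nd (L2 * ((u : ℝ) + 1) * x))⁻¹ ≤
      ∑ u ∈ Finset.Icc 1 U, C9 * (1 + l) * (1 + ∑ k ∈ Finset.Icc 1 ⌊C9 * d * X⌋₊,
        ∑ j ∈ Finset.Icc 1 ⌊C9 * u * X⌋₊, (ε * d * u * X + |L2 * u * k - L1 * d * j|)⁻¹) +
        48 * K * (ε⁻¹ ^ 3 * X * Real.exp (-(c / 12 * l ^ 2))) := by
    intro d hd
    rw [Finset.mem_Icc] at hd
    refine (ti_one hK (HK L2) L1 he hX d hd.1 U (l ^ 2) hW).trans (add_le_add ?_ le_rfl)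
    refine Finset.sum_le_sum fun u hu => ?_
    rw [Finset.mem_Icc] at hu
    exact H9 ε X he (by linarith [hε.trans (min_le_left _ _)]) hX d u hd.1 hu.1
  refine (Finset.sum_le_sum hone).trans ?_
  rw [Finset.sum_add_distrib, Finset.sum_const, Nat.card_Icc, nsmul_eq_mul, Nat.add_sub_cancel]
  have hsum : ∑ d ∈ Finset.Icc 1 D, ∑ u ∈ Finset.Icc 1 U, C9 * (1 + l) *
      (1 + ∑ k ∈ Finset.Icc 1 ⌊C9 * d * X⌋₊, ∑ j ∈ Finset.Icc 1 ⌊C9 * u * X⌋₊,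
        (ε * d * u * X + |L2 * u * k - L1 * d * j|)⁻¹) =
      C9 * (1 + l) * (D * U + ∑ d ∈ Finset.Icc 1 D, ∑ u ∈ Finset.Icc 1 U,
        ∑ k ∈ Finset.Icc 1 ⌊C9 * d * X⌋₊, ∑ j ∈ Finset.Icc 1 ⌊C9 * u * X⌋₊,
          (ε * d * u * X + |L2 * u * k - L1 * d * j|)⁻¹) := by
    simp_rw [← Finset.mul_sum, Finset.sum_add_distrib, Finset.sum_const, Nat.card_Icc, nsmul_eq_mul,
      Nat.add_sub_cancel, mul_one]
  rw [hsum]
  have hcount := ti_count (L1 := L1) (L2 := L2) h9 he hX U D R hCR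
  have hDU : (D : ℝ) * U ≤ ε⁻¹ * l ^ (1 - B) := by
    calc (D : ℝ) * U ≤ (s * l ^ (-B)) * (s * l) := by gcongr
      _ = (s * s) * (l ^ (1 : ℝ) * l ^ (-B)) := by rw [Real.rpow_one]; ring
      _ = _ := by
        rw [hss, ← Real.rpow_add hlpos]
        congr 2
  have hlogR : 1 + Real.log R ≤ (2 + CL) * l := by
    have h1 : Real.log R ≤ Real.log Rr := Real.log_le_log (by exact_mod_cast hR1) hRle
    have h2 : Real.log Rr ≤ CL + l := by
      rw [hRr, Real.log_mul (by positivity) hlA0.ne', Real.log_mul h9.ne' (by positivity)]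
      have h3 : Real.log ε⁻¹ = l := by rw [hl, one_div]
      have h4 : Real.log (l ^ (A + 1 - B)) ≤ 0 := Real.log_nonpos hlA0.le hlA1
      have h5 : Real.log C9 ≤ CL := le_abs_self _
      linarith
    have hCL0 : 0 ≤ CL := abs_nonneg _
    nlinarith
  have hlogR0 : 0 ≤ 1 + Real.log R := by
    have : 0 ≤ Real.log R := Real.log_nonneg (by exact_mod_cast hR1)
    linarith
  have hpow : (R : ℝ) ^ (1 / 3 : ℝ) * (ε / C9) ^ (-(2 / 3 : ℝ)) ≤ C9 * ε⁻¹ * l ^ (-(9 : ℝ)) := by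
    have hE : 0 < C9 * ε⁻¹ := by positivity
    have h1 : (R : ℝ) ^ (1 / 3 : ℝ) ≤ (C9 * ε⁻¹) ^ (1 / 3 : ℝ) * l ^ (-(9 : ℝ)) := by
      calc (R : ℝ) ^ (1 / 3 : ℝ) ≤ Rr ^ (1 / 3 : ℝ) := Real.rpow_le_rpow (by positivity) hRle (by norm_num)
        _ = (C9 * ε⁻¹) ^ (1 / 3 : ℝ) * (l ^ (A + 1 - B)) ^ (1 / 3 : ℝ) := by
          rw [hRr, Real.mul_rpow hE.le hlA0.le]
        _ ≤ _ := by
          refine mul_le_mul_of_nonneg_left ?_ (Real.rpow_nonneg hE.le _)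
          rw [← Real.rpow_mul hlpos.le]
          exact Real.rpow_le_rpow_of_exponent_le k5 (by linarith)
    have h2 : (ε / C9) ^ (-(2 / 3 : ℝ)) = (C9 * ε⁻¹) ^ (2 / 3 : ℝ) := by
      rw [Real.rpow_neg (by positivity), ← Real.inv_rpow (by positivity), inv_div, div_eq_mul_inv]
    calc (R : ℝ) ^ (1 / 3 : ℝ) * (ε / C9) ^ (-(2 / 3 : ℝ))
        ≤ ((C9 * ε⁻¹) ^ (1 / 3 : ℝ) * l ^ (-(9 : ℝ))) * (C9 * ε⁻¹) ^ (2 / 3 : ℝ) := by
          rw [h2]
          exact mul_le_mul_of_nonneg_right h1 (Real.rpow_nonneg hE.le _)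
      _ = ((C9 * ε⁻¹) ^ (1 / 3 : ℝ) * (C9 * ε⁻¹) ^ (2 / 3 : ℝ)) * l ^ (-(9 : ℝ)) := by ring
      _ = _ := by
        rw [← Real.rpow_add hE]
        norm_num
  have hl2 : 1 + l ≤ 2 * l := by linarith
  have hl9 : l * l ^ (-(9 : ℝ)) * l ^ 8 = 1 := by
    have : l ^ (8 : ℕ) = l ^ (8 : ℝ) := by rw [← Real.rpow_natCast]; norm_num
    rw [this]
    nth_rewrite 1 [← Real.rpow_one l]
    rw [← Real.rpow_add hlpos, ← Real.rpow_add hlpos]
    norm_num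
  have hA : C9 * (1 + l) * (D * U) ≤ 2 * C9 * ε⁻¹ := by
    calc C9 * (1 + l) * (D * U) ≤ C9 * (2 * l) * (ε⁻¹ * l ^ (1 - B)) := by gcongr
      _ = 2 * C9 * ε⁻¹ * (l ^ (1 : ℝ) * l ^ (1 - B)) := by rw [Real.rpow_one]; ring
      _ = 2 * C9 * ε⁻¹ * l ^ (1 + (1 - B)) := by rw [← Real.rpow_add hlpos]
      _ ≤ 2 * C9 * ε⁻¹ * 1 := by
        refine mul_le_mul_of_nonneg_left ?_ (by positivity)
        exact Real.rpow_le_one_of_one_le_of_nonpos k5 (by linarith)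
      _ = _ := mul_one _
  have hBb : C9 * (1 + l) * (C6 * ((R : ℝ) ^ (1 / 3 : ℝ) * (ε / C9) ^ (-(2 / 3 : ℝ)) *
      (1 + Real.log R) ^ 8)) ≤ 2 * C9 * C6 * C9 * (2 + CL) ^ 8 * ε⁻¹ := by
    have hCL0 : 0 ≤ CL := abs_nonneg _
    calc C9 * (1 + l) * (C6 * ((R : ℝ) ^ (1 / 3 : ℝ) * (ε / C9) ^ (-(2 / 3 : ℝ)) * (1 + Real.log R) ^ 8))
        ≤ C9 * (2 * l) * (C6 * ((C9 * ε⁻¹ * l ^ (-(9 : ℝ))) * ((2 + CL) * l) ^ 8)) := by
          gcongr
      _ = 2 * C9 * C6 * C9 * (2 + CL) ^ 8 * ε⁻¹ * (l * l ^ (-(9 : ℝ)) * l ^ 8) := by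
          rw [mul_pow]; ring
      _ = _ := by rw [hl9, mul_one]
  have hT : (D : ℝ) * (48 * K * (ε⁻¹ ^ 3 * X * Real.exp (-(c / 12 * l ^ 2)))) ≤ 48 * K * ε⁻¹ := by
    have hDe : (D : ℝ) ≤ ε⁻¹ := by
      calc (D : ℝ) ≤ s * l ^ (-B) := hDle
        _ ≤ s * 1 := by gcongr
        _ ≤ ε⁻¹ := by rw [mul_one]; exact hse
    have hXe : X ≤ ε⁻¹ := hXA.trans (k1.trans hle.le)
    have hei : 0 < ε⁻¹ := by positivity
    have hfin : ε⁻¹ * (ε⁻¹ ^ 3 * ε⁻¹ * Real.exp (-(c / 12 * l ^ 2))) ≤ ε⁻¹ := by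
      rw [← hle]
      have e5 : Real.exp l * (Real.exp l ^ 3 * Real.exp l * Real.exp (-(c / 12 * l ^ 2))) =
          Real.exp (l + (3 * l + l + -(c / 12 * l ^ 2))) := by
        rw [Real.exp_add, Real.exp_add, Real.exp_add, ← Real.exp_nat_mul]
        norm_num
      rw [e5]
      refine Real.exp_le_exp.2 ?_
      have h7 : 4 ≤ c / 12 * l := by
        rw [div_le_iff₀ hc] at k4
        linarith
      nlinarith
    calc (D : ℝ) * (48 * K * (ε⁻¹ ^ 3 * X * Real.exp (-(c / 12 * l ^ 2))))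
        ≤ ε⁻¹ * (48 * K * (ε⁻¹ ^ 3 * ε⁻¹ * Real.exp (-(c / 12 * l ^ 2)))) := by gcongr
      _ = 48 * K * (ε⁻¹ * (ε⁻¹ ^ 3 * ε⁻¹ * Real.exp (-(c / 12 * l ^ 2)))) := by ring
      _ ≤ 48 * K * ε⁻¹ := mul_le_mul_of_nonneg_left hfin (by positivity)
  have hM := mul_le_mul_of_nonneg_left (hcount.trans hN) (by positivity : 0 ≤ C9 * (1 + l))
  rw [mul_add]
  linarith

end II
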