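import Pool.Agent.Lib.MP_0f5a55_nt.II.I01
import Pool.Agent.Lib.MP_0f5a55_nt.II.I02
import Pool.Agent.Lib.MP_0f5a55_nt.II.I03
import Pool.Agent.Lib.MP_0f5a55_nt.II.I04
import Pool.Agent.Lib.MP_0f5a55_nt.II.I08
import Pool.Agent.Lib.MP_0f5a55_nt.II.I10

open Complex MeasureTheory Set Filter Topology
open scoped Real ComplexConjugate

namespace II

private theorem I11_nd_cont : Continuous nd := by
  have h : nd = fun y : ℝ => ‖(y : UnitAddCircle)‖ := by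
    funext y
    rw [UnitAddCircle.norm_eq]
    rfl
  rw [h]
  exact continuous_norm.comp (AddCircle.continuous_mk' (1 : ℝ))

private theorem I11_nd_nn (y : ℝ) : 0 ≤ nd y := abs_nonneg _

private noncomputable def I11_A (ε L : ℝ) (d : ℕ) (x : ℝ) : ℝ := (ε * d * x + nd (L * d * x))⁻¹

private noncomputable def I11_t (c ε L : ℝ) (u : ℕ) (x : ℝ) : ℝ :=
  Real.exp (-(c * ε * ((u : ℝ) + 1) ^ 2 * x)) * (ε * ((u : ℝ) + 1) * x + nd (L * ((u : ℝ) + 1) * x))⁻¹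

private noncomputable def I11_B (c ε L x : ℝ) : ℝ := ∑' u : ℕ, I11_t c ε L u x

/-- general term bound -/
private theorem I11_tb {c ε a x : ℝ} (hc : 0 < c) (hε : 0 < ε) (ha : 0 < a) (hx : a ≤ x) (u : ℕ) {w : ℝ}
    (hw : 0 ≤ w) : Real.exp (-(c * ε * ((u : ℝ) + 1) ^ 2 * x)) * (ε * ((u : ℝ) + 1) * x + w)⁻¹ ≤
      Real.exp (-(c * ε * a)) ^ u * (ε * a)⁻¹ := by
  have hu : (0:ℝ) ≤ u := Nat.cast_nonneg u
  have h1 : Real.exp (-(c * ε * ((u : ℝ) + 1) ^ 2 * x)) ≤ Real.exp (-(c * ε * a)) ^ u := by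
    rw [← Real.exp_nat_mul]
    apply Real.exp_le_exp.2
    have h2 : (u : ℝ) * a ≤ ((u : ℝ) + 1) ^ 2 * x := by
      apply mul_le_mul _ hx ha.le (by positivity)
      nlinarith
    have h3 : 0 < c * ε := by positivity
    nlinarith [mul_le_mul_of_nonneg_left h2 h3.le]
  have h4 : (ε * ((u : ℝ) + 1) * x + w)⁻¹ ≤ (ε * a)⁻¹ := by
    apply inv_anti₀ (by positivity)
    have h5 : ε * a ≤ ε * ((u : ℝ) + 1) * x := by
      rw [mul_assoc]
      apply mul_le_mul_of_nonneg_left _ hε.le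
      nlinarith
    linarith
  have hx0 : 0 < x := lt_of_lt_of_le ha hx
  exact mul_le_mul h1 h4 (by positivity) (by positivity)

private theorem I11_add4 {s : Set ℝ} {f1 f2 f3 f4 : ℝ → ℝ} (h1 : IntegrableOn f1 s) (h2 : IntegrableOn f2 s)
    (h3 : IntegrableOn f3 s) (h4 : IntegrableOn f4 s) :
    ∫ x in s, (f1 x + f2 x + (f3 x + f4 x)) =
      ((∫ x in s, f1 x) + (∫ x in s, f2 x)) + ((∫ x in s, f3 x) + (∫ x in s, f4 x)) := by
  have e1 : ∫ x in s, (f1 x + f2 x + (f3 x + f4 x)) = (∫ x in s, (f1 x + f2 x)) + ∫ x in s, (f3 x + f4 x) :=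
    integral_add (h1.add h2) (h3.add h4)
  rw [e1, integral_add h1 h2, integral_add h3 h4]

private theorem I11_geo {c ε a : ℝ} (hc : 0 < c) (hε : 0 < ε) (ha : 0 < a) :
    Summable (fun u : ℕ => Real.exp (-(c * ε * a)) ^ u * (ε * a)⁻¹) := by
  apply Summable.mul_right
  apply summable_geometric_of_lt_one (Real.exp_pos _).le
  rw [Real.exp_lt_one_iff]
  have : 0 < c * ε * a := by positivity
  linarith

private theorem I11_ts {c ε x : ℝ} (hc : 0 < c) (hε : 0 < ε) (hx : 0 < x) (w : ℕ → ℝ) (hw : ∀ u, 0 ≤ w u) :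
    Summable (fun u : ℕ => Real.exp (-(c * ε * ((u : ℝ) + 1) ^ 2 * x)) * (ε * ((u : ℝ) + 1) * x + w u)⁻¹) := by
  refine Summable.of_nonneg_of_le (fun u => ?_) (fun u => I11_tb hc hε hx le_rfl u (hw u)) (I11_geo hc hε hx)
  have := hw u
  positivity

private theorem I11_B_cont {c ε : ℝ} (hc : 0 < c) (hε : 0 < ε) (L : ℝ) {a b : ℝ} (ha : 0 < a) :
    ContinuousOn (I11_B c ε L) (Icc a b) := by
  unfold I11_B
  refine continuousOn_tsum (u := fun u : ℕ => Real.exp (-(c * ε * a)) ^ u * (ε * a)⁻¹) (fun u => ?_)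
    (I11_geo hc hε ha) (fun u x hx => ?_)
  · unfold I11_t
    refine ContinuousOn.mul (by fun_prop) (ContinuousOn.inv₀ ?_ ?_)
    · exact (Continuous.add (by fun_prop) (I11_nd_cont.comp (by fun_prop))).continuousOn
    · intro x hx
      have h1 : 0 < x := lt_of_lt_of_le ha hx.1
      have h2 := I11_nd_nn (L * ((u : ℝ) + 1) * x)
      positivity
  · unfold I11_t
    rw [Real.norm_eq_abs, abs_of_nonneg]
    · exact I11_tb hc hε ha hx.1 u (I11_nd_nn _)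
    · have h1 : 0 < x := lt_of_lt_of_le ha hx.1
      have h2 := I11_nd_nn (L * ((u : ℝ) + 1) * x)
      positivity

private theorem I11_A_cont {ε : ℝ} (hε : 0 < ε) (L : ℝ) {d : ℕ} (hd : 1 ≤ d) {a b : ℝ} (ha : 0 < a) :
    ContinuousOn (I11_A ε L d) (Icc a b) := by
  unfold I11_A
  refine ContinuousOn.inv₀ ?_ ?_
  · exact (Continuous.add (by fun_prop) (I11_nd_cont.comp (by fun_prop))).continuousOn
  · intro x hx
    have h1 : 0 < x := lt_of_lt_of_le ha hx.1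
    have h2 := I11_nd_nn (L * d * x)
    have h3 : (0:ℝ) < d := by exact_mod_cast hd
    positivity

private theorem I11_int {c ε : ℝ} (hc : 0 < c) (hε : 0 < ε) (L L' : ℝ) {d : ℕ} (hd : 1 ≤ d) {a b : ℝ} (ha : 0 < a) :
    IntegrableOn (fun x => I11_A ε L d x * I11_B c ε L' x) (Icc a b) :=
  ((I11_A_cont hε L hd ha).mul (I11_B_cont hc hε L' ha)).integrableOn_Icc

private theorem I11_A_nn {ε : ℝ} (hε : 0 < ε) (L : ℝ) (d : ℕ) {x : ℝ} (hx : 0 < x) : 0 ≤ I11_A ε L d x := by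
  unfold I11_A
  have h2 := I11_nd_nn (L * d * x)
  positivity

private theorem I11_B_nn {c ε : ℝ} (hε : 0 < ε) (L : ℝ) {x : ℝ} (hx : 0 < x) : 0 ≤ I11_B c ε L x := by
  unfold I11_B I11_t
  refine tsum_nonneg fun u => ?_
  have h2 := I11_nd_nn (L * ((u : ℝ) + 1) * x)
  positivity

/-- quadratic pairs stay quadratic -/
private theorem I11_quad {θ1 θ2 : ℝ} (h : Quad θ1 θ2) (p q : ℕ) (hp : 0 < p) (hq : 0 < q) :
    Quad (p * θ1) (q * θ2) := by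
  obtain ⟨h1, h2, h3, r, s, hr, hs, h4⟩ := h
  have hp' : (0:ℝ) < p := by exact_mod_cast hp
  have hq' : (0:ℝ) < q := by exact_mod_cast hq
  refine ⟨by positivity, by positivity, ?_, r * q ^ 2, s * p ^ 2, by positivity, by positivity, ?_⟩
  · have e : (p * θ1) / (q * θ2) = ((p / q : ℚ) : ℝ) * (θ1 / θ2) := by
      push_cast
      field_simp
    rw [e]
    have h7 : (p : ℚ) / q ≠ 0 := by
      have h5 : (p : ℚ) ≠ 0 := by exact_mod_cast hp.ne'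
      have h6 : (q : ℚ) ≠ 0 := by exact_mod_cast hq.ne'
      exact div_ne_zero h5 h6
    exact Irrational.ratCast_mul h3 h7
  · push_cast
    linear_combination (q:ℝ) ^ 2 * p ^ 2 * h4

/-- Type I part of a piece -/
private theorem I11_one {q1 q2 q3 q4 : ℕ} [NeZero q1] [NeZero q2] [NeZero q3] [NeZero q4]
    (χ1 : DirichletCharacter ℂ q1) (χ2 : DirichletCharacter ℂ q2) (χ3 : DirichletCharacter ℂ q3)
    (χ4 : DirichletCharacter ℂ q4) {θ1 θ2 : ℝ} (h : Quad θ1 θ2) (A : ℝ) : ∃ B0 : ℝ, ∀ B : ℝ, B0 ≤ B →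
    ∃ C ε0 : ℝ, 0 ≤ C ∧ 0 < ε0 ∧ ε0 ≤ 1 / 3 ∧ ∀ ε : ℝ, 0 < ε → ε ≤ ε0 → ∀ k : ℕ,
      Real.exp k ≤ Real.log (1 / ε) ^ A →
      ε * (ε ^ (-(1 / 2 : ℝ)) * Real.log (1 / ε) ^ (-B)) * (8 * Real.exp k) ≤ 1 →
      ‖BK (fun n => cv χ1 χ2 n - cvD χ1 χ2 (ε ^ (-(1 / 2 : ℝ)) * Real.log (1 / ε) ^ (-B)) n) (cv χ3 χ4) θ1 θ2 ε k‖ ≤
        C * ε⁻¹ := by
  have hθ1 := h.1
  have hθ2 := h.2.1
  obtain ⟨C2, c, hC2, hc, hb⟩ := FE_cv_le χ3 χ4 hθ2
  obtain ⟨C1, hC1, hI⟩ := FE_I_le χ1 χ2 hθ1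
  have n1 : 0 < q1 := Nat.pos_of_ne_zero (NeZero.ne q1)
  have n2 : 0 < q2 := Nat.pos_of_ne_zero (NeZero.ne q2)
  have n3 : 0 < q3 := Nat.pos_of_ne_zero (NeZero.ne q3)
  have n4 : 0 < q4 := Nat.pos_of_ne_zero (NeZero.ne q4)
  obtain ⟨Ba, ta⟩ := typeI (I11_quad h q2 q4 n2 n4) hc A
  obtain ⟨Bb, tb⟩ := typeI (I11_quad h q2 q3 n2 n3) hc A
  obtain ⟨Bc, tc⟩ := typeI (I11_quad h q1 q4 n1 n4) hc A
  obtain ⟨Bd, td⟩ := typeI (I11_quad h q1 q3 n1 n3) hc A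
  refine ⟨max (max Ba Bb) (max Bc Bd), fun B hB => ?_⟩
  obtain ⟨Ca, ea, hea, hea3, ta⟩ := ta B ((le_max_left _ _).trans ((le_max_left _ _).trans hB))
  obtain ⟨Cb, eb, heb, heb3, tb⟩ := tb B ((le_max_right _ _).trans ((le_max_left _ _).trans hB))
  obtain ⟨Cc, ec, hec, hec3, tc⟩ := tc B ((le_max_left _ _).trans ((le_max_right _ _).trans hB))
  obtain ⟨Cd, ed, hed, hed3, td⟩ := td B ((le_max_right _ _).trans ((le_max_right _ _).trans hB))
  refine ⟨C1 * C2 * 2 * (|Ca| + |Cb| + |Cc| + |Cd|), min (min ea eb) (min ec ed), by positivity,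
    lt_min (lt_min hea heb) (lt_min hec hed), (min_le_left _ _).trans ((min_le_left _ _).trans hea3),
    fun ε hε he k hk hDx => ?_⟩
  have hea' : ε ≤ ea := he.trans ((min_le_left _ _).trans (min_le_left _ _))
  have heb' : ε ≤ eb := he.trans ((min_le_left _ _).trans (min_le_right _ _))
  have hec' : ε ≤ ec := he.trans ((min_le_right _ _).trans (min_le_left _ _))
  have hed' : ε ≤ ed := he.trans ((min_le_right _ _).trans (min_le_right _ _))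
  have he3 : ε ≤ 1 / 3 := hea'.trans hea3
  have he2 : ε ≤ 1 / 2 := he3.trans (by norm_num)
  set D : ℝ := ε ^ (-(1 / 2 : ℝ)) * Real.log (1 / ε) ^ (-B) with hD
  have hlog : 0 < Real.log (1 / ε) := by
    apply Real.log_pos
    rw [lt_div_iff₀ hε]
    linarith
  have hD0 : 0 < D := by positivity
  set X : ℝ := Real.exp k with hX
  have hX1 : 1 ≤ X := Real.one_le_exp (Nat.cast_nonneg k)
  have hcos : 1 / 2 ≤ Real.cos ε := by
    have := Real.one_sub_sq_div_two_le_cos (x := ε)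
    nlinarith
  have hcos1 : Real.cos ε ≤ 1 := Real.cos_le_one ε
  -- the four sums
  set S : ℝ → ℝ := fun x => (∑ d ∈ Finset.Icc 1 ⌊D⌋₊, (I11_A ε (q2 * θ1) d x + I11_A ε (q1 * θ1) d x)) *
    (I11_B c ε (q4 * θ2) x + I11_B c ε (q3 * θ2) x) with hS
  have hSe : ∀ x, S x = ∑ d ∈ Finset.Icc 1 ⌊D⌋₊, (((I11_A ε (q2 * θ1) d x * I11_B c ε (q4 * θ2) x) +
      (I11_A ε (q2 * θ1) d x * I11_B c ε (q3 * θ2) x)) + ((I11_A ε (q1 * θ1) d x * I11_B c ε (q4 * θ2) x) +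
      (I11_A ε (q1 * θ1) d x * I11_B c ε (q3 * θ2) x))) := by
    intro x
    simp only [hS]
    rw [Finset.sum_mul]
    refine Finset.sum_congr rfl fun d _ => ?_
    ring
  have hX6 : 0 < X / 6 := by positivity
  have hSnn : ∀ x, 0 < x → 0 ≤ S x := by
    intro x hx
    simp only [hS]
    exact mul_nonneg (Finset.sum_nonneg fun d _ => add_nonneg (I11_A_nn hε _ _ hx) (I11_A_nn hε _ _ hx))
      (add_nonneg (I11_B_nn hε _ hx) (I11_B_nn hε _ hx))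
  have hSint : IntegrableOn S (Icc (X / 6) (8 * X)) := by
    have e : S = fun x => ∑ d ∈ Finset.Icc 1 ⌊D⌋₊, (((I11_A ε (q2 * θ1) d x * I11_B c ε (q4 * θ2) x) +
      (I11_A ε (q2 * θ1) d x * I11_B c ε (q3 * θ2) x)) + ((I11_A ε (q1 * θ1) d x * I11_B c ε (q4 * θ2) x) +
      (I11_A ε (q1 * θ1) d x * I11_B c ε (q3 * θ2) x))) := funext hSe
    rw [e]
    refine integrable_finsetSum _ fun d hd => ?_
    have hd1 : 1 ≤ d := (Finset.mem_Icc.mp hd).1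
    exact ((I11_int hc hε _ _ hd1 hX6).add (I11_int hc hε _ _ hd1 hX6)).add
      ((I11_int hc hε _ _ hd1 hX6).add (I11_int hc hε _ _ hd1 hX6))
  have hSval : ∫ x in Icc (X / 6) (8 * X), S x ≤ (|Ca| + |Cb| + |Cc| + |Cd|) * ε⁻¹ := by
    have e1 : ∫ x in Icc (X / 6) (8 * X), S x = ∑ d ∈ Finset.Icc 1 ⌊D⌋₊,
        (((∫ x in Icc (X / 6) (8 * X), I11_A ε (q2 * θ1) d x * I11_B c ε (q4 * θ2) x) +
        (∫ x in Icc (X / 6) (8 * X), I11_A ε (q2 * θ1) d x * I11_B c ε (q3 * θ2) x)) +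
        ((∫ x in Icc (X / 6) (8 * X), I11_A ε (q1 * θ1) d x * I11_B c ε (q4 * θ2) x) +
        (∫ x in Icc (X / 6) (8 * X), I11_A ε (q1 * θ1) d x * I11_B c ε (q3 * θ2) x))) := by
      simp_rw [hSe]
      rw [integral_finsetSum]
      · refine Finset.sum_congr rfl fun d hd => ?_
        have hd1 : 1 ≤ d := (Finset.mem_Icc.mp hd).1
        exact I11_add4 (I11_int hc hε _ _ hd1 hX6) (I11_int hc hε _ _ hd1 hX6)
          (I11_int hc hε _ _ hd1 hX6) (I11_int hc hε _ _ hd1 hX6)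
      · intro d hd
        have hd1 : 1 ≤ d := (Finset.mem_Icc.mp hd).1
        exact ((I11_int hc hε _ _ hd1 hX6).add (I11_int hc hε _ _ hd1 hX6)).add
          ((I11_int hc hε _ _ hd1 hX6).add (I11_int hc hε _ _ hd1 hX6))
    rw [e1, Finset.sum_add_distrib, Finset.sum_add_distrib, Finset.sum_add_distrib]
    have i1 := ta ε hε hea' X hX1 hk
    have i2 := tb ε hε heb' X hX1 hk
    have i3 := tc ε hε hec' X hX1 hk
    have i4 := td ε hε hed' X hX1 hk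
    have hεi : 0 < ε⁻¹ := by positivity
    have j1 := mul_le_mul_of_nonneg_right (le_abs_self Ca) hεi.le
    have j2 := mul_le_mul_of_nonneg_right (le_abs_self Cb) hεi.le
    have j3 := mul_le_mul_of_nonneg_right (le_abs_self Cc) hεi.le
    have j4 := mul_le_mul_of_nonneg_right (le_abs_self Cd) hεi.le
    have k1 : ∑ d ∈ Finset.Icc 1 ⌊D⌋₊, ∫ x in Icc (X / 6) (8 * X), I11_A ε (q2 * θ1) d x * I11_B c ε (q4 * θ2) x ≤
      Ca * ε⁻¹ := i1
    have k2 : ∑ d ∈ Finset.Icc 1 ⌊D⌋₊, ∫ x in Icc (X / 6) (8 * X), I11_A ε (q2 * θ1) d x * I11_B c ε (q3 * θ2) x ≤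
      Cb * ε⁻¹ := i2
    have k3 : ∑ d ∈ Finset.Icc 1 ⌊D⌋₊, ∫ x in Icc (X / 6) (8 * X), I11_A ε (q1 * θ1) d x * I11_B c ε (q4 * θ2) x ≤
      Cc * ε⁻¹ := i3
    have k4 : ∑ d ∈ Finset.Icc 1 ⌊D⌋₊, ∫ x in Icc (X / 6) (8 * X), I11_A ε (q1 * θ1) d x * I11_B c ε (q3 * θ2) x ≤
      Cd * ε⁻¹ := i4
    linarith
  -- pointwise bound
  have hpt : ∀ u : ℝ, (k : ℝ) - 1 ≤ u → u ≤ k + 2 →
      ‖((TT.phi (u - k) * Real.exp u : ℝ) : ℂ) * FE (fun n => cv χ1 χ2 n - cvD χ1 χ2 D n) θ1 ε (Real.exp u) *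
        conj (FE (cv χ3 χ4) θ2 ε (Real.exp u))‖ ≤
      C1 * C2 * 2 * (|Real.cos ε * Real.exp u| • S (Real.cos ε * Real.exp u)) := by
    intro u hu1 hu2
    set x := Real.exp u with hx
    have hx0 : 0 < x := Real.exp_pos u
    have hx8 : x ≤ 8 * X := by
      have e1 : x ≤ Real.exp 2 * X := by
        rw [hx, hX, ← Real.exp_add]
        exact Real.exp_le_exp.2 (by linarith)
      have e2 : Real.exp 2 ≤ 8 := by
        have h3 := Real.exp_one_lt_d9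
        have h4 : Real.exp 2 = Real.exp 1 * Real.exp 1 := by
          rw [← Real.exp_add]
          norm_num
        rw [h4]
        have := Real.exp_pos 1
        nlinarith
      exact e1.trans (mul_le_mul_of_nonneg_right e2 (by positivity))
    have hDx' : ε * D * x ≤ 1 := by
      refine le_trans ?_ hDx
      exact mul_le_mul_of_nonneg_left hx8 (by positivity)
    have f1 := hI ε x D hε he2 hx0 hD0 hDx'
    have f2 := hb ε x hε he2 hx0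
    set x' := Real.cos ε * x with hx'
    have hx'0 : 0 < x' := by positivity
    have hx'x : x' ≤ x := by
      rw [hx']
      exact mul_le_of_le_one_left hx0.le hcos1
    have g1 : ‖FE (fun n => cv χ1 χ2 n - cvD χ1 χ2 D n) θ1 ε x‖ ≤
        C1 * ∑ d ∈ Finset.Icc 1 ⌊D⌋₊, (I11_A ε (q2 * θ1) d x' + I11_A ε (q1 * θ1) d x') := by
      refine f1.trans (mul_le_mul_of_nonneg_left (Finset.sum_le_sum fun d hd => ?_) hC1)
      have hd1 : (0:ℝ) < d := by exact_mod_cast (Finset.mem_Icc.mp hd).1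
      have key : ∀ L : ℝ, (ε * (d : ℝ) * x + nd (L * (d : ℝ) * x'))⁻¹ ≤ I11_A ε L d x' := by
        intro L
        unfold I11_A
        have h2 := I11_nd_nn (L * d * x')
        apply inv_anti₀ (by positivity)
        have : ε * (d : ℝ) * x' ≤ ε * (d : ℝ) * x := mul_le_mul_of_nonneg_left hx'x (by positivity)
        linarith
      exact add_le_add (key _) (key _)
    have g2 : ‖FE (cv χ3 χ4) θ2 ε x‖ ≤ C2 * (I11_B c ε (q4 * θ2) x' + I11_B c ε (q3 * θ2) x') := by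
      refine f2.trans (mul_le_mul_of_nonneg_left ?_ hC2)
      have hs : ∀ L : ℝ, Summable (fun u : ℕ => Real.exp (-(c * ε * ((u : ℝ) + 1) ^ 2 * x)) *
          (ε * ((u : ℝ) + 1) * x + nd (L * ((u : ℝ) + 1) * x'))⁻¹) := fun L =>
        I11_ts hc hε hx0 _ fun u => I11_nd_nn _
      have hs' : ∀ L : ℝ, Summable (fun u : ℕ => I11_t c ε L u x') := fun L =>
        I11_ts hc hε hx'0 _ fun u => I11_nd_nn _
      have hle : ∀ L : ℝ, ∀ u : ℕ, Real.exp (-(c * ε * ((u : ℝ) + 1) ^ 2 * x)) *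
          (ε * ((u : ℝ) + 1) * x + nd (L * ((u : ℝ) + 1) * x'))⁻¹ ≤ I11_t c ε L u x' := by
        intro L u
        unfold I11_t
        have h2 := I11_nd_nn (L * ((u : ℝ) + 1) * x')
        have h3 : Real.exp (-(c * ε * ((u : ℝ) + 1) ^ 2 * x)) ≤ Real.exp (-(c * ε * ((u : ℝ) + 1) ^ 2 * x')) := by
          apply Real.exp_le_exp.2
          have : c * ε * ((u : ℝ) + 1) ^ 2 * x' ≤ c * ε * ((u : ℝ) + 1) ^ 2 * x :=
            mul_le_mul_of_nonneg_left hx'x (by positivity)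
          linarith
        have h4 : (ε * ((u : ℝ) + 1) * x + nd (L * ((u : ℝ) + 1) * x'))⁻¹ ≤
            (ε * ((u : ℝ) + 1) * x' + nd (L * ((u : ℝ) + 1) * x'))⁻¹ := by
          apply inv_anti₀ (by positivity)
          have : ε * ((u : ℝ) + 1) * x' ≤ ε * ((u : ℝ) + 1) * x := mul_le_mul_of_nonneg_left hx'x (by positivity)
          linarith
        exact mul_le_mul h3 h4 (by positivity) (by positivity)
      unfold I11_B
      rw [← (hs' (q4 * θ2)).tsum_add (hs' (q3 * θ2))]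
      have e : ∀ u : ℕ, Real.exp (-(c * ε * ((u : ℝ) + 1) ^ 2 * x)) *
          ((ε * ((u : ℝ) + 1) * x + nd (q4 * θ2 * ((u : ℝ) + 1) * x'))⁻¹ +
          (ε * ((u : ℝ) + 1) * x + nd (q3 * θ2 * ((u : ℝ) + 1) * x'))⁻¹) =
          Real.exp (-(c * ε * ((u : ℝ) + 1) ^ 2 * x)) * (ε * ((u : ℝ) + 1) * x + nd (q4 * θ2 * ((u : ℝ) + 1) * x'))⁻¹ +
          Real.exp (-(c * ε * ((u : ℝ) + 1) ^ 2 * x)) * (ε * ((u : ℝ) + 1) * x + nd (q3 * θ2 * ((u : ℝ) + 1) * x'))⁻¹ :=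
        fun u => by ring
      simp_rw [e]
      exact Summable.tsum_le_tsum (fun u => add_le_add (hle _ u) (hle _ u)) ((hs _).add (hs _))
        ((hs' _).add (hs' _))
    rw [norm_mul, norm_mul, RCLike.norm_conj, Complex.norm_real, Real.norm_eq_abs]
    have p1 : |TT.phi (u - k) * x| ≤ 2 * x' := by
      rw [abs_of_nonneg (mul_nonneg (TT.phi_nonneg _) hx0.le)]
      have := TT.phi_le_one (u - k)
      have h5 : x ≤ 2 * x' := by
        rw [hx']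
        nlinarith
      calc TT.phi (u - k) * x ≤ 1 * x := mul_le_mul_of_nonneg_right this hx0.le
        _ ≤ 2 * x' := by linarith
    have s1 : 0 ≤ ∑ d ∈ Finset.Icc 1 ⌊D⌋₊, (I11_A ε (q2 * θ1) d x' + I11_A ε (q1 * θ1) d x') :=
      Finset.sum_nonneg fun d _ => add_nonneg (I11_A_nn hε _ _ hx'0) (I11_A_nn hε _ _ hx'0)
    calc _ ≤ (2 * x') * (C1 * ∑ d ∈ Finset.Icc 1 ⌊D⌋₊, (I11_A ε (q2 * θ1) d x' + I11_A ε (q1 * θ1) d x')) *
          (C2 * (I11_B c ε (q4 * θ2) x' + I11_B c ε (q3 * θ2) x')) := by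
          gcongr
      _ = C1 * C2 * 2 * (|x'| • S x') := by
          rw [abs_of_pos hx'0, smul_eq_mul]
          simp only [hS]
          ring
  -- change of variables
  have hinj : InjOn (fun u : ℝ => Real.cos ε * Real.exp u) (Icc ((k : ℝ) - 1) (k + 2)) := by
    intro u _ v _ huv
    have h1 : Real.cos ε ≠ 0 := by linarith
    exact Real.exp_injective (mul_left_cancel₀ h1 huv)
  have hder : ∀ u ∈ Icc ((k : ℝ) - 1) (k + 2), HasDerivWithinAt (fun u : ℝ => Real.cos ε * Real.exp u)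
      (Real.cos ε * Real.exp u) (Icc ((k : ℝ) - 1) (k + 2)) u := fun u _ =>
    ((Real.hasDerivAt_exp u).const_mul _).hasDerivWithinAt
  have himg : (fun u : ℝ => Real.cos ε * Real.exp u) '' (Icc ((k : ℝ) - 1) (k + 2)) ⊆ Icc (X / 6) (8 * X) := by
    rintro y ⟨u, ⟨hu1, hu2⟩, rfl⟩
    have e1 : Real.exp u ≤ Real.exp 2 * X := by
      rw [hX, ← Real.exp_add]
      exact Real.exp_le_exp.2 (by linarith)
    have e0 : Real.exp (-1) * X ≤ Real.exp u := by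
      rw [hX, ← Real.exp_add]
      exact Real.exp_le_exp.2 (by linarith)
    have h3 := Real.exp_one_lt_d9
    have e2 : Real.exp 2 ≤ 8 := by
      have h4 : Real.exp 2 = Real.exp 1 * Real.exp 1 := by
        rw [← Real.exp_add]
        norm_num
      rw [h4]
      have := Real.exp_pos 1
      nlinarith
    have e3 : 1 / 3 ≤ Real.exp (-1) := by
      rw [Real.exp_neg, one_div]
      apply inv_anti₀ (Real.exp_pos 1)
      linarith
    have hX0 : 0 < X := by positivity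
    constructor
    · show X / 6 ≤ Real.cos ε * Real.exp u
      have h5 : 1 / 3 * X ≤ Real.exp u := (mul_le_mul_of_nonneg_right e3 hX0.le).trans e0
      calc X / 6 = 1 / 2 * (1 / 3 * X) := by ring
        _ ≤ Real.cos ε * Real.exp u := mul_le_mul hcos h5 (by positivity) (by linarith)
    · show Real.cos ε * Real.exp u ≤ 8 * X
      calc Real.cos ε * Real.exp u ≤ 1 * Real.exp u := mul_le_mul_of_nonneg_right hcos1 (Real.exp_pos u).le
        _ ≤ 8 * X := by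
          rw [one_mul]
          exact e1.trans (mul_le_mul_of_nonneg_right e2 hX0.le)
  have hmi : MeasurableSet (Icc ((k : ℝ) - 1) (k + 2)) := measurableSet_Icc
  have hSi2 : IntegrableOn (fun u : ℝ => |Real.cos ε * Real.exp u| • S (Real.cos ε * Real.exp u))
      (Icc ((k : ℝ) - 1) (k + 2)) :=
    (integrableOn_image_iff_integrableOn_abs_deriv_smul hmi hder hinj S).1 (hSint.mono_set himg)
  have hSv2 : ∫ u in Icc ((k : ℝ) - 1) (k + 2), |Real.cos ε * Real.exp u| • S (Real.cos ε * Real.exp u) ≤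
      (|Ca| + |Cb| + |Cc| + |Cd|) * ε⁻¹ := by
    rw [← integral_image_eq_integral_abs_deriv_smul hmi hder hinj S]
    refine le_trans ?_ hSval
    refine setIntegral_mono_set hSint ?_ (Filter.Eventually.of_forall himg)
    rw [Filter.EventuallyLE, ae_restrict_iff' measurableSet_Icc]
    refine Filter.Eventually.of_forall fun x hx => hSnn x (lt_of_lt_of_le hX6 hx.1)
  -- conclusion
  unfold BK
  have hres : ∫ u : ℝ, ((TT.phi (u - k) * Real.exp u : ℝ) : ℂ) *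
      FE (fun n => cv χ1 χ2 n - cvD χ1 χ2 D n) θ1 ε (Real.exp u) * conj (FE (cv χ3 χ4) θ2 ε (Real.exp u)) =
      ∫ u in Icc ((k : ℝ) - 1) (k + 2), ((TT.phi (u - k) * Real.exp u : ℝ) : ℂ) *
      FE (fun n => cv χ1 χ2 n - cvD χ1 χ2 D n) θ1 ε (Real.exp u) * conj (FE (cv χ3 χ4) θ2 ε (Real.exp u)) := by
    rw [setIntegral_eq_integral_of_forall_compl_eq_zero]
    intro u hu
    have : TT.phi (u - k) = 0 := by
      rw [mem_Icc, not_and_or, not_le, not_le] at hu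
      rcases hu with h' | h'
      · exact TT.phi_zero_left (by linarith)
      · exact TT.phi_zero_right (by linarith)
    rw [this]
    simp
  rw [hres]
  have hfin := norm_integral_le_of_norm_le (μ := volume.restrict (Icc ((k : ℝ) - 1) (k + 2)))
    (hSi2.const_mul (C1 * C2 * 2)) (f := fun u : ℝ => ((TT.phi (u - k) * Real.exp u : ℝ) : ℂ) *
      FE (fun n => cv χ1 χ2 n - cvD χ1 χ2 D n) θ1 ε (Real.exp u) * conj (FE (cv χ3 χ4) θ2 ε (Real.exp u)))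
    (by
      rw [ae_restrict_iff' hmi]
      exact Filter.Eventually.of_forall fun u hu => hpt u hu.1 hu.2)
  refine hfin.trans ?_
  rw [integral_const_mul]
  calc _ ≤ C1 * C2 * 2 * ((|Ca| + |Cb| + |Cc| + |Cd|) * ε⁻¹) := by
        gcongr
    _ = _ := by ring


/-- weighted sum from dyadic sums -/
private theorem I11_dy {f : ℕ → ℝ} (hf : ∀ n, 0 ≤ f n) {K V Λ : ℝ} (hK : 0 ≤ K) (hV : 0 < V) (hΛ : 0 ≤ Λ)
    (hS : ∀ j : ℕ, ∑ n ∈ Finset.Icc 1 ⌊2 ^ j * V⌋₊, f n ≤ K * (2 ^ j * V) * (1 + j + Λ)) :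
    ∑' n : ℕ, f (n + 1) * ((1 + ((n : ℝ) + 1) / V) ^ 4)⁻¹ ≤ 22 * K * V * (1 + Λ) := by
  refine Real.tsum_le_of_sum_range_le (fun n => mul_nonneg (hf _) (by positivity)) fun N => ?_
  obtain ⟨J, hJ⟩ : ∃ J : ℕ, (N : ℝ) ≤ 2 ^ J * V := by
    obtain ⟨J, hJ⟩ := pow_unbounded_of_one_lt ((N : ℝ) / V) (one_lt_two)
    exact ⟨J, by rw [div_lt_iff₀ hV] at hJ; exact hJ.le⟩
  -- pointwise
  have hpt : ∀ n ∈ Finset.range N, ((1 + ((n : ℝ) + 1) / V) ^ 4)⁻¹ ≤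
      ∑ j ∈ Finset.range (J + 1), (if (n : ℝ) + 1 ≤ 2 ^ j * V then 16 * ((1:ℝ) / 16) ^ j else 0) := by
    intro n hn
    have hnN : (n : ℝ) + 1 ≤ N := by
      have := Finset.mem_range.mp hn
      exact_mod_cast this
    have hex : ∃ j : ℕ, (n : ℝ) + 1 ≤ 2 ^ j * V := ⟨J, hnN.trans hJ⟩
    classical
    set j := Nat.find hex with hj
    have hj1 : (n : ℝ) + 1 ≤ 2 ^ j * V := Nat.find_spec hex
    have hjJ : j ≤ J := Nat.find_min' hex (hnN.trans hJ)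
    have hmem : j ∈ Finset.range (J + 1) := Finset.mem_range.mpr (by omega)
    have hterm : ((1 + ((n : ℝ) + 1) / V) ^ 4)⁻¹ ≤ 16 * ((1:ℝ) / 16) ^ j := by
      rcases Nat.eq_zero_or_pos j with h0 | h0
      · rw [h0, pow_zero]
        have : ((1 + ((n : ℝ) + 1) / V) ^ 4)⁻¹ ≤ 1 := by
          apply inv_le_one_of_one_le₀
          apply one_le_pow₀
          have : 0 ≤ ((n : ℝ) + 1) / V := by positivity
          linarith
        linarith
      · have h1 : ¬ ((n : ℝ) + 1 ≤ 2 ^ (j - 1) * V) := Nat.find_min hex (by omega)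
        have h2 : 2 ^ (j - 1) ≤ 1 + ((n : ℝ) + 1) / V := by
          rw [not_le] at h1
          have : (2:ℝ) ^ (j - 1) ≤ ((n : ℝ) + 1) / V := by
            rw [le_div_iff₀ hV]
            exact h1.le
          linarith
        have h3 : ((2:ℝ) ^ (j - 1)) ^ 4 ≤ (1 + ((n : ℝ) + 1) / V) ^ 4 := pow_le_pow_left₀ (by positivity) h2 4
        have h4 : ((2:ℝ) ^ (j - 1)) ^ 4 = (16 * ((1:ℝ) / 16) ^ j)⁻¹ := by
          obtain ⟨i, hi⟩ : ∃ i, j = i + 1 := ⟨j - 1, by omega⟩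
          rw [hi, Nat.add_sub_cancel]
          have e1 : ((2:ℝ) ^ i) ^ 4 = 16 ^ i := by
            rw [← pow_mul, mul_comm, pow_mul]
            norm_num
          have e2 : 16 * ((1:ℝ) / 16) ^ (i + 1) = (16 ^ i)⁻¹ := by
            rw [pow_succ, one_div, inv_pow]
            ring
          rw [e1, e2, inv_inv]
        rw [h4] at h3
        exact inv_le_of_inv_le₀ (by positivity) h3
    refine hterm.trans ?_
    have : (if (n : ℝ) + 1 ≤ 2 ^ j * V then 16 * ((1:ℝ) / 16) ^ j else 0) = 16 * ((1:ℝ) / 16) ^ j := if_pos hj1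
    rw [← this]
    exact Finset.single_le_sum (f := fun j : ℕ => (if (n : ℝ) + 1 ≤ 2 ^ j * V then 16 * ((1:ℝ) / 16) ^ j else 0))
      (fun i _ => by split_ifs <;> positivity) hmem
  have h1 : ∑ n ∈ Finset.range N, f (n + 1) * ((1 + ((n : ℝ) + 1) / V) ^ 4)⁻¹ ≤
      ∑ j ∈ Finset.range (J + 1), 16 * ((1:ℝ) / 16) ^ j * ∑ n ∈ Finset.Icc 1 ⌊2 ^ j * V⌋₊, f n := by
    calc _ ≤ ∑ n ∈ Finset.range N, f (n + 1) *
          ∑ j ∈ Finset.range (J + 1), (if (n : ℝ) + 1 ≤ 2 ^ j * V then 16 * ((1:ℝ) / 16) ^ j else 0) :=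
          Finset.sum_le_sum fun n hn => mul_le_mul_of_nonneg_left (hpt n hn) (hf _)
      _ = ∑ j ∈ Finset.range (J + 1), ∑ n ∈ Finset.range N,
          f (n + 1) * (if (n : ℝ) + 1 ≤ 2 ^ j * V then 16 * ((1:ℝ) / 16) ^ j else 0) := by
          simp_rw [Finset.mul_sum]
          rw [Finset.sum_comm]
      _ ≤ _ := by
          refine Finset.sum_le_sum fun j _ => ?_
          have e1 : ∑ n ∈ Finset.range N, f (n + 1) * (if (n : ℝ) + 1 ≤ 2 ^ j * V then 16 * ((1:ℝ) / 16) ^ j else 0) =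
              16 * ((1:ℝ) / 16) ^ j * ∑ n ∈ (Finset.range N).filter (fun n : ℕ => (n : ℝ) + 1 ≤ 2 ^ j * V), f (n + 1) := by
            rw [Finset.sum_filter, Finset.mul_sum]
            refine Finset.sum_congr rfl fun n _ => ?_
            split_ifs
            · ring
            · ring
          rw [e1]
          refine mul_le_mul_of_nonneg_left ?_ (by positivity)
          have e2 : ∑ n ∈ (Finset.range N).filter (fun n : ℕ => (n : ℝ) + 1 ≤ 2 ^ j * V), f (n + 1) =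
              ∑ n ∈ ((Finset.range N).filter (fun n : ℕ => (n : ℝ) + 1 ≤ 2 ^ j * V)).image (fun n => n + 1), f n := by
            rw [Finset.sum_image (fun a _ b _ hab => by simpa using hab)]
          rw [e2]
          refine Finset.sum_le_sum_of_subset_of_nonneg ?_ (fun _ _ _ => hf _)
          intro m hm
          obtain ⟨n, hn, rfl⟩ := Finset.mem_image.mp hm
          have hn2 := (Finset.mem_filter.mp hn).2
          rw [Finset.mem_Icc]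
          refine ⟨by omega, Nat.le_floor ?_⟩
          push_cast
          exact hn2
  refine h1.trans ?_
  have h2 : ∑ j ∈ Finset.range (J + 1), 16 * ((1:ℝ) / 16) ^ j * ∑ n ∈ Finset.Icc 1 ⌊2 ^ j * V⌋₊, f n ≤
      ∑ j ∈ Finset.range (J + 1), 16 * K * V * (1 + Λ) * ((1:ℝ) / 4) ^ j := by
    refine Finset.sum_le_sum fun j _ => ?_
    have h3 := mul_le_mul_of_nonneg_left (hS j) (by positivity : 0 ≤ 16 * ((1:ℝ) / 16) ^ j)
    refine h3.trans ?_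
    have h4 : (1 + j + Λ : ℝ) ≤ 2 ^ j * (1 + Λ) := by
      have h5 : (1 + j : ℝ) ≤ 2 ^ j := by
        have : j + 1 ≤ 2 ^ j := Nat.lt_two_pow_self
        have h6 : ((j + 1 : ℕ) : ℝ) ≤ ((2 ^ j : ℕ) : ℝ) := by exact_mod_cast this
        push_cast at h6
        linarith
      have h7 : Λ ≤ 2 ^ j * Λ := le_mul_of_one_le_left hΛ (one_le_pow₀ (by norm_num))
      linarith
    have h8 : ((1:ℝ) / 16) ^ j * 2 ^ j * 2 ^ j = (1 / 4) ^ j := by
      rw [← mul_pow, ← mul_pow]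
      norm_num
    calc 16 * ((1:ℝ) / 16) ^ j * (K * (2 ^ j * V) * (1 + j + Λ)) ≤
          16 * ((1:ℝ) / 16) ^ j * (K * (2 ^ j * V) * (2 ^ j * (1 + Λ))) := by gcongr
      _ = 16 * K * V * (1 + Λ) * (((1:ℝ) / 16) ^ j * 2 ^ j * 2 ^ j) := by ring
      _ = _ := by rw [h8]
  refine h2.trans ?_
  rw [← Finset.mul_sum]
  have h9 : ∑ j ∈ Finset.range (J + 1), ((1:ℝ) / 4) ^ j ≤ 4 / 3 := by
    rw [geom_sum_eq (by norm_num)]
    have : (0:ℝ) ≤ (1 / 4) ^ (J + 1) := by positivity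
    rw [div_le_iff_of_neg (by norm_num)]
    linarith
  have h10 : 0 ≤ 16 * K * V * (1 + Λ) := by positivity
  calc _ ≤ 16 * K * V * (1 + Λ) * (4 / 3) := mul_le_mul_of_nonneg_left h9 h10
    _ ≤ _ := by
      have : 0 ≤ K * V * (1 + Λ) := by positivity
      linarith

private theorem I11_cv_le {q1 q2 : ℕ} (χ1 : DirichletCharacter ℂ q1) (χ2 : DirichletCharacter ℂ q2) (D : ℝ) (n : ℕ) :
    ‖cvD χ1 χ2 D n‖ ≤ n := by
  unfold cvD
  refine (norm_sum_le _ _).trans ?_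
  have h1 : ∑ x ∈ n.divisorsAntidiagonal,
      ‖(if D < (x.1 : ℝ) ∧ D < (x.2 : ℝ) then χ1 (x.1 : ZMod q1) * χ2 (x.2 : ZMod q2) else 0)‖ ≤
      ∑ x ∈ n.divisorsAntidiagonal, (1 : ℝ) := by
    refine Finset.sum_le_sum fun x _ => ?_
    split_ifs
    · rw [norm_mul]
      exact mul_le_one₀ (DirichletCharacter.norm_le_one χ1 _) (norm_nonneg _) (DirichletCharacter.norm_le_one χ2 _)
    · simp
  refine h1.trans ?_
  rw [Finset.sum_const, nsmul_eq_mul, mul_one]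
  have h2 : n.divisorsAntidiagonal.card ≤ n := by
    rw [← Nat.map_div_right_divisors, Finset.card_map]
    exact Nat.card_divisors_le_self n
  exact_mod_cast h2

private theorem I11_cv_eq {q1 q2 : ℕ} (χ1 : DirichletCharacter ℂ q1) (χ2 : DirichletCharacter ℂ q2) (n : ℕ) :
    cv χ1 χ2 n = cvD χ1 χ2 (1/2) n := by
  unfold cv cvD
  refine Finset.sum_congr rfl fun x hx => ?_
  have h1 := Nat.mem_divisorsAntidiagonal.mp hx
  have hx1 : x.1 ≠ 0 := fun h => h1.2 (by rw [← h1.1, h, zero_mul])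
  have hx2 : x.2 ≠ 0 := fun h => h1.2 (by rw [← h1.1, h, mul_zero])
  have e1 : (1:ℝ) ≤ x.1 := by exact_mod_cast Nat.one_le_iff_ne_zero.mpr hx1
  have e2 : (1:ℝ) ≤ x.2 := by exact_mod_cast Nat.one_le_iff_ne_zero.mpr hx2
  rw [if_pos ⟨by linarith, by linarith⟩]

private theorem I11_cvD_zero {q1 q2 : ℕ} (χ1 : DirichletCharacter ℂ q1) (χ2 : DirichletCharacter ℂ q2) {D : ℝ}
    (hD : 0 < D) {n : ℕ} (hn : (n : ℝ) ≤ D ^ 2) : cvD χ1 χ2 D n = 0 := by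
  unfold cvD
  refine Finset.sum_eq_zero fun x hx => ?_
  have h1 := Nat.mem_divisorsAntidiagonal.mp hx
  rw [if_neg]
  rintro ⟨h2, h3⟩
  have h4 : (x.1 : ℝ) * x.2 = n := by exact_mod_cast h1.1
  have h5 : D * D < x.1 * x.2 := mul_lt_mul'' h2 h3 hD.le hD.le
  rw [h4] at h5
  nlinarith

/-- mean square, all ranges -/
private theorem I11_ms {q1 q2 : ℕ} [NeZero q1] [NeZero q2] {χ1 : DirichletCharacter ℂ q1}
    {χ2 : DirichletCharacter ℂ q2} {M : ℝ}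
    (hM : ∀ N : ℕ, ‖∑ g ∈ Finset.range N, χ1 ((g + 1 : ℕ) : ZMod q1) * conj (χ2 ((g + 1 : ℕ) : ZMod q2))‖ ≤ M) :
    ∃ K : ℝ, 0 ≤ K ∧ ∀ D V : ℝ, 1 / 2 ≤ D → 0 < V →
      ∑' n : ℕ, ‖cvD χ1 χ2 D (n + 1)‖ ^ 2 * ((1 + ((n : ℝ) + 1) / V) ^ 4)⁻¹ ≤
        K * V * (1 + Real.log (1 + V / D ^ 2)) := by
  obtain ⟨C, hC, h⟩ := mean_sq hM
  refine ⟨22 * C, by positivity, fun D V hD hV => ?_⟩
  have hD0 : 0 < D := by linarith
  refine I11_dy (f := fun n => ‖cvD χ1 χ2 D n‖ ^ 2) (fun n => by positivity) hC hV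
    (Real.log_nonneg (by have : 0 ≤ V / D ^ 2 := by positivity
                         linarith)) fun j => ?_
  have h2j : (1:ℝ) ≤ 2 ^ j := one_le_pow₀ (by norm_num)
  rcases le_or_gt (D ^ 2) (2 ^ j * V) with h1 | h1
  · refine (h D (2 ^ j * V) hD h1).trans ?_
    refine mul_le_mul_of_nonneg_left ?_ (by positivity)
    have h3 : Real.log (2 ^ j * V / D ^ 2) ≤ j * Real.log 2 + Real.log (1 + V / D ^ 2) := by
      rw [mul_div_assoc, Real.log_mul (by positivity) (by positivity), Real.log_pow]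
      have : Real.log (V / D ^ 2) ≤ Real.log (1 + V / D ^ 2) := Real.log_le_log (by positivity) (by linarith)
      linarith
    have h4 : Real.log 2 ≤ 1 := by
      have := Real.log_two_lt_d9
      linarith
    have h5 : (j : ℝ) * Real.log 2 ≤ j := mul_le_of_le_one_right (Nat.cast_nonneg j) h4
    linarith
  · have : ∑ n ∈ Finset.Icc 1 ⌊2 ^ j * V⌋₊, ‖cvD χ1 χ2 D n‖ ^ 2 = 0 := by
      refine Finset.sum_eq_zero fun n hn => ?_
      have hn1 : (n : ℝ) ≤ 2 ^ j * V := by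
        have := (Finset.mem_Icc.mp hn).2
        exact (Nat.le_floor_iff (by positivity)).mp this
      rw [I11_cvD_zero χ1 χ2 hD0 (by linarith)]
      simp
    rw [this]
    have : 0 ≤ Real.log (1 + V / D ^ 2) := Real.log_nonneg (by have : 0 ≤ V / D ^ 2 := by positivity
                                                               linarith)
    positivity


private theorem I11_z {θ1 θ2 ε : ℝ} (h1 : 0 < θ1) (h2 : 0 < θ2) (h0 : 0 < ε) (he : ε ≤ 1 / 2) (k n m : ℕ) :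
    0 ≤ (((Real.exp k : ℝ) : ℂ) * zz θ1 θ2 ε n m).re ∧
    Real.sin ε * θ1 * n ≤ ‖((Real.exp k : ℝ) : ℂ) * zz θ1 θ2 ε n m‖ ∧
    Real.sin ε * θ2 * m ≤ ‖((Real.exp k : ℝ) : ℂ) * zz θ1 θ2 ε n m‖ := by
  have hs : 0 < Real.sin ε := Real.sin_pos_of_pos_of_lt_pi h0 (by have := Real.pi_gt_three; linarith)
  have hk : 1 ≤ Real.exp k := Real.one_le_exp (Nat.cast_nonneg k)
  have hre : (((Real.exp k : ℝ) : ℂ) * zz θ1 θ2 ε n m).re = Real.exp k * (Real.sin ε * (θ1 * n + θ2 * m)) := by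
    rw [re_ofReal_mul, zz_re]
  have hn : (0:ℝ) ≤ n := Nat.cast_nonneg n
  have hm : (0:ℝ) ≤ m := Nat.cast_nonneg m
  have a1 : 0 ≤ Real.sin ε * (θ1 * n) := by positivity
  have a2 : 0 ≤ Real.sin ε * (θ2 * m) := by positivity
  have hle : Real.sin ε * (θ1 * n + θ2 * m) ≤ Real.exp k * (Real.sin ε * (θ1 * n + θ2 * m)) :=
    le_mul_of_one_le_left (by positivity) hk
  have habs := (le_abs_self _).trans (abs_re_le_norm (((Real.exp k : ℝ) : ℂ) * zz θ1 θ2 ε n m))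
  rw [hre] at habs
  refine ⟨?_, ?_, ?_⟩
  · rw [hre]
    positivity
  · linarith [hle, habs]
  · linarith [hle, habs]

/-- the second part -/
private theorem I11_two {q1 q2 q3 q4 : ℕ} [NeZero q1] [NeZero q2] [NeZero q3] [NeZero q4]
    {χ1 : DirichletCharacter ℂ q1} {χ2 : DirichletCharacter ℂ q2} {χ3 : DirichletCharacter ℂ q3}
    {χ4 : DirichletCharacter ℂ q4} {M : ℝ}
    (m12 : ∀ N : ℕ, ‖∑ g ∈ Finset.range N, χ1 ((g + 1 : ℕ) : ZMod q1) * conj (χ2 ((g + 1 : ℕ) : ZMod q2))‖ ≤ M)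
    (m34 : ∀ N : ℕ, ‖∑ g ∈ Finset.range N, χ3 ((g + 1 : ℕ) : ZMod q3) * conj (χ4 ((g + 1 : ℕ) : ZMod q4))‖ ≤ M)
    {θ1 θ2 : ℝ} (h1 : 0 < θ1) (h2 : 0 < θ2) : ∃ C : ℝ, 0 ≤ C ∧ ∀ ε D : ℝ, 0 < ε → ε ≤ 1 / 2 → 1 / 2 ≤ D → ∀ k : ℕ,
      ‖BK (cvD χ1 χ2 D) (cv χ3 χ4) θ1 θ2 ε k‖ ≤ C * ε⁻¹ *
        √((1 + Real.log (1 + (Real.exp k * ε)⁻¹ / D ^ 2)) * (1 + Real.log (1 + 4 * (Real.exp k * ε)⁻¹))) := by
  obtain ⟨C0, hC0, hXi⟩ := Xi_bound 12
  obtain ⟨C3, hC3, hsch⟩ := schur h1 h2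
  obtain ⟨K1, hK1, hms1⟩ := I11_ms m12
  obtain ⟨K2, hK2, hms2⟩ := I11_ms m34
  refine ⟨C0 * C3 * √(K1 * K2), by positivity, fun ε D h0 he hD k => ?_⟩
  have ha : ∀ n : ℕ, ‖cvD χ1 χ2 D n‖ ≤ n := fun n => I11_cv_le χ1 χ2 D n
  have hb : ∀ n : ℕ, ‖cv χ3 χ4 n‖ ≤ n := fun n => by
    rw [I11_cv_eq]
    exact I11_cv_le χ3 χ4 _ n
  obtain ⟨hsum, hle⟩ := BK_le h1 h2 h0 he ha hb k
  have hs : 0 < Real.sin ε := Real.sin_pos_of_pos_of_lt_pi h0 (by have := Real.pi_gt_three; linarith)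
  set Z : ℕ → ℕ → ℂ := fun n m => ((Real.exp k : ℝ) : ℂ) * zz θ1 θ2 ε n m with hZ
  -- summability of the majorant
  have hsum2 : Summable (fun x : ℕ × ℕ => ‖cvD χ1 χ2 D (x.1 + 1)‖ * ‖cv χ3 χ4 (x.2 + 1)‖ *
      ((1 + ‖Z (x.1 + 1) (x.2 + 1)‖) ^ 12)⁻¹) := by
    set δ1 := Real.sin ε * θ1 with hδ1
    set δ2 := Real.sin ε * θ2 with hδ2
    have p1 : 0 < δ1 := by positivity
    have p2 : 0 < δ2 := by positivity
    have hs0 : Summable (fun n : ℕ => (((n : ℝ) + 1) ^ 2)⁻¹) := by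
      have := (summable_nat_add_iff 1).mpr (Real.summable_nat_pow_inv.mpr (by norm_num : 1 < 2))
      refine this.congr fun n => ?_
      push_cast
      rfl
    have hprod : Summable (fun x : ℕ × ℕ => (((x.1 : ℝ) + 1) ^ 2)⁻¹ * (((x.2 : ℝ) + 1) ^ 2)⁻¹) :=
      hs0.mul_of_nonneg hs0 (fun n => by positivity) (fun n => by positivity)
    refine Summable.of_nonneg_of_le (fun x => by positivity) (fun x => ?_) (hprod.mul_left ((δ1 ^ 3 * δ2 ^ 3)⁻¹))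
    obtain ⟨n, m⟩ := x
    simp only
    obtain ⟨-, z1, z2⟩ := I11_z h1 h2 h0 he k (n + 1) (m + 1)
    have e1 := ha (n + 1)
    have e2 := hb (m + 1)
    push_cast at e1 e2
    have c1 : ((n + 1 : ℕ) : ℝ) = (n : ℝ) + 1 := by push_cast; rfl
    have c2 : ((m + 1 : ℕ) : ℝ) = (m : ℝ) + 1 := by push_cast; rfl
    rw [c1] at z1
    rw [c2] at z2
    set r := ‖Z (n + 1) (m + 1)‖ with hr
    have r0 : 0 ≤ r := norm_nonneg _
    have z1' : δ1 * ((n : ℝ) + 1) ≤ r := z1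
    have z2' : δ2 * ((m : ℝ) + 1) ≤ r := z2
    have hN : 0 < (n : ℝ) + 1 := by positivity
    have hM : 0 < (m : ℝ) + 1 := by positivity
    have b1 : (δ1 * ((n : ℝ) + 1)) ^ 3 * (δ2 * ((m : ℝ) + 1)) ^ 3 ≤ (1 + r) ^ 12 := by
      calc _ ≤ (1 + r) ^ 3 * (1 + r) ^ 3 := by
            gcongr
            · linarith
            · linarith
        _ = (1 + r) ^ 6 := by ring
        _ ≤ (1 + r) ^ 12 := pow_le_pow_right₀ (by linarith) (by norm_num)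
    have b2 : ((1 + r) ^ 12)⁻¹ ≤ ((δ1 * ((n : ℝ) + 1)) ^ 3 * (δ2 * ((m : ℝ) + 1)) ^ 3)⁻¹ :=
      inv_anti₀ (by positivity) b1
    calc _ ≤ ((n : ℝ) + 1) * ((m : ℝ) + 1) * ((δ1 * ((n : ℝ) + 1)) ^ 3 * (δ2 * ((m : ℝ) + 1)) ^ 3)⁻¹ := by
          gcongr
      _ = _ := by
          field_simp
  have hle2 : ∑' x : ℕ × ℕ, ‖cvD χ1 χ2 D (x.1 + 1)‖ * ‖cv χ3 χ4 (x.2 + 1)‖ * ‖Xi (Z (x.1 + 1) (x.2 + 1))‖ ≤
      C0 * ∑' x : ℕ × ℕ, ‖cvD χ1 χ2 D (x.1 + 1)‖ * ‖cv χ3 χ4 (x.2 + 1)‖ *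
        ((1 + ‖Z (x.1 + 1) (x.2 + 1)‖) ^ 12)⁻¹ := by
    rw [← tsum_mul_left]
    refine Summable.tsum_le_tsum (fun x => ?_) hsum (hsum2.mul_left C0)
    obtain ⟨z0, -, -⟩ := I11_z h1 h2 h0 he k (x.1 + 1) (x.2 + 1)
    have := hXi _ z0
    calc _ ≤ ‖cvD χ1 χ2 D (x.1 + 1)‖ * ‖cv χ3 χ4 (x.2 + 1)‖ * (C0 * ((1 + ‖Z (x.1 + 1) (x.2 + 1)‖) ^ 12)⁻¹) :=
          mul_le_mul_of_nonneg_left this (by positivity)
      _ = _ := by ring
  have hs3 := hsch (fun n => ‖cvD χ1 χ2 D n‖) (fun n => ‖cv χ3 χ4 n‖) (fun n => norm_nonneg _)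
    (fun n => norm_nonneg _) ha hb ε h0 he k
  have hek : 0 < Real.exp k := Real.exp_pos _
  set V : ℝ := (Real.exp k * ε)⁻¹ with hV
  have hV0 : 0 < V := by positivity
  have hVe : ∀ n : ℕ, Real.exp k * ε * ((n : ℝ) + 1) = ((n : ℝ) + 1) / V := by
    intro n
    rw [hV, div_inv_eq_mul]
    ring
  have w1 : ∑' n : ℕ, ‖cvD χ1 χ2 D (n + 1)‖ ^ 2 * ((1 + Real.exp k * ε * ((n : ℝ) + 1)) ^ 4)⁻¹ ≤
      K1 * V * (1 + Real.log (1 + V / D ^ 2)) := by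
    simp_rw [hVe]
    exact hms1 D V hD hV0
  have w2 : ∑' n : ℕ, ‖cv χ3 χ4 (n + 1)‖ ^ 2 * ((1 + Real.exp k * ε * ((n : ℝ) + 1)) ^ 4)⁻¹ ≤
      K2 * V * (1 + Real.log (1 + 4 * V)) := by
    simp_rw [hVe, I11_cv_eq]
    have := hms2 (1 / 2) V le_rfl hV0
    have e : V / (1 / 2) ^ 2 = 4 * V := by ring
    rw [e] at this
    exact this
  have hq0 : 0 ≤ V / D ^ 2 := by positivity
  have hΛ1 : 0 ≤ Real.log (1 + V / D ^ 2) := Real.log_nonneg (by linarith)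
  have hΛ2 : 0 ≤ Real.log (1 + 4 * V) := Real.log_nonneg (by linarith)
  set Λ1 := Real.log (1 + V / D ^ 2) with hL1
  set Λ2 := Real.log (1 + 4 * V) with hL2
  have w3 : √(∑' n : ℕ, ‖cvD χ1 χ2 D (n + 1)‖ ^ 2 * ((1 + Real.exp k * ε * ((n : ℝ) + 1)) ^ 4)⁻¹) *
      √(∑' n : ℕ, ‖cv χ3 χ4 (n + 1)‖ ^ 2 * ((1 + Real.exp k * ε * ((n : ℝ) + 1)) ^ 4)⁻¹) ≤
      V * (√(K1 * K2) * √((1 + Λ1) * (1 + Λ2))) := by
    calc _ ≤ √(K1 * V * (1 + Λ1)) * √(K2 * V * (1 + Λ2)) := by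
          gcongr
      _ = √(V ^ 2 * (K1 * K2 * ((1 + Λ1) * (1 + Λ2)))) := by
          rw [← Real.sqrt_mul (by positivity)]
          congr 1
          ring
      _ = _ := by
          rw [Real.sqrt_mul (by positivity), Real.sqrt_sq hV0.le, Real.sqrt_mul (by positivity)]
  calc ‖BK (cvD χ1 χ2 D) (cv χ3 χ4) θ1 θ2 ε k‖ ≤ Real.exp k * ∑' x : ℕ × ℕ, ‖cvD χ1 χ2 D (x.1 + 1)‖ *
        ‖cv χ3 χ4 (x.2 + 1)‖ * ‖Xi (Z (x.1 + 1) (x.2 + 1))‖ := hle
    _ ≤ Real.exp k * (C0 * (C3 * (V * (√(K1 * K2) * √((1 + Λ1) * (1 + Λ2)))))) := by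
        refine mul_le_mul_of_nonneg_left ?_ hek.le
        refine hle2.trans (mul_le_mul_of_nonneg_left ?_ hC0)
        refine hs3.trans (mul_le_mul_of_nonneg_left w3 hC3)
    _ = C0 * C3 * √(K1 * K2) * ε⁻¹ * √((1 + Λ1) * (1 + Λ2)) := by
        have : Real.exp k * V = ε⁻¹ := by
          rw [hV]
          field_simp
        rw [← this]
        ring

/-- Row I11. Pieces with small k. -/
theorem small_k {q1 q2 q3 q4 : ℕ} [NeZero q1] [NeZero q2] [NeZero q3] [NeZero q4]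
    {χ1 : DirichletCharacter ℂ q1} {χ2 : DirichletCharacter ℂ q2} {χ3 : DirichletCharacter ℂ q3}
    {χ4 : DirichletCharacter ℂ q4} {M : ℝ}
    (m12 : ∀ N : ℕ, ‖∑ g ∈ Finset.range N, χ1 ((g + 1 : ℕ) : ZMod q1) * conj (χ2 ((g + 1 : ℕ) : ZMod q2))‖ ≤ M)
    (m34 : ∀ N : ℕ, ‖∑ g ∈ Finset.range N, χ3 ((g + 1 : ℕ) : ZMod q3) * conj (χ4 ((g + 1 : ℕ) : ZMod q4))‖ ≤ M)
    {θ1 θ2 : ℝ} (h : Quad θ1 θ2) (A : ℝ) : ∃ C ε0 : ℝ, 0 < ε0 ∧ ε0 ≤ 1 / 3 ∧ ∀ ε : ℝ, 0 < ε → ε ≤ ε0 →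
      ∀ k : ℕ, Real.exp k ≤ Real.log (1 / ε) ^ A →
        ‖BK (cv χ1 χ2) (cv χ3 χ4) θ1 θ2 ε k‖ ≤ C * ε⁻¹ * Real.log (1 / ε) ^ (5 / 8 : ℝ) := by
  obtain ⟨B0, hB0⟩ := I11_one χ1 χ2 χ3 χ4 h A
  set B := max B0 0 with hB
  have hBn : 0 ≤ B := le_max_right _ _
  obtain ⟨C1, ε1, hC1, hε1, hε13, h1⟩ := hB0 B (le_max_left _ _)
  obtain ⟨C2, hC2, h2⟩ := I11_two m12 m34 h.1 h.2.1
  -- asymptotics
  have hA := (isLittleO_log_rpow_rpow_atTop A (by norm_num : (0:ℝ) < 1 / 2)).bound (by norm_num : (0:ℝ) < 1 / 8)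
  have hB' := (isLittleO_log_rpow_rpow_atTop B (by norm_num : (0:ℝ) < 1 / 2)).bound (by norm_num : (0:ℝ) < 1)
  obtain ⟨T0, hT0⟩ := Filter.eventually_atTop.mp (hA.and hB')
  set T1 := max T0 3 with hT1
  have hT1p : 0 < T1 := lt_of_lt_of_le (by norm_num) (le_max_right _ _)
  refine ⟨C1 + C2 * √(5 * (2 + 8 * B)), min ε1 (1 / T1), by positivity, (min_le_left _ _).trans hε13,
    fun ε hε he k hk => ?_⟩
  have heT : T1 ≤ 1 / ε := by
    rw [le_div_iff₀ hε]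
    have := he.trans (min_le_right _ _)
    rw [le_div_iff₀ hT1p] at this
    linarith
  have hT0' : T0 ≤ 1 / ε := (le_max_left _ _).trans heT
  have h3 : 3 ≤ 1 / ε := (le_max_right _ _).trans heT
  have he3 : ε ≤ 1 / 3 := by
    rw [le_div_iff₀ (by norm_num)]
    rw [le_div_iff₀ hε] at h3
    linarith
  have he2 : ε ≤ 1 / 2 := by linarith
  set T := 1 / ε with hT
  have hTp : 0 < T := by positivity
  set ℓ := Real.log T with hℓ
  have hℓ1 : 1 ≤ ℓ := by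
    rw [hℓ, Real.le_log_iff_exp_le hTp]
    have := Real.exp_one_lt_d9
    linarith
  have hℓ0 : 0 < ℓ := by linarith
  obtain ⟨a1, a2⟩ := hT0 T hT0'
  rw [Real.norm_of_nonneg (by positivity), Real.norm_of_nonneg (by positivity)] at a1 a2
  rw [one_mul] at a2
  have hεT : ε ^ (-(1 / 2 : ℝ)) = T ^ (1 / 2 : ℝ) := by
    have hTi : T = ε⁻¹ := one_div ε
    rw [hTi, Real.inv_rpow hε.le, Real.rpow_neg hε.le]
  set D := ε ^ (-(1 / 2 : ℝ)) * ℓ ^ (-B) with hD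
  have hℓB : 0 < ℓ ^ B := by positivity
  have hD1 : 1 ≤ D := by
    rw [hD, hεT, Real.rpow_neg hℓ0.le, ← div_eq_mul_inv, le_div_iff₀ hℓB]
    linarith
  have hDx : ε * D * (8 * Real.exp k) ≤ 1 := by
    have b1 : ℓ ^ (-B) ≤ 1 := Real.rpow_le_one_of_one_le_of_nonpos hℓ1 (by linarith)
    have b2 : D ≤ T ^ (1 / 2 : ℝ) := by
      rw [hD, hεT]
      exact mul_le_of_le_one_right (by positivity) b1
    have b3 : 8 * Real.exp k ≤ T ^ (1 / 2 : ℝ) := by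
      have : Real.exp k ≤ 1 / 8 * T ^ (1 / 2 : ℝ) := hk.trans a1
      linarith
    have b4 : T ^ (1 / 2 : ℝ) * T ^ (1 / 2 : ℝ) = T := by
      rw [← Real.rpow_add hTp]
      norm_num
    calc ε * D * (8 * Real.exp k) ≤ ε * T ^ (1 / 2 : ℝ) * T ^ (1 / 2 : ℝ) := by
          gcongr
      _ = ε * T := by rw [mul_assoc, b4]
      _ = 1 := by
          rw [hT]
          field_simp
  have g1 := h1 ε hε (he.trans (min_le_left _ _)) k hk hDx
  have g2 := h2 ε D hε he2 (by linarith) k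
  -- the logarithms
  have hek1 : 1 ≤ Real.exp k := Real.one_le_exp (Nat.cast_nonneg k)
  have hV1 : (Real.exp k * ε)⁻¹ ≤ T := by
    rw [hT, one_div]
    apply inv_anti₀ hε
    exact le_mul_of_one_le_left hε.le hek1
  have hVp : 0 < (Real.exp k * ε)⁻¹ := by positivity
  have hD2 : D ^ 2 = T * (ℓ ^ (2 * B))⁻¹ := by
    have b4 : T ^ (1 / 2 : ℝ) * T ^ (1 / 2 : ℝ) = T := by
      rw [← Real.rpow_add hTp]
      norm_num
    have b5 : ℓ ^ (-B) * ℓ ^ (-B) = (ℓ ^ (2 * B))⁻¹ := by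
      rw [← Real.rpow_add hℓ0, ← Real.rpow_neg hℓ0.le]
      congr 1
      ring
    rw [hD, hεT, sq]
    calc _ = (T ^ (1 / 2 : ℝ) * T ^ (1 / 2 : ℝ)) * (ℓ ^ (-B) * ℓ ^ (-B)) := by ring
      _ = _ := by rw [b4, b5]
  have hq : (Real.exp k * ε)⁻¹ / D ^ 2 ≤ ℓ ^ (2 * B) := by
    rw [hD2, div_le_iff₀ (by positivity)]
    have : ℓ ^ (2 * B) * (T * (ℓ ^ (2 * B))⁻¹) = T := by
      have : ℓ ^ (2 * B) ≠ 0 := by positivity
      field_simp
    rw [this]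
    exact hV1
  have hlog4 : Real.log ℓ ≤ 4 * ℓ ^ (1 / 4 : ℝ) := by
    have := Real.log_le_rpow_div hℓ0.le (by norm_num : (0:ℝ) < 1 / 4)
    linarith
  have hℓ4 : 1 ≤ ℓ ^ (1 / 4 : ℝ) := Real.one_le_rpow hℓ1 (by norm_num)
  have hlog2 : Real.log 2 ≤ 1 := by
    have := Real.log_two_lt_d9
    linarith
  have hΛ1 : 1 + Real.log (1 + (Real.exp k * ε)⁻¹ / D ^ 2) ≤ (2 + 8 * B) * ℓ ^ (1 / 4 : ℝ) := by
    have c1 : 1 ≤ ℓ ^ (2 * B) := Real.one_le_rpow hℓ1 (by linarith)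
    have c0 : 0 ≤ (Real.exp k * ε)⁻¹ / D ^ 2 := by positivity
    have c2 : Real.log (1 + (Real.exp k * ε)⁻¹ / D ^ 2) ≤ Real.log (2 * ℓ ^ (2 * B)) :=
      Real.log_le_log (by linarith) (by linarith)
    rw [Real.log_mul (by norm_num) (by positivity), Real.log_rpow hℓ0] at c2
    have c3 : 2 * B * Real.log ℓ ≤ 2 * B * (4 * ℓ ^ (1 / 4 : ℝ)) := mul_le_mul_of_nonneg_left hlog4 (by linarith)
    have c4 : (2 + 8 * B) * ℓ ^ (1 / 4 : ℝ) = 2 * ℓ ^ (1 / 4 : ℝ) + 2 * B * (4 * ℓ ^ (1 / 4 : ℝ)) := by ring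
    rw [c4]
    linarith
  have hΛ2 : 1 + Real.log (1 + 4 * (Real.exp k * ε)⁻¹) ≤ 5 * ℓ := by
    have c1 : 1 + 4 * (Real.exp k * ε)⁻¹ ≤ 8 * T := by linarith
    have c2 : Real.log (1 + 4 * (Real.exp k * ε)⁻¹) ≤ Real.log (8 * T) := Real.log_le_log (by positivity) c1
    rw [Real.log_mul (by norm_num) hTp.ne'] at c2
    have c3 : Real.log 8 = 3 * Real.log 2 := by
      rw [show (8:ℝ) = 2 ^ 3 by norm_num, Real.log_pow]
      norm_num
    have c4 := Real.log_two_lt_d9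
    linarith
  have hΛ1n : 0 ≤ Real.log (1 + (Real.exp k * ε)⁻¹ / D ^ 2) := Real.log_nonneg (by
    have : 0 ≤ (Real.exp k * ε)⁻¹ / D ^ 2 := by positivity
    linarith)
  have hΛ2n : 0 ≤ Real.log (1 + 4 * (Real.exp k * ε)⁻¹) := Real.log_nonneg (by linarith)
  have hsq : √((1 + Real.log (1 + (Real.exp k * ε)⁻¹ / D ^ 2)) * (1 + Real.log (1 + 4 * (Real.exp k * ε)⁻¹))) ≤
      √(5 * (2 + 8 * B)) * ℓ ^ (5 / 8 : ℝ) := by
    have d1 : (1 + Real.log (1 + (Real.exp k * ε)⁻¹ / D ^ 2)) * (1 + Real.log (1 + 4 * (Real.exp k * ε)⁻¹)) ≤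
        ((2 + 8 * B) * ℓ ^ (1 / 4 : ℝ)) * (5 * ℓ) := mul_le_mul hΛ1 hΛ2 (by linarith) (by positivity)
    have d2 : ((2 + 8 * B) * ℓ ^ (1 / 4 : ℝ)) * (5 * ℓ) = (5 * (2 + 8 * B)) * (ℓ ^ (5 / 8 : ℝ)) ^ 2 := by
      have d3 : (ℓ ^ (5 / 8 : ℝ)) ^ 2 = ℓ ^ (1 / 4 : ℝ) * ℓ := by
        rw [← Real.rpow_natCast, ← Real.rpow_mul hℓ0.le]
        nth_rewrite 3 [← Real.rpow_one ℓ]
        rw [← Real.rpow_add hℓ0]
        norm_num
      rw [d3]
      ring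
    refine (Real.sqrt_le_sqrt (d1.trans_eq d2)).trans ?_
    rw [Real.sqrt_mul (by positivity), Real.sqrt_sq (by positivity)]
  have hℓ58 : 1 ≤ ℓ ^ (5 / 8 : ℝ) := Real.one_le_rpow hℓ1 (by norm_num)
  have hεi : 0 < ε⁻¹ := by positivity
  have hsub : BK (cv χ1 χ2) (cv χ3 χ4) θ1 θ2 ε k =
      BK (fun n => cv χ1 χ2 n - cvD χ1 χ2 D n) (cv χ3 χ4) θ1 θ2 ε k + BK (cvD χ1 χ2 D) (cv χ3 χ4) θ1 θ2 ε k :=
    BK_sub h.1 h.2.1 hε he2 (fun n => by rw [I11_cv_eq]; exact I11_cv_le _ _ _ n) (fun n => I11_cv_le _ _ _ n)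
      (fun n => by rw [I11_cv_eq]; exact I11_cv_le _ _ _ n) k
  rw [hsub]
  refine (norm_add_le _ _).trans ?_
  calc _ ≤ C1 * ε⁻¹ + C2 * ε⁻¹ * (√(5 * (2 + 8 * B)) * ℓ ^ (5 / 8 : ℝ)) :=
        add_le_add g1 (g2.trans (mul_le_mul_of_nonneg_left hsq (by positivity)))
    _ ≤ C1 * ε⁻¹ * ℓ ^ (5 / 8 : ℝ) + C2 * ε⁻¹ * (√(5 * (2 + 8 * B)) * ℓ ^ (5 / 8 : ℝ)) := by
        have : C1 * ε⁻¹ ≤ C1 * ε⁻¹ * ℓ ^ (5 / 8 : ℝ) := le_mul_of_one_le_right (by positivity) hℓ58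
        linarith
    _ = _ := by ring

end II
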