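import Pool.Agent.Lib.MP_0f5a55_nt.II.I07
import Pool.Agent.Lib.MP_0f5a55_nt.II.I11
import Pool.Agent.Lib.MP_0f5a55_nt.TT.T27

open Complex MeasureTheory Set Filter Topology
open scoped Real ComplexConjugate

namespace II

private theorem I12_cv_le {q1 q2 : ℕ} (χ1 : DirichletCharacter ℂ q1) (χ2 : DirichletCharacter ℂ q2) (n : ℕ) :
    ‖cv χ1 χ2 n‖ ≤ dv n := by
  unfold cv dv
  refine (norm_sum_le _ _).trans ?_
  refine (Finset.sum_le_sum (g := fun _ => (1 : ℝ)) fun x _ => ?_).trans (le_of_eq ?_)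
  · rw [norm_mul]
    exact mul_le_one₀ (DirichletCharacter.norm_le_one χ1 _) (norm_nonneg _)
      (DirichletCharacter.norm_le_one χ2 _)
  · exact (Nat.sum_divisorsAntidiagonal (n := n) (fun _ _ => (1 : ℝ))).trans (by simp)

private theorem I12_dv_le (n : ℕ) : dv n ≤ n := by
  unfold dv
  exact_mod_cast Nat.card_divisors_le_self n

private theorem I12_dv_nonneg (n : ℕ) : 0 ≤ dv n := Nat.cast_nonneg _

private theorem I12_zz_re {θ1 θ2 ε : ℝ} (h1 : 0 < θ1) (h2 : 0 < θ2) (h0 : 0 < ε) (he : ε ≤ 1 / 2) (k n m : ℕ) :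
    0 ≤ (((Real.exp k : ℝ) : ℂ) * zz θ1 θ2 ε n m).re := by
  rw [re_ofReal_mul, zz_re]
  have := TT.sin_pos' h0 he
  positivity

private theorem I12_BK {θ1 θ2 : ℝ} (h1 : 0 < θ1) (h2 : 0 < θ2) {a b : ℕ → ℂ} (ha : ∀ n : ℕ, ‖a n‖ ≤ dv n)
    (hb : ∀ n : ℕ, ‖b n‖ ≤ dv n) {C : ℝ}
    (hC : ∀ z : ℂ, 0 ≤ z.re → ‖Xi z‖ ≤ C * ((1 + ‖z‖) ^ 12)⁻¹) {ε : ℝ} (h0 : 0 < ε) (he : ε ≤ 1 / 2) (k : ℕ)
    (hs : Summable (fun x : ℕ × ℕ => dv (x.1 + 1) * dv (x.2 + 1) *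
      ((1 + ‖((Real.exp k : ℝ) : ℂ) * zz θ1 θ2 ε (x.1 + 1) (x.2 + 1)‖) ^ 12)⁻¹)) :
    ‖BK a b θ1 θ2 ε k‖ ≤ C * (Real.exp k * ∑' x : ℕ × ℕ, dv (x.1 + 1) * dv (x.2 + 1) *
      ((1 + ‖((Real.exp k : ℝ) : ℂ) * zz θ1 θ2 ε (x.1 + 1) (x.2 + 1)‖) ^ 12)⁻¹) := by
  obtain ⟨hs1, hb1⟩ := BK_le h1 h2 h0 he (fun n => (ha n).trans (I12_dv_le n))
    (fun n => (hb n).trans (I12_dv_le n)) k
  refine hb1.trans ?_
  rw [mul_left_comm]
  refine mul_le_mul_of_nonneg_left ?_ (Real.exp_nonneg _)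
  rw [← tsum_mul_left]
  refine hs1.tsum_le_tsum (fun x => ?_) (hs.mul_left C)
  have e1 := hC _ (I12_zz_re h1 h2 h0 he k (x.1 + 1) (x.2 + 1))
  have e2 := mul_le_mul (ha (x.1 + 1)) (hb (x.2 + 1)) (norm_nonneg _) (I12_dv_nonneg _)
  refine (mul_le_mul e2 e1 (norm_nonneg _) (mul_nonneg (I12_dv_nonneg _) (I12_dv_nonneg _))).trans
    (le_of_eq ?_)
  ring

private theorem I12_num1 {L : ℝ} (hL : 1 ≤ L) :
    ((⌊60 * Real.log L⌋₊ + 1 : ℕ) : ℝ) * L ^ (5 / 8 : ℝ) ≤ 481 * L ^ (3 / 4 : ℝ) := by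
  have hL0 : 0 < L := by linarith
  have h1 : Real.log L ≤ L ^ (1 / 8 : ℝ) / (1 / 8 : ℝ) := Real.log_le_rpow_div hL0.le (by norm_num)
  have h2 : 1 ≤ L ^ (1 / 8 : ℝ) := Real.one_le_rpow hL (by norm_num)
  have h3 : (⌊60 * Real.log L⌋₊ : ℝ) ≤ 60 * Real.log L :=
    Nat.floor_le (mul_nonneg (by norm_num) (Real.log_nonneg hL))
  have h4 : L ^ (3 / 4 : ℝ) = L ^ (1 / 8 : ℝ) * L ^ (5 / 8 : ℝ) := by
    rw [← Real.rpow_add hL0]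
    norm_num
  rw [h4, ← mul_assoc]
  refine mul_le_mul_of_nonneg_right ?_ (Real.rpow_nonneg hL0.le _)
  push_cast
  linarith

private theorem I12_num2 {ε : ℝ} (h0 : 0 < ε) (h3 : ε ≤ 1 / 3) :
    1 ≤ Real.log (1 / ε) := by
  rw [Real.le_log_iff_exp_le (by positivity)]
  have h1 : 3 ≤ 1 / ε := by
    rw [le_div_iff₀ h0]
    linarith
  have := Real.exp_one_lt_d9
  linarith

private theorem I12_num3 {ε : ℝ} (h0 : 0 < ε) (h3 : ε ≤ 1 / 3) :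
    ((⌊Real.log (1 / ε)⌋₊ + 1 : ℕ) : ℝ) * ((1 + Real.log (1 / ε)) ^ 9 *
      (ε⁻¹ * (Real.log (1 / ε) ^ 20)⁻¹ + ε ^ (-(5 / 6 : ℝ)))) ≤ 2 ^ 10 * (1 + 60 ^ 10) * ε⁻¹ := by
  set L := Real.log (1 / ε) with hLd
  have hL : 1 ≤ L := I12_num2 h0 h3
  have hL0 : 0 < L := by linarith
  have f1 : ((⌊L⌋₊ + 1 : ℕ) : ℝ) ≤ 2 * L := by
    have := Nat.floor_le hL0.le
    push_cast
    linarith
  have f2 : (1 + L) ^ 9 ≤ (2 * L) ^ 9 := pow_le_pow_left₀ (by linarith) (by linarith) 9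
  have f3 : L ^ 10 * ε ^ (-(5 / 6 : ℝ)) ≤ 60 ^ 10 * ε⁻¹ := by
    have g1 : L ≤ (1 / ε) ^ (1 / 60 : ℝ) / (1 / 60 : ℝ) := Real.log_le_rpow_div (by positivity) (by norm_num)
    have g2 : L ≤ 60 * (1 / ε) ^ (1 / 60 : ℝ) := by linarith
    have g3 : L ^ 10 ≤ (60 * (1 / ε) ^ (1 / 60 : ℝ)) ^ 10 := pow_le_pow_left₀ hL0.le g2 10
    have g4 : ((1 / ε) ^ (1 / 60 : ℝ)) ^ 10 = ε ^ (-(1 / 6 : ℝ)) := by
      rw [← Real.rpow_natCast, ← Real.rpow_mul (by positivity), one_div, Real.inv_rpow h0.le,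
        ← Real.rpow_neg h0.le]
      norm_num
    rw [mul_pow, g4] at g3
    have g5 : ε ^ (-(1 / 6 : ℝ)) * ε ^ (-(5 / 6 : ℝ)) = ε⁻¹ := by
      rw [← Real.rpow_add h0, ← Real.rpow_neg_one]
      norm_num
    calc L ^ 10 * ε ^ (-(5 / 6 : ℝ)) ≤ 60 ^ 10 * ε ^ (-(1 / 6 : ℝ)) * ε ^ (-(5 / 6 : ℝ)) :=
          mul_le_mul_of_nonneg_right g3 (Real.rpow_nonneg h0.le _)
      _ = 60 ^ 10 * ε⁻¹ := by rw [mul_assoc, g5]
  have f4 : L ^ 10 * (ε⁻¹ * (L ^ 20)⁻¹) ≤ ε⁻¹ := by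
    have : L ^ 10 * (L ^ 20)⁻¹ ≤ 1 := by
      rw [← div_eq_mul_inv, div_le_one (by positivity)]
      exact pow_le_pow_right₀ hL (by norm_num)
    calc L ^ 10 * (ε⁻¹ * (L ^ 20)⁻¹) = L ^ 10 * (L ^ 20)⁻¹ * ε⁻¹ := by ring
      _ ≤ 1 * ε⁻¹ := mul_le_mul_of_nonneg_right this (by positivity)
      _ = ε⁻¹ := one_mul _
  have hr : 0 ≤ ε ^ (-(5 / 6 : ℝ)) := Real.rpow_nonneg h0.le _
  have hq : 0 ≤ ε⁻¹ * (L ^ 20)⁻¹ + ε ^ (-(5 / 6 : ℝ)) := by positivity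
  calc ((⌊L⌋₊ + 1 : ℕ) : ℝ) * ((1 + L) ^ 9 * (ε⁻¹ * (L ^ 20)⁻¹ + ε ^ (-(5 / 6 : ℝ))))
      ≤ (2 * L) * ((2 * L) ^ 9 * (ε⁻¹ * (L ^ 20)⁻¹ + ε ^ (-(5 / 6 : ℝ)))) := by
        refine mul_le_mul f1 (mul_le_mul_of_nonneg_right f2 hq) (mul_nonneg (by positivity) hq) (by positivity)
    _ = 2 ^ 10 * (L ^ 10 * (ε⁻¹ * (L ^ 20)⁻¹) + L ^ 10 * ε ^ (-(5 / 6 : ℝ))) := by ring
    _ ≤ 2 ^ 10 * (ε⁻¹ + 60 ^ 10 * ε⁻¹) :=
        mul_le_mul_of_nonneg_left (add_le_add f4 f3) (by norm_num)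
    _ = 2 ^ 10 * (1 + 60 ^ 10) * ε⁻¹ := by ring

private theorem I12_exp {k : ℕ} {L : ℝ} (hL : 0 < L) (h : L ^ 60 < Real.exp k) :
    Real.exp (-(k / 3 : ℝ)) ≤ (L ^ 20)⁻¹ := by
  rw [Real.exp_neg]
  refine inv_anti₀ (by positivity) ?_
  have h1 : (L ^ 20) ^ 3 ≤ (Real.exp (k / 3 : ℝ)) ^ 3 := by
    rw [← pow_mul, ← Real.exp_nat_mul]
    refine h.le.trans (le_of_eq ?_)
    congr 1
    push_cast
    ring
  exact le_of_pow_le_pow_left₀ (by norm_num) (Real.exp_nonneg _) h1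

/-- Row I12. Correlation integral of two pairs of characters, irrational ratio of the conductors. -/
theorem irr_bound {q1 q2 q3 q4 : ℕ} [NeZero q1] [NeZero q2] [NeZero q3] [NeZero q4]
    {χ1 : DirichletCharacter ℂ q1} {χ2 : DirichletCharacter ℂ q2} {χ3 : DirichletCharacter ℂ q3}
    {χ4 : DirichletCharacter ℂ q4} (n12 : OO.Ne12 χ1 χ2) (n34 : OO.Ne12 χ3 χ4)
    {θ1 θ2 : ℝ} (h : Quad θ1 θ2) : ∃ C ε0 : ℝ, 0 < ε0 ∧ ε0 ≤ 1 / 3 ∧ ∀ ε : ℝ, 0 < ε → ε ≤ ε0 →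
      ‖∫ u : ℝ, ((TT.tau u * Real.exp u : ℝ) : ℂ) * FE (cv χ1 χ2) θ1 ε (Real.exp u) *
        conj (FE (cv χ3 χ4) θ2 ε (Real.exp u))‖ ≤ C * ε⁻¹ * Real.log (1 / ε) ^ (3 / 4 : ℝ) := by
  obtain ⟨M1, hM1⟩ := TT.psum n12
  obtain ⟨M2, hM2⟩ := TT.psum n34
  obtain ⟨C1, ε0, hε0, hε03, hsm⟩ := small_k (M := max M1 M2) (fun N => (hM1 N).trans (le_max_left _ _))
    (fun N => (hM2 N).trans (le_max_right _ _)) h (60 : ℝ)
  obtain ⟨C2, hC2, hXi⟩ := Xi_bound 12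
  obtain ⟨C3, hC3, hlg⟩ := large_k h
  have hθ1 : 0 < θ1 := h.1
  have hθ2 : 0 < θ2 := h.2.1
  refine ⟨481 * |C1| + C2 * C3 * (2 ^ 10 * (1 + 60 ^ 10)) + C2 * C3 * (1 - Real.exp (-1))⁻¹,
    ε0, hε0, hε03, ?_⟩
  intro ε h0 hle
  have h3 : ε ≤ 1 / 3 := hle.trans hε03
  have he : ε ≤ 1 / 2 := by linarith
  have hL1 := I12_num2 h0 h3
  have hnum3 := I12_num3 h0 h3
  have hlg' := hlg ε h0 he
  have hsm' := hsm ε h0 hle
  set L := Real.log (1 / ε) with hLd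
  have hL0 : 0 < L := by linarith
  have hei : 1 ≤ ε⁻¹ := (one_le_inv₀ h0).2 (by linarith)
  set P : ℝ := |C1| * ε⁻¹ * L ^ (5 / 8 : ℝ) with hP
  set Q : ℝ := C2 * C3 * ((1 + L) ^ 9 * (ε⁻¹ * (L ^ 20)⁻¹ + ε ^ (-(5 / 6 : ℝ)))) with hQ
  have hP0 : 0 ≤ P := by
    have := Real.rpow_nonneg hL0.le (5 / 8 : ℝ)
    positivity
  have hQ0 : 0 ≤ Q := by
    have := Real.rpow_nonneg h0.le (-(5 / 6 : ℝ))
    positivity
  have hg1 : HasSum (fun k : ℕ => if k ∈ Finset.range (⌊60 * Real.log L⌋₊ + 1) then P else 0)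
      (((⌊60 * Real.log L⌋₊ + 1 : ℕ) : ℝ) * P) := by
    have := hasSum_sum_of_ne_finset_zero (L := SummationFilter.unconditional ℕ) (f := fun k : ℕ => if k ∈ Finset.range (⌊60 * Real.log L⌋₊ + 1)
      then P else 0) (s := Finset.range (⌊60 * Real.log L⌋₊ + 1)) (fun b hb => if_neg hb)
    rwa [Finset.sum_ite_mem, Finset.inter_self, Finset.sum_const, Finset.card_range, nsmul_eq_mul] at this
  have hg2 : HasSum (fun k : ℕ => if k ∈ Finset.range (⌊L⌋₊ + 1) then Q else 0)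
      (((⌊L⌋₊ + 1 : ℕ) : ℝ) * Q) := by
    have := hasSum_sum_of_ne_finset_zero (L := SummationFilter.unconditional ℕ) (f := fun k : ℕ => if k ∈ Finset.range (⌊L⌋₊ + 1)
      then Q else 0) (s := Finset.range (⌊L⌋₊ + 1)) (fun b hb => if_neg hb)
    rwa [Finset.sum_ite_mem, Finset.inter_self, Finset.sum_const, Finset.card_range, nsmul_eq_mul] at this
  have hg3 : HasSum (fun k : ℕ => C2 * C3 * Real.exp (-1) ^ k) (C2 * C3 * (1 - Real.exp (-1))⁻¹) :=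
    (hasSum_geometric_of_lt_one (Real.exp_nonneg _) (Real.exp_lt_one_iff.2 (by norm_num))).mul_left _
  have hbk : ∀ k : ℕ, ‖BK (cv χ1 χ2) (cv χ3 χ4) θ1 θ2 ε k‖ ≤
      (if k ∈ Finset.range (⌊60 * Real.log L⌋₊ + 1) then P else 0) +
      (if k ∈ Finset.range (⌊L⌋₊ + 1) then Q else 0) + C2 * C3 * Real.exp (-1) ^ k := by
    intro k
    obtain ⟨l1, l2, l3⟩ := hlg' k
    have hB := I12_BK hθ1 hθ2 (I12_cv_le χ1 χ2) (I12_cv_le χ3 χ4) hXi h0 he k l1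
    have i1 : 0 ≤ (if k ∈ Finset.range (⌊60 * Real.log L⌋₊ + 1) then P else 0) := by
      split_ifs
      · exact hP0
      · exact le_refl _
    have i2 : 0 ≤ (if k ∈ Finset.range (⌊L⌋₊ + 1) then Q else 0) := by
      split_ifs
      · exact hQ0
      · exact le_refl _
    have i3 : 0 ≤ C2 * C3 * Real.exp (-1) ^ k := by positivity
    rcases le_or_gt (Real.exp k) (L ^ 60) with hk | hk
    · have m1 : k ∈ Finset.range (⌊60 * Real.log L⌋₊ + 1) := by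
        rw [Finset.mem_range, Nat.lt_succ_iff]
        refine Nat.le_floor ?_
        have := (Real.le_log_iff_exp_le (by positivity)).2 hk
        rwa [Real.log_pow, Nat.cast_ofNat] at this
      have m2 := hsm' k (by rwa [show (60 : ℝ) = ((60 : ℕ) : ℝ) by norm_num, Real.rpow_natCast])
      have m3 : C1 * ε⁻¹ * L ^ (5 / 8 : ℝ) ≤ P := by
        rw [hP]
        refine mul_le_mul_of_nonneg_right ?_ (Real.rpow_nonneg hL0.le _)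
        exact mul_le_mul_of_nonneg_right (le_abs_self _) (by positivity)
      rw [if_pos m1]
      linarith
    · rcases le_or_gt (1 / ε) (Real.exp k) with hk2 | hk2
      · have m1 := l3 hk2
        have m2 : Real.exp (-(k : ℝ)) = Real.exp (-1) ^ k := by
          rw [← Real.exp_nat_mul]
          ring_nf
        rw [m2] at m1
        have m3 := hB.trans (mul_le_mul_of_nonneg_left m1 hC2)
        rw [← mul_assoc] at m3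
        linarith
      · have m1 : k ∈ Finset.range (⌊L⌋₊ + 1) := by
          rw [Finset.mem_range, Nat.lt_succ_iff]
          refine Nat.le_floor ?_
          exact (Real.le_log_iff_exp_le (by positivity)).2 hk2.le
        have m2 : C2 * (C3 * (1 + L) ^ 9 * (ε⁻¹ * Real.exp (-(k / 3 : ℝ)) + ε ^ (-(5 / 6 : ℝ)))) ≤ Q := by
          rw [hQ, mul_assoc C2 C3, mul_assoc C3]
          refine mul_le_mul_of_nonneg_left (mul_le_mul_of_nonneg_left (mul_le_mul_of_nonneg_left ?_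
            (by positivity)) hC3) hC2
          have := mul_le_mul_of_nonneg_left (I12_exp hL0 hk) (inv_nonneg.2 h0.le)
          linarith
        have m3 := hB.trans (mul_le_mul_of_nonneg_left l2 hC2)
        rw [if_pos m1]
        linarith
  have hS := BK_sum hθ1 hθ2 h0 he (fun n => (I12_cv_le χ1 χ2 n).trans (I12_dv_le n))
    (fun n => (I12_cv_le χ3 χ4 n).trans (I12_dv_le n))
  have hfin := tsum_of_norm_bounded ((hg1.add hg2).add hg3) hbk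
  rw [hS.tsum_eq] at hfin
  refine hfin.trans ?_
  have r1 : ((⌊60 * Real.log L⌋₊ + 1 : ℕ) : ℝ) * P ≤ 481 * |C1| * (ε⁻¹ * L ^ (3 / 4 : ℝ)) := by
    have := mul_le_mul_of_nonneg_left (I12_num1 hL1) (mul_nonneg (abs_nonneg C1) (inv_nonneg.2 h0.le))
    calc ((⌊60 * Real.log L⌋₊ + 1 : ℕ) : ℝ) * P
        = |C1| * ε⁻¹ * (((⌊60 * Real.log L⌋₊ + 1 : ℕ) : ℝ) * L ^ (5 / 8 : ℝ)) := by rw [hP]; ring
      _ ≤ |C1| * ε⁻¹ * (481 * L ^ (3 / 4 : ℝ)) := this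
      _ = 481 * |C1| * (ε⁻¹ * L ^ (3 / 4 : ℝ)) := by ring
  have hL34 : 1 ≤ L ^ (3 / 4 : ℝ) := Real.one_le_rpow hL1 (by norm_num)
  have hW : ε⁻¹ ≤ ε⁻¹ * L ^ (3 / 4 : ℝ) := le_mul_of_one_le_right (by positivity) hL34
  have r2 : ((⌊L⌋₊ + 1 : ℕ) : ℝ) * Q ≤ C2 * C3 * (2 ^ 10 * (1 + 60 ^ 10)) * (ε⁻¹ * L ^ (3 / 4 : ℝ)) := by
    have := mul_le_mul_of_nonneg_left hnum3 (mul_nonneg hC2 hC3)
    calc ((⌊L⌋₊ + 1 : ℕ) : ℝ) * Q
        = C2 * C3 * (((⌊L⌋₊ + 1 : ℕ) : ℝ) * ((1 + L) ^ 9 * (ε⁻¹ * (L ^ 20)⁻¹ + ε ^ (-(5 / 6 : ℝ))))) := by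
          rw [hQ]; ring
      _ ≤ C2 * C3 * (2 ^ 10 * (1 + 60 ^ 10) * ε⁻¹) := this
      _ = C2 * C3 * (2 ^ 10 * (1 + 60 ^ 10)) * ε⁻¹ := by ring
      _ ≤ _ := mul_le_mul_of_nonneg_left hW (by positivity)
  have r3 : C2 * C3 * (1 - Real.exp (-1))⁻¹ ≤ C2 * C3 * (1 - Real.exp (-1))⁻¹ * (ε⁻¹ * L ^ (3 / 4 : ℝ)) := by
    have : 0 < 1 - Real.exp (-1) := by
      have := Real.exp_lt_one_iff.2 (show (-1 : ℝ) < 0 by norm_num)
      linarith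
    exact le_mul_of_one_le_right (by positivity) (hei.trans hW)
  calc _ ≤ 481 * |C1| * (ε⁻¹ * L ^ (3 / 4 : ℝ)) +
        C2 * C3 * (2 ^ 10 * (1 + 60 ^ 10)) * (ε⁻¹ * L ^ (3 / 4 : ℝ)) +
        C2 * C3 * (1 - Real.exp (-1))⁻¹ * (ε⁻¹ * L ^ (3 / 4 : ℝ)) := add_le_add (add_le_add r1 r2) r3
    _ = _ := by ring

end II
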