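import Pool.Agent.Lib.MP_0f5a55_nt.II.D

open Complex MeasureTheory Set Filter Topology
open scoped Real ComplexConjugate ContDiff

namespace II

noncomputable def I01_E (z : ℂ) (v : ℝ) : ℂ := exp (-(2 * π * ((Real.exp v : ℝ) : ℂ) * z))

theorem I01_E_deriv (z : ℂ) (v : ℝ) :
    HasDerivAt (I01_E z) (-(2 * π * z) * ((Real.exp v : ℝ) : ℂ) * I01_E z v) v := by
  have h2 : HasDerivAt (fun v : ℝ => ((Real.exp v : ℝ) : ℂ)) ((Real.exp v : ℝ) : ℂ) v :=
    (Real.hasDerivAt_exp v).ofReal_comp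
  have h3 : HasDerivAt (fun v : ℝ => -(2 * π * ((Real.exp v : ℝ) : ℂ) * z))
      (-(2 * π * ((Real.exp v : ℝ) : ℂ) * z)) v :=
    ((h2.const_mul (2 * π : ℂ)).mul_const z).neg
  have h4 := h3.cexp
  refine h4.congr_deriv ?_
  unfold I01_E
  ring

theorem I01_E_cont (z : ℂ) : Continuous (I01_E z) :=
  continuous_iff_continuousAt.2 (fun v => (I01_E_deriv z v).continuousAt)

theorem I01_E_norm (z : ℂ) (v : ℝ) : ‖I01_E z v‖ = Real.exp (-(2 * π * Real.exp v * z.re)) := by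
  unfold I01_E
  have h : (2 * π * ((Real.exp v : ℝ) : ℂ) * z) = ((2 * π * Real.exp v : ℝ) : ℂ) * z := by
    push_cast
    ring
  rw [norm_exp, h, neg_re, re_ofReal_mul]

theorem I01_E_le_one {z : ℂ} (hz : 0 ≤ z.re) (v : ℝ) : ‖I01_E z v‖ ≤ 1 := by
  rw [I01_E_norm, Real.exp_le_one_iff]
  have : 0 ≤ 2 * π * Real.exp v * z.re :=
    mul_nonneg (mul_nonneg (by positivity) (Real.exp_pos _).le) hz
  linarith

noncomputable def I01_T (G : ℝ → ℝ) (v : ℝ) : ℝ := deriv (fun v : ℝ => G v * Real.exp (-v)) v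

theorem I01_aux {G : ℝ → ℝ} (hG : ContDiff ℝ ∞ G) :
    ContDiff ℝ ∞ (fun v : ℝ => G v * Real.exp (-v)) :=
  hG.mul (contDiff_id.neg.exp)

theorem I01_T_contDiff {G : ℝ → ℝ} (hG : ContDiff ℝ ∞ G) : ContDiff ℝ ∞ (I01_T G) :=
  (contDiff_infty_iff_deriv.1 (I01_aux hG)).2

theorem I01_T_deriv {G : ℝ → ℝ} (hG : ContDiff ℝ ∞ G) (v : ℝ) :
    HasDerivAt (fun v => G v * Real.exp (-v)) (I01_T G v) v :=
  (((I01_aux hG).differentiable (by simp)) v).hasDerivAt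

def I01_S (G : ℝ → ℝ) : Prop := ∀ v : ℝ, v ∉ Icc (-1 : ℝ) 2 → G v = 0

theorem I01_T_supp {G : ℝ → ℝ} (hG : ContDiff ℝ ∞ G) (hS : I01_S G) : I01_S (I01_T G) := by
  intro v hv
  have h1 := I01_T_deriv hG v
  have h2 : (fun v => G v * Real.exp (-v)) =ᶠ[𝓝 v] fun _ => 0 := by
    have : (Icc (-1 : ℝ) 2)ᶜ ∈ 𝓝 v := isClosed_Icc.isOpen_compl.mem_nhds hv
    filter_upwards [this] with w hw
    rw [hS w hw, zero_mul]
  have h3 : HasDerivAt (fun v => G v * Real.exp (-v)) 0 v :=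
    (hasDerivAt_const v (0 : ℝ)).congr_of_eventuallyEq h2
  exact h1.unique h3

theorem I01_compact {G : ℝ → ℝ} (hS : I01_S G) (g : ℝ → ℂ) :
    HasCompactSupport (fun v => ((G v : ℝ) : ℂ) * g v) := by
  refine HasCompactSupport.intro (isCompact_Icc (a := (-1 : ℝ)) (b := 2)) (fun v hv => ?_)
  rw [hS v hv, ofReal_zero, zero_mul]

noncomputable def I01_I (G : ℝ → ℝ) (z : ℂ) : ℂ :=
  ∫ v : ℝ, ((G v : ℝ) : ℂ) * I01_E z v

theorem I01_int {G : ℝ → ℝ} (hG : ContDiff ℝ ∞ G) (hS : I01_S G) (z : ℂ) :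
    Integrable (fun v => ((G v : ℝ) : ℂ) * I01_E z v) := by
  refine Continuous.integrable_of_hasCompactSupport ?_ (I01_compact hS _)
  exact (continuous_ofReal.comp hG.continuous).mul (I01_E_cont z)

theorem I01_parts {G : ℝ → ℝ} (hG : ContDiff ℝ ∞ G) (hS : I01_S G) (z : ℂ) :
    I01_I (I01_T G) z = 2 * π * z * I01_I G z := by
  have hd : ∀ v : ℝ, HasDerivAt (fun v => ((G v * Real.exp (-v) : ℝ) : ℂ) * I01_E z v)
      (((I01_T G v : ℝ) : ℂ) * I01_E z v - 2 * π * z * (((G v : ℝ) : ℂ) * I01_E z v)) v := by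
    intro v
    have h1 := (I01_T_deriv hG v).ofReal_comp
    have h2 := h1.mul (I01_E_deriv z v)
    refine h2.congr_deriv ?_
    have h3 : ((Real.exp (-v) : ℝ) : ℂ) * ((Real.exp v : ℝ) : ℂ) = 1 := by
      rw [← ofReal_mul, ← Real.exp_add, neg_add_cancel, Real.exp_zero, ofReal_one]
    rw [ofReal_mul]
    linear_combination (-(2 * π * z) * ((G v : ℝ) : ℂ) * I01_E z v) * h3
  have i1 := I01_int (I01_T_contDiff hG) (I01_T_supp hG hS) z
  have i2 := (I01_int hG hS z).const_mul (2 * π * z)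
  have hz : ∀ v : ℝ, v ∉ Icc (-1 : ℝ) 2 →
      ((G v * Real.exp (-v) : ℝ) : ℂ) * I01_E z v = 0 := by
    intro v hv
    rw [hS v hv, zero_mul, ofReal_zero, zero_mul]
  have t1 : Tendsto (fun v => ((G v * Real.exp (-v) : ℝ) : ℂ) * I01_E z v) atBot (𝓝 0) := by
    refine tendsto_const_nhds.congr' ?_
    filter_upwards [eventually_lt_atBot (-1 : ℝ)] with v hv
    exact (hz v (fun h => absurd h.1 (not_le.2 hv))).symm
  have t2 : Tendsto (fun v => ((G v * Real.exp (-v) : ℝ) : ℂ) * I01_E z v) atTop (𝓝 0) := by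
    refine tendsto_const_nhds.congr' ?_
    filter_upwards [eventually_gt_atTop (2 : ℝ)] with v hv
    exact (hz v (fun h => absurd h.2 (not_le.2 hv))).symm
  have key := integral_of_hasDerivAt_of_tendsto hd (i1.sub i2) t1 t2
  rw [integral_sub i1 i2, integral_const_mul, sub_zero, sub_eq_zero] at key
  exact key

theorem I01_base {G : ℝ → ℝ} (hG : ContDiff ℝ ∞ G) (hS : I01_S G) :
    ∃ C : ℝ, 0 ≤ C ∧ ∀ z : ℂ, 0 ≤ z.re → ‖I01_I G z‖ ≤ C := by
  obtain ⟨M, hM⟩ := (isCompact_Icc (a := (-1 : ℝ)) (b := 2)).exists_bound_of_continuousOn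
    (f := G) hG.continuous.continuousOn
  have hM0 : 0 ≤ M := le_trans (norm_nonneg _) (hM (0 : ℝ) ⟨by norm_num, by norm_num⟩)
  refine ⟨M * 3, by positivity, fun z hz => ?_⟩
  have h1 : I01_I G z = ∫ v in Icc (-1 : ℝ) 2, ((G v : ℝ) : ℂ) * I01_E z v := by
    unfold I01_I
    refine (setIntegral_eq_integral_of_forall_compl_eq_zero (fun v hv => ?_)).symm
    rw [hS v hv, ofReal_zero, zero_mul]
  rw [h1]
  have h2 := norm_setIntegral_le_of_norm_le_const (μ := volume) (s := Icc (-1 : ℝ) 2)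
    (f := fun v => ((G v : ℝ) : ℂ) * I01_E z v) (C := M) (by simp)
    (fun v hv => ?_)
  · refine h2.trans (le_of_eq ?_)
    rw [Measure.real, Real.volume_Icc, ENNReal.toReal_ofReal (by norm_num)]
    ring
  · rw [norm_mul, norm_real]
    calc ‖G v‖ * ‖I01_E z v‖ ≤ M * 1 :=
          mul_le_mul (hM v hv) (I01_E_le_one hz v) (norm_nonneg _) hM0
      _ = M := mul_one _

theorem I01_main (A : ℕ) : ∀ G : ℝ → ℝ, ContDiff ℝ ∞ G → I01_S G →
    ∃ C : ℝ, 0 ≤ C ∧ ∀ z : ℂ, 0 ≤ z.re → ‖I01_I G z‖ ≤ C * ((1 + ‖z‖) ^ A)⁻¹ := by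
  induction A with
  | zero =>
    intro G hG hS
    obtain ⟨C, hC, h⟩ := I01_base hG hS
    refine ⟨C, hC, fun z hz => ?_⟩
    rw [pow_zero, inv_one, mul_one]
    exact h z hz
  | succ A ih =>
    intro G hG hS
    obtain ⟨C1, hC1, h1⟩ := ih G hG hS
    obtain ⟨C2, hC2, h2⟩ := ih (I01_T G) (I01_T_contDiff hG) (I01_T_supp hG hS)
    refine ⟨C1 + C2, by positivity, fun z hz => ?_⟩
    have a1 := h1 z hz
    have a2 := h2 z hz
    rw [I01_parts hG hS, norm_mul, norm_mul, norm_mul, norm_real, Real.norm_of_nonneg Real.pi_pos.le,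
      Complex.norm_two] at a2
    have hp : 0 < (1 + ‖z‖) := by positivity
    have hpA : 0 < (1 + ‖z‖) ^ A := by positivity
    rw [pow_succ, mul_inv, ← mul_assoc, ← div_eq_mul_inv _ (1 + ‖z‖), le_div_iff₀ hp]
    have hn : 0 ≤ ‖I01_I G z‖ := norm_nonneg _
    have hz0 : 0 ≤ ‖z‖ * ‖I01_I G z‖ := by positivity
    have hpi : 1 ≤ 2 * π := by linarith [Real.pi_gt_three]
    have : ‖z‖ * ‖I01_I G z‖ ≤ 2 * π * ‖z‖ * ‖I01_I G z‖ := by nlinarith
    calc ‖I01_I G z‖ * (1 + ‖z‖) = ‖I01_I G z‖ + ‖z‖ * ‖I01_I G z‖ := by ring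
      _ ≤ C1 * ((1 + ‖z‖) ^ A)⁻¹ + C2 * ((1 + ‖z‖) ^ A)⁻¹ := by linarith
      _ = (C1 + C2) * ((1 + ‖z‖) ^ A)⁻¹ := by ring

/-- Row I01. Kernel bound, A-fold integration by parts (as TT.Psi_bound in T02). -/
theorem Xi_bound (A : ℕ) : ∃ C : ℝ, 0 ≤ C ∧ ∀ z : ℂ, 0 ≤ z.re → ‖Xi z‖ ≤ C * ((1 + ‖z‖) ^ A)⁻¹ := by
  have hG : ContDiff ℝ ∞ (fun v : ℝ => TT.phi v * Real.exp v) :=
    (TT.phi_contDiff (n := ⊤)).mul contDiff_id.exp
  have hS : I01_S (fun v : ℝ => TT.phi v * Real.exp v) := by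
    intro v hv
    rw [Set.mem_Icc, not_and_or, not_le, not_le] at hv
    rcases hv with h | h
    · change TT.phi v * Real.exp v = 0
      rw [TT.phi_zero_left h.le, zero_mul]
    · change TT.phi v * Real.exp v = 0
      rw [TT.phi_zero_right h.le, zero_mul]
  exact I01_main A _ hG hS

end II
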