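import Pool.Agent.Lib.MP_0f5a55_nt.II.D

open Complex MeasureTheory Set Filter Topology
open scoped Real ComplexConjugate

namespace II

theorem I05_dv_mul_le (a b : ℕ) : dv (a * b) ≤ dv a * dv b := by
  unfold dv
  rw [Nat.divisors_mul]
  exact_mod_cast Finset.card_mul_le

theorem I05_dv_nonneg (a : ℕ) : 0 ≤ dv a := Nat.cast_nonneg _

/-- pairs with product at most `x` -/
def I05_P (x : ℕ) : Finset (ℕ × ℕ) :=
  (Finset.Icc 1 x ×ˢ Finset.Icc 1 x).filter fun p => p.1 * p.2 ≤ x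

theorem I05_sum (x : ℕ) (f : ℕ → ℝ) :
    ∑ n ∈ Finset.Icc 1 x, dv n * f n = ∑ p ∈ I05_P x, f (p.1 * p.2) := by
  have hmaps : ∀ p ∈ I05_P x, p.1 * p.2 ∈ Finset.Icc 1 x := by
    intro p hp
    rw [I05_P, Finset.mem_filter, Finset.mem_product, Finset.mem_Icc, Finset.mem_Icc] at hp
    rw [Finset.mem_Icc]
    exact ⟨Nat.mul_pos hp.1.1.1 hp.1.2.1, hp.2⟩
  rw [← Finset.sum_fiberwise_of_maps_to hmaps]
  refine Finset.sum_congr rfl fun n hn => ?_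
  have hn' := Finset.mem_Icc.mp hn
  have hfib : (I05_P x).filter (fun p => p.1 * p.2 = n) = n.divisorsAntidiagonal := by
    ext p
    rw [Finset.mem_filter, I05_P, Finset.mem_filter, Finset.mem_product, Finset.mem_Icc,
      Finset.mem_Icc, Nat.mem_divisorsAntidiagonal]
    constructor
    · rintro ⟨-, h⟩
      exact ⟨h, by omega⟩
    · rintro ⟨h, -⟩
      have h0 : p.1 * p.2 ≠ 0 := by rw [h]; omega
      have h1 : 1 ≤ p.1 := Nat.one_le_iff_ne_zero.mpr (left_ne_zero_of_mul h0)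
      have h2 : 1 ≤ p.2 := Nat.one_le_iff_ne_zero.mpr (right_ne_zero_of_mul h0)
      have h3 : p.1 ≤ n := by rw [← h]; exact Nat.le_mul_of_pos_right _ h2
      have h4 : p.2 ≤ n := by rw [← h]; exact Nat.le_mul_of_pos_left _ h1
      exact ⟨⟨⟨⟨h1, h3.trans hn'.2⟩, ⟨h2, h4.trans hn'.2⟩⟩, by rw [h]; exact hn'.2⟩, h⟩
  rw [hfib]
  have h5 : ∑ p ∈ n.divisorsAntidiagonal, f (p.1 * p.2) = ∑ _p ∈ n.divisorsAntidiagonal, f n :=
    Finset.sum_congr rfl fun p hp => by rw [(Nat.mem_divisorsAntidiagonal.mp hp).1]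
  rw [h5, Finset.sum_const, nsmul_eq_mul]
  congr 1
  unfold dv
  have h6 : n.divisors.card = n.divisorsAntidiagonal.card := by
    rw [← Nat.map_div_right_divisors, Finset.card_map]
  rw [h6]

theorem I05_log {x y : ℕ} (hy : 1 ≤ y) (hyx : y ≤ x) : (1 : ℝ) + Real.log y ≤ 1 + Real.log x := by
  have h1 : (1 : ℝ) ≤ y := by exact_mod_cast hy
  have h2 : (y : ℝ) ≤ x := by exact_mod_cast hyx
  have := Real.log_le_log (by linarith) h2
  linarith

theorem I05_log_pos {x : ℕ} (hx : 1 ≤ x) : (1 : ℝ) ≤ 1 + Real.log x := by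
  have h1 : (1 : ℝ) ≤ x := by exact_mod_cast hx
  have := Real.log_nonneg h1
  linarith

theorem I05_R (k : ℕ) (x : ℕ) (hx : 1 ≤ x) :
    ∑ n ∈ Finset.Icc 1 x, dv n ^ k * (n : ℝ)⁻¹ ≤ (1 + Real.log x) ^ 2 ^ k := by
  induction k with
  | zero =>
    simp only [pow_zero, one_mul, pow_one]
    have h1 := harmonic_le_one_add_log x
    rw [harmonic_eq_sum_Icc] at h1
    push_cast at h1
    exact h1
  | succ k ih =>
    have h0 : ∀ n ∈ Finset.Icc 1 x, dv n ^ (k + 1) * (n : ℝ)⁻¹ = dv n * (dv n ^ k * (n : ℝ)⁻¹) := by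
      intro n _
      ring
    rw [Finset.sum_congr rfl h0, I05_sum x (fun n => dv n ^ k * (n : ℝ)⁻¹)]
    have h1 : ∀ p ∈ I05_P x, dv (p.1 * p.2) ^ k * ((p.1 * p.2 : ℕ) : ℝ)⁻¹ ≤
        (dv p.1 ^ k * (p.1 : ℝ)⁻¹) * (dv p.2 ^ k * (p.2 : ℝ)⁻¹) := by
      intro p _
      have h2 : dv (p.1 * p.2) ^ k ≤ dv p.1 ^ k * dv p.2 ^ k := by
        rw [← mul_pow]
        exact pow_le_pow_left₀ (I05_dv_nonneg _) (I05_dv_mul_le _ _) k
      have h3 : (0 : ℝ) ≤ (p.1 : ℝ)⁻¹ * (p.2 : ℝ)⁻¹ := by positivity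
      push_cast
      rw [mul_inv]
      calc dv (p.1 * p.2) ^ k * ((p.1 : ℝ)⁻¹ * (p.2 : ℝ)⁻¹) ≤
          (dv p.1 ^ k * dv p.2 ^ k) * ((p.1 : ℝ)⁻¹ * (p.2 : ℝ)⁻¹) :=
            mul_le_mul_of_nonneg_right h2 h3
        _ = (dv p.1 ^ k * (p.1 : ℝ)⁻¹) * (dv p.2 ^ k * (p.2 : ℝ)⁻¹) := by ring
    refine (Finset.sum_le_sum h1).trans ?_
    have h4 : ∑ p ∈ I05_P x, (dv p.1 ^ k * (p.1 : ℝ)⁻¹) * (dv p.2 ^ k * (p.2 : ℝ)⁻¹) ≤
        ∑ p ∈ Finset.Icc 1 x ×ˢ Finset.Icc 1 x,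
          (dv p.1 ^ k * (p.1 : ℝ)⁻¹) * (dv p.2 ^ k * (p.2 : ℝ)⁻¹) := by
      refine Finset.sum_le_sum_of_subset_of_nonneg (Finset.filter_subset _ _) fun p _ _ => ?_
      have := I05_dv_nonneg p.1
      have := I05_dv_nonneg p.2
      positivity
    refine h4.trans ?_
    rw [Finset.sum_product' (f := fun a b : ℕ => (dv a ^ k * (a : ℝ)⁻¹) * (dv b ^ k * (b : ℝ)⁻¹)),
      ← Finset.sum_mul_sum, ← sq, pow_succ 2 k, pow_mul]
    refine pow_le_pow_left₀ (Finset.sum_nonneg fun n _ => ?_) ih 2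
    have := I05_dv_nonneg n
    positivity

theorem I05_S (k : ℕ) (x : ℕ) (hx : 1 ≤ x) :
    ∑ n ∈ Finset.Icc 1 x, dv n ^ k ≤ x * (1 + Real.log x) ^ (2 ^ k - 1) := by
  induction k generalizing x with
  | zero =>
    simp
  | succ k ih =>
    have h0 : ∀ n ∈ Finset.Icc 1 x, dv n ^ (k + 1) = dv n * dv n ^ k := by
      intro n _
      ring
    rw [Finset.sum_congr rfl h0, I05_sum x (fun n => dv n ^ k)]
    have h1 : ∀ p ∈ I05_P x, dv (p.1 * p.2) ^ k ≤ dv p.1 ^ k * dv p.2 ^ k := by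
      intro p _
      rw [← mul_pow]
      exact pow_le_pow_left₀ (I05_dv_nonneg _) (I05_dv_mul_le _ _) k
    refine (Finset.sum_le_sum h1).trans ?_
    have h2 : ∑ p ∈ I05_P x, dv p.1 ^ k * dv p.2 ^ k =
        ∑ a ∈ Finset.Icc 1 x, dv a ^ k * ∑ b ∈ Finset.Icc 1 (x / a), dv b ^ k := by
      rw [I05_P, Finset.sum_filter, Finset.sum_product]
      refine Finset.sum_congr rfl fun a ha => ?_
      have ha' := Finset.mem_Icc.mp ha
      rw [Finset.mul_sum, ← Finset.sum_filter]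
      refine Finset.sum_congr ?_ fun _ _ => rfl
      ext b
      rw [Finset.mem_filter, Finset.mem_Icc, Finset.mem_Icc, Nat.le_div_iff_mul_le (by omega)]
      constructor
      · rintro ⟨⟨hb1, -⟩, hb2⟩
        exact ⟨hb1, by rw [mul_comm]; exact hb2⟩
      · rintro ⟨hb1, hb2⟩
        have hb3 : b ≤ x := (Nat.le_mul_of_pos_right b (by omega)).trans hb2
        exact ⟨⟨hb1, hb3⟩, by rw [mul_comm]; exact hb2⟩
    rw [h2]
    set L : ℝ := 1 + Real.log x with hL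
    have hL1 : 1 ≤ L := I05_log_pos hx
    have h3 : ∀ a ∈ Finset.Icc 1 x, dv a ^ k * ∑ b ∈ Finset.Icc 1 (x / a), dv b ^ k ≤
        (x * L ^ (2 ^ k - 1)) * (dv a ^ k * (a : ℝ)⁻¹) := by
      intro a ha
      have ha' := Finset.mem_Icc.mp ha
      have hxa : 1 ≤ x / a := by
        rw [Nat.le_div_iff_mul_le (by omega)]
        omega
      have h4 := ih (x / a) hxa
      have h5 : (1 + Real.log ((x / a : ℕ) : ℝ)) ^ (2 ^ k - 1) ≤ L ^ (2 ^ k - 1) :=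
        pow_le_pow_left₀ (by linarith [I05_log_pos hxa]) (I05_log hxa (Nat.div_le_self x a)) _
      have h6 : (((x / a : ℕ)) : ℝ) ≤ x * (a : ℝ)⁻¹ := by
        rw [← div_eq_mul_inv]
        exact Nat.cast_div_le
      have h7 : ∑ b ∈ Finset.Icc 1 (x / a), dv b ^ k ≤ (x * (a : ℝ)⁻¹) * L ^ (2 ^ k - 1) :=
        h4.trans (mul_le_mul h6 h5 (pow_nonneg (by linarith [I05_log_pos hxa]) _) (by positivity))
      have h8 : 0 ≤ dv a ^ k := pow_nonneg (I05_dv_nonneg a) k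
      calc dv a ^ k * ∑ b ∈ Finset.Icc 1 (x / a), dv b ^ k ≤
          dv a ^ k * ((x * (a : ℝ)⁻¹) * L ^ (2 ^ k - 1)) := mul_le_mul_of_nonneg_left h7 h8
        _ = (x * L ^ (2 ^ k - 1)) * (dv a ^ k * (a : ℝ)⁻¹) := by ring
    refine (Finset.sum_le_sum h3).trans ?_
    rw [← Finset.mul_sum]
    have h9 := I05_R k x hx
    have h10 : 0 ≤ (x : ℝ) * L ^ (2 ^ k - 1) := by positivity
    refine (mul_le_mul_of_nonneg_left h9 h10).trans (le_of_eq ?_)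
    have h11 : 2 ^ (k + 1) - 1 = (2 ^ k - 1) + 2 ^ k := by
      have : 1 ≤ 2 ^ k := Nat.one_le_two_pow
      rw [pow_succ]
      omega
    rw [h11, pow_add, ← mul_assoc]

/-- Row I05. Divisor moments. -/
theorem div_sq (x : ℕ) (hx : 1 ≤ x) : ∑ n ∈ Finset.Icc 1 x, dv n ^ 2 ≤ x * (1 + Real.log x) ^ 3 := by
  exact I05_S 2 x hx

theorem div_cube (x : ℕ) (hx : 1 ≤ x) : ∑ n ∈ Finset.Icc 1 x, dv n ^ 3 ≤ x * (1 + Real.log x) ^ 7 := by
  exact I05_S 3 x hx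

end II
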