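import Pool.Agent.Lib.MP_0f5a55_nt.TT.T00

open Complex MeasureTheory Set Filter Topology
open scoped Real ComplexConjugate

namespace II

/-- exp(i (pi/2 - ε)) -/
noncomputable def om (ε : ℝ) : ℂ := exp (((π / 2 - ε : ℝ) : ℂ) * I)

/-- exponential series with coefficients a(n), frequency θ, at x exp(i (pi/2 - ε)) -/
noncomputable def FE (a : ℕ → ℂ) (θ ε x : ℝ) : ℂ :=
  ∑' n : ℕ, a (n + 1) * exp (-(2 * π * θ * ((n : ℂ) + 1) * x * om ε))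

/-- Dirichlet convolution of two characters -/
noncomputable def cv {q1 q2 : ℕ} (χ1 : DirichletCharacter ℂ q1) (χ2 : DirichletCharacter ℂ q2) (n : ℕ) : ℂ :=
  ∑ x ∈ n.divisorsAntidiagonal, χ1 (x.1 : ZMod q1) * χ2 (x.2 : ZMod q2)

/-- the same, both factors larger than D -/
noncomputable def cvD {q1 q2 : ℕ} (χ1 : DirichletCharacter ℂ q1) (χ2 : DirichletCharacter ℂ q2) (D : ℝ)
    (n : ℕ) : ℂ :=
  ∑ x ∈ n.divisorsAntidiagonal, if D < x.1 ∧ D < x.2 then χ1 (x.1 : ZMod q1) * χ2 (x.2 : ZMod q2) else 0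

/-- the piece x = exp u, u in [k-1, k+2] of the correlation integral -/
noncomputable def BK (a b : ℕ → ℂ) (θ1 θ2 ε : ℝ) (k : ℕ) : ℂ :=
  ∫ u : ℝ, ((TT.phi (u - k) * Real.exp u : ℝ) : ℂ) * FE a θ1 ε (Real.exp u) * conj (FE b θ2 ε (Real.exp u))

noncomputable def Xi (z : ℂ) : ℂ :=
  ∫ v : ℝ, ((TT.phi v * Real.exp v : ℝ) : ℂ) * exp (-(2 * π * ((Real.exp v : ℝ) : ℂ) * z))

noncomputable def zz (θ1 θ2 ε : ℝ) (n m : ℕ) : ℂ := θ1 * n * om ε + θ2 * m * conj (om ε)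

/-- distance to the nearest integer -/
noncomputable def nd (y : ℝ) : ℝ := |y - round y|

/-- positive, irrational ratio, commensurable squares -/
def Quad (θ1 θ2 : ℝ) : Prop :=
  0 < θ1 ∧ 0 < θ2 ∧ Irrational (θ1 / θ2) ∧ ∃ r s : ℕ, 0 < r ∧ 0 < s ∧ (r : ℝ) * θ1 ^ 2 = s * θ2 ^ 2

/-- number of divisors -/
noncomputable def dv (n : ℕ) : ℝ := (n.divisors.card : ℝ)

theorem om_eq (ε : ℝ) : om ε = (Real.sin ε : ℝ) + (Real.cos ε : ℝ) * I := by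
  unfold om
  rw [exp_mul_I, ← ofReal_cos, ← ofReal_sin, Real.cos_pi_div_two_sub, Real.sin_pi_div_two_sub]

theorem zz_eq (θ1 θ2 ε : ℝ) (n m : ℕ) :
    zz θ1 θ2 ε n m = (Real.sin ε * (θ1 * n + θ2 * m) : ℝ) + (Real.cos ε * (θ1 * n - θ2 * m) : ℝ) * I := by
  unfold zz
  rw [om_eq]
  simp only [map_add, map_mul, conj_ofReal, conj_I]
  push_cast
  ring

theorem zz_re (θ1 θ2 ε : ℝ) (n m : ℕ) : (zz θ1 θ2 ε n m).re = Real.sin ε * (θ1 * n + θ2 * m) := by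
  rw [zz_eq, add_re, ofReal_re, re_ofReal_mul, I_re, mul_zero, add_zero]

theorem zz_im (θ1 θ2 ε : ℝ) (n m : ℕ) : (zz θ1 θ2 ε n m).im = Real.cos ε * (θ1 * n - θ2 * m) := by
  rw [zz_eq, add_im, ofReal_im, im_ofReal_mul, I_im, mul_one, zero_add]

end II
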