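import Pool.Agent.Lib.MP_0f5a55_nt.II.I05

open Complex MeasureTheory Set Filter Topology
open scoped Real ComplexConjugate

namespace II


/-- Row I06. Quadratic irrationals are badly approximable; near coincidences weighted with divisors. -/
theorem bad {θ1 θ2 : ℝ} (h : Quad θ1 θ2) : ∃ c : ℝ, 0 < c ∧ ∀ N M : ℕ, 1 ≤ N → 1 ≤ M →
    c / N ≤ |θ1 * N - θ2 * M| := by
  obtain ⟨h1, h2, hirr, r, s, hr, hs, hrs⟩ := h
  have hr' : (0 : ℝ) < r := by exact_mod_cast hr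
  refine ⟨min (θ2 ^ 2 / (3 * r * θ1)) θ1, by positivity, fun N M hN hM => ?_⟩
  have hN' : (1 : ℝ) ≤ N := by exact_mod_cast hN
  have hM' : (1 : ℝ) ≤ M := by exact_mod_cast hM
  have hN0 : (0 : ℝ) < N := by linarith
  have hM0 : (0 : ℝ) < M := by linarith
  have hne : (s : ℤ) * N ^ 2 - r * M ^ 2 ≠ 0 := by
    intro h0
    have h0' : (s : ℝ) * N ^ 2 - r * M ^ 2 = 0 := by exact_mod_cast h0
    have h3 : (r : ℝ) * (θ1 * N) ^ 2 = r * (θ2 * M) ^ 2 := by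
      have : (r : ℝ) * (θ1 * N) ^ 2 = (r * θ1 ^ 2) * N ^ 2 := by ring
      rw [this, hrs]
      have h4 : (s : ℝ) * N ^ 2 = r * M ^ 2 := by linarith
      calc (s : ℝ) * θ2 ^ 2 * N ^ 2 = (s * N ^ 2) * θ2 ^ 2 := by ring
        _ = (r * M ^ 2) * θ2 ^ 2 := by rw [h4]
        _ = r * (θ2 * M) ^ 2 := by ring
    have h4 : (θ1 * N) ^ 2 = (θ2 * M) ^ 2 := mul_left_cancel₀ hr'.ne' h3
    have h5 : θ1 * N = θ2 * M := by
      have hp1 : 0 ≤ θ1 * N := by positivity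
      have hp2 : 0 ≤ θ2 * M := by positivity
      exact (sq_eq_sq₀ hp1 hp2).mp h4
    apply hirr
    refine ⟨(M : ℚ) / N, ?_⟩
    push_cast
    rw [div_eq_div_iff hN0.ne' h2.ne']
    linarith
  have hint : (1 : ℝ) ≤ |(s : ℝ) * N ^ 2 - r * M ^ 2| := by
    have : (1 : ℤ) ≤ |(s : ℤ) * N ^ 2 - r * M ^ 2| := Int.one_le_abs hne
    exact_mod_cast this
  have hprod : |θ1 * N - θ2 * M| * (θ1 * N + θ2 * M) = θ2 ^ 2 / r * |(s : ℝ) * N ^ 2 - r * M ^ 2| := by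
    have hp : 0 ≤ θ1 * N + θ2 * M := by positivity
    have hq : 0 ≤ θ2 ^ 2 / r := by positivity
    rw [← abs_of_nonneg hp, ← abs_of_nonneg hq, ← abs_mul, ← abs_mul]
    congr 1
    have : θ1 ^ 2 = s * θ2 ^ 2 / r := by
      rw [eq_div_iff hr'.ne']; linarith
    calc (θ1 * N - θ2 * M) * (θ1 * N + θ2 * M) = θ1 ^ 2 * N ^ 2 - θ2 ^ 2 * M ^ 2 := by ring
      _ = s * θ2 ^ 2 / r * N ^ 2 - θ2 ^ 2 * M ^ 2 := by rw [this]
      _ = θ2 ^ 2 / r * (s * N ^ 2 - r * M ^ 2) := by field_simp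
  rcases le_or_gt (θ2 * M) (2 * (θ1 * N)) with hc | hc
  · have h6 : θ2 ^ 2 / r ≤ |θ1 * N - θ2 * M| * (3 * (θ1 * N)) := by
      have h7 : θ2 ^ 2 / r * 1 ≤ θ2 ^ 2 / r * |(s : ℝ) * N ^ 2 - r * M ^ 2| :=
        mul_le_mul_of_nonneg_left hint (by positivity)
      rw [mul_one, ← hprod] at h7
      refine h7.trans ?_
      exact mul_le_mul_of_nonneg_left (by linarith) (abs_nonneg _)
    refine (div_le_div_of_nonneg_right (min_le_left _ _) hN0.le).trans ?_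
    rw [div_div, div_le_iff₀ (by positivity)]
    have h8 : |θ1 * N - θ2 * M| * (3 * r * θ1 * N) = |θ1 * N - θ2 * M| * (3 * (θ1 * N)) * r := by ring
    rw [h8]
    rwa [div_le_iff₀ hr'] at h6
  · refine (div_le_div_of_nonneg_right (min_le_right _ _) hN0.le).trans ?_
    have h9 : θ1 / N ≤ θ1 * N := by
      rw [div_le_iff₀ hN0]
      nlinarith [mul_pos h1 hN0]
    refine h9.trans ?_
    rw [abs_sub_comm]
    refine le_trans ?_ (le_abs_self _)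
    linarith

theorem I06_card_diff (s : Finset ℕ) (l : ℝ) (hl : 0 ≤ l)
    (h : ∀ x ∈ s, ∀ y ∈ s, (y : ℝ) - x ≤ l) : (s.card : ℝ) ≤ l + 1 := by
  rcases s.eq_empty_or_nonempty with rfl | hne
  · simp; linarith
  · have hsub : s ⊆ Finset.Icc (s.min' hne) (s.max' hne) := by
      intro x hx
      rw [Finset.mem_Icc]
      exact ⟨s.min'_le x hx, s.le_max' x hx⟩
    have h1 := Finset.card_le_card hsub
    rw [Nat.card_Icc] at h1
    have h2 := h _ (s.min'_mem hne) _ (s.max'_mem hne)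
    have h3 : s.min' hne ≤ s.max' hne := s.min'_le _ (s.max'_mem hne)
    have h4 : (s.card : ℝ) ≤ ((s.max' hne + 1 - s.min' hne : ℕ) : ℝ) := by exact_mod_cast h1
    rw [Nat.cast_sub (by omega)] at h4
    push_cast at h4
    linarith

theorem I06_card_near (θ Δ a : ℝ) (hθ : 0 < θ) (hΔ : 0 ≤ Δ) (s : Finset ℕ) :
    ((s.filter (fun M : ℕ => |a - θ * M| ≤ Δ)).card : ℝ) ≤ 2 * Δ / θ + 1 := by
  refine I06_card_diff _ _ (by positivity) ?_
  intro x hx y hy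
  have h1 := abs_le.mp (Finset.mem_filter.mp hx).2
  have h2 := abs_le.mp (Finset.mem_filter.mp hy).2
  rw [le_div_iff₀ hθ]
  nlinarith [h1.1, h1.2, h2.1, h2.2]

theorem I06_card_sep (s : Finset ℕ) (R : ℕ) (hs : ∀ x ∈ s, x ≤ R) (L : ℝ) (hL : 0 < L)
    (h : ∀ x ∈ s, ∀ y ∈ s, x < y → L ≤ (y : ℝ) - x) : (s.card : ℝ) ≤ 1 + R / L := by
  have h1 : s.card ≤ (Finset.range (⌊(R : ℝ) / L⌋₊ + 1)).card := by
    refine Finset.card_le_card_of_injOn (fun x : ℕ => ⌊(x : ℝ) / L⌋₊) ?_ ?_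
    · intro x hx
      rw [Finset.coe_range, Set.mem_Iio, Nat.lt_succ_iff]
      refine Nat.floor_le_floor ?_
      have : (x : ℝ) ≤ R := by exact_mod_cast hs x hx
      exact div_le_div_of_nonneg_right this hL.le
    · have key : ∀ x ∈ s, ∀ y ∈ s, x < y → ⌊(x : ℝ) / L⌋₊ ≠ ⌊(y : ℝ) / L⌋₊ := by
        intro x hx y hy hxy heq
        have h2 := h x hx y hy hxy
        have h3 : (x : ℝ) / L + 1 ≤ (y : ℝ) / L := by
          rw [div_add_one hL.ne', div_le_div_iff_of_pos_right hL]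
          linarith
        have h4 : ⌊(x : ℝ) / L⌋₊ + 1 ≤ ⌊(y : ℝ) / L⌋₊ := by
          rw [← Nat.floor_add_one (by positivity)]
          exact Nat.floor_le_floor h3
        omega
      intro x hx y hy hxy
      rcases lt_trichotomy x y with hlt | heq | hgt
      · exact absurd hxy (key x hx y hy hlt)
      · exact heq
      · exact absurd hxy.symm (key y hy x hx hgt)
  rw [Finset.card_range] at h1
  have h2 : (s.card : ℝ) ≤ ⌊(R : ℝ) / L⌋₊ + 1 := by exact_mod_cast h1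
  have h3 : (⌊(R : ℝ) / L⌋₊ : ℝ) ≤ (R : ℝ) / L := Nat.floor_le (by positivity)
  linarith

/-- weights depending on the first variable -/
theorem I06_sum_fst {θ1 θ2 Δ : ℝ} (h2 : 0 < θ2) (hΔ : 0 ≤ Δ) (f : ℕ → ℝ) (hf : ∀ n, 0 ≤ f n)
    (R : ℕ) : ∑ N ∈ Finset.Icc 1 R, ∑ M ∈ Finset.Icc 1 R,
      (if |θ1 * N - θ2 * M| ≤ Δ then f N else 0) ≤ (2 * Δ / θ2 + 1) * ∑ N ∈ Finset.Icc 1 R, f N := by
  rw [Finset.mul_sum]
  refine Finset.sum_le_sum fun N _ => ?_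
  rw [← Finset.sum_filter, Finset.sum_const, nsmul_eq_mul]
  exact mul_le_mul_of_nonneg_right (I06_card_near θ2 Δ (θ1 * N) h2 hΔ _) (hf N)

theorem I06_sum_snd {θ1 θ2 Δ : ℝ} (h1 : 0 < θ1) (hΔ : 0 ≤ Δ) (f : ℕ → ℝ) (hf : ∀ n, 0 ≤ f n)
    (R : ℕ) : ∑ N ∈ Finset.Icc 1 R, ∑ M ∈ Finset.Icc 1 R,
      (if |θ1 * N - θ2 * M| ≤ Δ then f M else 0) ≤ (2 * Δ / θ1 + 1) * ∑ N ∈ Finset.Icc 1 R, f N := by
  rw [Finset.sum_comm]
  have := I06_sum_fst (θ1 := θ2) (θ2 := θ1) (Δ := Δ) h1 hΔ f hf R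
  refine le_trans (le_of_eq ?_) this
  refine Finset.sum_congr rfl fun N _ => Finset.sum_congr rfl fun M _ => ?_
  rw [abs_sub_comm]

theorem I06_dv_nonneg (n : ℕ) : 0 ≤ dv n := Nat.cast_nonneg _

theorem I06_log_nonneg (R : ℕ) : 0 ≤ Real.log R := Real.log_natCast_nonneg R

/-- number of near pairs -/
theorem I06_count {θ1 θ2 : ℝ} (h : Quad θ1 θ2) : ∃ C : ℝ, 0 ≤ C ∧ ∀ (R : ℕ) (Δ : ℝ), 1 ≤ R → 0 < Δ →
    Δ ≤ 1 → ∑ N ∈ Finset.Icc 1 R, ∑ M ∈ Finset.Icc 1 R,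
      (if |θ1 * N - θ2 * M| ≤ Δ then (1 : ℝ) else 0) ≤ C * (1 + R * Δ) := by
  obtain ⟨c, hc, hbad⟩ := bad h
  obtain ⟨h1, h2, -, -⟩ := h
  set K : ℝ := 2 / θ2 + 1 with hK
  have hK0 : 0 < K := by positivity
  refine ⟨K * (1 + 2 / c + 2 / θ1), by positivity, fun R Δ hR hΔ hΔ1 => ?_⟩
  have hR' : (1 : ℝ) ≤ R := by exact_mod_cast hR
  have hin : ∀ N : ℕ, ∑ M ∈ Finset.Icc 1 R, (if |θ1 * N - θ2 * M| ≤ Δ then (1 : ℝ) else 0) ≤ K := by
    intro N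
    rw [← Finset.sum_filter, Finset.sum_const, nsmul_eq_mul, mul_one]
    refine (I06_card_near θ2 Δ (θ1 * N) h2 hΔ.le _).trans ?_
    rw [hK]
    have : 2 * Δ / θ2 ≤ 2 / θ2 := div_le_div_of_nonneg_right (by linarith) h2.le
    linarith
  rcases le_or_gt (θ1 / 2) Δ with hbig | hsmall
  · calc ∑ N ∈ Finset.Icc 1 R, ∑ M ∈ Finset.Icc 1 R,
          (if |θ1 * N - θ2 * M| ≤ Δ then (1 : ℝ) else 0) ≤ ∑ N ∈ Finset.Icc 1 R, K :=
          Finset.sum_le_sum fun N _ => hin N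
      _ = R * K := by simp
      _ ≤ K * (1 + 2 / c + 2 / θ1) * (1 + R * Δ) := by
          have h3 : (R : ℝ) ≤ 2 / θ1 * (R * Δ) := by
            rw [div_mul_eq_mul_div, le_div_iff₀ h1]
            nlinarith
          have h4 : 2 / θ1 * (R * Δ) ≤ (1 + 2 / c + 2 / θ1) * (1 + R * Δ) := by
            have : (0 : ℝ) ≤ R * Δ := by positivity
            refine mul_le_mul ?_ (by linarith) this (by positivity)
            have : (0 : ℝ) ≤ 1 + 2 / c := by positivity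
            linarith
          calc (R : ℝ) * K = K * R := by ring
            _ ≤ K * ((1 + 2 / c + 2 / θ1) * (1 + R * Δ)) :=
                mul_le_mul_of_nonneg_left (h3.trans h4) hK0.le
            _ = _ := by ring
  · obtain ⟨𝒩, h𝒩⟩ : ∃ 𝒩 : Finset ℕ, ∀ N, N ∈ 𝒩 ↔ N ∈ Finset.Icc 1 R ∧
        ∃ M ∈ Finset.Icc 1 R, |θ1 * N - θ2 * M| ≤ Δ := by
      classical
      exact ⟨(Finset.Icc 1 R).filter (fun N : ℕ => ∃ M ∈ Finset.Icc 1 R, |θ1 * N - θ2 * M| ≤ Δ),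
        fun N => by simp only [Finset.mem_filter]⟩
    have hsplit : ∑ N ∈ Finset.Icc 1 R, ∑ M ∈ Finset.Icc 1 R,
        (if |θ1 * N - θ2 * M| ≤ Δ then (1 : ℝ) else 0) =
        ∑ N ∈ 𝒩, ∑ M ∈ Finset.Icc 1 R, (if |θ1 * N - θ2 * M| ≤ Δ then (1 : ℝ) else 0) := by
      refine (Finset.sum_subset (fun N hN => ((h𝒩 N).mp hN).1) ?_).symm
      intro N hN hN'
      refine Finset.sum_eq_zero fun M hM => ?_
      rw [if_neg]
      intro hn
      exact hN' ((h𝒩 N).mpr ⟨hN, M, hM, hn⟩)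
    rw [hsplit]
    have hcard : (𝒩.card : ℝ) ≤ 1 + R / (c / (2 * Δ)) := by
      refine I06_card_sep 𝒩 R (fun x hx => (Finset.mem_Icc.mp ((h𝒩 x).mp hx).1).2) _
        (by positivity) ?_
      intro x hx y hy hxy
      obtain ⟨-, M, -, hM⟩ := (h𝒩 x).mp hx
      obtain ⟨-, M', -, hM'⟩ := (h𝒩 y).mp hy
      have e1 := abs_le.mp hM
      have e2 := abs_le.mp hM'
      have hxy' : (1 : ℝ) ≤ (y : ℝ) - x := by
        have : x + 1 ≤ y := hxy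
        have : (x : ℝ) + 1 ≤ y := by exact_mod_cast this
        linarith
      rcases le_or_gt M' M with hMM | hMM
      · exfalso
        have : (M' : ℝ) ≤ M := by exact_mod_cast hMM
        nlinarith [e1.1, e1.2, e2.1, e2.2]
      · have hb := hbad (y - x) (M' - M) (by omega) (by omega)
        rw [Nat.cast_sub hxy.le, Nat.cast_sub hMM.le] at hb
        have h5 : |θ1 * ((y : ℝ) - x) - θ2 * ((M' : ℝ) - M)| ≤ 2 * Δ := by
          rw [abs_le]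
          constructor <;> nlinarith [e1.1, e1.2, e2.1, e2.2]
        have h6 := hb.trans h5
        rw [div_le_iff₀ (by linarith)] at h6
        rw [div_le_iff₀ (by positivity)]
        linarith
    calc ∑ N ∈ 𝒩, ∑ M ∈ Finset.Icc 1 R, (if |θ1 * N - θ2 * M| ≤ Δ then (1 : ℝ) else 0)
        ≤ ∑ N ∈ 𝒩, K := Finset.sum_le_sum fun N _ => hin N
      _ = 𝒩.card * K := by simp
      _ ≤ (1 + R / (c / (2 * Δ))) * K := mul_le_mul_of_nonneg_right hcard hK0.le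
      _ ≤ K * (1 + 2 / c + 2 / θ1) * (1 + R * Δ) := by
          have h7 : (R : ℝ) / (c / (2 * Δ)) = 2 / c * (R * Δ) := by field_simp
          rw [h7]
          have h8 : 0 ≤ (R : ℝ) * Δ := by positivity
          have h9 : 0 ≤ 2 / c := by positivity
          have h10 : 0 ≤ 2 / θ1 := by positivity
          have : 1 + 2 / c * (R * Δ) ≤ (1 + 2 / c + 2 / θ1) * (1 + R * Δ) := by nlinarith [mul_nonneg h10 h8]
          calc (1 + 2 / c * (R * Δ)) * K ≤ ((1 + 2 / c + 2 / θ1) * (1 + R * Δ)) * K :=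
                mul_le_mul_of_nonneg_right this hK0.le
            _ = _ := by ring

theorem near_small {θ1 θ2 : ℝ} (h : Quad θ1 θ2) : ∃ C : ℝ, 0 ≤ C ∧ ∀ (R : ℕ) (Δ : ℝ), 1 ≤ R → 0 < Δ →
    Δ ≤ 1 → ∑ N ∈ Finset.Icc 1 R, ∑ M ∈ Finset.Icc 1 R,
      (if |θ1 * N - θ2 * M| ≤ Δ then dv N * dv M else 0) ≤
      C * ((1 + R * Δ) ^ (1 / 3 : ℝ) * (R : ℝ) ^ (2 / 3 : ℝ) * (1 + Real.log R) ^ 7) := by
  obtain ⟨C0, hC0, hcount⟩ := I06_count h
  obtain ⟨h1, h2, -, -⟩ := h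
  refine ⟨(2 / θ2 + 1) + (2 / θ1 + 1) + C0, by positivity, fun R Δ hR hΔ hΔ1 => ?_⟩
  have hR' : (1 : ℝ) ≤ R := by exact_mod_cast hR
  have hR0 : (0 : ℝ) < R := by linarith
  have hA0 : 0 < 1 + R * Δ := by positivity
  have hlog := I06_log_nonneg R
  set L : ℝ := (1 + Real.log R) ^ 7 with hL
  have hL1 : 1 ≤ L := one_le_pow₀ (by linarith)
  set x : ℝ := (R : ℝ) ^ (1 / 3 : ℝ) with hx
  set y : ℝ := (1 + R * Δ) ^ (1 / 3 : ℝ) with hy
  have hx0 : 0 < x := Real.rpow_pos_of_pos hR0 _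
  have hy0 : 0 < y := Real.rpow_pos_of_pos hA0 _
  have hx3 : x ^ 3 = R := by
    rw [hx, ← Real.rpow_natCast, ← Real.rpow_mul hR0.le]; norm_num
  have hy3 : y ^ 3 = 1 + R * Δ := by
    rw [hy, ← Real.rpow_natCast, ← Real.rpow_mul hA0.le]; norm_num
  have hx2 : (R : ℝ) ^ (2 / 3 : ℝ) = x ^ 2 := by
    rw [hx, ← Real.rpow_natCast, ← Real.rpow_mul hR0.le]; norm_num
  rw [hx2]
  set μ : ℝ := x / y with hμ
  have hμ0 : 0 < μ := by positivity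
  have hyoung : ∀ a b : ℝ, 0 ≤ a → 0 ≤ b → a * b ≤ a ^ 3 / μ + b ^ 3 / μ + μ ^ 2 := by
    intro a b ha hb
    have key : ∀ p q r : ℝ, 0 ≤ p → 0 ≤ q → 0 ≤ r → p * q * r ≤ p ^ 3 + q ^ 3 + r ^ 3 := by
      intro p q r hp hq hr
      nlinarith [mul_nonneg (add_nonneg (add_nonneg hp hq) hr) (sq_nonneg (p - q)),
        mul_nonneg (add_nonneg (add_nonneg hp hq) hr) (sq_nonneg (q - r)),
        mul_nonneg (add_nonneg (add_nonneg hp hq) hr) (sq_nonneg (p - r)),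
        pow_nonneg hp 3, pow_nonneg hq 3, pow_nonneg hr 3]
    have h3 := key (a / μ) (b / μ) 1 (by positivity) (by positivity) zero_le_one
    have h4 : a * b = μ ^ 2 * (a / μ * (b / μ) * 1) := by field_simp
    have h5 : a ^ 3 / μ + b ^ 3 / μ + μ ^ 2 = μ ^ 2 * ((a / μ) ^ 3 + (b / μ) ^ 3 + 1 ^ 3) := by
      field_simp
    rw [h4, h5]
    exact mul_le_mul_of_nonneg_left h3 (by positivity)
  have hstep : ∑ N ∈ Finset.Icc 1 R, ∑ M ∈ Finset.Icc 1 R,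
      (if |θ1 * N - θ2 * M| ≤ Δ then dv N * dv M else 0) ≤
      (∑ N ∈ Finset.Icc 1 R, ∑ M ∈ Finset.Icc 1 R,
        (if |θ1 * N - θ2 * M| ≤ Δ then dv N ^ 3 / μ else 0)) +
      (∑ N ∈ Finset.Icc 1 R, ∑ M ∈ Finset.Icc 1 R,
        (if |θ1 * N - θ2 * M| ≤ Δ then dv M ^ 3 / μ else 0)) +
      μ ^ 2 * (∑ N ∈ Finset.Icc 1 R, ∑ M ∈ Finset.Icc 1 R,
        (if |θ1 * N - θ2 * M| ≤ Δ then (1 : ℝ) else 0)) := by
    simp only [Finset.mul_sum]
    rw [← Finset.sum_add_distrib, ← Finset.sum_add_distrib]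
    refine Finset.sum_le_sum fun N _ => ?_
    rw [← Finset.sum_add_distrib, ← Finset.sum_add_distrib]
    refine Finset.sum_le_sum fun M _ => ?_
    split_ifs with hc
    · rw [mul_one]; exact hyoung _ _ (I06_dv_nonneg N) (I06_dv_nonneg M)
    · simp
  have hf : ∀ n, 0 ≤ dv n ^ 3 / μ := fun n => div_nonneg (pow_nonneg (I06_dv_nonneg n) 3) hμ0.le
  have e1 := I06_sum_fst (θ1 := θ1) h2 hΔ.le (fun n => dv n ^ 3 / μ) hf R
  have e2 := I06_sum_snd (θ2 := θ2) h1 hΔ.le (fun n => dv n ^ 3 / μ) hf R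
  have e3 := hcount R Δ hR hΔ hΔ1
  have e4 : ∑ N ∈ Finset.Icc 1 R, dv N ^ 3 / μ ≤ y * x ^ 2 * L := by
    rw [← Finset.sum_div, div_le_iff₀ hμ0]
    refine (div_cube R hR).trans (le_of_eq ?_)
    rw [← hL, ← hx3, hμ]
    field_simp
  have e5 : 0 ≤ y * x ^ 2 * L := by positivity
  have e6 : μ ^ 2 * (C0 * (1 + R * Δ)) ≤ C0 * (y * x ^ 2 * L) := by
    rw [← hy3, hμ]
    have : (x / y) ^ 2 * (C0 * y ^ 3) = C0 * (y * x ^ 2) := by field_simp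
    rw [this]
    refine mul_le_mul_of_nonneg_left ?_ hC0
    nlinarith [mul_pos hy0 (pow_pos hx0 2)]
  have k1 : 2 * Δ / θ2 + 1 ≤ 2 / θ2 + 1 := by
    have : 2 * Δ / θ2 ≤ 2 / θ2 := div_le_div_of_nonneg_right (by linarith) h2.le
    linarith
  have k2 : 2 * Δ / θ1 + 1 ≤ 2 / θ1 + 1 := by
    have : 2 * Δ / θ1 ≤ 2 / θ1 := div_le_div_of_nonneg_right (by linarith) h1.le
    linarith
  have e7 : (2 * Δ / θ2 + 1) * ∑ N ∈ Finset.Icc 1 R, dv N ^ 3 / μ ≤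
      (2 / θ2 + 1) * (y * x ^ 2 * L) := by
    refine mul_le_mul k1 e4 (Finset.sum_nonneg fun n _ => hf n) (by positivity)
  have e8 : (2 * Δ / θ1 + 1) * ∑ N ∈ Finset.Icc 1 R, dv N ^ 3 / μ ≤
      (2 / θ1 + 1) * (y * x ^ 2 * L) := by
    refine mul_le_mul k2 e4 (Finset.sum_nonneg fun n _ => hf n) (by positivity)
  have e9 := mul_le_mul_of_nonneg_left e3 (sq_nonneg μ)
  calc _ ≤ _ := hstep
    _ ≤ (2 / θ2 + 1) * (y * x ^ 2 * L) + (2 / θ1 + 1) * (y * x ^ 2 * L) + C0 * (y * x ^ 2 * L) :=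
        add_le_add (add_le_add (e1.trans e7) (e2.trans e8)) (e9.trans e6)
    _ = _ := by ring

theorem near_large {θ1 θ2 : ℝ} (h1 : 0 < θ1) (h2 : 0 < θ2) : ∃ C : ℝ, 0 ≤ C ∧ ∀ (R : ℕ) (Δ : ℝ), 1 ≤ R →
    1 ≤ Δ → ∑ N ∈ Finset.Icc 1 R, ∑ M ∈ Finset.Icc 1 R,
      (if |θ1 * N - θ2 * M| ≤ Δ then dv N * dv M else 0) ≤ C * (Δ * R * (1 + Real.log R) ^ 7) := by
  refine ⟨(2 / θ2 + 1) + (2 / θ1 + 1), by positivity, fun R Δ hR hΔ => ?_⟩
  have hR' : (1 : ℝ) ≤ R := by exact_mod_cast hR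
  have hR0 : (0 : ℝ) < R := by linarith
  have hlog := I06_log_nonneg R
  have hΔ0 : 0 ≤ Δ := by linarith
  have hstep : ∑ N ∈ Finset.Icc 1 R, ∑ M ∈ Finset.Icc 1 R,
      (if |θ1 * N - θ2 * M| ≤ Δ then dv N * dv M else 0) ≤
      (∑ N ∈ Finset.Icc 1 R, ∑ M ∈ Finset.Icc 1 R,
        (if |θ1 * N - θ2 * M| ≤ Δ then dv N ^ 2 else 0)) +
      (∑ N ∈ Finset.Icc 1 R, ∑ M ∈ Finset.Icc 1 R,
        (if |θ1 * N - θ2 * M| ≤ Δ then dv M ^ 2 else 0)) := by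
    rw [← Finset.sum_add_distrib]
    refine Finset.sum_le_sum fun N _ => ?_
    rw [← Finset.sum_add_distrib]
    refine Finset.sum_le_sum fun M _ => ?_
    split_ifs with hc
    · nlinarith [sq_nonneg (dv N - dv M), sq_nonneg (dv N), sq_nonneg (dv M)]
    · simp
  have hf : ∀ n, 0 ≤ dv n ^ 2 := fun n => sq_nonneg _
  have e1 := I06_sum_fst (θ1 := θ1) h2 hΔ0 (fun n => dv n ^ 2) hf R
  have e2 := I06_sum_snd (θ2 := θ2) h1 hΔ0 (fun n => dv n ^ 2) hf R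
  have e4 : ∑ N ∈ Finset.Icc 1 R, dv N ^ 2 ≤ R * (1 + Real.log R) ^ 7 := by
    refine (div_sq R hR).trans ?_
    exact mul_le_mul_of_nonneg_left (pow_le_pow_right₀ (by linarith) (by norm_num)) hR0.le
  have e5 : 0 ≤ (R : ℝ) * (1 + Real.log R) ^ 7 := by positivity
  have k1 : 2 * Δ / θ2 + 1 ≤ (2 / θ2 + 1) * Δ := by
    have : 2 * Δ / θ2 = 2 / θ2 * Δ := by ring
    rw [this, add_mul, one_mul]
    linarith
  have k2 : 2 * Δ / θ1 + 1 ≤ (2 / θ1 + 1) * Δ := by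
    have : 2 * Δ / θ1 = 2 / θ1 * Δ := by ring
    rw [this, add_mul, one_mul]
    linarith
  have e7 := mul_le_mul k1 e4 (Finset.sum_nonneg fun n _ => hf n) (by positivity)
  have e8 := mul_le_mul k2 e4 (Finset.sum_nonneg fun n _ => hf n) (by positivity)
  calc _ ≤ _ := hstep
    _ ≤ (2 / θ2 + 1) * Δ * (R * (1 + Real.log R) ^ 7) + (2 / θ1 + 1) * Δ * (R * (1 + Real.log R) ^ 7) :=
        add_le_add (e1.trans e7) (e2.trans e8)
    _ = _ := by ring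

theorem I06_level {θ1 θ2 : ℝ} (h : Quad θ1 θ2) : ∃ C : ℝ, 0 ≤ C ∧ ∀ (R : ℕ) (ε Δ : ℝ), 1 ≤ R → 0 < ε →
    0 < Δ → Δ ≤ 1 → ∑ p ∈ Finset.Icc 1 R ×ˢ Finset.Icc 1 R,
      (if ε * p.1 ≤ Δ ∧ |θ1 * p.1 - θ2 * p.2| ≤ Δ then dv p.1 * dv p.2 else 0) ≤
      Δ * (C * ((R : ℝ) ^ (1 / 3 : ℝ) * ε ^ (-(2 / 3 : ℝ)) * (1 + Real.log R) ^ 7)) := by
  obtain ⟨c, hc, hbad⟩ := bad h
  obtain ⟨Cs, hCs, hsm⟩ := near_small h
  obtain ⟨h1, h2, -, -⟩ := h
  set K : ℕ := ⌈(θ1 + 1) / θ2⌉₊ + 1 with hK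
  have hK1 : 1 ≤ K := by omega
  have hK1' : (1 : ℝ) ≤ K := by exact_mod_cast hK1
  have hK2 : (θ1 + 1) / θ2 ≤ K := by
    rw [hK]; push_cast
    linarith [Nat.le_ceil ((θ1 + 1) / θ2)]
  set k : ℝ := (1 / c + K) ^ (1 / 3 : ℝ) with hk
  set l : ℝ := (K : ℝ) ^ (1 / 3 : ℝ) with hl
  have hk4 : 0 < 1 / c + K := by positivity
  have hk0 : 0 < k := Real.rpow_pos_of_pos hk4 _
  have hl0 : 0 < l := Real.rpow_pos_of_pos (by linarith) _
  refine ⟨Cs * (k * l ^ 2) * (1 + Real.log K) ^ 7, by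
    have := I06_log_nonneg K
    positivity, fun R ε Δ hR hε hΔ hΔ1 => ?_⟩
  have hR' : (1 : ℝ) ≤ R := by exact_mod_cast hR
  have hR0 : (0 : ℝ) < R := by linarith
  have hlogR := I06_log_nonneg R
  have hlogK := I06_log_nonneg K
  set P : ℕ × ℕ → Prop := fun p => ε * p.1 ≤ Δ ∧ |θ1 * p.1 - θ2 * p.2| ≤ Δ with hP
  have hrhs : 0 ≤ Δ * (Cs * (k * l ^ 2) * (1 + Real.log K) ^ 7 *
      ((R : ℝ) ^ (1 / 3 : ℝ) * ε ^ (-(2 / 3 : ℝ)) * (1 + Real.log R) ^ 7)) := by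
    have : 0 ≤ (R : ℝ) ^ (1 / 3 : ℝ) := Real.rpow_nonneg hR0.le _
    have : 0 ≤ ε ^ (-(2 / 3 : ℝ)) := Real.rpow_nonneg hε.le _
    positivity
  by_cases hex : ∃ p ∈ Finset.Icc 1 R ×ˢ Finset.Icc 1 R,
      ε * (p.1 : ℝ) ≤ Δ ∧ |θ1 * p.1 - θ2 * p.2| ≤ Δ
  swap
  · refine le_trans (le_of_eq (Finset.sum_eq_zero fun p hp => ?_)) hrhs
    rw [if_neg]
    intro hn
    exact hex ⟨p, hp, hn⟩
  obtain ⟨⟨N0, M0⟩, hp0, hn1, hn2⟩ := hex
  rw [Finset.mem_product, Finset.mem_Icc, Finset.mem_Icc] at hp0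
  simp only at hp0 hn1 hn2
  obtain ⟨⟨hN01, hN0R⟩, hM01, hM0R⟩ := hp0
  set Q : ℕ := min R ⌊Δ / ε⌋₊ with hQ
  have hmemQ : ∀ N : ℕ, N ≤ R → ε * N ≤ Δ → N ≤ Q := by
    intro N hN hN2
    rw [hQ]
    refine le_min hN (Nat.le_floor ?_)
    rw [le_div_iff₀ hε]; linarith
  have hN0Q := hmemQ N0 hN0R hn1
  have hQ1 : 1 ≤ Q := hN01.trans hN0Q
  have hQ1' : (1 : ℝ) ≤ Q := by exact_mod_cast hQ1
  have hQ0 : (0 : ℝ) < Q := by linarith
  have hQR : (Q : ℝ) ≤ R := by exact_mod_cast min_le_left _ _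
  have hQε : (Q : ℝ) ≤ Δ / ε := by
    have h3 : Q ≤ ⌊Δ / ε⌋₊ := min_le_right _ _
    have h4 : (Q : ℝ) ≤ ⌊Δ / ε⌋₊ := by exact_mod_cast h3
    exact h4.trans (Nat.floor_le (by positivity))
  have hcQ : c ≤ Q * Δ := by
    have h5 := (hbad N0 M0 hN01 hM01).trans hn2
    have hN0' : (0 : ℝ) < N0 := by exact_mod_cast hN01
    rw [div_le_iff₀ hN0'] at h5
    have h6 : (N0 : ℝ) ≤ Q := by exact_mod_cast hN0Q
    calc c ≤ Δ * N0 := h5
      _ ≤ Δ * Q := mul_le_mul_of_nonneg_left h6 hΔ.le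
      _ = Q * Δ := by ring
  have hKQ : 1 ≤ K * Q := Nat.mul_pos hK1 hQ1
  have hmain := hsm (K * Q) Δ hKQ hΔ hΔ1
  rw [← Finset.sum_product'] at hmain
  have hle : ∑ p ∈ Finset.Icc 1 R ×ˢ Finset.Icc 1 R,
      (if ε * p.1 ≤ Δ ∧ |θ1 * p.1 - θ2 * p.2| ≤ Δ then dv p.1 * dv p.2 else 0) ≤
      ∑ p ∈ Finset.Icc 1 (K * Q) ×ˢ Finset.Icc 1 (K * Q),
        (if |θ1 * p.1 - θ2 * p.2| ≤ Δ then dv p.1 * dv p.2 else 0) := by
    rw [← Finset.sum_filter, ← Finset.sum_filter]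
    refine Finset.sum_le_sum_of_subset_of_nonneg ?_
      (fun p _ _ => mul_nonneg (I06_dv_nonneg _) (I06_dv_nonneg _))
    intro p hp
    simp only [Finset.mem_filter, Finset.mem_product, Finset.mem_Icc] at hp ⊢
    obtain ⟨⟨⟨a1, a2⟩, a3, a4⟩, a5, a6⟩ := hp
    have a7 := hmemQ p.1 a2 a5
    refine ⟨⟨⟨a1, a7.trans (Nat.le_mul_of_pos_left Q hK1)⟩, a3, ?_⟩, a6⟩
    have a8 := abs_le.mp a6
    have a9 : (p.1 : ℝ) ≤ Q := by exact_mod_cast a7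
    have a10 : (p.2 : ℝ) ≤ K * Q := by
      have b1 : θ2 * p.2 ≤ (θ1 + 1) * Q := by nlinarith [a8.1, a8.2]
      have b2 : (θ1 + 1) ≤ K * θ2 := by rwa [div_le_iff₀ h2] at hK2
      have b3 : θ2 * p.2 ≤ θ2 * (K * Q) := by nlinarith
      exact le_of_mul_le_mul_left b3 h2
    exact_mod_cast a10
  refine hle.trans (hmain.trans ?_)
  push_cast
  set x : ℝ := (R : ℝ) ^ (1 / 3 : ℝ) with hx
  set a : ℝ := (Q : ℝ) ^ (1 / 3 : ℝ) with ha
  set d : ℝ := Δ ^ (1 / 3 : ℝ) with hd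
  set e : ℝ := ε ^ (1 / 3 : ℝ) with he
  have hx0 : 0 < x := Real.rpow_pos_of_pos hR0 _
  have ha0 : 0 < a := Real.rpow_pos_of_pos hQ0 _
  have hd0 : 0 < d := Real.rpow_pos_of_pos hΔ _
  have he0 : 0 < e := Real.rpow_pos_of_pos hε _
  have hd3 : d ^ 3 = Δ := by
    rw [hd, ← Real.rpow_natCast, ← Real.rpow_mul hΔ.le]; norm_num
  have he2 : ε ^ (-(2 / 3 : ℝ)) = 1 / e ^ 2 := by
    rw [he, ← Real.rpow_natCast, ← Real.rpow_mul hε.le, one_div, ← Real.rpow_neg hε.le]; norm_num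
  have hax : a ≤ x := Real.rpow_le_rpow hQ0.le hQR (by norm_num)
  have hade : a ≤ d / e := by
    rw [ha, hd, he, ← Real.div_rpow hΔ.le hε.le]
    exact Real.rpow_le_rpow hQ0.le hQε (by norm_num)
  have b1 : (1 + (K : ℝ) * Q * Δ) ^ (1 / 3 : ℝ) ≤ k * (a * d) := by
    have b2 : 1 + (K : ℝ) * Q * Δ ≤ (1 / c + K) * (Q * Δ) := by
      have : 1 ≤ 1 / c * (Q * Δ) := by
        rw [div_mul_eq_mul_div, one_mul, le_div_iff₀ hc]; linarith
      nlinarith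
    refine (Real.rpow_le_rpow (by positivity) b2 (by norm_num)).trans (le_of_eq ?_)
    rw [Real.mul_rpow hk4.le (by positivity), Real.mul_rpow hQ0.le hΔ.le]
  have b3 : ((K : ℝ) * Q) ^ (2 / 3 : ℝ) = (l * a) ^ 2 := by
    rw [hl, ha, ← Real.mul_rpow (by positivity) hQ0.le, ← Real.rpow_natCast,
      ← Real.rpow_mul (by positivity)]
    norm_num
  have b4 : (1 + Real.log ((K : ℝ) * Q)) ^ 7 ≤ (1 + Real.log K) ^ 7 * (1 + Real.log R) ^ 7 := by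
    rw [← mul_pow, Real.log_mul (by positivity) hQ0.ne']
    have hQl : 0 ≤ Real.log (Q : ℝ) := I06_log_nonneg Q
    have hQl2 : Real.log (Q : ℝ) ≤ Real.log R := Real.log_le_log hQ0 hQR
    refine pow_le_pow_left₀ (by positivity) ?_ 7
    nlinarith [mul_nonneg hlogK hlogR]
  rw [b3, he2]
  have b5 : k * (a * d) * (l * a) ^ 2 ≤ Δ * (k * l ^ 2 * (x * (1 / e ^ 2))) := by
    rw [← hd3]
    have b6 : a ^ 3 ≤ x * (d / e) ^ 2 := by
      calc a ^ 3 = a * a ^ 2 := by ring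
        _ ≤ x * (d / e) ^ 2 := mul_le_mul hax (pow_le_pow_left₀ ha0.le hade 2) (by positivity) hx0.le
    calc k * (a * d) * (l * a) ^ 2 = (k * l ^ 2 * d) * a ^ 3 := by ring
      _ ≤ (k * l ^ 2 * d) * (x * (d / e) ^ 2) := mul_le_mul_of_nonneg_left b6 (by positivity)
      _ = d ^ 3 * (k * l ^ 2 * (x * (1 / e ^ 2))) := by field_simp
  have hl7 : 0 ≤ (1 + Real.log ((K : ℝ) * Q)) ^ 7 := by
    have : 0 ≤ Real.log ((K : ℝ) * Q) := by
      rw [Real.log_mul (by positivity) hQ0.ne']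
      have hQl : 0 ≤ Real.log (Q : ℝ) := I06_log_nonneg Q
      linarith
    positivity
  calc Cs * ((1 + (K : ℝ) * Q * Δ) ^ (1 / 3 : ℝ) * (l * a) ^ 2 * (1 + Real.log ((K : ℝ) * Q)) ^ 7)
      ≤ Cs * (Δ * (k * l ^ 2 * (x * (1 / e ^ 2))) * ((1 + Real.log K) ^ 7 * (1 + Real.log R) ^ 7)) := by
        refine mul_le_mul_of_nonneg_left ?_ hCs
        refine mul_le_mul ?_ b4 hl7 (by positivity)
        exact (mul_le_mul_of_nonneg_right b1 (by positivity)).trans b5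
    _ = _ := by ring

theorem near_sum {θ1 θ2 : ℝ} (h : Quad θ1 θ2) : ∃ C : ℝ, 0 ≤ C ∧ ∀ (R : ℕ) (ε : ℝ), 1 ≤ R → 0 < ε →
    ε * R ≤ 1 → ∑ N ∈ Finset.Icc 1 R, ∑ M ∈ Finset.Icc 1 R,
      dv N * dv M / (ε * N + |θ1 * N - θ2 * M|) ≤
      C * ((R : ℝ) ^ (1 / 3 : ℝ) * ε ^ (-(2 / 3 : ℝ)) * (1 + Real.log R) ^ 8) := by
  obtain ⟨c, hc, hbad⟩ := bad h
  obtain ⟨Cb, hCb, hlev⟩ := I06_level h
  obtain ⟨h1, h2, -, -⟩ := h
  obtain ⟨Cl, hCl, hlar⟩ := near_large h1 h2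
  have hlog2 : 0 < Real.log 2 := Real.log_pos one_lt_two
  set K : ℝ := 1 + θ1 + θ2 with hK
  have hK1 : 1 ≤ K := by rw [hK]; linarith
  have hlogK : 0 ≤ Real.log K := Real.log_nonneg hK1
  refine ⟨2 * Cl * (1 + Real.log K / Real.log 2 + 1 / Real.log 2) +
    2 * Cb * (1 + |Real.log c| / Real.log 2 + 1 / Real.log 2), by positivity,
    fun R ε hR hε hεR => ?_⟩
  have hR' : (1 : ℝ) ≤ R := by exact_mod_cast hR
  have hR0 : (0 : ℝ) < R := by linarith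
  have hlogR := I06_log_nonneg R
  set L : ℝ := (1 + Real.log R) ^ 7 with hL
  have hL0 : 0 ≤ L := by positivity
  set X : ℝ := (R : ℝ) ^ (1 / 3 : ℝ) * ε ^ (-(2 / 3 : ℝ)) with hX
  have hRX : (R : ℝ) ≤ X := by
    have e1 : (R : ℝ) = (R : ℝ) ^ (1 / 3 : ℝ) * (R : ℝ) ^ (2 / 3 : ℝ) := by
      rw [← Real.rpow_add hR0]; norm_num
    have e2 : (R : ℝ) ^ (2 / 3 : ℝ) ≤ ε ^ (-(2 / 3 : ℝ)) := by
      rw [Real.rpow_neg hε.le, ← Real.inv_rpow hε.le]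
      refine Real.rpow_le_rpow hR0.le ?_ (by norm_num)
      rw [← one_div, le_div_iff₀ hε]; linarith
    calc (R : ℝ) = (R : ℝ) ^ (1 / 3 : ℝ) * (R : ℝ) ^ (2 / 3 : ℝ) := e1
      _ ≤ X := mul_le_mul_of_nonneg_left e2 (Real.rpow_nonneg hR0.le _)
  have hX0 : 0 ≤ X := hR0.le.trans hRX
  set I : ℕ := ⌊Real.logb 2 (K * R)⌋₊ with hI
  set J : ℕ := ⌊Real.logb 2 (R / c)⌋₊ with hJ
  have hI1 : (I : ℝ) + 1 ≤ (1 + Real.log K / Real.log 2 + 1 / Real.log 2) * (1 + Real.log R) := by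
    have e0 : 0 ≤ Real.logb 2 (K * R) :=
      Real.logb_nonneg one_lt_two (by nlinarith)
    have e1 : (I : ℝ) ≤ Real.logb 2 (K * R) := Nat.floor_le e0
    rw [Real.logb, Real.log_mul (by linarith) hR0.ne', add_div] at e1
    have e2 : 0 ≤ Real.log K / Real.log 2 := by positivity
    have e3 : 0 ≤ 1 / Real.log 2 := by positivity
    have e4 : Real.log R / Real.log 2 = 1 / Real.log 2 * Real.log R := by ring
    rw [e4] at e1
    nlinarith [mul_nonneg e2 hlogR]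
  have hJ1 : (J : ℝ) + 1 ≤ (1 + |Real.log c| / Real.log 2 + 1 / Real.log 2) * (1 + Real.log R) := by
    have e1 : (J : ℝ) ≤ |Real.log c| / Real.log 2 + 1 / Real.log 2 * Real.log R := by
      rcases le_or_gt (Real.logb 2 (R / c)) 0 with hneg | hpos
      · rw [hJ, Nat.floor_of_nonpos hneg]
        push_cast
        positivity
      refine (Nat.floor_le hpos.le).trans ?_
      rw [Real.logb, Real.log_div hR0.ne' hc.ne', sub_div]
      have e2 : -Real.log c / Real.log 2 ≤ |Real.log c| / Real.log 2 :=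
        div_le_div_of_nonneg_right (neg_le_abs _) hlog2.le
      have e4 : Real.log R / Real.log 2 = 1 / Real.log 2 * Real.log R := by ring
      rw [neg_div] at e2
      linarith
    have e2 : 0 ≤ |Real.log c| / Real.log 2 := by positivity
    have e3 : 0 ≤ 1 / Real.log 2 := by positivity
    nlinarith [mul_nonneg e2 hlogR]
  rw [← Finset.sum_product']
  have hpt : ∀ p ∈ Finset.Icc 1 R ×ˢ Finset.Icc 1 R,
      dv p.1 * dv p.2 / (ε * p.1 + |θ1 * p.1 - θ2 * p.2|) ≤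
      ∑ i ∈ Finset.range (I + 1), ((2 : ℝ) ^ i)⁻¹ *
        (if |θ1 * p.1 - θ2 * p.2| ≤ 2 ^ (i + 1) then dv p.1 * dv p.2 else 0) +
      ∑ j ∈ Finset.range (J + 1), 2 ^ (j + 1) *
        (if ε * p.1 ≤ ((2 : ℝ) ^ j)⁻¹ ∧ |θ1 * p.1 - θ2 * p.2| ≤ ((2 : ℝ) ^ j)⁻¹ then
          dv p.1 * dv p.2 else 0) := by
    intro p hp
    rw [Finset.mem_product, Finset.mem_Icc, Finset.mem_Icc] at hp
    obtain ⟨⟨hN1, hNR⟩, hM1, hMR⟩ := hp
    have hN1' : (1 : ℝ) ≤ p.1 := by exact_mod_cast hN1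
    have hNR' : (p.1 : ℝ) ≤ R := by exact_mod_cast hNR
    have hM1' : (1 : ℝ) ≤ p.2 := by exact_mod_cast hM1
    have hMR' : (p.2 : ℝ) ≤ R := by exact_mod_cast hMR
    set F : ℝ := dv p.1 * dv p.2 with hF
    have hF0 : 0 ≤ F := mul_nonneg (I06_dv_nonneg _) (I06_dv_nonneg _)
    set t : ℝ := |θ1 * p.1 - θ2 * p.2| with ht
    have ht0 : 0 ≤ t := abs_nonneg _
    have hεN : 0 < ε * p.1 := by positivity
    set a : ℝ := ε * p.1 + t with ha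
    have ha0 : 0 < a := by positivity
    have hs1 : 0 ≤ ∑ i ∈ Finset.range (I + 1), ((2 : ℝ) ^ i)⁻¹ *
        (if t ≤ 2 ^ (i + 1) then F else 0) := by
      refine Finset.sum_nonneg fun i _ => mul_nonneg (by positivity) ?_
      split_ifs
      · exact hF0
      · exact le_rfl
    have hs2 : 0 ≤ ∑ j ∈ Finset.range (J + 1), 2 ^ (j + 1) *
        (if ε * p.1 ≤ ((2 : ℝ) ^ j)⁻¹ ∧ t ≤ ((2 : ℝ) ^ j)⁻¹ then F else 0) := by
      refine Finset.sum_nonneg fun i _ => mul_nonneg (by positivity) ?_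
      split_ifs
      · exact hF0
      · exact le_rfl
    rcases le_or_gt 1 a with ha1 | ha1
    · obtain ⟨i, hi1, hi2⟩ := exists_nat_pow_near ha1 one_lt_two
      have haK : a ≤ K * R := by
        have e1 : t ≤ (θ1 + θ2) * R := by
          rw [ht, abs_le]
          constructor <;> nlinarith
        have e2 : ε * p.1 ≤ 1 := by
          refine le_trans ?_ hεR
          exact mul_le_mul_of_nonneg_left hNR' hε.le
        rw [ha, hK]
        nlinarith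
      have hiI : i ≤ I := by
        rw [hI]
        refine Nat.le_floor ?_
        rw [Real.le_logb_iff_rpow_le one_lt_two (by positivity), Real.rpow_natCast]
        exact hi1.trans haK
      have hterm : F / a ≤ ((2 : ℝ) ^ i)⁻¹ * (if t ≤ 2 ^ (i + 1) then F else 0) := by
        rw [if_pos (by linarith)]
        rw [div_eq_mul_inv, mul_comm]
        exact mul_le_mul_of_nonneg_right (inv_anti₀ (by positivity) hi1) hF0
      have hsingle : ((2 : ℝ) ^ i)⁻¹ * (if t ≤ 2 ^ (i + 1) then F else 0) ≤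
          ∑ i ∈ Finset.range (I + 1), ((2 : ℝ) ^ i)⁻¹ * (if t ≤ 2 ^ (i + 1) then F else 0) := by
        refine Finset.single_le_sum (f := fun i : ℕ => ((2 : ℝ) ^ i)⁻¹ *
          (if t ≤ 2 ^ (i + 1) then F else 0)) ?_ (Finset.mem_range.mpr (by omega))
        intro i _
        refine mul_nonneg (by positivity) ?_
        split_ifs
        · exact hF0
        · exact le_rfl
      linarith
    · have ha2 : 1 ≤ a⁻¹ := (one_le_inv₀ ha0).mpr ha1.le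
      obtain ⟨j, hj1, hj2⟩ := exists_nat_pow_near ha2 one_lt_two
      have haj : a ≤ ((2 : ℝ) ^ j)⁻¹ := by
        rw [le_inv_comm₀ ha0 (by positivity)]
        exact hj1
      have hjJ : j ≤ J := by
        rw [hJ]
        refine Nat.le_floor ?_
        rw [Real.le_logb_iff_rpow_le one_lt_two (by positivity), Real.rpow_natCast]
        refine hj1.trans ?_
        have e1 := hbad p.1 p.2 hN1 hM1
        have e2 : c / R ≤ c / p.1 := div_le_div_of_nonneg_left hc.le (by linarith) hNR'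
        have e3 : c / R ≤ a := by linarith
        rw [← inv_div]
        exact inv_anti₀ (by positivity) e3
      have hterm : F / a ≤ 2 ^ (j + 1) *
          (if ε * p.1 ≤ ((2 : ℝ) ^ j)⁻¹ ∧ t ≤ ((2 : ℝ) ^ j)⁻¹ then F else 0) := by
        rw [if_pos ⟨by linarith, by linarith⟩, div_eq_mul_inv, mul_comm]
        exact mul_le_mul_of_nonneg_right hj2.le hF0
      have hsingle : 2 ^ (j + 1) *
          (if ε * p.1 ≤ ((2 : ℝ) ^ j)⁻¹ ∧ t ≤ ((2 : ℝ) ^ j)⁻¹ then F else 0) ≤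
          ∑ j ∈ Finset.range (J + 1), 2 ^ (j + 1) *
          (if ε * p.1 ≤ ((2 : ℝ) ^ j)⁻¹ ∧ t ≤ ((2 : ℝ) ^ j)⁻¹ then F else 0) := by
        refine Finset.single_le_sum (f := fun j : ℕ => (2 : ℝ) ^ (j + 1) *
          (if ε * p.1 ≤ ((2 : ℝ) ^ j)⁻¹ ∧ t ≤ ((2 : ℝ) ^ j)⁻¹ then F else 0)) ?_
          (Finset.mem_range.mpr (by omega))
        intro i _
        refine mul_nonneg (by positivity) ?_
        split_ifs
        · exact hF0
        · exact le_rfl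
      linarith
  refine (Finset.sum_le_sum hpt).trans ?_
  rw [Finset.sum_add_distrib, Finset.sum_comm, Finset.sum_comm (s := Finset.Icc 1 R ×ˢ Finset.Icc 1 R)]
  have hA : ∑ i ∈ Finset.range (I + 1), ∑ p ∈ Finset.Icc 1 R ×ˢ Finset.Icc 1 R, ((2 : ℝ) ^ i)⁻¹ *
        (if |θ1 * p.1 - θ2 * p.2| ≤ 2 ^ (i + 1) then dv p.1 * dv p.2 else 0) ≤
      ((I : ℝ) + 1) * (2 * Cl * (X * L)) := by
    have e1 : ∀ i ∈ Finset.range (I + 1), ∑ p ∈ Finset.Icc 1 R ×ˢ Finset.Icc 1 R, ((2 : ℝ) ^ i)⁻¹ *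
        (if |θ1 * p.1 - θ2 * p.2| ≤ 2 ^ (i + 1) then dv p.1 * dv p.2 else 0) ≤ 2 * Cl * (X * L) := by
      intro i _
      rw [← Finset.mul_sum]
      have e2 := hlar R (2 ^ (i + 1)) hR (one_le_pow₀ one_le_two)
      rw [← Finset.sum_product'] at e2
      have hpi : (0 : ℝ) < 2 ^ i := by positivity
      rw [inv_mul_le_iff₀ hpi]
      refine e2.trans ?_
      have e3 : (R : ℝ) * L ≤ X * L := mul_le_mul_of_nonneg_right hRX hL0
      calc Cl * (2 ^ (i + 1) * R * (1 + Real.log R) ^ 7) = 2 ^ i * (2 * Cl) * (R * L) := by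
            rw [hL]; ring
        _ ≤ 2 ^ i * (2 * Cl) * (X * L) := mul_le_mul_of_nonneg_left e3 (by positivity)
        _ = _ := by ring
    refine (Finset.sum_le_sum e1).trans (le_of_eq ?_)
    rw [Finset.sum_const, Finset.card_range, nsmul_eq_mul]
    push_cast; ring
  have hB : ∑ j ∈ Finset.range (J + 1), ∑ p ∈ Finset.Icc 1 R ×ˢ Finset.Icc 1 R, 2 ^ (j + 1) *
        (if ε * p.1 ≤ ((2 : ℝ) ^ j)⁻¹ ∧ |θ1 * p.1 - θ2 * p.2| ≤ ((2 : ℝ) ^ j)⁻¹ then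
          dv p.1 * dv p.2 else 0) ≤
      ((J : ℝ) + 1) * (2 * Cb * (X * L)) := by
    have e1 : ∀ j ∈ Finset.range (J + 1), ∑ p ∈ Finset.Icc 1 R ×ˢ Finset.Icc 1 R, (2 : ℝ) ^ (j + 1) *
        (if ε * p.1 ≤ ((2 : ℝ) ^ j)⁻¹ ∧ |θ1 * p.1 - θ2 * p.2| ≤ ((2 : ℝ) ^ j)⁻¹ then
          dv p.1 * dv p.2 else 0) ≤ 2 * Cb * (X * L) := by
      intro j _
      rw [← Finset.mul_sum]
      have hpj : (0 : ℝ) < 2 ^ j := by positivity
      have e2 := hlev R ε ((2 : ℝ) ^ j)⁻¹ hR hε (by positivity)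
        (inv_le_one_of_one_le₀ (one_le_pow₀ one_le_two))
      have e3 := mul_le_mul_of_nonneg_left e2 (show (0 : ℝ) ≤ 2 ^ (j + 1) by positivity)
      refine e3.trans (le_of_eq ?_)
      rw [hX, hL, pow_succ]
      field_simp
    refine (Finset.sum_le_sum e1).trans (le_of_eq ?_)
    rw [Finset.sum_const, Finset.card_range, nsmul_eq_mul]
    push_cast; ring
  have hXL : 0 ≤ X * L := mul_nonneg hX0 hL0
  calc _ ≤ ((I : ℝ) + 1) * (2 * Cl * (X * L)) + ((J : ℝ) + 1) * (2 * Cb * (X * L)) := add_le_add hA hB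
    _ ≤ (1 + Real.log K / Real.log 2 + 1 / Real.log 2) * (1 + Real.log R) * (2 * Cl * (X * L)) +
        (1 + |Real.log c| / Real.log 2 + 1 / Real.log 2) * (1 + Real.log R) * (2 * Cb * (X * L)) :=
        add_le_add (mul_le_mul_of_nonneg_right hI1 (by positivity))
          (mul_le_mul_of_nonneg_right hJ1 (by positivity))
    _ = _ := by rw [hL]; ring

end II
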