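import Pool.Agent.Lib.MP_0f5a55_nt.II.I06

open Complex MeasureTheory Set Filter Topology
open scoped Real ComplexConjugate

namespace II

private theorem I7_zz {θ1 θ2 ε : ℝ} (h1 : 0 < θ1) (h2 : 0 < θ2) (h0 : 0 < ε) (he : ε ≤ 1 / 2) (n m : ℕ) :
    ε / 2 * min θ1 θ2 * (max n m : ℕ) ≤ ‖zz θ1 θ2 ε n m‖ ∧
      1 / 2 * |θ1 * n - θ2 * m| ≤ ‖zz θ1 θ2 ε n m‖ := by
  have hn : (0 : ℝ) ≤ n := Nat.cast_nonneg n
  have hm : (0 : ℝ) ≤ m := Nat.cast_nonneg m
  have hpi := Real.pi_gt_three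
  have hpi4 := Real.pi_lt_four
  constructor
  · have e1 := abs_re_le_norm (zz θ1 θ2 ε n m)
    rw [zz_re] at e1
    have e2 : ε / 2 ≤ Real.sin ε := by
      have e3 := Real.mul_le_sin h0.le (by linarith : ε ≤ π / 2)
      have e4 : ε / 2 ≤ 2 / π * ε := by
        rw [div_mul_eq_mul_div, le_div_iff₀ Real.pi_pos]
        nlinarith
      linarith
    have e5 : min θ1 θ2 * (max n m : ℕ) ≤ θ1 * n + θ2 * m := by
      rcases le_total n m with h | h
      · rw [max_eq_right h]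
        have := mul_le_mul_of_nonneg_right (min_le_right θ1 θ2) hm
        have := mul_nonneg h1.le hn
        linarith
      · rw [max_eq_left h]
        have := mul_le_mul_of_nonneg_right (min_le_left θ1 θ2) hn
        have := mul_nonneg h2.le hm
        linarith
    have e6 : 0 ≤ min θ1 θ2 * (max n m : ℕ) := mul_nonneg (lt_min h1 h2).le (Nat.cast_nonneg _)
    calc ε / 2 * min θ1 θ2 * (max n m : ℕ) = ε / 2 * (min θ1 θ2 * (max n m : ℕ)) := by ring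
      _ ≤ Real.sin ε * (θ1 * n + θ2 * m) := mul_le_mul e2 e5 e6 (by linarith)
      _ ≤ |Real.sin ε * (θ1 * n + θ2 * m)| := le_abs_self _
      _ ≤ _ := e1
  · have e1 := abs_im_le_norm (zz θ1 θ2 ε n m)
    rw [zz_im, abs_mul] at e1
    have e2 : 1 / 2 ≤ |Real.cos ε| := by
      have e3 := Real.one_sub_sq_div_two_le_cos (x := ε)
      have e4 : 1 / 2 ≤ Real.cos ε := by nlinarith
      exact e4.trans (le_abs_self _)
    exact (mul_le_mul_of_nonneg_right e2 (abs_nonneg _)).trans e1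

/-- the count -/
private noncomputable def NN (θ1 θ2 : ℝ) (R : ℕ) (Δ : ℝ) : ℝ :=
  ∑ N ∈ Finset.Icc 1 R, ∑ M ∈ Finset.Icc 1 R, (if |θ1 * N - θ2 * M| ≤ Δ then dv N * dv M else 0)

private theorem dv0 (n : ℕ) : 0 ≤ dv n := Nat.cast_nonneg _

private theorem dv_le (n : ℕ) : dv n ≤ n := by
  unfold dv
  exact_mod_cast Nat.card_divisors_le_self n

private theorem NN0 (θ1 θ2 : ℝ) (R : ℕ) (Δ : ℝ) : 0 ≤ NN θ1 θ2 R Δ := by
  unfold NN
  refine Finset.sum_nonneg fun N _ => Finset.sum_nonneg fun M _ => ?_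
  split_ifs
  · exact mul_nonneg (dv0 N) (dv0 M)
  · exact le_rfl

private theorem I7_poly (i : ℕ) : (1 + (i : ℝ)) ^ 7 ≤ 2187 * 8 ^ i := by
  have h := one_add_mul_le_pow (show (-2 : ℝ) ≤ 1 / 3 by norm_num) i
  have h2 : 1 + (i : ℝ) ≤ 3 * (4 / 3) ^ i := by
    have : (1 + 1 / 3 : ℝ) = 4 / 3 := by norm_num
    rw [this] at h
    have hi : (0 : ℝ) ≤ i := Nat.cast_nonneg i
    linarith
  calc (1 + (i : ℝ)) ^ 7 ≤ (3 * (4 / 3) ^ i) ^ 7 := pow_le_pow_left₀ (by positivity) h2 7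
    _ = 2187 * ((4 / 3) ^ 7) ^ i := by
        rw [mul_pow, ← pow_mul, ← pow_mul, mul_comm i 7]
        norm_num
    _ ≤ 2187 * 8 ^ i := by
        refine mul_le_mul_of_nonneg_left (pow_le_pow_left₀ (by positivity) (by norm_num) i) (by norm_num)

/-- bound for the count on a dyadic box -/
private theorem I7_count {θ1 θ2 : ℝ} (h : Quad θ1 θ2) : ∃ K : ℝ, 0 ≤ K ∧ ∀ X T : ℝ, 1 ≤ X → X < T → ∀ i j : ℕ,
    X * NN θ1 θ2 ⌊2 ^ i * (T / X)⌋₊ (2 ^ j / X) ≤
      K * (2 ^ (6 * i) * 2 ^ (2 * j)) * (1 + Real.log T) ^ 7 * (T * X ^ (-(1 / 3) : ℝ) + T ^ (5 / 6 : ℝ)) := by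
  obtain ⟨c, hc, hbad⟩ := bad h
  obtain ⟨C1, hC1, hs⟩ := near_small h
  obtain ⟨C2, hC2, hl⟩ := near_large h.1 h.2.1
  refine ⟨2187 * (2 * C1 + 2 * C1 / c + C2), by positivity, ?_⟩
  intro X T hX hXT i j
  have hX0 : 0 < X := by linarith
  have hT1 : 1 < T := by linarith
  have hT0 : 0 < T := by linarith
  set V : ℝ := T / X with hV
  have hV1 : 1 < V := by
    rw [hV, lt_div_iff₀ hX0]
    linarith
  have hV0 : 0 < V := by linarith
  have hXV : X * V = T := by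
    rw [hV]
    field_simp
  set R : ℕ := ⌊2 ^ i * V⌋₊ with hR
  set Δ : ℝ := 2 ^ j / X with hΔ
  have hΔ0 : 0 < Δ := by positivity
  have h2i : (1 : ℝ) ≤ 2 ^ i := one_le_pow₀ (by norm_num)
  have h2j : (1 : ℝ) ≤ 2 ^ j := one_le_pow₀ (by norm_num)
  have hRV : (R : ℝ) ≤ 2 ^ i * V := Nat.floor_le (by positivity)
  have hR1 : 1 ≤ R := by
    rw [hR, Nat.one_le_floor_iff]
    nlinarith
  have hR1' : (1 : ℝ) ≤ R := by exact_mod_cast hR1
  have hR0 : (0 : ℝ) < R := by linarith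
  have hlT : 0 ≤ Real.log T := Real.log_nonneg hT1.le
  have hlR : 0 ≤ Real.log R := Real.log_nonneg hR1'
  -- the logarithm
  have hlog : (1 + Real.log R) ^ 7 ≤ 2187 * 8 ^ i * (1 + Real.log T) ^ 7 := by
    have e1 : Real.log R ≤ i + Real.log T := by
      have e2 : Real.log R ≤ Real.log (2 ^ i * V) := Real.log_le_log hR0 hRV
      rw [Real.log_mul (by positivity) hV0.ne', Real.log_pow] at e2
      have e3 : Real.log 2 ≤ 1 := by
        have := Real.log_two_lt_d9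
        linarith
      have e4 : Real.log V ≤ Real.log T := by
        apply Real.log_le_log hV0
        rw [hV, div_le_iff₀ hX0]
        nlinarith
      have e5 : (i : ℝ) * Real.log 2 ≤ i := by
        have : (0 : ℝ) ≤ i := Nat.cast_nonneg i
        nlinarith
      linarith
    have e6 : 1 + Real.log R ≤ (1 + i) * (1 + Real.log T) := by
      have : (0 : ℝ) ≤ i := Nat.cast_nonneg i
      nlinarith [mul_nonneg this hlT]
    calc (1 + Real.log R) ^ 7 ≤ ((1 + i) * (1 + Real.log T)) ^ 7 := pow_le_pow_left₀ (by linarith) e6 7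
      _ = (1 + i) ^ 7 * (1 + Real.log T) ^ 7 := mul_pow _ _ _
      _ ≤ _ := mul_le_mul_of_nonneg_right (I7_poly i) (by positivity)
  have hL : 0 ≤ (1 + Real.log T) ^ 7 := by positivity
  have hE1 : 0 < T * X ^ (-(1 / 3) : ℝ) := by positivity
  have hE2 : 0 < T ^ (5 / 6 : ℝ) := by positivity
  have h8 : (8 : ℝ) ^ i = 2 ^ (3 * i) := by
    rw [pow_mul]
    norm_num
  rcases le_or_gt Δ 1 with hd | hd
  · have key := hs R Δ hR1 hΔ0 hd
    have hRΔ : (R : ℝ) * Δ ≤ 2 ^ i * 2 ^ j * (V / X) := by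
      calc (R : ℝ) * Δ ≤ 2 ^ i * V * Δ := mul_le_mul_of_nonneg_right hRV hΔ0.le
        _ = 2 ^ i * 2 ^ j * (V / X) := by
            rw [hΔ]
            ring
    have hR23 : (R : ℝ) ^ (2 / 3 : ℝ) ≤ 2 ^ i * V ^ (2 / 3 : ℝ) := by
      calc (R : ℝ) ^ (2 / 3 : ℝ) ≤ (2 ^ i * V) ^ (2 / 3 : ℝ) :=
            Real.rpow_le_rpow hR0.le hRV (by norm_num)
        _ = (2 ^ i : ℝ) ^ (2 / 3 : ℝ) * V ^ (2 / 3 : ℝ) := Real.mul_rpow (by positivity) hV0.le
        _ ≤ (2 ^ i : ℝ) ^ (1 : ℝ) * V ^ (2 / 3 : ℝ) := by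
            refine mul_le_mul_of_nonneg_right ?_ (by positivity)
            exact Real.rpow_le_rpow_of_exponent_le h2i (by norm_num)
        _ = _ := by rw [Real.rpow_one]
    have hpw : ∀ y : ℝ, 0 ≤ y → (2 * (2 ^ i * 2 ^ j) * y) ^ (1 / 3 : ℝ) ≤ 2 * (2 ^ i * 2 ^ j) * y ^ (1 / 3 : ℝ) := by
      intro y hy
      rw [Real.mul_rpow (by positivity) hy]
      refine mul_le_mul_of_nonneg_right ?_ (by positivity)
      have h1 : (1 : ℝ) ≤ 2 * (2 ^ i * 2 ^ j) := by nlinarith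
      calc (2 * (2 ^ i * 2 ^ j) : ℝ) ^ (1 / 3 : ℝ) ≤ (2 * (2 ^ i * 2 ^ j)) ^ (1 : ℝ) :=
            Real.rpow_le_rpow_of_exponent_le h1 (by norm_num)
        _ = _ := Real.rpow_one _
    have hN : NN θ1 θ2 R Δ ≤ C1 * ((1 + R * Δ) ^ (1 / 3 : ℝ) * (R : ℝ) ^ (2 / 3 : ℝ) * (1 + Real.log R) ^ 7) := key
    rcases le_or_gt X V with hXV2 | hXV2
    · -- `X ≤ V`
      have hy : 1 ≤ V / X := by
        rw [le_div_iff₀ hX0]
        linarith
      have e1 : (1 + R * Δ) ^ (1 / 3 : ℝ) ≤ 2 * (2 ^ i * 2 ^ j) * (V / X) ^ (1 / 3 : ℝ) := by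
        refine le_trans (Real.rpow_le_rpow (by positivity) ?_ (by norm_num)) (hpw (V / X) (by positivity))
        have : 1 ≤ 2 ^ i * 2 ^ j * (V / X) := by
          have := mul_le_mul (mul_le_mul h2i h2j (by norm_num) (by positivity)) hy (by norm_num) (by positivity)
          linarith
        linarith
      have e2 : NN θ1 θ2 R Δ ≤ C1 * ((2 * (2 ^ i * 2 ^ j) * (V / X) ^ (1 / 3 : ℝ)) * (2 ^ i * V ^ (2 / 3 : ℝ)) *
          (2187 * 8 ^ i * (1 + Real.log T) ^ 7)) := by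
        refine hN.trans (mul_le_mul_of_nonneg_left ?_ hC1)
        gcongr
      have e3 : X * ((V / X) ^ (1 / 3 : ℝ) * V ^ (2 / 3 : ℝ)) = T * X ^ (-(1 / 3) : ℝ) := by
        rw [Real.div_rpow hV0.le hX0.le, Real.rpow_neg hX0.le, div_mul_eq_mul_div, ← Real.rpow_add hV0]
        norm_num
        rw [← hXV]
        ring
      calc X * NN θ1 θ2 R Δ ≤ X * (C1 * ((2 * (2 ^ i * 2 ^ j) * (V / X) ^ (1 / 3 : ℝ)) * (2 ^ i * V ^ (2 / 3 : ℝ)) *
          (2187 * 8 ^ i * (1 + Real.log T) ^ 7))) := mul_le_mul_of_nonneg_left e2 hX0.le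
        _ = 2187 * (2 * C1) * (2 ^ i * 2 ^ i * 8 ^ i * 2 ^ j) * (1 + Real.log T) ^ 7 *
            (X * ((V / X) ^ (1 / 3 : ℝ) * V ^ (2 / 3 : ℝ))) := by ring
        _ ≤ 2187 * (2 * C1 + 2 * C1 / c + C2) * (2 ^ (6 * i) * 2 ^ (2 * j)) * (1 + Real.log T) ^ 7 *
            (T * X ^ (-(1 / 3) : ℝ) + T ^ (5 / 6 : ℝ)) := by
            rw [e3]
            have e4 : (2 : ℝ) ^ i * 2 ^ i * 8 ^ i * 2 ^ j ≤ 2 ^ (6 * i) * 2 ^ (2 * j) := by
              rw [h8, ← pow_add, ← pow_add]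
              exact mul_le_mul (pow_le_pow_right₀ (by norm_num) (by omega))
                (pow_le_pow_right₀ (by norm_num) (by omega)) (by positivity) (by positivity)
            have e5 : (0 : ℝ) ≤ 2 * C1 / c + C2 := by positivity
            gcongr
            · linarith
            · linarith
    · -- `V < X`
      rcases (NN0 θ1 θ2 R Δ).eq_or_lt with hz | hz
      · rw [← hz, mul_zero]
        have : 0 ≤ 2 * C1 / c := by positivity
        positivity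
      · have hex : ∃ N ∈ Finset.Icc 1 R, ∃ M ∈ Finset.Icc 1 R, |θ1 * N - θ2 * M| ≤ Δ := by
          by_contra hne
          push Not at hne
          have : NN θ1 θ2 R Δ = 0 := by
            unfold NN
            refine Finset.sum_eq_zero fun N hN => Finset.sum_eq_zero fun M hM => ?_
            rw [if_neg (not_le.2 (hne N hN M hM))]
          linarith
        obtain ⟨N, hN', M, hM', hNM⟩ := hex
        rw [Finset.mem_Icc] at hN' hM'
        have hb := hbad N M hN'.1 hM'.1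
        have hN0 : (0 : ℝ) < N := by exact_mod_cast hN'.1
        have hRc : 1 ≤ R * Δ / c := by
          have h1 : c / N ≤ Δ := hb.trans hNM
          rw [div_le_iff₀ hN0] at h1
          have h2 : (N : ℝ) ≤ R := by exact_mod_cast hN'.2
          have h3 : Δ * N ≤ Δ * R := mul_le_mul_of_nonneg_left h2 hΔ0.le
          rw [le_div_iff₀ hc, one_mul, mul_comm (R : ℝ) Δ]
          exact h1.trans h3
        have hy : V / X ≤ 1 := by
          rw [div_le_one hX0]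
          exact hXV2.le
        have e1 : (1 + R * Δ) ^ (1 / 3 : ℝ) ≤ 2 * (2 ^ i * 2 ^ j) := by
          have h1 := hpw 1 (by norm_num)
          rw [Real.one_rpow, mul_one] at h1
          refine le_trans (Real.rpow_le_rpow (by positivity) ?_ (by norm_num)) h1
          have h2 : 2 ^ i * 2 ^ j * (V / X) ≤ 2 ^ i * 2 ^ j * 1 := mul_le_mul_of_nonneg_left hy (by positivity)
          have h3 : (1 : ℝ) ≤ 2 ^ i * 2 ^ j := by nlinarith
          linarith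
        have e0 : (R : ℝ) * Δ / c ≤ 2 ^ i * 2 ^ j * (V / X) / c := div_le_div_of_nonneg_right hRΔ hc.le
        have e2 : NN θ1 θ2 R Δ ≤ C1 * ((2 * (2 ^ i * 2 ^ j)) * (2 ^ i * V ^ (2 / 3 : ℝ)) *
            (2187 * 8 ^ i * (1 + Real.log T) ^ 7)) * (2 ^ i * 2 ^ j * (V / X) / c) := by
          have e6 : NN θ1 θ2 R Δ ≤ NN θ1 θ2 R Δ * (R * Δ / c) := by
            have := mul_le_mul_of_nonneg_left hRc hz.le
            linarith
          refine e6.trans (mul_le_mul (hN.trans (mul_le_mul_of_nonneg_left ?_ hC1)) e0 (by positivity)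
            (by positivity))
          gcongr
        have e3 : V ^ (5 / 3 : ℝ) ≤ T ^ (5 / 6 : ℝ) := by
          have h1 : V ^ (2 : ℝ) ≤ T := by
            rw [Real.rpow_two, ← hXV]
            nlinarith
          calc V ^ (5 / 3 : ℝ) = (V ^ (2 : ℝ)) ^ (5 / 6 : ℝ) := by
                rw [← Real.rpow_mul hV0.le]
                norm_num
            _ ≤ T ^ (5 / 6 : ℝ) := Real.rpow_le_rpow (by positivity) h1 (by norm_num)
        have e7 : V ^ (2 / 3 : ℝ) * V = V ^ (5 / 3 : ℝ) := by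
          nth_rewrite 2 [← Real.rpow_one V]
          rw [← Real.rpow_add hV0]
          norm_num
        calc X * NN θ1 θ2 R Δ ≤ X * (C1 * ((2 * (2 ^ i * 2 ^ j)) * (2 ^ i * V ^ (2 / 3 : ℝ)) *
            (2187 * 8 ^ i * (1 + Real.log T) ^ 7)) * (2 ^ i * 2 ^ j * (V / X) / c)) :=
              mul_le_mul_of_nonneg_left e2 hX0.le
          _ = 2187 * (2 * C1 / c) * (2 ^ i * 2 ^ i * 8 ^ i * 2 ^ i * (2 ^ j * 2 ^ j)) * (1 + Real.log T) ^ 7 *
              (V ^ (2 / 3 : ℝ) * V) := by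
              field_simp
          _ ≤ 2187 * (2 * C1 + 2 * C1 / c + C2) * (2 ^ (6 * i) * 2 ^ (2 * j)) * (1 + Real.log T) ^ 7 *
              (T * X ^ (-(1 / 3) : ℝ) + T ^ (5 / 6 : ℝ)) := by
              rw [e7]
              have e4 : (2 : ℝ) ^ i * 2 ^ i * 8 ^ i * 2 ^ i * (2 ^ j * 2 ^ j) ≤ 2 ^ (6 * i) * 2 ^ (2 * j) := by
                rw [h8, ← pow_add, ← pow_add, ← pow_add, ← pow_add]
                exact mul_le_mul (pow_le_pow_right₀ (by norm_num) (by omega))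
                  (pow_le_pow_right₀ (by norm_num) (by omega)) (by positivity) (by positivity)
              gcongr
              · linarith
              · linarith
  · have key := hl R Δ hR1 hd.le
    have hN : NN θ1 θ2 R Δ ≤ C2 * (Δ * R * (1 + Real.log R) ^ 7) := key
    have e2 : NN θ1 θ2 R Δ ≤ C2 * (Δ * (2 ^ i * V) * (2187 * 8 ^ i * (1 + Real.log T) ^ 7)) := by
      refine hN.trans (mul_le_mul_of_nonneg_left ?_ hC2)
      gcongr
    have e3 : V ≤ T * X ^ (-(1 / 3) : ℝ) := by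
      rw [hV, div_eq_mul_inv]
      refine mul_le_mul_of_nonneg_left ?_ hT0.le
      rw [← Real.rpow_neg_one]
      exact Real.rpow_le_rpow_of_exponent_le hX (by norm_num)
    calc X * NN θ1 θ2 R Δ ≤ X * (C2 * (Δ * (2 ^ i * V) * (2187 * 8 ^ i * (1 + Real.log T) ^ 7))) :=
          mul_le_mul_of_nonneg_left e2 hX0.le
      _ = 2187 * C2 * (2 ^ i * 8 ^ i * 2 ^ j) * (1 + Real.log T) ^ 7 * V := by
          rw [hΔ]
          field_simp
      _ ≤ 2187 * (2 * C1 + 2 * C1 / c + C2) * (2 ^ (6 * i) * 2 ^ (2 * j)) * (1 + Real.log T) ^ 7 *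
          (T * X ^ (-(1 / 3) : ℝ) + T ^ (5 / 6 : ℝ)) := by
          have e4 : (2 : ℝ) ^ i * 8 ^ i * 2 ^ j ≤ 2 ^ (6 * i) * 2 ^ (2 * j) := by
            rw [h8, ← pow_add]
            exact mul_le_mul (pow_le_pow_right₀ (by norm_num) (by omega))
              (pow_le_pow_right₀ (by norm_num) (by omega)) (by positivity) (by positivity)
          have e5 : (0 : ℝ) ≤ 2 * C1 / c := by positivity
          gcongr
          · linarith
          · linarith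

/-- pointwise bound by a dyadic weight -/
private theorem I7_pt {θ1 θ2 : ℝ} (h1 : 0 < θ1) (h2 : 0 < θ2) : ∃ K : ℝ, 0 < K ∧ ∀ ε X : ℝ, 0 < ε → ε ≤ 1 / 2 →
    1 ≤ X → ∀ n m : ℕ, ∃ i j : ℕ, ((max n m : ℕ) : ℝ) ≤ 2 ^ i * (ε⁻¹ / X) ∧ |θ1 * n - θ2 * m| ≤ 2 ^ j / X ∧
      ((1 + X * ‖zz θ1 θ2 ε n m‖) ^ 12)⁻¹ ≤ K * (((2 : ℝ) ^ (8 * i))⁻¹ * (2 ^ (4 * j))⁻¹) := by
  have hth : 0 < min θ1 θ2 := lt_min h1 h2
  set c : ℝ := min 1 (min θ1 θ2 / 4) with hc
  have hc0 : 0 < c := lt_min one_pos (by positivity)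
  refine ⟨(c ^ 8)⁻¹ * 4 ^ 4, by positivity, ?_⟩
  intro ε X h0 he hX n m
  have hX0 : 0 < X := by linarith
  obtain ⟨z1, z2⟩ := I7_zz h1 h2 h0 he n m
  set w : ℝ := ‖zz θ1 θ2 ε n m‖ with hw
  have hw0 : 0 ≤ w := norm_nonneg _
  have hVpos : 0 < ε⁻¹ / X := by positivity
  have hex1 : ∃ i : ℕ, ((max n m : ℕ) : ℝ) ≤ 2 ^ i * (ε⁻¹ / X) := by
    obtain ⟨i, hi⟩ := pow_unbounded_of_one_lt (((max n m : ℕ) : ℝ) / (ε⁻¹ / X)) (one_lt_two)
    exact ⟨i, by rw [div_lt_iff₀ hVpos] at hi; exact hi.le⟩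
  have hex2 : ∃ j : ℕ, |θ1 * n - θ2 * m| ≤ 2 ^ j / X := by
    obtain ⟨j, hj⟩ := pow_unbounded_of_one_lt (|θ1 * n - θ2 * m| * X) (one_lt_two)
    exact ⟨j, by rw [le_div_iff₀ hX0]; exact hj.le⟩
  classical
  refine ⟨Nat.find hex1, Nat.find hex2, Nat.find_spec hex1, Nat.find_spec hex2, ?_⟩
  have b1 : c * 2 ^ (Nat.find hex1) ≤ 1 + X * w := by
    rcases Nat.eq_zero_or_pos (Nat.find hex1) with hi | hi
    · rw [hi, pow_zero, mul_one]
      have : c ≤ 1 := min_le_left _ _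
      have : 0 ≤ X * w := by positivity
      linarith
    · have hm := Nat.find_min hex1 (show Nat.find hex1 - 1 < Nat.find hex1 by omega)
      push Not at hm
      have e1 : (2 : ℝ) ^ (Nat.find hex1) = 2 * 2 ^ (Nat.find hex1 - 1) := by
        rw [← pow_succ']
        congr 1
        omega
      have e2 : X * (ε / 2 * min θ1 θ2 * (2 ^ (Nat.find hex1 - 1) * (ε⁻¹ / X))) ≤ X * w := by
        refine mul_le_mul_of_nonneg_left (le_trans ?_ z1) hX0.le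
        exact mul_le_mul_of_nonneg_left hm.le (by positivity)
      have e3 : X * (ε / 2 * min θ1 θ2 * (2 ^ (Nat.find hex1 - 1) * (ε⁻¹ / X))) =
          min θ1 θ2 / 4 * (2 * 2 ^ (Nat.find hex1 - 1)) := by
        field_simp
        norm_num
      have e4 : c * 2 ^ (Nat.find hex1) ≤ min θ1 θ2 / 4 * 2 ^ (Nat.find hex1) :=
        mul_le_mul_of_nonneg_right (min_le_right _ _) (by positivity)
      rw [e1] at e4 ⊢
      linarith
  have b2 : 2 ^ (Nat.find hex2) / 4 ≤ 1 + X * w := by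
    rcases Nat.eq_zero_or_pos (Nat.find hex2) with hi | hi
    · rw [hi, pow_zero]
      have : 0 ≤ X * w := by positivity
      linarith
    · have hm := Nat.find_min hex2 (show Nat.find hex2 - 1 < Nat.find hex2 by omega)
      push Not at hm
      have e1 : (2 : ℝ) ^ (Nat.find hex2) = 2 * 2 ^ (Nat.find hex2 - 1) := by
        rw [← pow_succ']
        congr 1
        omega
      have e2 : X * (1 / 2 * (2 ^ (Nat.find hex2 - 1) / X)) ≤ X * w := by
        refine mul_le_mul_of_nonneg_left (le_trans ?_ z2) hX0.le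
        exact mul_le_mul_of_nonneg_left hm.le (by norm_num)
      have e3 : X * (1 / 2 * (2 ^ (Nat.find hex2 - 1) / X)) = 2 * 2 ^ (Nat.find hex2 - 1) / 4 := by
        field_simp
        norm_num
      rw [e1]
      linarith
  have hb : 0 < 1 + X * w := by positivity
  have e : (c * 2 ^ (Nat.find hex1)) ^ 8 * (2 ^ (Nat.find hex2) / 4) ^ 4 ≤ (1 + X * w) ^ 12 := by
    calc (c * 2 ^ (Nat.find hex1)) ^ 8 * (2 ^ (Nat.find hex2) / 4) ^ 4 ≤ (1 + X * w) ^ 8 * (1 + X * w) ^ 4 :=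
          mul_le_mul (pow_le_pow_left₀ (by positivity) b1 8) (pow_le_pow_left₀ (by positivity) b2 4)
            (by positivity) (by positivity)
      _ = _ := by ring
  have e2 : ((1 + X * w) ^ 12)⁻¹ ≤ ((c * 2 ^ (Nat.find hex1)) ^ 8 * (2 ^ (Nat.find hex2) / 4) ^ 4)⁻¹ :=
    inv_anti₀ (by positivity) e
  refine e2.trans (le_of_eq ?_)
  rw [mul_pow, div_pow, ← pow_mul, ← pow_mul, mul_comm (Nat.find hex1) 8, mul_comm (Nat.find hex2) 4]
  field_simp

private theorem I7_norm {θ1 θ2 ε : ℝ} (k n m : ℕ) : ‖((Real.exp k : ℝ) : ℂ) * zz θ1 θ2 ε n m‖ =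
    Real.exp k * ‖zz θ1 θ2 ε n m‖ := by
  rw [norm_mul, norm_real, Real.norm_eq_abs, abs_of_pos (Real.exp_pos _)]

/-- summability and the bound for large `k`, with one lower bound for `1 + X ‖z‖` -/
private theorem I7_geo : Summable (fun x : ℕ × ℕ => ((((x.1 : ℝ) + 1) ^ 3)⁻¹ * (((x.2 : ℝ) + 1) ^ 3)⁻¹)) := by
  have h : Summable (fun n : ℕ => (((n : ℝ) + 1) ^ 3)⁻¹) := by
    have := (Real.summable_nat_pow_inv (p := 3)).2 (by norm_num)
    exact_mod_cast (summable_nat_add_iff 1).2 this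
  exact h.mul_of_nonneg h (fun _ => by positivity) (fun _ => by positivity)

private theorem I7_max {n m : ℕ} : ((n : ℝ) + 1) * ((m : ℝ) + 1) ≤ ((max (n + 1) (m + 1) : ℕ) : ℝ) ^ 2 := by
  have h1 : ((n : ℝ) + 1) ≤ ((max (n + 1) (m + 1) : ℕ) : ℝ) := by
    exact_mod_cast le_max_left (n + 1) (m + 1)
  have h2 : ((m : ℝ) + 1) ≤ ((max (n + 1) (m + 1) : ℕ) : ℝ) := by
    exact_mod_cast le_max_right (n + 1) (m + 1)
  have h3 : (0 : ℝ) ≤ (n : ℝ) + 1 := by positivity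
  nlinarith

/-- term bound from `Y max ≤ 1 + X ‖z‖` and an extra factor -/
private theorem I7_term {W Y E : ℝ} (hY : 0 < Y) (hE : 0 < E) {n m : ℕ}
    (hW1 : Y * ((max (n + 1) (m + 1) : ℕ) : ℝ) ≤ W) (hW2 : E ≤ W) :
    dv (n + 1) * dv (m + 1) * (W ^ 12)⁻¹ ≤ (Y ^ 8 * E ^ 4)⁻¹ * ((((n : ℝ) + 1) ^ 3)⁻¹ * (((m : ℝ) + 1) ^ 3)⁻¹) := by
  set M : ℝ := ((max (n + 1) (m + 1) : ℕ) : ℝ) with hM
  have hM2 : ((n : ℝ) + 1) * ((m : ℝ) + 1) ≤ M ^ 2 := I7_max
  set a : ℝ := (n : ℝ) + 1 with ha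
  set b : ℝ := (m : ℝ) + 1 with hb
  have ha0 : 0 < a := by positivity
  have hb0 : 0 < b := by positivity
  have hMp : 0 < M := by
    have : 0 < M ^ 2 := lt_of_lt_of_le (mul_pos ha0 hb0) hM2
    rcases lt_trichotomy M 0 with h | h | h
    · have : (0 : ℝ) ≤ M := Nat.cast_nonneg _
      linarith
    · rw [h] at this
      norm_num at this
    · exact h
  have hW0 : 0 < W := lt_of_lt_of_le (mul_pos hY hMp) hW1
  have h1 : (Y * M) ^ 8 * E ^ 4 ≤ W ^ 12 := by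
    calc (Y * M) ^ 8 * E ^ 4 ≤ W ^ 8 * W ^ 4 := mul_le_mul (pow_le_pow_left₀ (by positivity) hW1 8)
          (pow_le_pow_left₀ hE.le hW2 4) (by positivity) (by positivity)
      _ = _ := by ring
  have h2 : (a * b) ^ 4 ≤ M ^ 8 := by
    calc (a * b) ^ 4 ≤ (M ^ 2) ^ 4 := pow_le_pow_left₀ (by positivity) hM2 4
      _ = _ := by ring
  have h3 : Y ^ 8 * E ^ 4 * (a * b) ^ 4 ≤ W ^ 12 := by
    calc Y ^ 8 * E ^ 4 * (a * b) ^ 4 ≤ Y ^ 8 * E ^ 4 * M ^ 8 := mul_le_mul_of_nonneg_left h2 (by positivity)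
      _ = (Y * M) ^ 8 * E ^ 4 := by ring
      _ ≤ _ := h1
  have d1 : dv (n + 1) ≤ a := by
    have := dv_le (n + 1)
    push_cast at this
    exact this
  have d2 : dv (m + 1) ≤ b := by
    have := dv_le (m + 1)
    push_cast at this
    exact this
  calc dv (n + 1) * dv (m + 1) * (W ^ 12)⁻¹ ≤ a * b * (Y ^ 8 * E ^ 4 * (a * b) ^ 4)⁻¹ := by
        refine mul_le_mul (mul_le_mul d1 d2 (dv0 _) ha0.le) (inv_anti₀ (by positivity) h3) (by positivity)
          (by positivity)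
    _ = (Y ^ 8 * E ^ 4)⁻¹ * ((a ^ 3)⁻¹ * (b ^ 3)⁻¹) := by
        field_simp

/-- elements of a fibre -/
private theorem I7_fib {θ1 θ2 X T : ℝ} (p : ℕ × ℕ) (F : Finset (ℕ × ℕ))
    (h1 : ∀ x ∈ F, ((max (x.1 + 1) (x.2 + 1) : ℕ) : ℝ) ≤ 2 ^ p.1 * (T / X))
    (h2 : ∀ x ∈ F, |θ1 * (x.1 + 1 : ℕ) - θ2 * (x.2 + 1 : ℕ)| ≤ 2 ^ p.2 / X) :
    ∑ x ∈ F, dv (x.1 + 1) * dv (x.2 + 1) ≤ NN θ1 θ2 ⌊2 ^ p.1 * (T / X)⌋₊ (2 ^ p.2 / X) := by
  classical
  set R : ℕ := ⌊2 ^ p.1 * (T / X)⌋₊ with hR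
  set g : ℕ × ℕ → ℝ := fun y => if |θ1 * y.1 - θ2 * y.2| ≤ 2 ^ p.2 / X then dv y.1 * dv y.2 else 0 with hg
  have e1 : NN θ1 θ2 R (2 ^ p.2 / X) = ∑ y ∈ Finset.Icc 1 R ×ˢ Finset.Icc 1 R, g y := by
    rw [Finset.sum_product]
    rfl
  have e2 : ∑ x ∈ F, dv (x.1 + 1) * dv (x.2 + 1) = ∑ x ∈ F, g (x.1 + 1, x.2 + 1) := by
    refine Finset.sum_congr rfl fun x hx => ?_
    rw [hg]
    simp only
    rw [if_pos (h2 x hx)]
  have e3 : ∑ x ∈ F, g (x.1 + 1, x.2 + 1) = ∑ y ∈ F.image (fun x => (x.1 + 1, x.2 + 1)), g y := by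
    rw [Finset.sum_image]
    intro x _ y _ hxy
    simp only [Prod.mk.injEq, add_left_inj] at hxy
    exact Prod.ext hxy.1 hxy.2
  rw [e1, e2, e3]
  refine Finset.sum_le_sum_of_subset_of_nonneg ?_ ?_
  · intro y hy
    rw [Finset.mem_image] at hy
    obtain ⟨x, hx, rfl⟩ := hy
    have h3 : max (x.1 + 1) (x.2 + 1) ≤ R := Nat.le_floor (h1 x hx)
    rw [Finset.mem_product, Finset.mem_Icc, Finset.mem_Icc]
    simp only
    omega
  · intro y _ _
    rw [hg]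
    simp only
    split_ifs
    · exact mul_nonneg (dv0 _) (dv0 _)
    · exact le_rfl

/-- Row I07. Pieces with large k. -/
theorem large_k {θ1 θ2 : ℝ} (h : Quad θ1 θ2) : ∃ C : ℝ, 0 ≤ C ∧ ∀ ε : ℝ, 0 < ε → ε ≤ 1 / 2 → ∀ k : ℕ,
    Summable (fun x : ℕ × ℕ => dv (x.1 + 1) * dv (x.2 + 1) *
      ((1 + ‖((Real.exp k : ℝ) : ℂ) * zz θ1 θ2 ε (x.1 + 1) (x.2 + 1)‖) ^ 12)⁻¹) ∧
    Real.exp k * ∑' x : ℕ × ℕ, dv (x.1 + 1) * dv (x.2 + 1) *
        ((1 + ‖((Real.exp k : ℝ) : ℂ) * zz θ1 θ2 ε (x.1 + 1) (x.2 + 1)‖) ^ 12)⁻¹ ≤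
      C * (1 + Real.log (1 / ε)) ^ 9 * (ε⁻¹ * Real.exp (-(k / 3 : ℝ)) + ε ^ (-(5 / 6 : ℝ))) ∧
    (1 / ε ≤ Real.exp k → Real.exp k * ∑' x : ℕ × ℕ, dv (x.1 + 1) * dv (x.2 + 1) *
        ((1 + ‖((Real.exp k : ℝ) : ℂ) * zz θ1 θ2 ε (x.1 + 1) (x.2 + 1)‖) ^ 12)⁻¹ ≤ C * Real.exp (-(k : ℝ))) := by
  obtain ⟨c, hc, hbad⟩ := bad h
  obtain ⟨K1, hK1, hcount⟩ := I7_count h
  obtain ⟨K2, hK2, hpt⟩ := I7_pt h.1 h.2.1
  have hθ1 := h.1
  have hθ2 := h.2.1
  set θ : ℝ := min θ1 θ2 with hθ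
  have hθ0 : 0 < θ := lt_min hθ1 hθ2
  set G : ℝ := ∑' x : ℕ × ℕ, ((((x.1 : ℝ) + 1) ^ 3)⁻¹ * (((x.2 : ℝ) + 1) ^ 3)⁻¹) with hG
  have hG0 : 0 ≤ G := tsum_nonneg fun x => by positivity
  set f2 : ℕ × ℕ → ℝ := fun p => ((4 : ℝ) ^ p.1)⁻¹ * ((4 : ℝ) ^ p.2)⁻¹ with hf2
  have hf2s : Summable f2 := by
    have h4 : Summable (fun n : ℕ => ((4 : ℝ) ^ n)⁻¹) := by
      have := summable_geometric_of_lt_one (show (0 : ℝ) ≤ 1 / 4 by norm_num) (by norm_num)
      refine this.congr fun n => ?_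
      rw [one_div, inv_pow]
    exact h4.mul_of_nonneg h4 (fun _ => by positivity) (fun _ => by positivity)
  set G2 : ℝ := ∑' p, f2 p with hG2
  have hG20 : 0 ≤ G2 := tsum_nonneg fun p => by rw [hf2]; positivity
  set C3 : ℝ := 16 * ((θ / 2) ^ 8)⁻¹ * ((θ * c) ^ 2)⁻¹ * G with hC3
  have hC30 : 0 ≤ C3 := by positivity
  refine ⟨C3 + K1 * K2 * G2, by positivity, ?_⟩
  intro ε h0 he k
  set X : ℝ := Real.exp k with hX
  have hX0 : 0 < X := Real.exp_pos _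
  have hX1 : 1 ≤ X := Real.one_le_exp (Nat.cast_nonneg k)
  set F : ℕ × ℕ → ℝ := fun x => dv (x.1 + 1) * dv (x.2 + 1) *
      ((1 + ‖((X : ℝ) : ℂ) * zz θ1 θ2 ε (x.1 + 1) (x.2 + 1)‖) ^ 12)⁻¹ with hF
  have hWn : ∀ n m : ℕ, ‖((X : ℝ) : ℂ) * zz θ1 θ2 ε n m‖ = X * ‖zz θ1 θ2 ε n m‖ := fun n m => I7_norm k n m
  have hF0 : ∀ x, 0 ≤ F x := fun x => mul_nonneg (mul_nonneg (dv0 _) (dv0 _)) (by positivity)
  have hY : ∀ x : ℕ × ℕ, X * (ε / 2 * θ) * ((max (x.1 + 1) (x.2 + 1) : ℕ) : ℝ) ≤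
      1 + ‖((X : ℝ) : ℂ) * zz θ1 θ2 ε (x.1 + 1) (x.2 + 1)‖ := by
    intro x
    rw [hWn]
    have z1 := (I7_zz hθ1 hθ2 h0 he (x.1 + 1) (x.2 + 1)).1
    have := mul_le_mul_of_nonneg_left z1 hX0.le
    linarith
  have hY0 : 0 < X * (ε / 2 * θ) := by positivity
  have sF : Summable F := by
    refine Summable.of_nonneg_of_le hF0 (fun x => I7_term hY0 one_pos (hY x) ?_) (I7_geo.mul_left _)
    have := norm_nonneg (((X : ℝ) : ℂ) * zz θ1 θ2 ε (x.1 + 1) (x.2 + 1))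
    linarith
  have part3 : 1 / ε ≤ X → X * ∑' x, F x ≤ C3 * Real.exp (-(k : ℝ)) := by
    intro hXε
    rw [div_le_iff₀ h0] at hXε
    set E : ℝ := X * (√(ε * (θ * c)) / 2) with hE
    have hE0 : 0 < E := by positivity
    have hE1 : ∀ x : ℕ × ℕ, E ≤ 1 + ‖((X : ℝ) : ℂ) * zz θ1 θ2 ε (x.1 + 1) (x.2 + 1)‖ := by
      intro x
      rw [hWn]
      obtain ⟨z1, z2⟩ := I7_zz hθ1 hθ2 h0 he (x.1 + 1) (x.2 + 1)
      have z3 := hbad (x.1 + 1) (x.2 + 1) (by omega) (by omega)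
      set w : ℝ := ‖zz θ1 θ2 ε (x.1 + 1) (x.2 + 1)‖ with hw
      have hw0 : 0 ≤ w := norm_nonneg _
      set M : ℝ := ((max (x.1 + 1) (x.2 + 1) : ℕ) : ℝ) with hM
      have hM1 : ((x.1 + 1 : ℕ) : ℝ) ≤ M := by
        rw [hM]
        exact_mod_cast le_max_left (x.1 + 1) (x.2 + 1)
      have hn0 : (0 : ℝ) < ((x.1 + 1 : ℕ) : ℝ) := by positivity
      have hM0 : 0 < M := lt_of_lt_of_le hn0 hM1
      have z4 : c / M ≤ c / ((x.1 + 1 : ℕ) : ℝ) := div_le_div_of_nonneg_left hc.le hn0 hM1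
      have z5 : 1 / 2 * (c / M) ≤ w := by linarith
      have z6 : ε / 2 * θ * M * (1 / 2 * (c / M)) ≤ w * w := mul_le_mul z1 z5 (by positivity) hw0
      have z7 : ε / 2 * θ * M * (1 / 2 * (c / M)) = ε * (θ * c) / 4 := by
        field_simp
        norm_num
      have z8 : √(ε * (θ * c)) / 2 ≤ w := by
        refine (pow_le_pow_iff_left₀ (by positivity) hw0 two_ne_zero).1 ?_
        rw [div_pow, Real.sq_sqrt (by positivity), sq w]
        linarith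
      have := mul_le_mul_of_nonneg_left z8 hX0.le
      linarith
    have b1 : ∑' x, F x ≤ ((X * (ε / 2 * θ)) ^ 8 * E ^ 4)⁻¹ * G := by
      rw [hG, ← tsum_mul_left]
      exact sF.tsum_le_tsum (fun x => I7_term hY0 hE0 (hY x) (hE1 x)) (I7_geo.mul_left _)
    have b2 : (θ / 2) ^ 8 ≤ (X * (ε / 2 * θ)) ^ 8 := by
      refine pow_le_pow_left₀ (by positivity) ?_ 8
      nlinarith
    have b3 : E ^ 4 = X ^ 4 * ε ^ 2 * (θ * c) ^ 2 / 16 := by
      rw [hE, mul_pow, div_pow]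
      have : √(ε * (θ * c)) ^ 4 = (ε * (θ * c)) ^ 2 := by
        rw [show (4 : ℕ) = 2 * 2 from rfl, pow_mul, Real.sq_sqrt (by positivity)]
      rw [this]
      ring
    have b4 : X ^ 2 * (θ * c) ^ 2 / 16 ≤ E ^ 4 := by
      rw [b3]
      have : 1 ≤ (X * ε) ^ 2 := one_le_pow₀ hXε
      have h5 : X ^ 4 * ε ^ 2 * (θ * c) ^ 2 / 16 = (X * ε) ^ 2 * (X ^ 2 * (θ * c) ^ 2 / 16) := by ring
      rw [h5]
      have h6 : 0 ≤ X ^ 2 * (θ * c) ^ 2 / 16 := by positivity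
      nlinarith
    have b5 : ((X * (ε / 2 * θ)) ^ 8 * E ^ 4)⁻¹ ≤ ((θ / 2) ^ 8 * (X ^ 2 * (θ * c) ^ 2 / 16))⁻¹ :=
      inv_anti₀ (by positivity) (mul_le_mul b2 b4 (by positivity) (by positivity))
    have b6 : X * ∑' x, F x ≤ X * (((θ / 2) ^ 8 * (X ^ 2 * (θ * c) ^ 2 / 16))⁻¹ * G) :=
      mul_le_mul_of_nonneg_left (b1.trans (mul_le_mul_of_nonneg_right b5 hG0)) hX0.le
    refine b6.trans (le_of_eq ?_)
    rw [Real.exp_neg, ← hX, hC3]
    field_simp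
  have hlog : 0 ≤ Real.log (1 / ε) := by
    apply Real.log_nonneg
    rw [le_div_iff₀ h0]
    linarith
  have hε56 : 1 ≤ ε ^ (-(5 / 6 : ℝ)) := Real.one_le_rpow_of_pos_of_le_one_of_nonpos h0 (by linarith) (by norm_num)
  have hpos2 : 0 ≤ ε⁻¹ * Real.exp (-(k / 3 : ℝ)) := by positivity
  have h19 : 1 ≤ (1 + Real.log (1 / ε)) ^ 9 := one_le_pow₀ (by linarith)
  refine ⟨sF, ?_, fun hXε => (part3 hXε).trans ?_⟩
  · change X * ∑' x, F x ≤ _
    rcases le_or_gt (1 / ε) X with hXε | hXε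
    · refine (part3 hXε).trans ?_
      have e1 : Real.exp (-(k : ℝ)) ≤ 1 := Real.exp_le_one_iff.2 (by simp)
      have e2 : 1 ≤ (1 + Real.log (1 / ε)) ^ 9 * (ε⁻¹ * Real.exp (-(k / 3 : ℝ)) + ε ^ (-(5 / 6 : ℝ))) := by
        have := mul_le_mul h19 (show (1 : ℝ) ≤ ε⁻¹ * Real.exp (-(k / 3 : ℝ)) + ε ^ (-(5 / 6 : ℝ)) by linarith)
          (by norm_num) (by positivity)
        linarith
      have e3 : 0 ≤ K1 * K2 * G2 := by positivity
      calc C3 * Real.exp (-(k : ℝ)) ≤ C3 * 1 := mul_le_mul_of_nonneg_left e1 hC30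
        _ ≤ (C3 + K1 * K2 * G2) * 1 := by linarith
        _ ≤ (C3 + K1 * K2 * G2) * ((1 + Real.log (1 / ε)) ^ 9 *
            (ε⁻¹ * Real.exp (-(k / 3 : ℝ)) + ε ^ (-(5 / 6 : ℝ)))) :=
              mul_le_mul_of_nonneg_left e2 (by positivity)
        _ = _ := by ring
    · have hXT : X < ε⁻¹ := by rwa [one_div] at hXε
      choose i j hi hj hw using fun x : ℕ × ℕ => hpt ε X h0 he hX1 (x.1 + 1) (x.2 + 1)
      set L : ℝ := (1 + Real.log ε⁻¹) ^ 7 * (ε⁻¹ * X ^ (-(1 / 3) : ℝ) + ε⁻¹ ^ (5 / 6 : ℝ)) with hL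
      have hlT : 0 ≤ Real.log ε⁻¹ := by rwa [one_div] at hlog
      have hL0 : 0 ≤ L := by positivity
      have main : ∀ S : Finset (ℕ × ℕ), ∑ x ∈ S, X * F x ≤ K1 * K2 * L * G2 := by
        intro S
        classical
        have m1 : ∑ x ∈ S, X * F x ≤ ∑ x ∈ S, X * (dv (x.1 + 1) * dv (x.2 + 1) *
            (K2 * (((2 : ℝ) ^ (8 * i x))⁻¹ * (2 ^ (4 * j x))⁻¹))) := by
          refine Finset.sum_le_sum fun x _ => mul_le_mul_of_nonneg_left ?_ hX0.le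
          rw [hF]
          simp only
          rw [hWn]
          exact mul_le_mul_of_nonneg_left (hw x) (mul_nonneg (dv0 _) (dv0 _))
        have m2 : ∑ x ∈ S, X * (dv (x.1 + 1) * dv (x.2 + 1) *
            (K2 * (((2 : ℝ) ^ (8 * i x))⁻¹ * (2 ^ (4 * j x))⁻¹))) =
            ∑ p ∈ S.image (fun x => (i x, j x)), ∑ x ∈ S.filter (fun x => (i x, j x) = p),
              X * (dv (x.1 + 1) * dv (x.2 + 1) * (K2 * (((2 : ℝ) ^ (8 * i x))⁻¹ * (2 ^ (4 * j x))⁻¹))) :=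
          (Finset.sum_fiberwise_of_maps_to (fun x hx => Finset.mem_image_of_mem _ hx) _).symm
        have m3 : ∀ p ∈ S.image (fun x => (i x, j x)), ∑ x ∈ S.filter (fun x => (i x, j x) = p),
              X * (dv (x.1 + 1) * dv (x.2 + 1) * (K2 * (((2 : ℝ) ^ (8 * i x))⁻¹ * (2 ^ (4 * j x))⁻¹))) ≤
              K1 * K2 * L * f2 p := by
          intro p _
          have q1 : ∑ x ∈ S.filter (fun x => (i x, j x) = p),
              X * (dv (x.1 + 1) * dv (x.2 + 1) * (K2 * (((2 : ℝ) ^ (8 * i x))⁻¹ * (2 ^ (4 * j x))⁻¹))) =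
              K2 * (((2 : ℝ) ^ (8 * p.1))⁻¹ * (2 ^ (4 * p.2))⁻¹) * (X *
                ∑ x ∈ S.filter (fun x => (i x, j x) = p), dv (x.1 + 1) * dv (x.2 + 1)) := by
            rw [Finset.mul_sum, Finset.mul_sum]
            refine Finset.sum_congr rfl fun x hx => ?_
            have hx2 := (Finset.mem_filter.1 hx).2
            have hx3 : i x = p.1 := by rw [← hx2]
            have hx4 : j x = p.2 := by rw [← hx2]
            rw [hx3, hx4]
            ring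
          have q2 := I7_fib (θ1 := θ1) (θ2 := θ2) (X := X) (T := ε⁻¹) p
            (S.filter (fun x => (i x, j x) = p)) (fun x hx => by
              have hx2 := (Finset.mem_filter.1 hx).2
              have hx3 : i x = p.1 := by rw [← hx2]
              rw [← hx3]
              exact hi x) (fun x hx => by
              have hx2 := (Finset.mem_filter.1 hx).2
              have hx4 : j x = p.2 := by rw [← hx2]
              rw [← hx4]
              exact hj x)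
          have q3 := hcount X ε⁻¹ hX1 hXT p.1 p.2
          have q4 := (mul_le_mul_of_nonneg_left q2 hX0.le).trans q3
          rw [q1]
          refine (mul_le_mul_of_nonneg_left q4 (by positivity)).trans (le_of_eq ?_)
          have q5 : ((2 : ℝ) ^ (8 * p.1))⁻¹ * 2 ^ (6 * p.1) = ((4 : ℝ) ^ p.1)⁻¹ := by
            rw [show 8 * p.1 = 2 * p.1 + 6 * p.1 by ring, pow_add, mul_inv, mul_assoc,
              inv_mul_cancel₀ (by positivity), mul_one, pow_mul]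
            norm_num
          have q6 : ((2 : ℝ) ^ (4 * p.2))⁻¹ * 2 ^ (2 * p.2) = ((4 : ℝ) ^ p.2)⁻¹ := by
            rw [show 4 * p.2 = 2 * p.2 + 2 * p.2 by ring, pow_add, mul_inv, mul_assoc,
              inv_mul_cancel₀ (by positivity), mul_one, pow_mul]
            norm_num
          rw [hf2, hL]
          simp only
          rw [← q5, ← q6]
          ring
        have m4 : ∑ p ∈ S.image (fun x => (i x, j x)), K1 * K2 * L * f2 p ≤ K1 * K2 * L * G2 := by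
          rw [← Finset.mul_sum]
          refine mul_le_mul_of_nonneg_left ?_ (by positivity)
          exact hf2s.sum_le_tsum _ (fun p _ => by rw [hf2]; positivity)
        rw [m2] at m1
        exact m1.trans ((Finset.sum_le_sum m3).trans m4)
      have b1 : X * ∑' x, F x ≤ K1 * K2 * L * G2 := by
        rw [← tsum_mul_left]
        exact (sF.mul_left X).tsum_le_of_sum_le main
      refine b1.trans ?_
      have e1 : X ^ (-(1 / 3) : ℝ) = Real.exp (-(k / 3 : ℝ)) := by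
        rw [hX, ← Real.exp_mul]
        congr 1
        ring
      have e2 : ε⁻¹ ^ (5 / 6 : ℝ) = ε ^ (-(5 / 6 : ℝ)) := by
        rw [Real.inv_rpow h0.le, Real.rpow_neg h0.le]
      have e3 : L ≤ (1 + Real.log (1 / ε)) ^ 9 * (ε⁻¹ * Real.exp (-(k / 3 : ℝ)) + ε ^ (-(5 / 6 : ℝ))) := by
        rw [hL, e1, e2, one_div]
        refine mul_le_mul_of_nonneg_right ?_ (by positivity)
        exact pow_le_pow_right₀ (by linarith) (by norm_num)
      calc K1 * K2 * L * G2 = K1 * K2 * G2 * L := by ring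
        _ ≤ (C3 + K1 * K2 * G2) * L := mul_le_mul_of_nonneg_right (by linarith) hL0
        _ ≤ (C3 + K1 * K2 * G2) * ((1 + Real.log (1 / ε)) ^ 9 *
            (ε⁻¹ * Real.exp (-(k / 3 : ℝ)) + ε ^ (-(5 / 6 : ℝ)))) :=
              mul_le_mul_of_nonneg_left e3 (by positivity)
        _ = _ := by ring
  · refine mul_le_mul_of_nonneg_right ?_ (Real.exp_pos _).le
    have : 0 ≤ K1 * K2 * G2 := by positivity
    linarith

end II
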